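import Pool.Agent.R57.KempeGen

/-!
Kempe changes in graphs of independence number at most two.
-/

set_option autoImplicit false

namespace Pool.Agent.R57.A2

open Pool.Agent.H411R2.WSK Pool.Agent.R57.KG

variable {V : Type*} {G : SimpleGraph V} {q : ℕ}

/-- three vertices are never pairwise non-adjacent -/
def Al (G : SimpleGraph V) : Prop :=
  ∀ x y z : V, x ≠ y → x ≠ z → y ≠ z → G.Adj x y ∨ G.Adj x z ∨ G.Adj y z

theorem class_le (hG : Al G) (c : G.Coloring (Fin q)) {x y z : V} (hxy : x ≠ y) (hxz : x ≠ z)
    (h1 : c x = c y) (h2 : c x = c z) : y = z := by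
  by_contra hyz
  rcases hG x y z hxy hxz hyz with h | h | h
  · exact c.valid h h1
  · exact c.valid h h2
  · exact c.valid h (h1.symm.trans h2)

/-- the pairs of vertices with a common colour both in `c` and in `c0` -/
noncomputable def com [Fintype V] (c0 c : G.Coloring (Fin q)) : Finset (V × V) :=
  open Classical in Finset.univ.filter (fun p => p.1 ≠ p.2 ∧ c0 p.1 = c0 p.2 ∧ c p.1 = c p.2)

theorem mem_com [Fintype V] {c0 c : G.Coloring (Fin q)} {p : V × V} :
    p ∈ com c0 c ↔ p.1 ≠ p.2 ∧ c0 p.1 = c0 p.2 ∧ c p.1 = c p.2 := by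
  simp [com]

/-- recolour `v` with the colour of `u`, which is the only vertex of its colour -/
theorem stepA [Fintype V] (hG : Al G) (c0 c : G.Coloring (Fin q)) {u v : V} (h0 : c0 u = c0 v)
    (hne : c u ≠ c v) (hu : ∀ w, c w = c u → w = u) :
    ∃ c' : G.Coloring (Fin q), Relation.ReflTransGen KempeStep c c' ∧
      (com c0 c).card < (com c0 c').card := by
  have huv : u ≠ v := fun h => hne (by rw [h])
  obtain ⟨c', h1, h2, h3⟩ := reach_single c v (c u) (by
    intro w hvw hw
    rw [hu w hw] at hvw
    exact c0.valid hvw h0.symm)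
  refine ⟨c', h1, Finset.card_lt_card ⟨?_, ?_⟩⟩
  · intro p hp
    obtain ⟨x, y⟩ := p
    rw [mem_com] at hp ⊢
    obtain ⟨hxy, hc0, hc⟩ := hp
    simp only at hxy hc0 hc
    refine ⟨hxy, hc0, ?_⟩
    simp only
    have key : ∀ z, z ≠ v → c0 z = c0 v → c z ≠ c v := by
      intro z hz hz0 hzc
      have : u = z := class_le hG c0 huv.symm (Ne.symm hz) h0.symm hz0.symm
      rw [← this] at hzc
      exact hne hzc
    by_cases hx : x = v
    · subst hx
      exact absurd hc.symm (key y (Ne.symm hxy) hc0.symm)
    · by_cases hy : y = v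
      · subst hy
        exact absurd hc (key x hx hc0)
      · rw [h3 x hx, h3 y hy, hc]
  · intro h
    have : (u, v) ∈ com c0 c := h (mem_com.2 ⟨huv, h0, by simp only; rw [h2, h3 u huv]⟩)
    exact hne (mem_com.1 this).2.2

/-- first move `u` to an unused colour -/
theorem stepB [Fintype V] (hG : Al G) (c0 c : G.Coloring (Fin q)) {u v : V} (h0 : c0 u = c0 v)
    (hne : c u ≠ c v) {a : Fin q} (ha : ∀ w, c w ≠ a) :
    ∃ c' : G.Coloring (Fin q), Relation.ReflTransGen KempeStep c c' ∧
      (com c0 c).card < (com c0 c').card := by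
  have huv : u ≠ v := fun h => hne (by rw [h])
  obtain ⟨c1, h1, h2, h3⟩ := reach_single c u a (fun w _ => ha w)
  have hv1 : c1 v = c v := h3 v huv.symm
  obtain ⟨c', h4, h5⟩ := stepA hG c0 c1 h0 (by rw [h2, hv1]; exact (ha v).symm) (by
    intro w hw
    by_contra hwu
    rw [h2, h3 w hwu] at hw
    exact ha w hw)
  refine ⟨c', h1.trans h4, lt_of_le_of_lt (Finset.card_le_card ?_) h5⟩
  intro p hp
  obtain ⟨x, y⟩ := p
  rw [mem_com] at hp ⊢
  obtain ⟨hxy, hc0, hc⟩ := hp
  simp only at hxy hc0 hc
  refine ⟨hxy, hc0, ?_⟩
  simp only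
  have key : ∀ z, z ≠ u → c0 z = c0 u → c z ≠ c u := by
    intro z hz hz0 hzc
    have : v = z := class_le hG c0 huv (Ne.symm hz) h0 hz0.symm
    rw [← this] at hzc
    exact hne hzc.symm
  by_cases hx : x = u
  · subst hx
    exact absurd hc.symm (key y (Ne.symm hxy) hc0.symm)
  · by_cases hy : y = u
    · subst hy
      exact absurd hc (key x hx hc0)
    · rw [h3 x hx, h3 y hy, hc]

/-- `1` if some other vertex has the same colour, and `2` otherwise -/
noncomputable def wt (c : G.Coloring (Fin q)) (v : V) : ℕ :=
  open Classical in if ∃ w, w ≠ v ∧ c w = c v then 1 else 2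

theorem sum_wt [Fintype V] (hG : Al G) (c : G.Coloring (Fin q)) :
    ∑ v, wt c v = 2 * (Finset.univ.image c).card := by
  classical
  rw [← Finset.sum_fiberwise_of_maps_to (s := Finset.univ) (t := Finset.univ.image c) (g := c)
    (fun v _ => Finset.mem_image_of_mem _ (Finset.mem_univ v))]
  rw [Finset.sum_const_nat (m := 2), mul_comm]
  intro i hi
  rw [Finset.mem_image] at hi
  obtain ⟨v, -, rfl⟩ := hi
  by_cases h : ∃ w, w ≠ v ∧ c w = c v
  · obtain ⟨w, hw, hc⟩ := h
    have : Finset.univ.filter (fun x => c x = c v) = {v, w} := by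
      ext x
      simp only [Finset.mem_filter, Finset.mem_univ, true_and, Finset.mem_insert,
        Finset.mem_singleton]
      constructor
      · intro hx
        by_cases hxv : x = v
        · exact Or.inl hxv
        · right
          exact class_le hG c (Ne.symm hxv) (Ne.symm hw) hx.symm hc.symm
      · rintro (rfl | rfl)
        · rfl
        · exact hc
    rw [this, Finset.sum_pair (Ne.symm hw)]
    have e1 : wt c v = 1 := if_pos ⟨w, hw, hc⟩
    have e2 : wt c w = 1 := if_pos ⟨v, Ne.symm hw, hc.symm⟩
    rw [e1, e2]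
  · have : Finset.univ.filter (fun x => c x = c v) = {v} := by
      ext x
      simp only [Finset.mem_filter, Finset.mem_univ, true_and, Finset.mem_singleton]
      constructor
      · intro hx
        by_contra hxv
        exact h ⟨x, hxv, hx⟩
      · rintro rfl; rfl
    rw [this, Finset.sum_singleton]
    exact if_neg h

theorem main_step [Fintype V] (hG : Al G) (c0 : G.Coloring (Fin q))
    (hc0 : (Finset.univ.image c0).card < q) :
    ∀ (N : ℕ) (c : G.Coloring (Fin q)), Fintype.card (V × V) - (com c0 c).card ≤ N →
      ∃ c1 : G.Coloring (Fin q), Relation.ReflTransGen KempeStep c c1 ∧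
        ∀ u v, c0 u = c0 v → c1 u = c1 v := by
  classical
  intro N
  induction N with
  | zero =>
    intro c h
    refine ⟨c, .refl, fun u v huv => ?_⟩
    by_contra hne
    have h1 : (com c0 c).card < Fintype.card (V × V) := by
      rw [← Finset.card_univ]
      apply Finset.card_lt_card
      refine ⟨Finset.subset_univ _, fun h2 => ?_⟩
      exact hne (mem_com.1 (h2 (Finset.mem_univ (u, v)))).2.2
    omega
  | succ N ih =>
    intro c h
    have hle : ∀ c' : G.Coloring (Fin q), (com c0 c').card ≤ Fintype.card (V × V) := by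
      intro c'
      rw [← Finset.card_univ]
      exact Finset.card_le_card (Finset.subset_univ _)
    have fin : ∀ c' : G.Coloring (Fin q), Relation.ReflTransGen KempeStep c c' →
        (com c0 c).card < (com c0 c').card →
        ∃ c1 : G.Coloring (Fin q), Relation.ReflTransGen KempeStep c c1 ∧
          ∀ u v, c0 u = c0 v → c1 u = c1 v := by
      intro c' hr hlt
      have := hle c'
      obtain ⟨c1, h1, h2⟩ := ih c' (by omega)
      exact ⟨c1, hr.trans h1, h2⟩
    by_cases hbad : ∃ u v, c0 u = c0 v ∧ c u ≠ c v
    · by_cases hA : ∃ u v, c0 u = c0 v ∧ c u ≠ c v ∧ ∀ w, c w = c u → w = u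
      · obtain ⟨u, v, h0, hne, hu⟩ := hA
        obtain ⟨c', h1, h2⟩ := stepA hG c0 c h0 hne hu
        exact fin c' h1 h2
      · by_cases hB : ∃ a : Fin q, ∀ w, c w ≠ a
        · obtain ⟨u, v, h0, hne⟩ := hbad
          obtain ⟨a, ha⟩ := hB
          obtain ⟨c', h1, h2⟩ := stepB hG c0 c h0 hne ha
          exact fin c' h1 h2
        · exfalso
          push Not at hA hB
          have him : Finset.univ.image c = Finset.univ := by
            apply Finset.eq_univ_of_forall
            intro a
            obtain ⟨w, hw⟩ := hB a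
            exact Finset.mem_image.2 ⟨w, Finset.mem_univ _, hw⟩
          have hw : ∀ v, wt c v ≤ wt c0 v := by
            intro v
            by_cases h2 : ∃ w, w ≠ v ∧ c0 w = c0 v
            · have e0 : wt c0 v = 1 := if_pos h2
              have e1 : wt c v = 1 := by
                apply if_pos
                obtain ⟨w, hwv, hw0⟩ := h2
                by_cases hcw : c w = c v
                · exact ⟨w, hwv, hcw⟩
                · obtain ⟨z, hz, hzv⟩ := hA v w hw0.symm (Ne.symm hcw)
                  exact ⟨z, hzv, hz⟩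
              rw [e0, e1]
            · have e0 : wt c0 v = 2 := if_neg h2
              rw [e0]
              unfold wt
              split_ifs <;> omega
          have hs := Finset.sum_le_sum (fun v (_ : v ∈ Finset.univ) => hw v)
          rw [sum_wt hG, sum_wt hG, him, Finset.card_univ, Fintype.card_fin] at hs
          omega
    · push Not at hbad
      exact ⟨c, .refl, hbad⟩

theorem main [Fintype V] (hG : Al G) (k : ℕ) (hk : G.Colorable k) (hkq : k < q)
    (c c' : G.Coloring (Fin q)) : Relation.ReflTransGen KempeStep c c' := by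
  classical
  -- a colouring with the least number of colours
  obtain ⟨c0, -, hmin⟩ := Finset.exists_min_image (Finset.univ : Finset (G.Coloring (Fin q)))
    (fun d => (Finset.univ.image d).card) ⟨c, Finset.mem_univ _⟩
  have hsmall : (Finset.univ.image c0).card ≤ k := by
    obtain ⟨d⟩ := hk
    let d' : G.Coloring (Fin q) := SimpleGraph.Coloring.mk (fun v => Fin.castLE hkq.le (d v))
      (fun h he => d.valid h (Fin.castLE_injective _ he))
    refine (hmin d' (Finset.mem_univ _)).trans ?_
    have : Finset.univ.image d' = (Finset.univ.image d).image (Fin.castLE hkq.le) := by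
      rw [Finset.image_image]; rfl
    rw [this]
    refine Finset.card_image_le.trans ((Finset.card_le_univ _).trans ?_)
    rw [Fintype.card_fin]
  have key : ∀ c : G.Coloring (Fin q), Relation.ReflTransGen KempeStep c c0 := by
    intro c
    obtain ⟨c1, h1, h2⟩ := main_step hG c0 (by omega) _ c le_rfl
    refine h1.trans ?_
    -- the classes of `c1` and `c0` agree
    have hinj : ∀ u v, c1 u = c1 v → c0 u = c0 v := by
      obtain ⟨g, hg⟩ : ∃ g : Fin q → Fin q, ∀ v, g (c0 v) = c1 v := by
        refine ⟨fun i => if h : ∃ v, c0 v = i then c1 h.choose else i, fun v => ?_⟩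
        have hex : ∃ w, c0 w = c0 v := ⟨v, rfl⟩
        simp only [hex, dif_pos]
        exact h2 _ _ hex.choose_spec
      have him : (Finset.univ.image c0).image g = Finset.univ.image c1 := by
        rw [Finset.image_image]
        apply Finset.image_congr
        intro v _
        exact hg v
      have hcard : ((Finset.univ.image c0).image g).card = (Finset.univ.image c0).card := by
        apply le_antisymm Finset.card_image_le
        rw [him]
        exact hmin c1 (Finset.mem_univ _)
      have hgi := Finset.injOn_of_card_image_eq hcard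
      intro u v huv
      apply hgi
      · simp
      · simp
      · rw [hg, hg, huv]
    -- a permutation of the colours
    have hex : ∃ σ : Equiv.Perm (Fin q), ∀ v, σ (c0 v) = c1 v := by
      let e : {i // ∃ v, c0 v = i} ≃ {i // ∃ v, c1 v = i} :=
        Equiv.ofBijective (fun i => ⟨c1 i.2.choose, ⟨_, rfl⟩⟩) (by
          constructor
          · intro i j hij
            have h3 : c1 i.2.choose = c1 j.2.choose := congrArg Subtype.val hij
            have h4 := hinj _ _ h3
            rw [i.2.choose_spec, j.2.choose_spec] at h4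
            exact Subtype.ext h4
          · rintro ⟨_, v, rfl⟩
            refine ⟨⟨c0 v, v, rfl⟩, ?_⟩
            apply Subtype.ext
            exact h2 _ _ (Exists.choose_spec (⟨v, rfl⟩ : ∃ w, c0 w = c0 v)))
      refine ⟨e.extendSubtype, fun v => ?_⟩
      rw [Equiv.extendSubtype_apply_of_mem e (c0 v) ⟨v, rfl⟩]
      exact h2 _ _ (Exists.choose_spec (⟨v, rfl⟩ : ∃ w, c0 w = c0 v))
    obtain ⟨σ, hσ⟩ := hex
    have : permCol σ c0 = c1 := by
      apply DFunLike.ext
      intro v
      exact hσ v
    rw [← this]
    exact reach_symm (reach_perm σ c0)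
  exact (key c).trans (reach_symm (key c'))

end Pool.Agent.R57.A2
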