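import Pool.Agent.R57.CircMix

/-!
# Adding a vertex of degree two does not destroy mixing when `k ≥ 4q`
-/

namespace Pool.Agent.R57.CircMix

open Relation

variable {V : Type}

/-- Extension of a map to the new vertex. -/
def ext (F : V → ℤ) (z : ℤ) : Option V → ℤ
  | some a => F a
  | none => z

theorem val_ext {H : SimpleGraph V} {u v : V} {k q : ℤ} (hq : 0 < q) {F : V → ℤ} {z : ℤ}
    (hF : Val H k q F) (h1 : ok k q z (F u)) (h2 : ok k q z (F v)) :
    Val (addVertex H u v) k q (ext F z) := by
  intro x y hxy
  match x, y, hxy with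
  | some a, some b, h => exact hF a b h
  | none, some b, h =>
    rcases h with rfl | rfl
    · exact h1
    · exact h2
  | some a, none, h =>
    rcases h with rfl | rfl
    · exact ok_symm hq h1
    · exact ok_symm hq h2

theorem val_of_ext {H : SimpleGraph V} {u v : V} {k q : ℤ} {F : V → ℤ} {z : ℤ}
    (h : Val (addVertex H u v) k q (ext F z)) :
    Val H k q F ∧ ok k q z (F u) ∧ ok k q z (F v) :=
  ⟨fun a b hab => h (some a) (some b) hab, h none (some u) (Or.inl rfl),
    h none (some v) (Or.inr rfl)⟩

theorem addVertex_comm (H : SimpleGraph V) (u v : V) : addVertex H u v = addVertex H v u := by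
  ext x y
  match x, y with
  | some a, some b => exact Iff.rfl
  | none, some b => exact or_comm
  | some a, none => exact or_comm
  | none, none => exact Iff.rfl

/-- Changing the value of the new vertex. -/
theorem reach_z {H : SimpleGraph V} {u v : V} {k q : ℤ} {F : V → ℤ} {z z' : ℤ}
    (h : Val (addVertex H u v) k q (ext F z)) (h' : Val (addVertex H u v) k q (ext F z')) :
    Reach (addVertex H u v) k q (ext F z) (ext F z') := by
  refine ReflTransGen.single ⟨h, h', none, ?_⟩
  intro x hx
  match x, hx with
  | some a, _ => rfl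

/-- Changing one old vertex, with the same value of the new vertex. -/
theorem reach_old {H : SimpleGraph V} {u v : V} {k q : ℤ} {F F' : V → ℤ} {z : ℤ} (t : V)
    (ht : ∀ a, a ≠ t → F a % k = F' a % k)
    (h : Val (addVertex H u v) k q (ext F z)) (h' : Val (addVertex H u v) k q (ext F' z)) :
    Reach (addVertex H u v) k q (ext F z) (ext F' z) := by
  refine ReflTransGen.single ⟨h, h', some t, ?_⟩
  intro x hx
  match x, hx with
  | some a, hx => exact ht a (fun e => hx (by rw [e]))
  | none, _ => rfl

theorem emod_shift {k q x y : ℤ} (m : ℤ) : ok k q (x + k * m) y ↔ ok k q x y :=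
  ok_congr (Int.add_mul_emod_self_left x k m) rfl

/-- The residue of `y - x`, with its properties. -/
theorem residue {k q x y : ℤ} (hk : 0 < k) (hq : 0 < q) (h : ok k q x y) :
    ∃ e, q ≤ e ∧ e ≤ k - q ∧ (x + e) % k = y % k := by
  have h' := ok_symm hq h
  refine ⟨(y - x) % k, h'.1, h'.2, ?_⟩
  rw [Int.add_emod, Int.emod_emod_of_dvd _ dvd_rfl, ← Int.add_emod]
  congr 1
  ring

variable [DecidableEq V]

/-- Forward moves of `u` along an arc not containing the colour of `v`. -/
theorem forward {H : SimpleGraph V} {u v : V} {k q : ℤ} (huv : H.Adj u v) (hq : 0 < q)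
    (hk : 4 * q ≤ k) {F F' : V → ℤ} (hF : Val H k q F) (hF' : Val H k q F')
    (hFF : ∀ a, a ≠ u → F a % k = F' a % k) {D E : ℤ} (hD : 0 ≤ D) (hDE : D + q ≤ E)
    (hE : E ≤ k - q) (hx' : F' u % k = (F u + D) % k) (hc : F v % k = (F u + E) % k)
    {z z' : ℤ} (hz : Val (addVertex H u v) k q (ext F z))
    (hz' : Val (addVertex H u v) k q (ext F' z')) :
    Reach (addVertex H u v) k q (ext F z) (ext F' z') := by
  have hvu : v ≠ u := fun e => H.irrefl (e ▸ huv)
  set x := F u with hx
  by_cases hD2 : 2 * q ≤ D
  · -- one jump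
    have a1 : ok k q (x + q) x := ok_of hq (by omega) (by omega)
    have a2 : ok k q (x + q) (x + D) := ok_symm hq (ok_of hq (by omega) (by omega))
    have a3 : ok k q (x + q) (x + E) := ok_symm hq (ok_of hq (by omega) (by omega))
    have b1 : Val (addVertex H u v) k q (ext F (x + q)) :=
      val_ext hq hF a1 ((ok_congr rfl hc).mpr a3)
    have b2 : Val (addVertex H u v) k q (ext F' (x + q)) := by
      refine val_ext hq hF' ((ok_congr rfl hx').mpr a2) ?_
      exact (ok_congr rfl ((hFF v hvu).symm.trans hc)).mpr a3
    exact (reach_z hz b1).trans ((reach_old u hFF b1 b2).trans (reach_z b2 hz'))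
  · -- unit steps
    push Not at hD2
    let G : ℤ → V → ℤ := fun t => Function.update F u (x + t)
    have hGu : ∀ t, G t u = x + t := fun t => by simp [G]
    have hGa : ∀ t a, a ≠ u → G t a = F a := fun t a ha => by simp [G, ha]
    -- the neighbours of `u`
    have key : ∀ y, H.Adj u y → ∀ t, 0 ≤ t → t ≤ D → ok k q (x + t) (F y) := by
      intro y hy t ht0 htD
      have hyu : y ≠ u := fun e => H.irrefl (e ▸ hy)
      obtain ⟨e, e1, e2, e3⟩ := residue (by omega) hq (hF u y hy)
      have h2 : ok k q (x + D) (x + e) := by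
        have := hF' u y hy
        rw [ok_congr hx' ((hFF y hyu).symm.trans e3.symm)] at this
        exact this
      have h3 : D + q ≤ e := by
        rcases le_or_gt D e with h | h
        · have h4 := (ok_iff (by omega) (by omega)).mp (ok_symm hq h2)
          omega
        · have h4 := (ok_iff (by omega) (by omega)).mp h2
          omega
      refine (ok_congr rfl e3).mp ?_
      exact ok_symm hq (ok_of hq (by omega) (by omega))
    have hval : ∀ t, 0 ≤ t → t ≤ D → Val H k q (G t) := by
      intro t ht0 htD a b hab
      by_cases ha : a = u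
      · subst ha
        have hb : b ≠ a := fun e => H.irrefl (e ▸ hab)
        rw [hGu, hGa t b hb]
        exact key b hab t ht0 htD
      · by_cases hb : b = u
        · subst hb
          rw [hGu, hGa t a ha]
          exact ok_symm hq (key a hab.symm t ht0 htD)
        · rw [hGa t a ha, hGa t b hb]
          exact hF a b hab
    -- the induction
    have hind : ∀ n : ℕ, (n : ℤ) ≤ D → ∃ z1, Val (addVertex H u v) k q (ext (G n) z1) ∧
        Reach (addVertex H u v) k q (ext F z) (ext (G n) z1) := by
      intro n
      induction n with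
      | zero =>
        intro _
        refine ⟨z, ?_, ?_⟩
        · have : G (0 : ℕ) = F := by simp [G, hx]
          rw [this]; exact hz
        · have : G (0 : ℕ) = F := by simp [G, hx]
          rw [this]
          exact ReflTransGen.refl
      | succ n ih =>
        intro hn
        push_cast at hn
        obtain ⟨z1, h1, h2⟩ := ih (by omega)
        -- a common value
        obtain ⟨z2, c1, c2, c3⟩ : ∃ z2, ok k q z2 (x + n) ∧ ok k q z2 (x + (n + 1)) ∧
            ok k q z2 (x + E) := by
          by_cases hg : 2 * q ≤ E - n - 1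
          · exact ⟨x + E - q, ok_of hq (by omega) (by omega), ok_of hq (by omega) (by omega),
              ok_symm hq (ok_of hq (by omega) (by omega))⟩
          · exact ⟨x + E + q, ok_of hq (by omega) (by omega), ok_of hq (by omega) (by omega),
              ok_of hq (by omega) (by omega)⟩
        have d1 : Val (addVertex H u v) k q (ext (G n) z2) := by
          refine val_ext hq (hval n (by omega) (by omega)) ?_ ?_
          · rw [hGu]; exact c1
          · rw [hGa _ v hvu]; exact (ok_congr rfl hc).mpr c3
        have d2 : Val (addVertex H u v) k q (ext (G (n + 1 : ℕ)) z2) := by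
          refine val_ext hq (hval _ (by positivity) (by push_cast; omega)) ?_ ?_
          · rw [hGu]; push_cast; exact c2
          · rw [hGa _ v hvu]; exact (ok_congr rfl hc).mpr c3
        refine ⟨z2, d2, h2.trans ((reach_z h1 d1).trans (reach_old u ?_ d1 d2))⟩
        intro a ha
        rw [hGa _ a ha, hGa _ a ha]
    obtain ⟨z1, h1, h2⟩ := hind D.toNat (by omega)
    rw [Int.toNat_of_nonneg hD] at h1 h2
    have hcong : ∀ a, G D a % k = F' a % k := by
      intro a
      by_cases ha : a = u
      · subst ha; rw [hGu, hx']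
      · rw [hGa _ a ha, hFF a ha]
    have h3 : Val (addVertex H u v) k q (ext F' z1) := by
      refine h1.congr ?_
      intro o
      match o with
      | some a => exact hcong a
      | none => rfl
    have h4 : Reach (addVertex H u v) k q (ext (G D) z1) (ext F' z1) :=
      reach_old u (fun a _ => hcong a) h1 h3
    exact h2.trans (h4.trans (reach_z h3 hz'))

/-- A move of `u`. -/
theorem move_u {H : SimpleGraph V} {u v : V} {k q : ℤ} (huv : H.Adj u v) (hq : 0 < q)
    (hk : 4 * q ≤ k) {F F' : V → ℤ} (hF : Val H k q F) (hF' : Val H k q F')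
    (hFF : ∀ a, a ≠ u → F a % k = F' a % k) 
    {z z' : ℤ} (hz : Val (addVertex H u v) k q (ext F z))
    (hz' : Val (addVertex H u v) k q (ext F' z')) :
    Reach (addVertex H u v) k q (ext F z) (ext F' z') := by
  have hvu : v ≠ u := fun e => H.irrefl (e ▸ huv)
  obtain ⟨E, e1, e2, e3⟩ := residue (by omega) hq (hF u v huv)
  obtain ⟨E', e1', e2', e3'⟩ := residue (by omega) hq (hF' u v huv)
  have hD0 : 0 ≤ (F' u - F u) % k := Int.emod_nonneg _ (by omega)
  have hDk : (F' u - F u) % k < k := Int.emod_lt_of_pos _ (by omega)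
  have hD1 : F' u % k = (F u + (F' u - F u) % k) % k := by
    rw [Int.add_emod, Int.emod_emod_of_dvd _ dvd_rfl, ← Int.add_emod]
    congr 1
    ring
  set D := (F' u - F u) % k with hD
  have hok : ok k q (F u + D) (F u + E) := by
    have h1 := hF' u v huv
    rwa [ok_congr hD1 ((hFF v hvu).symm.trans e3.symm)] at h1
  rcases le_or_gt D E with h | h
  · have h4 := (ok_iff (by omega) (by omega)).mp (ok_symm hq hok)
    exact forward huv hq hk hF hF' hFF hD0 (by omega) e2 hD1 e3.symm hz hz'
  · have h4 := (ok_iff (by omega) (by omega)).mp hok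
    -- reversed
    have hx : F u % k = (F' u + (k - D)) % k := by
      rw [Int.add_emod, hD1, ← Int.add_emod]
      have : F u + D + (k - D) = F u + k * 1 := by ring
      rw [this, Int.add_mul_emod_self_left]
    have hc : F' v % k = (F' u + (k - D + E)) % k := by
      rw [← hFF v hvu, ← e3, Int.add_emod (F' u), hD1, ← Int.add_emod]
      have : F u + D + (k - D + E) = F u + E + k * 1 := by ring
      rw [this, Int.add_mul_emod_self_left]
    exact (forward huv hq hk hF' hF (fun a ha => (hFF a ha).symm) (D := k - D) (E := k - D + E)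
      (by omega) (by omega) (by omega) hx hc hz' hz).symm

theorem move_any {H : SimpleGraph V} {u v : V} {k q : ℤ} (huv : H.Adj u v) (hq : 0 < q)
    (hk : 4 * q ≤ k) {F F' : V → ℤ} (h : Mv H k q F F')
    {z z' : ℤ} (hz : Val (addVertex H u v) k q (ext F z))
    (hz' : Val (addVertex H u v) k q (ext F' z')) :
    Reach (addVertex H u v) k q (ext F z) (ext F' z') := by
  obtain ⟨hF, hF', t, ht⟩ := h
  by_cases h1 : t = u
  · subst h1
    exact move_u huv hq hk hF hF' ht hz hz'
  · by_cases h2 : t = v
    · subst h2
      rw [addVertex_comm] at hz hz' ⊢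
      exact move_u huv.symm hq hk hF hF' ht hz hz'
    · have hz1 := val_of_ext hz
      have h3 : Val (addVertex H u v) k q (ext F' z) := by
        refine val_ext hq hF' ?_ ?_
        · exact (ok_congr rfl (ht u (Ne.symm h1))).mp hz1.2.1
        · exact (ok_congr rfl (ht v (Ne.symm h2))).mp hz1.2.2
      exact (reach_old t ht hz h3).trans (reach_z h3 hz')

theorem exists_z {H : SimpleGraph V} {u v : V} {k q : ℤ} (huv : H.Adj u v) (hq : 0 < q)
    (hk : 4 * q ≤ k) {F : V → ℤ} (hF : Val H k q F) :
    ∃ z, Val (addVertex H u v) k q (ext F z) := by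
  obtain ⟨E, e1, e2, e3⟩ := residue (by omega) hq (hF u v huv)
  by_cases h : 2 * q ≤ E
  · refine ⟨F u + q, val_ext hq hF (ok_of hq (by omega) (by omega)) ?_⟩
    exact (ok_congr rfl e3).mp (ok_symm hq (ok_of hq (by omega) (by omega)))
  · refine ⟨F u + E + q, val_ext hq hF (ok_of hq (by omega) (by omega)) ?_⟩
    exact (ok_congr rfl e3).mp (ok_of hq (by omega) (by omega))

/-- Reachability lifts to the graph with an extra vertex of degree two. -/
theorem reach_add {H : SimpleGraph V} {u v : V} {k q : ℤ} (huv : H.Adj u v) (hq : 0 < q)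
    (hk : 4 * q ≤ k) {F C : V → ℤ} (hF : Val H k q F) (h : Reach H k q F C)
    {z zc : ℤ} (hz : Val (addVertex H u v) k q (ext F z))
    (hzc : Val (addVertex H u v) k q (ext C zc)) :
    Reach (addVertex H u v) k q (ext F z) (ext C zc) := by
  have key : ∀ F1, Reach H k q F F1 → ∃ z1, Val (addVertex H u v) k q (ext F1 z1) ∧
      Reach (addVertex H u v) k q (ext F z) (ext F1 z1) := by
    intro F1 h1
    unfold Reach at h1
    induction h1 with
    | refl => exact ⟨z, hz, ReflTransGen.refl⟩
    | tail _ h2 ih =>
      obtain ⟨z1, a1, a2⟩ := ih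
      obtain ⟨z2, a3⟩ := exists_z huv hq hk h2.2.1
      exact ⟨z2, a3, a2.trans (move_any huv hq hk h2 a1 a3)⟩
  obtain ⟨z1, a1, a2⟩ := key C h
  exact a2.trans (reach_z a1 hzc)

end Pool.Agent.R57.CircMix
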