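import Pool.Agent.R57.CircAdd

/-!
# The cube is `(k,q)`-mixing for all `k > 4q`
-/

namespace Pool.Agent.R57.CircMix

open Relation

/-- The cube graph, drawn as `K_{4,4}` minus a perfect matching. -/
def cube : SimpleGraph (Bool × Fin 4) where
  Adj x y := x.1 ≠ y.1 ∧ x.2 ≠ y.2
  symm := ⟨fun _ _ h => ⟨h.1.symm, h.2.symm⟩⟩
  loopless := ⟨fun _ h => h.1 rfl⟩

/-- A map on the vertices of the cube from its restrictions to the two sides. -/
def mk (a b : Fin 4 → ℤ) : Bool × Fin 4 → ℤ := fun x => bif x.1 then b x.2 else a x.2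

theorem val_mk {k q : ℤ} (hq : 0 < q) {a b : Fin 4 → ℤ}
    (h : ∀ i j, i ≠ j → ok k q (a i) (b j)) : Val cube k q (mk a b) := by
  rintro ⟨s, i⟩ ⟨t, j⟩ ⟨h1, h2⟩
  cases s <;> cases t
  · exact absurd rfl h1
  · exact h i j h2
  · exact ok_symm hq (h j i (Ne.symm h2))
  · exact absurd rfl h1

theorem ok_of_val {k q : ℤ} {a b : Fin 4 → ℤ} (h : Val cube k q (mk a b)) {i j : Fin 4}
    (hij : i ≠ j) : ok k q (a i) (b j) :=
  h (false, i) (true, j) ⟨by simp, hij⟩

/-- Move all vertices of the second side to `y`. -/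
theorem all_b {k q : ℤ} (hq : 0 < q) {a b : Fin 4 → ℤ} (h : Val cube k q (mk a b)) {y : ℤ}
    (hy : ∀ i, ok k q (a i) y) : Reach cube k q (mk a b) (mk a (fun _ => y)) := by
  have key : ∀ n : ℕ, Reach cube k q (mk a b) (mk a (fun j => if j.val < n then y else b j)) := by
    intro n
    induction n with
    | zero =>
      have e0 : (fun j : Fin 4 => if j.val < 0 then y else b j) = b := by
        funext j
        rw [if_neg (by omega)]
      rw [e0]
      exact ReflTransGen.refl
    | succ n ih =>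
      have hv : ∀ m : ℕ, Val cube k q (mk a (fun j => if j.val < m then y else b j)) := by
        intro m
        apply val_mk hq
        intro i j hij
        by_cases hj : j.val < m
        · rw [if_pos hj]; exact hy i
        · rw [if_neg hj]; exact ok_of_val h hij
      refine ih.trans ?_
      by_cases hn : n < 4
      · refine ReflTransGen.single ⟨hv n, hv (n + 1), (true, ⟨n, hn⟩), ?_⟩
        rintro ⟨s, j⟩ hj
        cases s
        · rfl
        · have hjn : j.val ≠ n := by
            intro e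
            apply hj
            rw [Prod.mk.injEq]
            exact ⟨rfl, Fin.ext e⟩
          simp only [mk, cond_true]
          by_cases h1 : j.val < n
          · rw [if_pos h1, if_pos (by omega)]
          · rw [if_neg h1, if_neg (by omega)]
      · have : (fun j : Fin 4 => if j.val < n then y else b j)
            = fun j => if j.val < n + 1 then y else b j := by
          funext j
          have := j.isLt
          rw [if_pos (by omega), if_pos (by omega)]
        rw [this]
  have := key 4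
  have e : (fun j : Fin 4 => if j.val < 4 then y else b j) = fun _ => y := by
    funext j
    rw [if_pos j.isLt]
  rwa [e] at this

/-- Swap the two sides. -/
theorem reach_swap {k q : ℤ} {a b a' b' : Fin 4 → ℤ}
    (h : Reach cube k q (mk a b) (mk a' b')) : Reach cube k q (mk b a) (mk b' a') := by
  have key : ∀ F F' : Bool × Fin 4 → ℤ, Reach cube k q F F' →
      Reach cube k q (fun x => F (!x.1, x.2)) (fun x => F' (!x.1, x.2)) := by
    intro F F' hFF
    unfold Reach at hFF
    induction hFF with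
    | refl => exact ReflTransGen.refl
    | tail _ h2 ih =>
      refine ih.tail ?_
      obtain ⟨h1, h2, v, h3⟩ := h2
      refine ⟨?_, ?_, (!v.1, v.2), ?_⟩
      · intro x y hxy
        exact h1 _ _ ⟨by simpa using hxy.1, hxy.2⟩
      · intro x y hxy
        exact h2 _ _ ⟨by simpa using hxy.1, hxy.2⟩
      · intro x hx
        apply h3
        intro e
        apply hx
        rw [← e]
        simp
  have := key _ _ h
  have e1 : ∀ c d : Fin 4 → ℤ, (fun x : Bool × Fin 4 => mk c d (!x.1, x.2)) = mk d c := by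
    intro c d
    funext x
    rcases x with ⟨s, i⟩
    cases s <;> rfl
  rwa [e1, e1] at this

theorem val_swap {k q : ℤ} (hq : 0 < q) {a b : Fin 4 → ℤ} (h : Val cube k q (mk a b)) :
    Val cube k q (mk b a) :=
  val_mk hq fun _ _ hij => ok_symm hq (ok_of_val h (Ne.symm hij))

/-- Move all vertices of the first side to `x`. -/
theorem all_a {k q : ℤ} (hq : 0 < q) {a b : Fin 4 → ℤ} (h : Val cube k q (mk a b)) {x : ℤ}
    (hx : ∀ j, ok k q x (b j)) : Reach cube k q (mk a b) (mk (fun _ => x) b) :=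
  reach_swap (all_b hq (val_swap hq h) fun j => ok_symm hq (hx j))

/-- The constant states. -/
def cst (x y : ℤ) : Bool × Fin 4 → ℤ := mk (fun _ => x) (fun _ => y)

theorem val_cst {k q : ℤ} (hq : 0 < q) {x y : ℤ} (h : ok k q x y) : Val cube k q (cst x y) :=
  val_mk hq fun _ _ _ => h

theorem cst_a {k q : ℤ} (hq : 0 < q) {x x' y : ℤ} (h : ok k q x y) (h' : ok k q x' y) :
    Reach cube k q (cst x y) (cst x' y) :=
  all_a hq (val_cst hq h) fun _ => h'

theorem cst_b {k q : ℤ} (hq : 0 < q) {x y y' : ℤ} (h : ok k q x y) (h' : ok k q x y') :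
    Reach cube k q (cst x y) (cst x y') :=
  all_b hq (val_cst hq h) fun _ => h'

theorem rot_one {k q : ℤ} (hq : 0 < q) (hk : 2 * q < k) (x : ℤ) :
    Reach cube k q (cst x (x + q)) (cst (x + 1) (x + 1 + q)) := by
  have h1 : ok k q x (x + q) := ok_symm hq (ok_of hq (by omega) (by omega))
  have h2 : ok k q x (x + 1 + q) := ok_symm hq (ok_of hq (by omega) (by omega))
  have h3 : ok k q (x + 1) (x + 1 + q) := ok_symm hq (ok_of hq (by omega) (by omega))
  exact (cst_b hq h1 h2).trans (cst_a hq h2 h3)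

theorem rot_nat {k q : ℤ} (hq : 0 < q) (hk : 2 * q < k) (x : ℤ) (n : ℕ) :
    Reach cube k q (cst x (x + q)) (cst (x + n) (x + n + q)) := by
  induction n with
  | zero =>
    simp only [Nat.cast_zero, add_zero]
    exact ReflTransGen.refl
  | succ n ih =>
    refine ih.trans ?_
    have := rot_one hq hk (x + n)
    push_cast
    rw [← add_assoc]
    exact this

theorem rot_all {k q : ℤ} (hq : 0 < q) (hk : 2 * q < k) (x : ℤ) :
    Reach cube k q (cst x (x + q)) (cst 0 q) := by
  rcases le_total 0 x with h | h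
  · have := rot_nat hq hk 0 x.toNat
    rw [Int.toNat_of_nonneg h] at this
    simp only [zero_add] at this
    exact this.symm
  · have := rot_nat hq hk x (-x).toNat
    rw [Int.toNat_of_nonneg (by omega)] at this
    simpa using this

/-- From a constant pair to the canonical one. -/
theorem cst_canon {k q : ℤ} (hq : 0 < q) (hk : 2 * q < k) {x y : ℤ} (h : ok k q x y) :
    Reach cube k q (cst x y) (cst 0 q) :=
  (cst_b hq h (ok_symm hq (ok_of hq (by omega) (by omega)) : ok k q x (x + q))).trans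
    (rot_all hq hk x)

/-- A state with a common free value for the second side. -/
theorem canon_b {k q : ℤ} (hq : 0 < q) (hk : 2 * q < k) {a b : Fin 4 → ℤ}
    (h : Val cube k q (mk a b)) {y : ℤ} (hy : ∀ i, ok k q (a i) y) :
    Reach cube k q (mk a b) (cst 0 q) := by
  have h1 := all_b hq h hy
  have h2 : Val cube k q (mk a (fun _ => y)) := val_mk hq fun i _ _ => hy i
  have h3 := all_a hq h2 (x := a 0) (fun _ => hy 0)
  exact (h1.trans h3).trans (cst_canon hq hk (hy 0))

/-- The tightly interleaved states. -/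
structure P (k q a0 a1 a2 a3 b0 b1 b2 b3 : ℤ) : Prop where
  a01 : a0 ≤ a1
  a12 : a1 ≤ a2
  a23 : a2 ≤ a3
  a30 : a3 ≤ a0 + k
  b1l : a0 + q ≤ b1
  b1u : b1 ≤ a2 - q
  b2l : a1 + q ≤ b2
  b2u : b2 ≤ a3 - q
  b3l : a2 + q ≤ b3
  b3u : b3 ≤ a0 + k - q
  b0l : a3 + q ≤ b0
  b0u : b0 ≤ a1 + k - q

theorem val_P {k q a0 a1 a2 a3 b0 b1 b2 b3 : ℤ} (hq : 0 < q)
    (h : P k q a0 a1 a2 a3 b0 b1 b2 b3) : 
    Val cube k q (mk ![a0, a1, a2, a3] ![b0, b1, b2, b3]) := by
  obtain ⟨h1, h2, h3, h4, h5, h6, h7, h8, h9, h10, h11, h12⟩ := h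
  apply val_mk hq
  intro i j hij
  fin_cases i <;> fin_cases j <;> simp at hij ⊢ <;>
    first
    | exact ok_of hq (by omega) (by omega)
    | exact ok_symm hq (ok_of hq (by omega) (by omega))

theorem P_reach {k q : ℤ} (hq : 0 < q) (hk : 4 * q < k) (n : ℕ) :
    ∀ a0 a1 a2 a3 b0 b1 b2 b3 : ℤ, P k q a0 a1 a2 a3 b0 b1 b2 b3 →
      (a1 - a0) + (a3 - b1) + (a3 - a2) + (a1 + k - b3) ≤ n →
      Reach cube k q (mk ![a0, a1, a2, a3] ![b0, b1, b2, b3]) (cst 0 q) := by
  induction n with
  | zero =>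
    intro a0 a1 a2 a3 b0 b1 b2 b3 h hn
    obtain ⟨h1, h2, h3, h4, h5, h6, h7, h8, h9, h10, h11, h12⟩ := h
    push_cast at hn
    omega
  | succ n ih =>
    intro a0 a1 a2 a3 b0 b1 b2 b3 h hn
    push_cast at hn
    have hv := val_P hq h
    obtain ⟨h1, h2, h3, h4, h5, h6, h7, h8, h9, h10, h11, h12⟩ := h
    by_cases e1 : a0 = a1
    · refine canon_b hq (by omega) hv (y := b0) ?_
      intro i
      fin_cases i <;> simp <;> exact ok_symm hq (ok_of hq (by omega) (by omega))
    by_cases e2 : a2 = a3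
    · refine canon_b hq (by omega) hv (y := b2) ?_
      intro i
      fin_cases i <;> simp
      · exact ok_symm hq (ok_of hq (by omega) (by omega))
      · exact ok_symm hq (ok_of hq (by omega) (by omega))
      · exact ok_of hq (by omega) (by omega)
      · exact ok_of hq (by omega) (by omega)
    have hor : q + 1 ≤ b1 - a0 ∨ q + 1 ≤ a2 - b1 ∨ q + 1 ≤ b3 - a2 ∨ q + 1 ≤ a0 + k - b3 := by
      omega
    rcases hor with h0 | h0 | h0 | h0
    · have hp : P k q (a0 + 1) a1 a2 a3 b0 b1 b2 b3 := by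
        constructor <;> omega
      refine ReflTransGen.head ⟨hv, val_P hq hp, (false, 0), ?_⟩ (ih _ _ _ _ _ _ _ _ hp (by omega))
      rintro ⟨s, i⟩ hx
      cases s
      · fin_cases i
        · exact absurd rfl hx
        all_goals rfl
      · rfl
    · have hp : P k q a0 a1 a2 a3 b0 (b1 + 1) b2 b3 := by
        constructor <;> omega
      refine ReflTransGen.head ⟨hv, val_P hq hp, (true, 1), ?_⟩ (ih _ _ _ _ _ _ _ _ hp (by omega))
      rintro ⟨s, i⟩ hx
      cases s
      · rfl
      · fin_cases i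
        · rfl
        · exact absurd rfl hx
        all_goals rfl
    · have hp : P k q a0 a1 (a2 + 1) a3 b0 b1 b2 b3 := by
        constructor <;> omega
      refine ReflTransGen.head ⟨hv, val_P hq hp, (false, 2), ?_⟩ (ih _ _ _ _ _ _ _ _ hp (by omega))
      rintro ⟨s, i⟩ hx
      cases s
      · fin_cases i
        · rfl
        · rfl
        · exact absurd rfl hx
        · rfl
      · rfl
    · have hp : P k q a0 a1 a2 a3 b0 b1 b2 (b3 + 1) := by
        constructor <;> omega
      refine ReflTransGen.head ⟨hv, val_P hq hp, (true, 3), ?_⟩ (ih _ _ _ _ _ _ _ _ hp (by omega))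
      rintro ⟨s, i⟩ hx
      cases s
      · rfl
      · fin_cases i
        · rfl
        · rfl
        · rfl
        · exact absurd rfl hx

/-- The case of a large gap. -/
theorem gap_reach {k q : ℤ} (hq : 0 < q) (hk : 4 * q < k) {a0 a1 a2 a3 : ℤ} {b : Fin 4 → ℤ}
    (h : Val cube k q (mk ![a0, a1, a2, a3] b)) (h01 : a0 ≤ a1) (h12 : a1 ≤ a2) (h23 : a2 ≤ a3)
    (h30 : a3 ≤ a0 + k)
    (hg : 2 * q ≤ a1 - a0 ∨ 2 * q ≤ a2 - a1 ∨ 2 * q ≤ a3 - a2 ∨ 2 * q ≤ a0 + k - a3) :
    Reach cube k q (mk ![a0, a1, a2, a3] b) (cst 0 q) := by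
  rcases hg with hg | hg | hg | hg
  · refine canon_b hq (by omega) h (y := a0 + q) ?_
    intro i
    fin_cases i <;> simp
    · exact ok_symm hq (ok_of hq (by omega) (by omega))
    · exact ok_of hq (by omega) (by omega)
    · exact ok_of hq (by omega) (by omega)
    · exact ok_of hq (by omega) (by omega)
  · refine canon_b hq (by omega) h (y := a1 + q) ?_
    intro i
    fin_cases i <;> simp
    · exact ok_symm hq (ok_of hq (by omega) (by omega))
    · exact ok_symm hq (ok_of hq (by omega) (by omega))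
    · exact ok_of hq (by omega) (by omega)
    · exact ok_of hq (by omega) (by omega)
  · refine canon_b hq (by omega) h (y := a2 + q) ?_
    intro i
    fin_cases i <;> simp
    · exact ok_symm hq (ok_of hq (by omega) (by omega))
    · exact ok_symm hq (ok_of hq (by omega) (by omega))
    · exact ok_symm hq (ok_of hq (by omega) (by omega))
    · exact ok_of hq (by omega) (by omega)
  · refine canon_b hq (by omega) h (y := a3 + q) ?_
    intro i
    fin_cases i <;> simp
    · exact ok_symm hq (ok_of hq (by omega) (by omega))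
    · exact ok_symm hq (ok_of hq (by omega) (by omega))
    · exact ok_symm hq (ok_of hq (by omega) (by omega))
    · exact ok_symm hq (ok_of hq (by omega) (by omega))

/-- If `x`, `y` are integers with `ok k q x y`, and `x ≤ y ≤ x + k`, then `x + q ≤ y ≤ x + k - q`. -/
theorem ok_up {k q x y : ℤ} (hq : 0 < q) (h : ok k q x y) (h1 : x ≤ y) (h2 : y ≤ x + k) :
    x + q ≤ y ∧ y ≤ x + k - q := by
  rcases eq_or_lt_of_le h2 with h0 | h0
  · have h3 : x % k = y % k := by
      rw [h0]
      simp
    have h4 := (ok_congr (k := k) (q := q) h3 (rfl : y % k = y % k)).mp h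
    unfold ok at h4
    simp at h4
    omega
  · have h3 := (ok_iff (by omega) (by omega)).mp (ok_symm hq h)
    omega

theorem ok_shift {k q x y : ℤ} (h : ok k q x y) : ok k q (x + k) y :=
  (ok_congr (by simp) rfl).mp h

theorem lift3 {k q : ℤ} (hq : 0 < q) {c1 c2 c3 y : ℤ} (h12 : c1 ≤ c2)
    (h23 : c2 ≤ c3) (h31 : c3 ≤ c1 + k) (o1 : ok k q c1 y) (o2 : ok k q c2 y) (o3 : ok k q c3 y) :
    (2 * q ≤ c3 - c2 ∨ 2 * q ≤ c1 + k - c3) ∨
      ∃ y', y' % k = y % k ∧ c1 + q ≤ y' ∧ y' ≤ c2 - q := by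
  obtain ⟨e, e1, e2, e3⟩ := residue (by unfold ok at o1; omega) hq o1
  have p2 : ok k q c2 (c1 + e) := (ok_congr rfl e3).mpr o2
  have p3 : ok k q c3 (c1 + e) := (ok_congr rfl e3).mpr o3
  rcases le_or_gt (c1 + e) c2 with h | h
  · have := ok_up hq (ok_symm hq p2) h (by omega)
    exact Or.inr ⟨c1 + e, e3, by omega, by omega⟩
  · have h4 := ok_up hq p2 (by omega) (by omega)
    rcases le_or_gt (c1 + e) c3 with h5 | h5
    · have h6 := ok_up hq (ok_symm hq p3) h5 (by omega)
      left; left; omega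
    · have h6 := ok_up hq p3 (by omega) (by omega)
      left; right; omega

/-- The case of a sorted first side. -/
theorem sorted_reach {k q : ℤ} (hq : 0 < q) (hk : 4 * q < k) {a0 a1 a2 a3 : ℤ} {b : Fin 4 → ℤ}
    (h : Val cube k q (mk ![a0, a1, a2, a3] b)) (h01 : a0 ≤ a1) (h12 : a1 ≤ a2) (h23 : a2 ≤ a3)
    (h30 : a3 ≤ a0 + k) :
    Reach cube k q (mk ![a0, a1, a2, a3] b) (cst 0 q) := by
  have o01 : ok k q a0 (b 1) := ok_of_val h (i := 0) (j := 1) (by decide)
  have o02 : ok k q a0 (b 2) := ok_of_val h (i := 0) (j := 2) (by decide)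
  have o03 : ok k q a0 (b 3) := ok_of_val h (i := 0) (j := 3) (by decide)
  have o10 : ok k q a1 (b 0) := ok_of_val h (i := 1) (j := 0) (by decide)
  have o12 : ok k q a1 (b 2) := ok_of_val h (i := 1) (j := 2) (by decide)
  have o13 : ok k q a1 (b 3) := ok_of_val h (i := 1) (j := 3) (by decide)
  have o20 : ok k q a2 (b 0) := ok_of_val h (i := 2) (j := 0) (by decide)
  have o21 : ok k q a2 (b 1) := ok_of_val h (i := 2) (j := 1) (by decide)
  have o23 : ok k q a2 (b 3) := ok_of_val h (i := 2) (j := 3) (by decide)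
  have o30 : ok k q a3 (b 0) := ok_of_val h (i := 3) (j := 0) (by decide)
  have o31 : ok k q a3 (b 1) := ok_of_val h (i := 3) (j := 1) (by decide)
  have o32 : ok k q a3 (b 2) := ok_of_val h (i := 3) (j := 2) (by decide)
  rcases lift3 hq (by omega) h23 h30 o01 o21 o31 with hg | ⟨y1, c1, l1, u1⟩
  · exact gap_reach hq hk h h01 h12 h23 h30 (by omega)
  rcases lift3 hq (by omega) h30 (by omega) o12 o32 (ok_shift o02) with hg | ⟨y2, c2, l2, u2⟩
  · exact gap_reach hq hk h h01 h12 h23 h30 (by omega)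
  rcases lift3 hq (by omega) (by omega) (by omega) o23 (ok_shift o03) (ok_shift o13) with
    hg | ⟨y3, c3, l3, u3⟩
  · exact gap_reach hq hk h h01 h12 h23 h30 (by omega)
  rcases lift3 hq (by omega) (by omega) (by omega) o30 (ok_shift o10) (ok_shift o20) with
    hg | ⟨y0, c0, l0, u0⟩
  · exact gap_reach hq hk h h01 h12 h23 h30 (by omega)
  have hp : P k q a0 a1 a2 a3 y0 y1 y2 y3 := by
    constructor <;> omega
  refine (reach_congr h ?_).trans (P_reach hq hk _ _ _ _ _ _ _ _ _ hp (Int.self_le_toNat _))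
  rintro ⟨s, i⟩
  cases s
  · rfl
  · fin_cases i
    · exact c0.symm
    · exact c1.symm
    · exact c2.symm
    · exact c3.symm

/-- Permuting the indices. -/
theorem reach_perm {k q : ℤ} (σ : Equiv.Perm (Fin 4)) {F C : Bool × Fin 4 → ℤ}
    (h : Reach cube k q F C) :
    Reach cube k q (fun x => F (x.1, σ x.2)) (fun x => C (x.1, σ x.2)) := by
  unfold Reach at h
  induction h with
  | refl => exact ReflTransGen.refl
  | tail _ h2 ih =>
    refine ih.tail ?_
    obtain ⟨h1, h2, v, h3⟩ := h2
    refine ⟨?_, ?_, (v.1, σ.symm v.2), ?_⟩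
    · intro x y hxy
      exact h1 _ _ ⟨hxy.1, fun e => hxy.2 (σ.injective e)⟩
    · intro x y hxy
      exact h2 _ _ ⟨hxy.1, fun e => hxy.2 (σ.injective e)⟩
    · intro x hx
      apply h3
      intro e
      apply hx
      rw [← e]
      simp

/-- Every valid lift reaches the canonical one when `k > 4q`. -/
theorem cube_reach {k q : ℤ} (hq : 0 < q) (hk : 4 * q < k) {F : Bool × Fin 4 → ℤ}
    (h : Val cube k q F) : Reach cube k q F (cst 0 q) := by
  have hk0 : 0 < k := by omega
  -- reduce modulo `k`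
  let a : Fin 4 → ℤ := fun i => F (false, i) % k
  let b : Fin 4 → ℤ := fun i => F (true, i)
  have hF : ∀ u, F u % k = mk a b u % k := by
    rintro ⟨s, i⟩
    cases s
    · simp [mk, a]
    · simp [mk, b]
  have hab : Val cube k q (mk a b) := h.congr hF
  refine (reach_congr h hF).trans ?_
  -- sort
  let σ : Equiv.Perm (Fin 4) := Tuple.sort a
  have hmono : Monotone (a ∘ σ) := Tuple.monotone_sort a
  have hval : Val cube k q (mk (a ∘ σ) (b ∘ σ)) :=
    val_mk hq fun i j hij => ok_of_val hab (fun e => hij (σ.injective e))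
  have hvec : (a ∘ σ) = ![a (σ 0), a (σ 1), a (σ 2), a (σ 3)] := by
    funext i
    fin_cases i <;> rfl
  have hreach : Reach cube k q (mk (a ∘ σ) (b ∘ σ)) (cst 0 q) := by
    rw [hvec] at hval ⊢
    have m01 : a (σ 0) ≤ a (σ 1) := hmono (by decide : (0 : Fin 4) ≤ 1)
    have m12 : a (σ 1) ≤ a (σ 2) := hmono (by decide : (1 : Fin 4) ≤ 2)
    have m23 : a (σ 2) ≤ a (σ 3) := hmono (by decide : (2 : Fin 4) ≤ 3)
    have n0 : 0 ≤ a (σ 0) := Int.emod_nonneg _ (by omega)
    have n3 : a (σ 3) < k := Int.emod_lt_of_pos _ hk0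
    exact sorted_reach hq hk hval m01 m12 m23 (by omega)
  have h2 := reach_perm σ.symm hreach
  have e1 : (fun x : Bool × Fin 4 => mk (a ∘ σ) (b ∘ σ) (x.1, σ.symm x.2)) = mk a b := by
    funext x
    rcases x with ⟨s, i⟩
    cases s <;> simp [mk]
  have e2 : (fun x : Bool × Fin 4 => cst 0 q (x.1, σ.symm x.2)) = cst 0 q := by
    funext x
    rcases x with ⟨s, i⟩
    cases s <;> rfl
  rwa [e1, e2] at h2

end Pool.Agent.R57.CircMix
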