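import Mathlib

/-!
# Circular colourings, mixing, and the circular mixing threshold: definitions and basic tools
-/

namespace Pool.Agent.R57.CircMix

open Relation

variable {V : Type}

/-- `f` is a `(k,q)`-colouring of `G`: the values are in `{0, …, k-1}` and adjacent vertices get
values with `q ≤ |f(u) - f(v)| ≤ k - q`. -/
def IsCol (G : SimpleGraph V) (k q : ℕ) (f : V → ℕ) : Prop :=
  (∀ v, f v < k) ∧
    ∀ u v, G.Adj u v → (q : ℤ) ≤ |(f u : ℤ) - f v| ∧ |(f u : ℤ) - f v| ≤ (k : ℤ) - q

/-- One step: the colour of exactly one vertex is changed, and both maps are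
`(k,q)`-colourings. -/
def Step (G : SimpleGraph V) (k q : ℕ) (f g : V → ℕ) : Prop :=
  IsCol G k q f ∧ IsCol G k q g ∧ ∃ v, f v ≠ g v ∧ ∀ u, u ≠ v → f u = g u

/-- `G` is `(k,q)`-mixing: every `(k,q)`-colouring can be reached from every other by steps. -/
def Mixing (G : SimpleGraph V) (k q : ℕ) : Prop :=
  ∀ f g, IsCol G k q f → IsCol G k q g → ReflTransGen (Step G k q) f g

/-- The set `R(G)` of rationals `r` such that `G` is `(k,q)`-mixing for all positive integers
`k, q` with `k/q ≥ r`. -/
def R (G : SimpleGraph V) : Set ℚ :=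
  {r | ∀ k q : ℕ, 0 < k → 0 < q → r ≤ (k : ℚ) / q → Mixing G k q}

/-- The circular mixing threshold: the infimum of `R(G)`. -/
noncomputable def mc (G : SimpleGraph V) : ℝ := sInf ((fun r : ℚ => (r : ℝ)) '' R G)

/-- The circular mixing threshold is attained: it belongs to `R(G)`. -/
def Attained (G : SimpleGraph V) : Prop := ∃ r ∈ R G, (r : ℝ) = mc G

/-! ### Lifting to the integers -/

/-- The integers `x`, `y`, taken modulo `k`, are at circular distance at least `q`. -/
def ok (k q x y : ℤ) : Prop := q ≤ (x - y) % k ∧ (x - y) % k ≤ k - q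

theorem ok_of {k q x y : ℤ} (hq : 0 < q) (h1 : q ≤ x - y) (h2 : x - y ≤ k - q) : ok k q x y := by
  unfold ok
  rw [Int.emod_eq_of_lt (by omega) (by omega)]
  exact ⟨h1, h2⟩

theorem ok_iff {k q x y : ℤ} (h1 : 0 ≤ x - y) (h2 : x - y < k) :
    ok k q x y ↔ q ≤ x - y ∧ x - y ≤ k - q := by
  unfold ok
  rw [Int.emod_eq_of_lt h1 h2]

theorem ok_symm {k q x y : ℤ} (hq : 0 < q) (h : ok k q x y) : ok k q y x := by
  unfold ok at *
  have h1 := Int.emod_add_mul_ediv (x - y) k
  have h2 : y - x = (k - (x - y) % k) + k * (-((x - y) / k) - 1) := by linarith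
  rw [h2, Int.add_mul_emod_self_left, Int.emod_eq_of_lt (by omega) (by omega)]
  omega

theorem ok_congr {k q x x' y y' : ℤ} (hx : x % k = x' % k) (hy : y % k = y' % k) :
    ok k q x y ↔ ok k q x' y' := by
  unfold ok
  rw [Int.sub_emod x, Int.sub_emod x', hx, hy]

/-- Validity of an integer lift. -/
def Val (G : SimpleGraph V) (k q : ℤ) (F : V → ℤ) : Prop :=
  ∀ u v, G.Adj u v → ok k q (F u) (F v)

/-- Moves between lifts. -/
def Mv (G : SimpleGraph V) (k q : ℤ) (F F' : V → ℤ) : Prop :=
  Val G k q F ∧ Val G k q F' ∧ ∃ v, ∀ u, u ≠ v → F u % k = F' u % k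

/-- Reachability between lifts. -/
def Reach (G : SimpleGraph V) (k q : ℤ) (F F' : V → ℤ) : Prop := ReflTransGen (Mv G k q) F F'

theorem Mv.symm {G : SimpleGraph V} {k q : ℤ} {F F' : V → ℤ} (h : Mv G k q F F') :
    Mv G k q F' F := by
  obtain ⟨h1, h2, v, h3⟩ := h
  exact ⟨h2, h1, v, fun u hu => (h3 u hu).symm⟩

theorem Reach.symm {G : SimpleGraph V} {k q : ℤ} {F F' : V → ℤ} (h : Reach G k q F F') :
    Reach G k q F' F := by
  unfold Reach at *
  induction h with
  | refl => exact ReflTransGen.refl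
  | tail _ h2 ih => exact ReflTransGen.head h2.symm ih

theorem Val.congr {G : SimpleGraph V} {k q : ℤ} {F F' : V → ℤ} (h : Val G k q F)
    (h2 : ∀ u, F u % k = F' u % k) : Val G k q F' :=
  fun u v huv => (ok_congr (h2 u) (h2 v)).mp (h u v huv)

/-- Replace a lift by a congruent one. -/
theorem reach_congr [Nonempty V] {G : SimpleGraph V} {k q : ℤ} {F F' : V → ℤ} (h : Val G k q F)
    (h2 : ∀ u, F u % k = F' u % k) : Reach G k q F F' :=
  ReflTransGen.single ⟨h, h.congr h2, Classical.arbitrary V, fun u _ => h2 u⟩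

/-- Projection of a lift. -/
def proj (k : ℤ) (F : V → ℤ) : V → ℕ := fun v => (F v % k).toNat

theorem proj_cast {k : ℤ} (hk : 0 < k) (F : V → ℤ) (v : V) : ((proj k F v : ℕ) : ℤ) = F v % k := by
  unfold proj
  rw [Int.toNat_of_nonneg (Int.emod_nonneg _ (by omega))]

theorem abs_iff {k q x y : ℤ} (hq : 0 < q) (hx : 0 ≤ x) (hx' : x < k) (hy : 0 ≤ y)
    (hy' : y < k) : ok k q x y ↔ q ≤ |x - y| ∧ |x - y| ≤ k - q := by
  rcases le_total y x with h | h
  · rw [abs_of_nonneg (by omega), ok_iff (by omega) (by omega)]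
  · rw [abs_of_nonpos (by omega)]
    unfold ok
    rcases eq_or_lt_of_le h with h0 | h0
    · subst h0
      simp
    · have : x - y = (x - y + k) + k * (-1) := by ring
      rw [this, Int.add_mul_emod_self_left, Int.emod_eq_of_lt (by omega) (by omega)]
      constructor
      · intro h; omega
      · intro h; omega

theorem isCol_proj {G : SimpleGraph V} {k q : ℕ} (hk : 0 < k) (hq : 0 < q) {F : V → ℤ}
    (h : Val G k q F) : IsCol G k q (proj k F) := by
  have hk' : (0 : ℤ) < k := by exact_mod_cast hk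
  have hlt : ∀ v, F v % (k : ℤ) < k := fun v => Int.emod_lt_of_pos _ hk'
  have hnn : ∀ v, 0 ≤ F v % (k : ℤ) := fun v => Int.emod_nonneg _ (by omega)
  constructor
  · intro v
    have h1 := proj_cast hk' F v
    have h2 := hlt v
    omega
  · intro u v huv
    rw [proj_cast hk', proj_cast hk']
    rw [← abs_iff (by exact_mod_cast hq) (hnn u) (hlt u) (hnn v) (hlt v)]
    exact (ok_congr (by rw [Int.emod_emod_of_dvd _ dvd_rfl])
      (by rw [Int.emod_emod_of_dvd _ dvd_rfl])).mp (h u v huv)

theorem val_of_isCol {G : SimpleGraph V} {k q : ℕ} (hq : 0 < q) {f : V → ℕ}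
    (h : IsCol G k q f) : Val G k q (fun v => (f v : ℤ)) := by
  intro u v huv
  have h1 : (f u : ℤ) < k := Nat.cast_lt.mpr (h.1 u)
  have h2 : (f v : ℤ) < k := Nat.cast_lt.mpr (h.1 v)
  exact (abs_iff (by exact_mod_cast hq) (Int.natCast_nonneg _) h1 (Int.natCast_nonneg _) h2).mpr
    (h.2 u v huv)

theorem proj_self {k : ℕ} {f : V → ℕ} (h : ∀ v, f v < k) : proj k (fun v => (f v : ℤ)) = f := by
  funext v
  have h1 : (f v : ℤ) < k := Nat.cast_lt.mpr (h v)
  unfold proj
  rw [Int.emod_eq_of_lt (Int.natCast_nonneg _) h1]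
  simp

theorem step_of_mv {G : SimpleGraph V} {k q : ℕ} (hk : 0 < k) (hq : 0 < q) {F F' : V → ℤ}
    (h : Mv G k q F F') : ReflTransGen (Step G k q) (proj k F) (proj k F') := by
  obtain ⟨h1, h2, v, h3⟩ := h
  by_cases hv : proj k F v = proj k F' v
  · have : proj k F = proj k F' := by
      funext u
      by_cases hu : u = v
      · rw [hu]; exact hv
      · unfold proj; rw [h3 u hu]
    rw [this]
  · refine ReflTransGen.single ⟨isCol_proj hk hq h1, isCol_proj hk hq h2, v, hv, ?_⟩
    intro u hu
    unfold proj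
    rw [h3 u hu]

/-- Mixing from reachability of one canonical lift. -/
theorem mixing_of_reach {G : SimpleGraph V} {k q : ℕ} (hk : 0 < k) (hq : 0 < q) (C : V → ℤ)
    (h : ∀ F : V → ℤ, Val G k q F → Reach G k q F C) : Mixing G k q := by
  intro f g hf hg
  have h1 : Reach G k q (fun v => (f v : ℤ)) (fun v => (g v : ℤ)) :=
    (h _ (val_of_isCol hq hf)).trans (h _ (val_of_isCol hq hg)).symm
  have h2 : ∀ F F', Reach G k q F F' → ReflTransGen (Step G k q) (proj k F) (proj k F') := by
    intro F F' hFF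
    unfold Reach at hFF
    induction hFF with
    | refl => exact ReflTransGen.refl
    | tail _ h2 ih => exact ih.trans (step_of_mv hk hq h2)
  have h3 := h2 _ _ h1
  rwa [proj_self hf.1, proj_self hg.1] at h3

/-! ### Adding a vertex of degree two -/

/-- The graph obtained from `H` by adding a new vertex `none` adjacent to `u` and `v`. -/
def addVertex (H : SimpleGraph V) (u v : V) : SimpleGraph (Option V) where
  Adj x y := match x, y with
    | some a, some b => H.Adj a b
    | none, some b => b = u ∨ b = v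
    | some a, none => a = u ∨ a = v
    | none, none => False
  symm := ⟨by
    intro x y h
    match x, y, h with
    | some a, some b, h => exact SimpleGraph.Adj.symm h
    | none, some b, h => exact h
    | some a, none, h => exact h⟩
  loopless := ⟨by
    intro x h
    match x, h with
    | some a, h => exact H.irrefl h⟩

end Pool.Agent.R57.CircMix
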