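import Mathlib

/-!
# The eternal vertex colouring game: definitions and general theory

A position records the present partial colouring, the set of vertices that can still be picked in
the current round, and whose turn it is.
-/

namespace Pool.Agent.R57.Eternal

variable {V : Type} [Fintype V] [DecidableEq V]

/-- `Allowed G c v a`: colour `a` may be given to `v` when the present partial colouring is `c`:
`a` is not the present colour of `v` and is not present on any neighbour of `v`. -/
def Allowed (G : SimpleGraph V) {k : ℕ} (c : V → Option (Fin k)) (v : V) (a : Fin k) : Prop :=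
  c v ≠ some a ∧ ∀ w, G.Adj v w → c w ≠ some a

/-- A position of the game: the present partial colouring (`none` = uncoloured), the set of
vertices not yet picked in the current round, and whether Bob is to move. -/
@[ext] structure Pos (V : Type) (k : ℕ) where
  /-- the present partial colouring -/
  col : V → Option (Fin k)
  /-- the vertices not yet picked in the current round -/
  left : Finset V
  /-- is Bob to move? -/
  bob : Bool

/-- The starting position: nothing is coloured, every vertex can be picked, Alice moves. -/
def start (V : Type) [Fintype V] (k : ℕ) : Pos V k := ⟨fun _ => none, Finset.univ, false⟩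

/-- The vertices that can be picked after `v` has been picked: when every vertex has been picked
in the current round, a new round starts and all vertices can be picked. -/
def remaining (U : Finset V) (v : V) : Finset V :=
  if U.erase v = ∅ then Finset.univ else U.erase v

/-- The position after the mover picks `v` and gives it colour `a`. -/
def Pos.play {k : ℕ} (p : Pos V k) (v : V) (a : Fin k) : Pos V k :=
  ⟨Function.update p.col v (some a), remaining p.left v, !p.bob⟩

/-- `BobWithin G m p`: from position `p`, Bob has a strategy guaranteeing that, within the next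
`m` turns, some picked vertex admits no allowed colour. -/
def BobWithin (G : SimpleGraph V) {k : ℕ} : ℕ → Pos V k → Prop
  | 0, _ => False
  | m + 1, p =>
    if p.bob = true then
      ∃ v ∈ p.left, (∀ a, ¬ Allowed G p.col v a) ∨
        ∃ a, Allowed G p.col v a ∧ BobWithin G m (p.play v a)
    else
      ∀ v ∈ p.left, ∀ a, Allowed G p.col v a → BobWithin G m (p.play v a)

/-- Alice has a winning strategy with `k` colours: there is a set `S` of positions containing the
starting position such that at each position of `S` with Alice to move she can pick a vertex and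
an allowed colour leading again to `S`, and at each position of `S` with Bob to move every vertex
he can pick admits an allowed colour and every move of his leads again to `S`. -/
def AliceWins (G : SimpleGraph V) (k : ℕ) : Prop :=
  ∃ S : Set (Pos V k), start V k ∈ S ∧ ∀ p ∈ S,
    (p.bob = false → ∃ v ∈ p.left, ∃ a, Allowed G p.col v a ∧ p.play v a ∈ S) ∧
    (p.bob = true → ∀ v ∈ p.left, (∃ a, Allowed G p.col v a) ∧
      ∀ a, Allowed G p.col v a → p.play v a ∈ S)

/-- The eternal game chromatic number: the least `k ≥ 1` for which Alice has a winning strategy. -/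
noncomputable def chi (G : SimpleGraph V) : ℕ := sInf {k | 1 ≤ k ∧ AliceWins G k}

/-- `rounds G k`: the least `r` such that Bob has a strategy guaranteeing his win during one of
the rounds `1, …, r`, i.e. within the first `r * n` turns. -/
noncomputable def rounds (G : SimpleGraph V) (k : ℕ) : ℕ :=
  sInf {r | BobWithin G (r * Fintype.card V) (start V k)}

theorem bobWithin_zero (G : SimpleGraph V) {k : ℕ} (p : Pos V k) : ¬ BobWithin G 0 p := by
  intro h; exact h

theorem bobWithin_bob (G : SimpleGraph V) {k : ℕ} (m : ℕ) (p : Pos V k) (h : p.bob = true) :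
    BobWithin G (m + 1) p ↔ ∃ v ∈ p.left, (∀ a, ¬ Allowed G p.col v a) ∨
        ∃ a, Allowed G p.col v a ∧ BobWithin G m (p.play v a) := by
  rw [BobWithin, if_pos h]

theorem bobWithin_alice (G : SimpleGraph V) {k : ℕ} (m : ℕ) (p : Pos V k) (h : p.bob = false) :
    BobWithin G (m + 1) p ↔
      ∀ v ∈ p.left, ∀ a, Allowed G p.col v a → BobWithin G m (p.play v a) := by
  rw [BobWithin, if_neg (by simp [h])]

theorem BobWithin.succ {G : SimpleGraph V} {k : ℕ} {m : ℕ} : ∀ {p : Pos V k},
    BobWithin G m p → BobWithin G (m + 1) p := by
  induction m with
  | zero => intro p h; exact absurd h (bobWithin_zero G p)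
  | succ m ih =>
    intro p h
    cases hb : p.bob with
    | true =>
      rw [bobWithin_bob G _ p hb] at h ⊢
      obtain ⟨v, hv, h⟩ := h
      refine ⟨v, hv, ?_⟩
      rcases h with h | ⟨a, ha, h⟩
      · exact Or.inl h
      · exact Or.inr ⟨a, ha, ih h⟩
    | false =>
      rw [bobWithin_alice G _ p hb] at h ⊢
      intro v hv a ha
      exact ih (h v hv a ha)

theorem BobWithin.mono {G : SimpleGraph V} {k : ℕ} {m m' : ℕ} (hm : m ≤ m') {p : Pos V k}
    (h : BobWithin G m p) : BobWithin G m' p := by
  induction hm with
  | refl => exact h
  | step _ ih => exact ih.succ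

/-- Positions from which Bob can never force a win form a safe set for Alice. -/
theorem aliceWins_iff (G : SimpleGraph V) (k : ℕ) [Nonempty V] :
    AliceWins G k ↔ ∀ m, ¬ BobWithin G m (start V k) := by
  constructor
  · rintro ⟨S, h0, hS⟩ m
    have key : ∀ m, ∀ p ∈ S, ¬ BobWithin G m p := by
      intro m
      induction m with
      | zero => intro p _; exact bobWithin_zero G p
      | succ m ih =>
        intro p hp h
        cases hb : p.bob with
        | true =>
          rw [bobWithin_bob G _ p hb] at h
          obtain ⟨v, hv, h⟩ := h
          obtain ⟨⟨a, ha⟩, h2⟩ := (hS p hp).2 hb v hv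
          rcases h with h | ⟨a', ha', h⟩
          · exact h a ha
          · exact ih _ (h2 a' ha') h
        | false =>
          rw [bobWithin_alice G _ p hb] at h
          obtain ⟨v, hv, a, ha, h2⟩ := (hS p hp).1 hb
          exact ih _ h2 (h v hv a ha)
    exact key m _ h0
  · intro h
    refine ⟨{p | p.left.Nonempty ∧ ∀ m, ¬ BobWithin G m p},
      ⟨by simp [start], h⟩, ?_⟩
    rintro p ⟨hne, hp⟩
    have hrem : ∀ v a, ((p.play v a).left).Nonempty := by
      intro v a
      simp only [Pos.play, remaining]
      split_ifs with h
      · exact Finset.univ_nonempty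
      · exact Finset.nonempty_iff_ne_empty.mpr h
    constructor
    · intro hb
      by_contra hcon
      push Not at hcon
      -- for every move there is a bound
      have hall : ∀ v a, ∃ m, v ∈ p.left → Allowed G p.col v a → BobWithin G m (p.play v a) := by
        intro v a
        by_cases hv : v ∈ p.left
        · by_cases ha : Allowed G p.col v a
          · have := hcon v hv a ha
            have h2 : ¬ ∀ m, ¬ BobWithin G m (p.play v a) := by
              intro h3
              exact this ⟨hrem v a, h3⟩
            push Not at h2
            obtain ⟨m, hm⟩ := h2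
            exact ⟨m, fun _ _ => hm⟩
          · exact ⟨0, fun _ h => absurd h ha⟩
        · exact ⟨0, fun h => absurd h hv⟩
      choose f hf using hall
      let M := Finset.univ.sup (fun v => Finset.univ.sup (fun a => f v a))
      have hM : ∀ v a, f v a ≤ M := by
        intro v a
        have h1 : f v a ≤ Finset.univ.sup (fun a => f v a) :=
          Finset.le_sup (f := fun a => f v a) (Finset.mem_univ a)
        exact h1.trans (Finset.le_sup (f := fun v => Finset.univ.sup (fun a => f v a))
          (Finset.mem_univ v))
      apply hp (M + 1)
      rw [bobWithin_alice G _ p hb]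
      intro v hv a ha
      exact (hf v a hv ha).mono (hM v a)
    · intro hb v hv
      constructor
      · by_contra hcon
        push Not at hcon
        apply hp 1
        rw [bobWithin_bob G _ p hb]
        exact ⟨v, hv, Or.inl hcon⟩
      · intro a ha
        refine ⟨hrem v a, fun m hm => ?_⟩
        apply hp (m + 1)
        rw [bobWithin_bob G _ p hb]
        exact ⟨v, hv, Or.inr ⟨a, ha, hm⟩⟩

/-- With `k > n` colours Alice wins: some colour is always unused. -/
theorem aliceWins_of_card_lt (G : SimpleGraph V) (k : ℕ) [Nonempty V]
    (hk : Fintype.card V < k) : AliceWins G k := by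
  have hall : ∀ (c : V → Option (Fin k)) (v : V), ∃ a, Allowed G c v a := by
    intro c v
    by_contra hcon
    push Not at hcon
    have hex : ∀ a : Fin k, ∃ w, c w = some a := by
      intro a
      have h := hcon a
      unfold Allowed at h
      push Not at h
      by_cases h1 : c v = some a
      · exact ⟨v, h1⟩
      · obtain ⟨w, _, hw⟩ := h h1
        exact ⟨w, hw⟩
    choose f hf using hex
    have hinj : Function.Injective f := by
      intro a b hab
      have h1 := hf a
      rw [hab, hf b] at h1
      exact (Option.some_injective _ h1).symm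
    have := Fintype.card_le_of_injective f hinj
    simp at this
    omega
  refine ⟨{p | p.left.Nonempty}, by simp [start], ?_⟩
  intro p hp
  have hrem : ∀ v a, ((p.play v a).left).Nonempty := by
    intro v a
    simp only [Pos.play, remaining]
    split_ifs with h
    · exact Finset.univ_nonempty
    · exact Finset.nonempty_iff_ne_empty.mpr h
  constructor
  · intro _
    obtain ⟨v, hv⟩ := hp
    obtain ⟨a, ha⟩ := hall p.col v
    exact ⟨v, hv, a, ha, hrem v a⟩
  · intro _ v _
    exact ⟨hall p.col v, fun a _ => hrem v a⟩

/-- `k < chi G` iff Bob wins with each number `1 ≤ j ≤ k` of colours. -/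
theorem lt_chi_of (G : SimpleGraph V) (k : ℕ) [Nonempty V]
    (h : ∀ j, 1 ≤ j → j ≤ k → ∃ m, BobWithin G m (start V j)) : k < chi G := by
  have hne : {k | 1 ≤ k ∧ AliceWins G k}.Nonempty :=
    ⟨Fintype.card V + 1, by simp, aliceWins_of_card_lt G _ (Nat.lt_succ_self _)⟩
  have hmem := Nat.sInf_mem hne
  by_contra hcon
  push Not at hcon
  obtain ⟨m, hm⟩ := h (chi G) hmem.1 hcon
  exact (aliceWins_iff G (chi G)).mp hmem.2 m hm

theorem rounds_eq_of (G : SimpleGraph V) (k r : ℕ) 
    (h1 : BobWithin G (r * Fintype.card V) (start V k))
    (h2 : ∀ s, s < r → ¬ BobWithin G (s * Fintype.card V) (start V k)) : rounds G k = r := by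
  apply le_antisymm
  · exact Nat.sInf_le h1
  · by_contra hcon
    push Not at hcon
    exact h2 _ hcon (Nat.sInf_mem (s := {r | BobWithin G (r * Fintype.card V) (start V k)}) ⟨r, h1⟩)

/-! ### Colour permutations -/

/-- Apply a permutation of the colours. -/
def recol {k : ℕ} (π : Equiv.Perm (Fin k)) (c : V → Option (Fin k)) : V → Option (Fin k) :=
  fun v => (c v).map π

omit [Fintype V] [DecidableEq V] in
theorem recol_eq_some {k : ℕ} (π : Equiv.Perm (Fin k)) (c : V → Option (Fin k)) (v : V)
    (a : Fin k) : recol π c v = some (π a) ↔ c v = some a := by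
  unfold recol
  cases h : c v with
  | none => simp
  | some b => simp

omit [Fintype V] [DecidableEq V] in
theorem allowed_recol (G : SimpleGraph V) {k : ℕ} (π : Equiv.Perm (Fin k))
    (c : V → Option (Fin k)) (v : V) (a : Fin k) :
    Allowed G (recol π c) v (π a) ↔ Allowed G c v a := by
  unfold Allowed
  simp only [ne_eq, recol_eq_some]

omit [Fintype V] in
theorem recol_update {k : ℕ} (π : Equiv.Perm (Fin k)) (c : V → Option (Fin k)) (v : V)
    (a : Fin k) :
    Function.update (recol π c) v (some (π a)) = recol π (Function.update c v (some a)) := by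
  funext w
  unfold recol
  by_cases h : w = v
  · subst h; simp
  · simp [Function.update_of_ne h]

theorem bobWithin_recol (G : SimpleGraph V) {k : ℕ} (π : Equiv.Perm (Fin k)) (m : ℕ) :
    ∀ (c : V → Option (Fin k)) (U : Finset V) (b : Bool),
      BobWithin G m ⟨recol π c, U, b⟩ ↔ BobWithin G m ⟨c, U, b⟩ := by
  induction m with
  | zero => intro c U b; exact Iff.rfl
  | succ m ih =>
    intro c U b
    cases b with
    | true =>
      rw [bobWithin_bob G _ _ rfl, bobWithin_bob G _ _ rfl]
      refine exists_congr fun v => and_congr_right fun hv => or_congr ?_ ?_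
      · constructor
        · intro h a ha
          exact h (π a) ((allowed_recol G π c v a).mpr ha)
        · intro h a ha
          apply h (π.symm a)
          rw [← allowed_recol G π c v, Equiv.apply_symm_apply]
          exact ha
      · constructor
        · rintro ⟨a, ha, h⟩
          refine ⟨π.symm a, ?_, ?_⟩
          · rw [← allowed_recol G π c v, Equiv.apply_symm_apply]; exact ha
          · rw [Pos.play, ← ih, ← recol_update, Equiv.apply_symm_apply]
            exact h
        · rintro ⟨a, ha, h⟩
          refine ⟨π a, (allowed_recol G π c v a).mpr ha, ?_⟩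
          rw [Pos.play, recol_update, ih]
          exact h
    | false =>
      rw [bobWithin_alice G _ _ rfl, bobWithin_alice G _ _ rfl]
      refine forall_congr' fun v => forall_congr' fun hv => ?_
      constructor
      · intro h a ha
        have := h (π a) ((allowed_recol G π c v a).mpr ha)
        rw [Pos.play, recol_update, ih] at this
        exact this
      · intro h a ha
        have h2 := h (π.symm a) (by
          rw [← allowed_recol G π c v, Equiv.apply_symm_apply]; exact ha)
        rw [Pos.play, ← ih, ← recol_update, Equiv.apply_symm_apply] at h2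
        exact h2

/-! ### Value tables -/

/-- Soundness of a value table on representatives of the colourings up to colour permutation. -/
theorem bobWithin_iff_val (G : SimpleGraph V) {k : ℕ} {ι σ : Type}
    (C : ι → V → Option (Fin k)) (S : σ → Finset V) (rem : σ → V → σ)
    (mv : ι → V → ι → Prop) (val : ι → σ → Bool → ℕ) (B : ℕ)
    (Dom : ι → σ → Bool → Prop)
    (hrem : ∀ i U b v, Dom i U b → v ∈ S U → S (rem U v) = remaining (S U) v)
    (h1 : ∀ i U b v a, Dom i U b → Allowed G (C i) v a → ∃ j, mv i v j ∧
      ∃ π : Equiv.Perm (Fin k), Function.update (C i) v (some a) = recol π (C j))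
    (h2 : ∀ i U b v j, Dom i U b → mv i v j → ∃ a, Allowed G (C i) v a ∧
      ∃ π : Equiv.Perm (Fin k), Function.update (C i) v (some a) = recol π (C j))
    (hdom : ∀ i U b v j, Dom i U b → v ∈ S U → mv i v j → Dom j (rem U v) (!b))
    (hpos : ∀ i U b, Dom i U b → 1 ≤ val i U b)
    (hbob1 : ∀ i U, Dom i U true → ∀ v ∈ S U, (∀ j, ¬ mv i v j) → val i U true ≤ 1)
    (hbob2 : ∀ i U, Dom i U true → ∀ v ∈ S U, ∀ j, mv i v j →
      val i U true ≤ val j (rem U v) false + 1)
    (hbob3 : ∀ i U, Dom i U true → B ≤ val i U true ∨ ∃ v ∈ S U, (∀ j, ¬ mv i v j) ∨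
      ∃ j, mv i v j ∧ val j (rem U v) false + 1 ≤ val i U true)
    (hal1 : ∀ i U, Dom i U false → val i U false ≤ 1 ∨
      ∃ v ∈ S U, ∃ j, mv i v j ∧ val i U false ≤ val j (rem U v) true + 1)
    (hal2 : ∀ i U, Dom i U false → B ≤ val i U false ∨ ∀ v ∈ S U, ∀ j, mv i v j →
      val j (rem U v) true + 1 ≤ val i U false) :
    ∀ m, m < B → ∀ i U b, Dom i U b → (BobWithin G m ⟨C i, S U, b⟩ ↔ val i U b ≤ m) := by
  intro m
  induction m with
  | zero =>
    intro _ i U b hd
    constructor
    · intro h; exact absurd h (bobWithin_zero G _)
    · intro h; have := hpos i U b hd; omega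
  | succ m ih =>
    intro hm i U b hd
    have ih' := ih (by omega)
    cases b with
    | true =>
      rw [bobWithin_bob G _ _ rfl]
      constructor
      · rintro ⟨v, hv, h | ⟨a, ha, h⟩⟩
        · have : ∀ j, ¬ mv i v j := by
            intro j hj
            obtain ⟨a, ha, _⟩ := h2 i U _ v j hd hj
            exact h a ha
          have := hbob1 i U hd v hv this
          omega
        · obtain ⟨j, hj, π, hπ⟩ := h1 i U _ v a hd ha
          rw [Pos.play, hπ, bobWithin_recol, ← hrem i U _ v hd hv] at h
          have h3 := (ih' j _ _ (hdom i U true v j hd hv hj)).mp h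
          have h4 := hbob2 i U hd v hv j hj
          simp only [Bool.not_true] at h3
          omega
      · intro h
        rcases hbob3 i U hd with h3 | ⟨v, hv, h3 | ⟨j, hj, h3⟩⟩
        · omega
        · refine ⟨v, hv, Or.inl ?_⟩
          intro a ha
          obtain ⟨j, hj, _⟩ := h1 i U _ v a hd ha
          exact h3 j hj
        · obtain ⟨a, ha, π, hπ⟩ := h2 i U _ v j hd hj
          refine ⟨v, hv, Or.inr ⟨a, ha, ?_⟩⟩
          rw [Pos.play, hπ, bobWithin_recol, ← hrem i U _ v hd hv]
          refine (ih' j _ _ (hdom i U true v j hd hv hj)).mpr ?_
          simp only [Bool.not_true]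
          omega
    | false =>
      rw [bobWithin_alice G _ _ rfl]
      constructor
      · intro h
        rcases hal1 i U hd with h3 | ⟨v, hv, j, hj, h3⟩
        · omega
        · obtain ⟨a, ha, π, hπ⟩ := h2 i U _ v j hd hj
          have h4 := h v hv a ha
          rw [Pos.play, hπ, bobWithin_recol, ← hrem i U _ v hd hv] at h4
          have h5 := (ih' j _ _ (hdom i U false v j hd hv hj)).mp h4
          simp only [Bool.not_false] at h5
          omega
      · intro h v hv a ha
        rcases hal2 i U hd with h3 | h3
        · omega
        · obtain ⟨j, hj, π, hπ⟩ := h1 i U _ v a hd ha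
          rw [Pos.play, hπ, bobWithin_recol, ← hrem i U _ v hd hv]
          refine (ih' j _ _ (hdom i U false v j hd hv hj)).mpr ?_
          have := h3 v hv j hj
          simp only [Bool.not_false]
          omega

end Pool.Agent.R57.Eternal
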