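import Pool.Agent.R57.Eternal

/-!
# A table checker for the eternal vertex colouring game
-/

namespace Pool.Agent.R57.Eternal

/-- Digit `v` in base 16. -/
def dg (c v : ℕ) : ℕ := (c >>> (4 * v)) % 16

/-- The partial colouring coded by `c`: digit `0` means uncoloured, digit `a+1` means colour `a`. -/
def decode (n k : ℕ) (c : ℕ) : Fin n → Option (Fin k) := fun v =>
  if h : dg c v ≠ 0 ∧ dg c v - 1 < k then some ⟨dg c v - 1, h.2⟩ else none

theorem decode_eq_some {n k c : ℕ} {v : Fin n} {a : Fin k} :
    decode n k c v = some a ↔ dg c v = a.val + 1 := by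
  unfold decode
  constructor
  · intro h
    split_ifs at h with h1
    rw [Option.some.injEq] at h
    have := congrArg Fin.val h
    simp only at this
    omega
  · intro h
    have h1 : dg c v ≠ 0 ∧ dg c v - 1 < k := by
      have := a.isLt
      omega
    rw [dif_pos h1, Option.some.injEq]
    ext
    simp only
    omega

theorem decode_eq_none {n k c : ℕ} {v : Fin n} (h : dg c v = 0) : decode n k c v = none := by
  unfold decode
  rw [dif_neg]
  simp [h]

/-- A row of the table. -/
structure Row where
  /-- the code of the colouring -/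
  code : ℕ
  /-- for each vertex and each colour: the target row and the code of a permutation -/
  tr : List (List (ℕ × ℕ))
  /-- for each vertex: the list of target rows -/
  mv : List (List ℕ)
  /-- values with Alice to move, in base `2^w`, indexed by the mask of the vertices left -/
  va : ℕ
  /-- values with Bob to move -/
  vb : ℕ

/-- Radix tree. -/
inductive Tr (α : Type) where
  | leaf : α → Tr α
  | node : Tr α → Tr α → Tr α

/-- Look-up in a radix tree. -/
def Tr.get {α : Type} : Tr α → ℕ → α
  | .leaf a, _ => a
  | .node l r, i => bif Nat.beq (i % 2) 0 then l.get (i / 2) else r.get (i / 2)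

section

variable (n k w B : ℕ) (adj : ℕ → ℕ → Bool) (T : Tr Row)

/-- Is colour `a` allowed at `v`? -/
def allowedN (c v a : ℕ) : Bool :=
  !(Nat.beq (dg c v) (a + 1)) &&
    (List.range n).all fun u => !(adj v u) || !(Nat.beq (dg c u) (a + 1))

/-- Is `p` the code of a permutation of the colours? -/
def permN (p : ℕ) : Bool :=
  (List.range k).all fun a => Nat.blt (dg p a) k &&
    (List.range k).all fun b => Nat.beq a b || !(Nat.beq (dg p a) (dg p b))

/-- Is `c` with `v` recoloured `a` the image of `c'` under `p`? -/
def relN (c v a c' p : ℕ) : Bool :=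
  (List.range n).all fun u =>
    Nat.beq (bif Nat.beq u v then a + 1 else dg c u)
      (bif Nat.beq (dg c' u) 0 then 0 else dg p (dg c' u - 1) + 1)

/-- The transitions of a row are right. -/
def chkTr (r : Row) : Bool :=
  ((List.range n).all fun v => (List.range k).all fun a =>
    !(allowedN n adj r.code v a) ||
      (((r.mv.getD v []).elem ((r.tr.getD v []).getD a (0, 0)).1) &&
        permN k ((r.tr.getD v []).getD a (0, 0)).2 &&
        relN n r.code v a (T.get ((r.tr.getD v []).getD a (0, 0)).1).code
          ((r.tr.getD v []).getD a (0, 0)).2)) &&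
  ((List.range n).all fun v => (r.mv.getD v []).all fun j => (List.range k).any fun a =>
    allowedN n adj r.code v a && Nat.beq ((r.tr.getD v []).getD a (0, 0)).1 j)

/-- Mask of the uncoloured vertices. -/
def unc (c : ℕ) : ℕ :=
  (List.range n).foldl (fun s v => bif Nat.beq (dg c v) 0 then s + 2 ^ v else s) 0

/-- Parity of the number of coloured vertices. -/
def par (c : ℕ) : Bool :=
  (List.range n).foldl (fun s v => bif Nat.beq (dg c v) 0 then s else !s) false

/-- Is the position in the domain of the table? -/
def domN (c U : ℕ) (b : Bool) : Bool :=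
  Nat.blt 0 U && Nat.blt U (2 ^ n) &&
    (Nat.beq (unc n c) 0 || (Nat.beq (unc n c) U && (b == par n c)))

/-- The value in the table. -/
def valN (r : Row) (U : ℕ) (b : Bool) : ℕ :=
  ((bif b then r.vb else r.va) >>> (w * U)) % 2 ^ w

/-- The mask after picking `v`. -/
def remN (U v : ℕ) : ℕ :=
  bif Nat.beq (U ^^^ 2 ^ v) 0 then 2 ^ n - 1 else U ^^^ 2 ^ v

/-- Local check of a value. -/
def chkVal (r : Row) (U : ℕ) (b : Bool) : Bool :=
  Nat.blt 0 (valN w r U b) &&
  ((List.range n).all fun v => !(Nat.testBit U v) ||
    (r.mv.getD v []).all fun j => domN n (T.get j).code (remN n U v) (!b)) &&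
  bif b then
    ((List.range n).all fun v => !(Nat.testBit U v) ||
      ((!(r.mv.getD v []).isEmpty || Nat.ble (valN w r U b) 1) &&
        (r.mv.getD v []).all fun j =>
          Nat.ble (valN w r U b) (valN w (T.get j) (remN n U v) false + 1))) &&
    (Nat.ble B (valN w r U b) || (List.range n).any fun v => Nat.testBit U v &&
      ((r.mv.getD v []).isEmpty || (r.mv.getD v []).any fun j =>
        Nat.ble (valN w (T.get j) (remN n U v) false + 1) (valN w r U b)))
  else
    (Nat.ble (valN w r U b) 1 || (List.range n).any fun v => Nat.testBit U v &&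
      (r.mv.getD v []).any fun j =>
        Nat.ble (valN w r U b) (valN w (T.get j) (remN n U v) true + 1)) &&
    (Nat.ble B (valN w r U b) || (List.range n).all fun v => !(Nat.testBit U v) ||
      (r.mv.getD v []).all fun j =>
        Nat.ble (valN w (T.get j) (remN n U v) true + 1) (valN w r U b))

/-- Check of a row. -/
def chkRow (r : Row) : Bool :=
  chkTr n k adj T r &&
    bif Nat.beq (unc n r.code) 0 then
      (List.range (2 ^ n - 1)).all fun U => chkVal n w B T r (U + 1) true &&
        chkVal n w B T r (U + 1) false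
    else
      chkVal n w B T r (unc n r.code) (par n r.code)

end

/-- All leaves satisfy `f`. -/
def Tr.all {α : Type} (f : α → Bool) : Tr α → Bool
  | .leaf a => f a
  | .node l r => l.all f && r.all f

theorem Tr.get_of_all {α : Type} {f : α → Bool} {t : Tr α} (h : t.all f = true) (i : ℕ) :
    f (t.get i) = true := by
  induction t generalizing i with
  | leaf a => exact h
  | node l r ihl ihr =>
    simp only [Tr.all, Bool.and_eq_true] at h
    simp only [Tr.get]
    cases Nat.beq (i % 2) 0 with
    | true => exact ihl h.1 _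
    | false => exact ihr h.2 _

theorem beq_iff {a b : ℕ} : Nat.beq a b = true ↔ a = b := by
  exact ⟨Nat.eq_of_beq_eq_true, fun h => h ▸ Nat.beq_refl a⟩

theorem allowedN_iff {n k : ℕ} {adj : ℕ → ℕ → Bool} {G : SimpleGraph (Fin n)}
    (hadj : ∀ v u : Fin n, G.Adj v u ↔ adj v u = true) (c : ℕ) (v : Fin n) (a : Fin k) :
    allowedN n adj c v a = true ↔ Allowed G (decode n k c) v a := by
  unfold allowedN Allowed
  rw [Bool.and_eq_true, List.all_eq_true]
  refine and_congr ?_ ?_
  · rw [Bool.not_eq_true', ← Bool.not_eq_true, beq_iff, ne_eq, decode_eq_some]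
  · constructor
    · intro h u hu
      have := h u.val (List.mem_range.mpr u.isLt)
      rw [Bool.or_eq_true, Bool.not_eq_true', Bool.not_eq_true', ← Bool.not_eq_true,
        ← Bool.not_eq_true, beq_iff] at this
      rw [ne_eq, decode_eq_some]
      rcases this with h1 | h1
      · exact absurd ((hadj v u).mp hu) h1
      · exact h1
    · intro h u hu
      rw [List.mem_range] at hu
      rw [Bool.or_eq_true, Bool.not_eq_true', Bool.not_eq_true', ← Bool.not_eq_true,
        ← Bool.not_eq_true, beq_iff]
      by_cases h1 : adj v u = true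
      · right
        have := h ⟨u, hu⟩ ((hadj v ⟨u, hu⟩).mpr h1)
        rwa [ne_eq, decode_eq_some] at this
      · left; exact h1

theorem permN_spec {k p : ℕ} (h : permN k p = true) :
    ∃ π : Equiv.Perm (Fin k), ∀ a : Fin k, (π a).val = dg p a := by
  unfold permN at h
  rw [List.all_eq_true] at h
  have h1 : ∀ a : Fin k, dg p a < k := by
    intro a
    have := h a.val (List.mem_range.mpr a.isLt)
    rw [Bool.and_eq_true] at this
    exact Nat.blt_eq.mp this.1
  have hinj : Function.Injective (fun a : Fin k => (⟨dg p a, h1 a⟩ : Fin k)) := by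
    intro a b hab
    have hab' : dg p a = dg p b := congrArg Fin.val hab
    have := h a.val (List.mem_range.mpr a.isLt)
    rw [Bool.and_eq_true, List.all_eq_true] at this
    have := this.2 b.val (List.mem_range.mpr b.isLt)
    rw [Bool.or_eq_true, beq_iff, Bool.not_eq_true', ← Bool.not_eq_true, beq_iff] at this
    rcases this with h2 | h2
    · exact Fin.ext h2
    · exact absurd hab' h2
  exact ⟨Equiv.ofBijective _ (Finite.injective_iff_bijective.mp hinj), fun a => rfl⟩

theorem relN_spec {n k c c' p : ℕ} {v : Fin n} {a : Fin k} {π : Equiv.Perm (Fin k)}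
    (hπ : ∀ a : Fin k, (π a).val = dg p a) (hc' : ∀ u : Fin n, dg c' u ≤ k)
    (h : relN n c v a c' p = true) :
    Function.update (decode n k c) v (some a) = recol π (decode n k c') := by
  unfold relN at h
  rw [List.all_eq_true] at h
  funext u
  have hu := h u.val (List.mem_range.mpr u.isLt)
  rw [beq_iff] at hu
  unfold recol
  have hleft : ∀ b : Fin k, Function.update (decode n k c) v (some a) u = some b ↔
      (bif Nat.beq u.val v.val then a.val + 1 else dg c u) = b.val + 1 := by
    intro b
    by_cases huv : u = v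
    · subst huv
      rw [Function.update_self, beq_iff.mpr rfl]
      simp only [cond_true, Option.some.injEq]
      constructor
      · intro h; rw [h]
      · intro h; ext; omega
    · rw [Function.update_of_ne huv, decode_eq_some]
      have : Nat.beq u.val v.val = false := by
        rw [← Bool.not_eq_true, beq_iff]
        intro h; exact huv (Fin.ext h)
      rw [this, cond_false]
  have hleft0 : (bif Nat.beq u.val v.val then a.val + 1 else dg c u) = 0 →
      Function.update (decode n k c) v (some a) u = none := by
    intro h0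
    by_cases huv : u = v
    · subst huv
      rw [beq_iff.mpr rfl] at h0
      simp at h0
    · have : Nat.beq u.val v.val = false := by
        rw [← Bool.not_eq_true, beq_iff]
        intro h; exact huv (Fin.ext h)
      rw [this, cond_false] at h0
      rw [Function.update_of_ne huv, decode_eq_none h0]
  by_cases h0 : dg c' u = 0
  · rw [beq_iff.mpr h0, cond_true] at hu
    rw [hleft0 hu, decode_eq_none h0]
    rfl
  · have h1 : Nat.beq (dg c' u) 0 = false := by
      rw [← Bool.not_eq_true, beq_iff]; exact h0
    rw [h1, cond_false] at hu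
    have h2 : dg c' u - 1 < k := by have := hc' u; omega
    have h3 : decode n k c' u = some ⟨dg c' u - 1, h2⟩ := by
      rw [decode_eq_some]
      simp only
      omega
    rw [h3, Option.map_some, hleft, hu, hπ]

theorem testBit_rem {U v i : ℕ} :
    Nat.testBit (U ^^^ 2 ^ v) i = (Nat.testBit U i ^^ decide (v = i)) := by
  rw [Nat.testBit_xor, Nat.testBit_two_pow]

/-- The set coded by a mask. -/
def toSet (n : ℕ) (U : ℕ) : Finset (Fin n) := Finset.univ.filter fun v => Nat.testBit U v = true

theorem mem_toSet {n U : ℕ} {v : Fin n} : v ∈ toSet n U ↔ Nat.testBit U v = true := by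
  simp [toSet]

theorem toSet_full (n : ℕ) : toSet n (2 ^ n - 1) = Finset.univ := by
  ext v
  simp only [mem_toSet, Finset.mem_univ, iff_true]
  rw [Nat.testBit_two_pow_sub_one]
  simp

theorem toSet_rem {n U : ℕ} (hU : U < 2 ^ n) {v : Fin n} (hv : v ∈ toSet n U) :
    toSet n (remN n U v) = remaining (toSet n U) v := by
  have herase : toSet n (U ^^^ 2 ^ v.val) = (toSet n U).erase v := by
    ext u
    rw [mem_toSet, Finset.mem_erase, mem_toSet, testBit_rem]
    rw [mem_toSet] at hv
    by_cases huv : u = v
    · subst huv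
      simp [hv]
    · have : ¬ v.val = u.val := fun h => huv (Fin.ext h.symm)
      simp [this, huv]
  unfold remN remaining
  by_cases h0 : U ^^^ 2 ^ v.val = 0
  · rw [beq_iff.mpr h0, cond_true, toSet_full, if_pos]
    rw [← herase, h0]
    ext u
    simp [mem_toSet]
  · have h1 : Nat.beq (U ^^^ 2 ^ v.val) 0 = false := by
      rw [← Bool.not_eq_true, beq_iff]; exact h0
    rw [h1, cond_false, herase, if_neg]
    rw [← herase]
    intro hemp
    apply h0
    apply Nat.eq_of_testBit_eq
    intro i
    rw [Nat.zero_testBit]
    by_cases hi : i < n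
    · have : (⟨i, hi⟩ : Fin n) ∉ toSet n (U ^^^ 2 ^ v.val) := by rw [hemp]; simp
      rw [mem_toSet] at this
      simpa using this
    · apply Nat.testBit_lt_two_pow
      have h2 : U ^^^ 2 ^ v.val < 2 ^ n := Nat.xor_lt_two_pow hU (Nat.pow_lt_pow_right (by norm_num) v.isLt)
      exact lt_of_lt_of_le h2 (Nat.pow_le_pow_right (by norm_num) (by omega))


/-- The data checked for a graph on `Fin n` with `k` colours. -/
def chkAll (n k w B : ℕ) (adj : ℕ → ℕ → Bool) (T : Tr Row) : Bool :=
  T.all fun r => ((List.range n).all fun u => Nat.ble (dg r.code u) k) && chkRow n k w B adj T r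

theorem domN_iff {n c U : ℕ} {b : Bool} : domN n c U b = true ↔
    (0 < U ∧ U < 2 ^ n) ∧ (unc n c = 0 ∨ (unc n c = U ∧ b = par n c)) := by
  unfold domN
  rw [Bool.and_eq_true, Bool.and_eq_true, Bool.or_eq_true, Bool.and_eq_true, beq_iff, beq_iff,
    beq_iff_eq, Nat.blt_eq, Nat.blt_eq]

/-- Soundness of the checker. -/
theorem chk_sound {n k w B : ℕ} {adj : ℕ → ℕ → Bool} {T : Tr Row} {G : SimpleGraph (Fin n)}
    (hadj : ∀ v u : Fin n, G.Adj v u ↔ adj v u = true)
    (h : chkAll n k w B adj T = true) :
    ∀ m, m < B → ∀ i U b, domN n (T.get i).code U b = true →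
      (BobWithin G m ⟨decode n k (T.get i).code, toSet n U, b⟩ ↔ valN w (T.get i) U b ≤ m) := by
  have hrow : ∀ i, (∀ u : Fin n, dg (T.get i).code u ≤ k) ∧
      chkRow n k w B adj T (T.get i) = true := by
    intro i
    have := Tr.get_of_all h i
    rw [Bool.and_eq_true, List.all_eq_true] at this
    refine ⟨fun u => ?_, this.2⟩
    exact Nat.ble_eq.mp (this.1 u.val (List.mem_range.mpr u.isLt))
  have htr : ∀ i, chkTr n k adj T (T.get i) = true := by
    intro i
    have := (hrow i).2
    unfold chkRow at this
    rw [Bool.and_eq_true] at this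
    exact this.1
  have hval : ∀ i U b, domN n (T.get i).code U b = true →
      chkVal n w B T (T.get i) U b = true := by
    intro i U b hd
    rw [domN_iff] at hd
    have := (hrow i).2
    unfold chkRow at this
    rw [Bool.and_eq_true] at this
    have h2 := this.2
    rcases hd.2 with h3 | ⟨h3, h4⟩
    · rw [beq_iff.mpr h3, cond_true, List.all_eq_true] at h2
      have h5 := h2 (U - 1) (List.mem_range.mpr (by omega))
      rw [Nat.sub_add_cancel (by omega), Bool.and_eq_true] at h5
      cases b with
      | true => exact h5.1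
      | false => exact h5.2
    · have h1 : Nat.beq (unc n (T.get i).code) 0 = false := by
        rw [← Bool.not_eq_true, beq_iff]; omega
      rw [h1, cond_false, h3, ← h4] at h2
      exact h2
  -- unpack
  have t1 : ∀ i (v : Fin n) (a : Fin k), Allowed G (decode n k (T.get i).code) v a →
      ∃ j, j ∈ (T.get i).mv.getD v [] ∧ ∃ π : Equiv.Perm (Fin k),
        Function.update (decode n k (T.get i).code) v (some a) =
          recol π (decode n k (T.get j).code) := by
    intro i v a ha
    have h1 := htr i
    unfold chkTr at h1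
    rw [Bool.and_eq_true, List.all_eq_true] at h1
    have h2 := h1.1 v.val (List.mem_range.mpr v.isLt)
    rw [List.all_eq_true] at h2
    have h3 := h2 a.val (List.mem_range.mpr a.isLt)
    rw [Bool.or_eq_true, (allowedN_iff hadj _ v a).mpr ha, Bool.and_eq_true, Bool.and_eq_true]
      at h3
    rcases h3 with h3 | ⟨⟨h3, h4⟩, h5⟩
    · simp at h3
    · obtain ⟨π, hπ⟩ := permN_spec h4
      exact ⟨_, List.elem_iff.mp h3, π, relN_spec hπ (hrow _).1 h5⟩
  have t2 : ∀ i (v : Fin n) j, j ∈ (T.get i).mv.getD v [] →
      ∃ a, Allowed G (decode n k (T.get i).code) v a ∧ ∃ π : Equiv.Perm (Fin k),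
        Function.update (decode n k (T.get i).code) v (some a) =
          recol π (decode n k (T.get j).code) := by
    intro i v j hj
    have h1 := htr i
    unfold chkTr at h1
    rw [Bool.and_eq_true, List.all_eq_true, List.all_eq_true] at h1
    have h2 := h1.2 v.val (List.mem_range.mpr v.isLt)
    rw [List.all_eq_true] at h2
    have h3 := h2 j hj
    rw [List.any_eq_true] at h3
    obtain ⟨a, ha, h3⟩ := h3
    rw [List.mem_range] at ha
    rw [Bool.and_eq_true, beq_iff] at h3
    have h4 := (allowedN_iff hadj _ v ⟨a, ha⟩).mp h3.1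
    refine ⟨⟨a, ha⟩, h4, ?_⟩
    have h5 := h1.1 v.val (List.mem_range.mpr v.isLt)
    rw [List.all_eq_true] at h5
    have h6 := h5 a (List.mem_range.mpr ha)
    rw [Bool.or_eq_true, h3.1, Bool.and_eq_true, Bool.and_eq_true] at h6
    rcases h6 with h6 | ⟨⟨h6, h7⟩, h8⟩
    · simp at h6
    · obtain ⟨π, hπ⟩ := permN_spec h7
      rw [h3.2] at h8
      exact ⟨π, relN_spec (a := ⟨a, ha⟩) hπ (hrow _).1 h8⟩
  have v0 : ∀ i U b, domN n (T.get i).code U b = true →
      0 < valN w (T.get i) U b ∧ (∀ v : Fin n, v ∈ toSet n U → ∀ j, j ∈ (T.get i).mv.getD v [] →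
        domN n (T.get j).code (remN n U v) (!b) = true) := by
    intro i U b hd
    have h1 := hval i U b hd
    unfold chkVal at h1
    simp only [Bool.and_eq_true, Nat.blt_eq] at h1
    obtain ⟨⟨h1, h2⟩, _⟩ := h1
    rw [List.all_eq_true] at h2
    refine ⟨h1, ?_⟩
    intro v hv j hj
    have h2 := h2 v.val (List.mem_range.mpr v.isLt)
    rw [mem_toSet] at hv
    rw [hv, Bool.not_true, Bool.false_or, List.all_eq_true] at h2
    exact h2 j hj
  refine bobWithin_iff_val G (fun i => decode n k (T.get i).code) (toSet n) (fun U v => remN n U v)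
    (fun i v j => j ∈ (T.get i).mv.getD v []) (fun i U b => valN w (T.get i) U b) B
    (fun i U b => domN n (T.get i).code U b = true) ?_ ?_ ?_ ?_ ?_ ?_ ?_ ?_ ?_ ?_
  · intro i U b v hd hv
    exact toSet_rem (domN_iff.mp hd).1.2 hv
  · intro i U b v a _ ha
    exact t1 i v a ha
  · intro i U b v j _ hj
    exact t2 i v j hj
  · intro i U b v j hd hv hj
    exact (v0 i U b hd).2 v hv j hj
  · intro i U b hd
    exact (v0 i U b hd).1
  · intro i U hd v hv hj
    have h1 := hval i U true hd
    unfold chkVal at h1
    simp only [Bool.and_eq_true, cond_true] at h1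
    obtain ⟨_, h1, _⟩ := h1
    rw [List.all_eq_true] at h1
    have h2 := h1 v.val (List.mem_range.mpr v.isLt)
    rw [mem_toSet] at hv
    rw [hv, Bool.not_true, Bool.false_or, Bool.and_eq_true, Bool.or_eq_true] at h2
    rcases h2.1 with h3 | h3
    · rw [Bool.not_eq_true', List.isEmpty_eq_false_iff_exists_mem] at h3
      obtain ⟨j, hj'⟩ := h3
      exact absurd hj' (hj j)
    · exact Nat.ble_eq.mp h3
  · intro i U hd v hv j hj
    have h1 := hval i U true hd
    unfold chkVal at h1
    simp only [Bool.and_eq_true, cond_true] at h1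
    obtain ⟨_, h1, _⟩ := h1
    rw [List.all_eq_true] at h1
    have h2 := h1 v.val (List.mem_range.mpr v.isLt)
    rw [mem_toSet] at hv
    rw [hv, Bool.not_true, Bool.false_or, Bool.and_eq_true, List.all_eq_true] at h2
    exact Nat.ble_eq.mp (h2.2 j hj)
  · intro i U hd
    have h1 := hval i U true hd
    unfold chkVal at h1
    simp only [Bool.and_eq_true, cond_true] at h1
    obtain ⟨_, _, h1⟩ := h1
    rw [Bool.or_eq_true, List.any_eq_true] at h1
    rcases h1 with h2 | ⟨v, hv, h2⟩
    · exact Or.inl (Nat.ble_eq.mp h2)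
    · rw [List.mem_range] at hv
      rw [Bool.and_eq_true, Bool.or_eq_true, List.any_eq_true] at h2
      refine Or.inr ⟨⟨v, hv⟩, mem_toSet.mpr h2.1, ?_⟩
      rcases h2.2 with h3 | ⟨j, hj, h3⟩
      · left
        intro j hj
        rw [List.isEmpty_iff] at h3
        simp only at hj
        rw [h3] at hj
        simp at hj
      · right
        exact ⟨j, hj, Nat.ble_eq.mp h3⟩
  · intro i U hd
    have h1 := hval i U false hd
    unfold chkVal at h1
    simp only [Bool.and_eq_true, cond_false] at h1
    obtain ⟨_, h1, _⟩ := h1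
    rw [Bool.or_eq_true, List.any_eq_true] at h1
    rcases h1 with h2 | ⟨v, hv, h2⟩
    · exact Or.inl (Nat.ble_eq.mp h2)
    · rw [List.mem_range] at hv
      rw [Bool.and_eq_true, List.any_eq_true] at h2
      obtain ⟨j, hj, h3⟩ := h2.2
      exact Or.inr ⟨⟨v, hv⟩, mem_toSet.mpr h2.1, j, hj, Nat.ble_eq.mp h3⟩
  · intro i U hd
    have h1 := hval i U false hd
    unfold chkVal at h1
    simp only [Bool.and_eq_true, cond_false] at h1
    obtain ⟨_, _, h1⟩ := h1
    rw [Bool.or_eq_true, List.all_eq_true] at h1
    rcases h1 with h2 | h2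
    · exact Or.inl (Nat.ble_eq.mp h2)
    · right
      intro v hv j hj
      have h3 := h2 v.val (List.mem_range.mpr v.isLt)
      rw [mem_toSet] at hv
      rw [hv, Bool.not_true, Bool.false_or, List.all_eq_true] at h3
      exact Nat.ble_eq.mp (h3 j hj)

/-- The value of the starting position. -/
theorem chk_start {n k w B : ℕ} {adj : ℕ → ℕ → Bool} {T : Tr Row} {G : SimpleGraph (Fin n)}
    (hadj : ∀ v u : Fin n, G.Adj v u ↔ adj v u = true)
    (h : chkAll n k w B adj T = true) (h0 : (T.get 0).code = 0)
    (hd : domN n 0 (2 ^ n - 1) false = true) (m : ℕ) (hm : m < B) :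
    BobWithin G m (start (Fin n) k) ↔ valN w (T.get 0) (2 ^ n - 1) false ≤ m := by
  have h1 := chk_sound hadj h m hm 0 (2 ^ n - 1) false (by rw [h0]; exact hd)
  rw [← h1, toSet_full]
  have : (fun _ => none : Fin n → Option (Fin k)) = decode n k (T.get 0).code := by
    funext v
    rw [h0, decode_eq_none]
    simp [dg]
  unfold start
  rw [this]

end Pool.Agent.R57.Eternal
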