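import Pool.Agent.R57.EternalCheck
set_option linter.style.longLine false
namespace Pool.Agent.R57.Eternal.Fan

def fan : SimpleGraph (Fin 5) := SimpleGraph.fromRel fun i j => i = 0 ∨ j.val = i.val + 1

def adj (v u : ℕ) : Bool := Nat.testBit (([30,5,11,21,9] : List ℕ).getD v 0) u

theorem adj_spec : ∀ v u : Fin 5, fan.Adj v u ↔ adj v u = true := by
  simp only [fan, SimpleGraph.fromRel_adj]
  decide

def t1_r0 : Row := ⟨0,[[(1,0)],[(2,0)],[(3,0)],[(4,0)],[(5,0)]],[[1],[2],[3],[4],[5]],196159429230833773869868419475239575503198607639501078528,0⟩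
def t1_r1 : Row := ⟨1,[[(0,0)],[(0,0)],[(0,0)],[(0,0)],[(0,0)]],[[],[],[],[],[]],0,1532495540865888858358347027150309183618739122183602176⟩
def t1_r2 : Row := ⟨16,[[(0,0)],[(0,0)],[(0,0)],[(6,0)],[(7,0)]],[[],[],[],[6],[7]],0,23945242826029513411849172299223580994042798784118784⟩
def t1_r3 : Row := ⟨256,[[(0,0)],[(0,0)],[(0,0)],[(0,0)],[(8,0)]],[[],[],[],[],[8]],0,5846006549323611672814739330865132078623730171904⟩
def t1_r4 : Row := ⟨4096,[[(0,0)],[(6,0)],[(0,0)],[(0,0)],[(0,0)]],[[],[6],[],[],[]],0,348449143727040986586495598010130648530944⟩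
def t1_r5 : Row := ⟨65536,[[(0,0)],[(7,0)],[(8,0)],[(0,0)],[(0,0)]],[[],[7],[8],[],[]],0,1237940039285380274899124224⟩
def t1_r6 : Row := ⟨4112,[[(0,0)],[(0,0)],[(0,0)],[(0,0)],[(0,0)]],[[],[],[],[],[]],85070591730234615865843651857942052864,0⟩
def t1_r7 : Row := ⟨65552,[[(0,0)],[(0,0)],[(0,0)],[(0,0)],[(0,0)]],[[],[],[],[],[]],302231454903657293676544,0⟩
def t1_r8 : Row := ⟨65792,[[(0,0)],[(0,0)],[(0,0)],[(0,0)],[(0,0)]],[[],[],[],[],[]],73786976294838206464,0⟩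
def t1 : Tr Row := .node (.node (.node (.node (.leaf t1_r0) (.leaf t1_r8)) (.node (.leaf t1_r4) (.leaf t1_r0))) (.node (.node (.leaf t1_r2) (.leaf t1_r0)) (.node (.leaf t1_r6) (.leaf t1_r0)))) (.node (.node (.node (.leaf t1_r1) (.leaf t1_r0)) (.node (.leaf t1_r5) (.leaf t1_r0))) (.node (.node (.leaf t1_r3) (.leaf t1_r0)) (.node (.leaf t1_r7) (.leaf t1_r0))))
theorem chk1 : chkAll 5 1 6 60 adj t1 = true := by decide +kernel

theorem val1 (m : ℕ) (hm : m < 60) : BobWithin fan m (start (Fin 5) 1) ↔ 2 ≤ m := by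
  have h := chk_start adj_spec chk1 (by decide +kernel) (by decide +kernel) m hm
  rw [h]
  have : valN 6 (t1.get 0) (2 ^ 5 - 1) false = 2 := by decide +kernel
  rw [this]

def t2_r0 : Row := ⟨0,[[(1,16),(1,1)],[(2,16),(2,1)],[(3,16),(3,1)],[(4,16),(4,1)],[(5,16),(5,1)]],[[1],[2],[3],[4],[5]],392318858461667547739736838950479151006397215279002157056,0⟩
def t2_r1 : Row := ⟨1,[[(0,0),(1,1)],[(0,0),(6,16)],[(0,0),(7,16)],[(0,0),(8,16)],[(0,0),(9,16)]],[[1],[6],[7],[8],[9]],0,4597486622597666575075041081450927550856217366550806528⟩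
def t2_r2 : Row := ⟨16,[[(0,0),(6,1)],[(0,0),(2,1)],[(0,0),(10,16)],[(11,16),(12,16)],[(13,16),(14,16)]],[[6],[2],[10],[11,12],[13,14]],0,71835728478088540235547516897670742982128396352356352⟩
def t2_r3 : Row := ⟨256,[[(0,0),(7,1)],[(0,0),(10,1)],[(0,0),(3,1)],[(0,0),(15,16)],[(16,16),(17,16)]],[[7],[10],[3],[15],[16,17]],0,17538019647970835018444217992595396235871190515712⟩
def t2_r4 : Row := ⟨4096,[[(0,0),(8,1)],[(11,16),(12,1)],[(0,0),(15,1)],[(0,0),(4,1)],[(0,0),(18,16)]],[[8],[11,12],[15],[4],[18]],0,1045347431181122959759486794030391945592832⟩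
def t2_r5 : Row := ⟨65536,[[(0,0),(9,1)],[(13,16),(14,1)],[(16,16),(17,1)],[(0,0),(18,1)],[(0,0),(5,1)]],[[9],[13,14],[16,17],[18],[5]],0,3713820117856140824697372672⟩
def t2_r6 : Row := ⟨33,[[(0,0),(0,0)],[(0,0),(0,0)],[(0,0),(0,0)],[(0,0),(19,16)],[(0,0),(20,16)]],[[],[],[],[19],[20]],748288838313422294120286634350736906063837462003712,0⟩
def t2_r7 : Row := ⟨513,[[(0,0),(0,0)],[(0,0),(0,0)],[(0,0),(0,0)],[(0,0),(0,0)],[(0,0),(21,16)]],[[],[],[],[],[21]],182687704666362864775460604089535377456991567872,0⟩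
def t2_r8 : Row := ⟨8193,[[(0,0),(0,0)],[(0,0),(19,16)],[(0,0),(0,0)],[(0,0),(0,0)],[(0,0),(0,0)]],[[],[19],[],[],[]],10889035741470030830827987437816582766592,0⟩
def t2_r9 : Row := ⟨131073,[[(0,0),(0,0)],[(0,0),(20,16)],[(0,0),(21,16)],[(0,0),(0,0)],[(0,0),(0,0)]],[[],[20],[21],[],[]],38685626227668133590597632,0⟩
def t2_r10 : Row := ⟨528,[[(0,0),(0,0)],[(0,0),(0,0)],[(0,0),(0,0)],[(22,16),(0,0)],[(23,16),(24,16)]],[[],[],[],[22],[23,24]],2854495385411919762116571938898990272765493248,0⟩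
def t2_r11 : Row := ⟨4112,[[(0,0),(19,1)],[(0,0),(12,1)],[(0,0),(22,16)],[(0,0),(12,16)],[(0,0),(25,16)]],[[19],[12],[22],[12],[25]],170141183460469231731687303715884105728,0⟩
def t2_r12 : Row := ⟨8208,[[(0,0),(0,0)],[(0,0),(11,1)],[(0,0),(0,0)],[(11,16),(0,0)],[(26,16),(0,0)]],[[],[11],[],[11],[26]],170141183460469231731687303715884105728,0⟩
def t2_r13 : Row := ⟨65552,[[(0,0),(20,1)],[(0,0),(14,1)],[(0,0),(23,16)],[(0,0),(26,16)],[(0,0),(14,16)]],[[20],[14],[23],[26],[14]],604462909807314587353088,0⟩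
def t2_r14 : Row := ⟨131088,[[(0,0),(0,0)],[(0,0),(13,1)],[(0,0),(24,16)],[(25,16),(0,0)],[(13,16),(0,0)]],[[],[13],[24],[25],[13]],604462909807314587353088,0⟩
def t2_r15 : Row := ⟨8448,[[(0,0),(0,0)],[(0,0),(22,1)],[(0,0),(0,0)],[(0,0),(0,0)],[(27,16),(0,0)]],[[],[22],[],[],[27]],41538374868278621028243970633760768,0⟩
def t2_r16 : Row := ⟨65792,[[(0,0),(21,1)],[(0,0),(24,1)],[(0,0),(17,1)],[(0,0),(27,16)],[(0,0),(17,16)]],[[21],[24],[17],[27],[17]],147573952589676412928,0⟩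
def t2_r17 : Row := ⟨131328,[[(0,0),(0,0)],[(0,0),(23,1)],[(0,0),(16,1)],[(0,0),(0,0)],[(16,16),(0,0)]],[[],[23],[16],[],[16]],147573952589676412928,0⟩
def t2_r18 : Row := ⟨135168,[[(0,0),(0,0)],[(25,16),(26,1)],[(0,0),(27,1)],[(0,0),(0,0)],[(0,0),(0,0)]],[[],[25,26],[27],[],[]],8796093022208,0⟩
def t2_r19 : Row := ⟨8225,[[(0,0),(0,0)],[(0,0),(0,0)],[(0,0),(0,0)],[(0,0),(0,0)],[(0,0),(0,0)]],[[],[],[],[],[]],0,1329227995784915872903807060280344576⟩
def t2_r20 : Row := ⟨131105,[[(0,0),(0,0)],[(0,0),(0,0)],[(0,0),(0,0)],[(0,0),(0,0)],[(0,0),(0,0)]],[[],[],[],[],[]],0,4722366482869645213696⟩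
def t2_r21 : Row := ⟨131585,[[(0,0),(0,0)],[(0,0),(0,0)],[(0,0),(0,0)],[(0,0),(0,0)],[(0,0),(0,0)]],[[],[],[],[],[]],0,1152921504606846976⟩
def t2_r22 : Row := ⟨4624,[[(0,0),(0,0)],[(0,0),(0,0)],[(0,0),(0,0)],[(0,0),(0,0)],[(0,0),(28,16)]],[[],[],[],[],[28]],0,5070602400912917605986812821504⟩
def t2_r23 : Row := ⟨66064,[[(0,0),(0,0)],[(0,0),(0,0)],[(0,0),(0,0)],[(0,0),(0,0)],[(0,0),(24,16)]],[[],[],[],[],[24]],0,18014398509481984⟩
def t2_r24 : Row := ⟨131600,[[(0,0),(0,0)],[(0,0),(0,0)],[(0,0),(0,0)],[(28,16),(0,0)],[(23,16),(0,0)]],[[],[],[],[28],[23]],0,18014398509481984⟩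
def t2_r25 : Row := ⟨135184,[[(0,0),(0,0)],[(0,0),(26,1)],[(0,0),(28,16)],[(0,0),(0,0)],[(0,0),(0,0)]],[[],[26],[28],[],[]],0,1073741824⟩
def t2_r26 : Row := ⟨73744,[[(0,0),(0,0)],[(0,0),(25,1)],[(0,0),(0,0)],[(0,0),(0,0)],[(0,0),(0,0)]],[[],[25],[],[],[]],0,1073741824⟩
def t2_r27 : Row := ⟨73984,[[(0,0),(0,0)],[(0,0),(28,1)],[(0,0),(0,0)],[(0,0),(0,0)],[(0,0),(0,0)]],[[],[28],[],[],[]],0,262144⟩
def t2_r28 : Row := ⟨135696,[[(0,0),(0,0)],[(0,0),(0,0)],[(0,0),(0,0)],[(0,0),(0,0)],[(0,0),(0,0)]],[[],[],[],[],[]],64,0⟩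
def t2 : Tr Row := .node (.node (.node (.node (.node (.leaf t2_r0) (.leaf t2_r16)) (.node (.leaf t2_r8) (.leaf t2_r24))) (.node (.node (.leaf t2_r4) (.leaf t2_r20)) (.node (.leaf t2_r12) (.leaf t2_r28)))) (.node (.node (.node (.leaf t2_r2) (.leaf t2_r18)) (.node (.leaf t2_r10) (.leaf t2_r26))) (.node (.node (.leaf t2_r6) (.leaf t2_r22)) (.node (.leaf t2_r14) (.leaf t2_r0))))) (.node (.node (.node (.node (.leaf t2_r1) (.leaf t2_r17)) (.node (.leaf t2_r9) (.leaf t2_r25))) (.node (.node (.leaf t2_r5) (.leaf t2_r21)) (.node (.leaf t2_r13) (.leaf t2_r0)))) (.node (.node (.node (.leaf t2_r3) (.leaf t2_r19)) (.node (.leaf t2_r11) (.leaf t2_r27))) (.node (.node (.leaf t2_r7) (.leaf t2_r23)) (.node (.leaf t2_r15) (.leaf t2_r0)))))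
theorem chk2 : chkAll 5 2 6 60 adj t2 = true := by decide +kernel

theorem val2 (m : ℕ) (hm : m < 60) : BobWithin fan m (start (Fin 5) 2) ↔ 4 ≤ m := by
  have h := chk_start adj_spec chk2 (by decide +kernel) (by decide +kernel) m hm
  rw [h]
  have : valN 6 (t2.get 0) (2 ^ 5 - 1) false = 4 := by decide +kernel
  rw [this]

def t3_r0 : Row := ⟨0,[[(1,528),(1,513),(1,258)],[(2,528),(2,513),(2,258)],[(3,528),(3,513),(3,258)],[(4,528),(4,513),(4,258)],[(5,528),(5,513),(5,258)]],[[1],[2],[3],[4],[5]],588478287692501321609605258425718726509595822918503235584,0⟩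
def t3_r1 : Row := ⟨1,[[(0,0),(1,513),(1,258)],[(0,0),(6,528),(6,288)],[(0,0),(7,528),(7,288)],[(0,0),(8,528),(8,288)],[(0,0),(9,528),(9,288)]],[[1],[6],[7],[8],[9]],0,7662477704329444291791735135751545918093695610918010880⟩
def t3_r2 : Row := ⟨16,[[(0,0),(6,513),(6,258)],[(0,0),(2,513),(2,258)],[(0,0),(10,528),(10,288)],[(11,528),(12,528),(12,288)],[(13,528),(14,528),(14,288)]],[[6],[2],[10],[11,12],[13,14]],0,95780971304118053647396689196894323976171195136475136⟩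
def t3_r3 : Row := ⟨256,[[(0,0),(7,513),(7,258)],[(0,0),(10,513),(10,258)],[(0,0),(3,513),(3,258)],[(0,0),(15,528),(15,288)],[(16,528),(17,528),(17,288)]],[[7],[10],[3],[15],[16,17]],0,23384026197294446691258957323460528314494920687616⟩
def t3_r4 : Row := ⟨4096,[[(0,0),(8,513),(8,258)],[(11,528),(12,513),(12,258)],[(0,0),(15,513),(15,258)],[(0,0),(4,513),(4,258)],[(0,0),(18,528),(18,288)]],[[8],[11,12],[15],[4],[18]],0,1393796574908163946345982392040522594123776⟩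
def t3_r5 : Row := ⟨65536,[[(0,0),(9,513),(9,258)],[(13,528),(14,513),(14,258)],[(16,528),(17,513),(17,258)],[(0,0),(18,513),(18,258)],[(0,0),(5,513),(5,258)]],[[9],[13,14],[16,17],[18],[5]],0,4951760157141521099596496896⟩
def t3_r6 : Row := ⟨33,[[(0,0),(0,0),(6,18)],[(0,0),(0,0),(6,288)],[(0,0),(0,0),(19,528)],[(0,0),(20,528),(21,528)],[(0,0),(22,528),(23,528)]],[[6],[6],[19],[20,21],[22,23]],1496577676626844588240573268701473812127674924007424,0⟩
def t3_r7 : Row := ⟨513,[[(0,0),(0,0),(7,18)],[(0,0),(0,0),(19,288)],[(0,0),(0,0),(7,288)],[(0,0),(0,0),(24,528)],[(0,0),(25,528),(26,528)]],[[7],[19],[7],[24],[25,26]],365375409332725729550921208179070754913983135744,0⟩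
def t3_r8 : Row := ⟨8193,[[(0,0),(0,0),(8,18)],[(0,0),(20,528),(21,288)],[(0,0),(0,0),(24,288)],[(0,0),(0,0),(8,288)],[(0,0),(0,0),(27,528)]],[[8],[20,21],[24],[8],[27]],21778071482940061661655974875633165533184,0⟩
def t3_r9 : Row := ⟨131073,[[(0,0),(0,0),(9,18)],[(0,0),(22,528),(23,288)],[(0,0),(25,528),(26,288)],[(0,0),(0,0),(27,288)],[(0,0),(0,0),(9,288)]],[[9],[22,23],[25,26],[27],[9]],77371252455336267181195264,0⟩
def t3_r10 : Row := ⟨528,[[(0,0),(0,0),(19,258)],[(0,0),(0,0),(10,18)],[(0,0),(0,0),(10,288)],[(28,528),(0,0),(29,528)],[(30,528),(31,528),(32,528)]],[[19],[10],[10],[28,29],[30,31,32]],4281743078117879643174857908348485409148239872,0⟩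
def t3_r11 : Row := ⟨4112,[[(0,0),(20,513),(20,258)],[(0,0),(12,513),(12,258)],[(0,0),(28,528),(28,288)],[(0,0),(12,528),(12,288)],[(0,0),(33,528),(33,288)]],[[20],[12],[28],[12],[33]],340282366920938463463374607431768211456,0⟩
def t3_r12 : Row := ⟨8208,[[(0,0),(0,0),(21,258)],[(0,0),(11,513),(12,18)],[(0,0),(0,0),(29,288)],[(11,528),(0,0),(12,288)],[(34,528),(0,0),(35,528)]],[[21],[11,12],[29],[11,12],[34,35]],255211775190703847597530955573826158592,0⟩
def t3_r13 : Row := ⟨65552,[[(0,0),(22,513),(22,258)],[(0,0),(14,513),(14,258)],[(0,0),(30,528),(30,288)],[(0,0),(34,528),(34,288)],[(0,0),(14,528),(14,288)]],[[22],[14],[30],[34],[14]],906694364710971881029632,0⟩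
def t3_r14 : Row := ⟨131088,[[(0,0),(0,0),(23,258)],[(0,0),(13,513),(14,18)],[(0,0),(31,528),(32,288)],[(33,528),(0,0),(35,288)],[(13,528),(0,0),(14,288)]],[[23],[13,14],[31,32],[33,35],[13,14]],1208925819614629174706176,0⟩
def t3_r15 : Row := ⟨8448,[[(0,0),(0,0),(24,258)],[(0,0),(28,513),(29,258)],[(0,0),(0,0),(15,18)],[(0,0),(0,0),(15,288)],[(36,528),(0,0),(37,528)]],[[24],[28,29],[15],[15],[36,37]],83076749736557242056487941267521536,0⟩
def t3_r16 : Row := ⟨65792,[[(0,0),(25,513),(25,258)],[(0,0),(31,513),(31,258)],[(0,0),(17,513),(17,258)],[(0,0),(36,528),(36,288)],[(0,0),(17,528),(17,288)]],[[25],[31],[17],[36],[17]],295147905179352825856,0⟩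
def t3_r17 : Row := ⟨131328,[[(0,0),(0,0),(26,258)],[(0,0),(30,513),(32,258)],[(0,0),(16,513),(17,18)],[(0,0),(0,0),(37,288)],[(16,528),(0,0),(17,288)]],[[26],[30,32],[16,17],[37],[16,17]],221360928884514619392,0⟩
def t3_r18 : Row := ⟨135168,[[(0,0),(0,0),(27,258)],[(33,528),(34,513),(35,258)],[(0,0),(36,513),(37,258)],[(0,0),(0,0),(18,18)],[(0,0),(0,0),(18,288)]],[[27],[33,34,35],[36,37],[18],[18]],13194139533312,0⟩
def t3_r19 : Row := ⟨801,[[(0,0),(0,0),(0,0)],[(0,0),(0,0),(0,0)],[(0,0),(0,0),(0,0)],[(0,0),(38,528),(0,0)],[(0,0),(39,528),(40,528)]],[[],[],[],[38],[39,40]],0,44601490397061246283071436545296723011960832⟩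
def t3_r20 : Row := ⟨8225,[[(0,0),(0,0),(20,18)],[(0,0),(0,0),(21,288)],[(0,0),(0,0),(38,528)],[(0,0),(0,0),(21,528)],[(0,0),(0,0),(41,528)]],[[20],[21],[38],[21],[41]],0,3987683987354747618711421180841033728⟩
def t3_r21 : Row := ⟨12321,[[(0,0),(0,0),(0,0)],[(0,0),(0,0),(20,288)],[(0,0),(0,0),(0,0)],[(0,0),(20,528),(0,0)],[(0,0),(42,528),(0,0)]],[[],[20],[],[20],[42]],0,1329227995784915872903807060280344576⟩
def t3_r22 : Row := ⟨131105,[[(0,0),(0,0),(22,18)],[(0,0),(0,0),(23,288)],[(0,0),(0,0),(39,528)],[(0,0),(0,0),(42,528)],[(0,0),(0,0),(23,528)]],[[22],[23],[39],[42],[23]],0,9444732965739290427392⟩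
def t3_r23 : Row := ⟨196641,[[(0,0),(0,0),(0,0)],[(0,0),(0,0),(22,288)],[(0,0),(0,0),(40,528)],[(0,0),(41,528),(0,0)],[(0,0),(22,528),(0,0)]],[[],[22],[40],[41],[22]],0,14167099448608935641088⟩
def t3_r24 : Row := ⟨12801,[[(0,0),(0,0),(0,0)],[(0,0),(0,0),(38,288)],[(0,0),(0,0),(0,0)],[(0,0),(0,0),(0,0)],[(0,0),(43,528),(0,0)]],[[],[38],[],[],[43]],0,973555660975280180349468061728768⟩
def t3_r25 : Row := ⟨131585,[[(0,0),(0,0),(25,18)],[(0,0),(0,0),(40,288)],[(0,0),(0,0),(26,288)],[(0,0),(0,0),(43,528)],[(0,0),(0,0),(26,528)]],[[25],[40],[26],[43],[26]],0,3458764513820540928⟩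
def t3_r26 : Row := ⟨197121,[[(0,0),(0,0),(0,0)],[(0,0),(0,0),(39,288)],[(0,0),(0,0),(25,288)],[(0,0),(0,0),(0,0)],[(0,0),(25,528),(0,0)]],[[],[39],[25],[],[25]],0,1152921504606846976⟩
def t3_r27 : Row := ⟨204801,[[(0,0),(0,0),(0,0)],[(0,0),(41,528),(42,288)],[(0,0),(0,0),(43,288)],[(0,0),(0,0),(0,0)],[(0,0),(0,0),(0,0)]],[[],[41,42],[43],[],[]],0,137438953472⟩
def t3_r28 : Row := ⟨4624,[[(0,0),(0,0),(38,258)],[(0,0),(0,0),(29,18)],[(0,0),(0,0),(28,288)],[(0,0),(0,0),(29,528)],[(0,0),(44,528),(45,528)]],[[38],[29],[28],[29],[44,45]],0,10141204801825835211973625643008⟩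
def t3_r29 : Row := ⟨12816,[[(0,0),(0,0),(0,0)],[(0,0),(0,0),(28,18)],[(0,0),(0,0),(0,0)],[(28,528),(0,0),(0,0)],[(46,528),(47,528),(0,0)]],[[],[28],[],[28],[46,47]],0,5070602400912917605986812821504⟩
def t3_r30 : Row := ⟨66064,[[(0,0),(0,0),(39,258)],[(0,0),(0,0),(32,18)],[(0,0),(0,0),(30,288)],[(0,0),(0,0),(46,528)],[(0,0),(31,528),(32,528)]],[[39],[32],[30],[46],[31,32]],0,36028797018963968⟩
def t3_r31 : Row := ⟨131600,[[(0,0),(0,0),(40,258)],[(0,0),(0,0),(31,18)],[(0,0),(0,0),(32,288)],[(44,528),(0,0),(47,528)],[(30,528),(0,0),(32,528)]],[[40],[31],[32],[44,47],[30,32]],0,36028797018963968⟩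
def t3_r32 : Row := ⟨197136,[[(0,0),(0,0),(0,0)],[(0,0),(0,0),(30,18)],[(0,0),(0,0),(31,288)],[(45,528),(0,0),(0,0)],[(30,528),(31,528),(0,0)]],[[],[30],[31],[45],[30,31]],0,18014398509481984⟩
def t3_r33 : Row := ⟨135184,[[(0,0),(0,0),(41,258)],[(0,0),(34,513),(35,258)],[(0,0),(44,528),(45,288)],[(0,0),(0,0),(35,288)],[(0,0),(0,0),(33,288)]],[[41],[34,35],[44,45],[35],[33]],0,2147483648⟩
def t3_r34 : Row := ⟨73744,[[(0,0),(0,0),(42,258)],[(0,0),(33,513),(35,18)],[(0,0),(0,0),(46,288)],[(0,0),(0,0),(34,288)],[(0,0),(0,0),(35,528)]],[[42],[33,35],[46],[34],[35]],0,2147483648⟩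
def t3_r35 : Row := ⟨204816,[[(0,0),(0,0),(0,0)],[(0,0),(33,33),(34,18)],[(0,0),(0,0),(47,288)],[(33,288),(0,0),(0,0)],[(34,528),(0,0),(0,0)]],[[],[33,34],[47],[33],[34]],0,1073741824⟩
def t3_r36 : Row := ⟨73984,[[(0,0),(0,0),(43,258)],[(0,0),(44,513),(47,258)],[(0,0),(0,0),(37,18)],[(0,0),(0,0),(36,288)],[(0,0),(0,0),(37,528)]],[[43],[44,47],[37],[36],[37]],0,524288⟩
def t3_r37 : Row := ⟨205056,[[(0,0),(0,0),(0,0)],[(0,0),(45,513),(46,258)],[(0,0),(0,0),(36,18)],[(0,0),(0,0),(0,0)],[(36,528),(0,0),(0,0)]],[[],[45,46],[36],[],[36]],0,262144⟩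
def t3_r38 : Row := ⟨8993,[[(0,0),(0,0),(0,0)],[(0,0),(0,0),(0,0)],[(0,0),(0,0),(0,0)],[(0,0),(0,0),(0,0)],[(0,0),(0,0),(48,528)]],[[],[],[],[],[48]],158456325028528675187087900672,0⟩
def t3_r39 : Row := ⟨131873,[[(0,0),(0,0),(0,0)],[(0,0),(0,0),(0,0)],[(0,0),(0,0),(0,0)],[(0,0),(0,0),(0,0)],[(0,0),(0,0),(40,528)]],[[],[],[],[],[40]],281474976710656,0⟩
def t3_r40 : Row := ⟨197409,[[(0,0),(0,0),(0,0)],[(0,0),(0,0),(0,0)],[(0,0),(0,0),(0,0)],[(0,0),(48,528),(0,0)],[(0,0),(39,528),(0,0)]],[[],[],[],[48],[39]],562949953421312,0⟩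
def t3_r41 : Row := ⟨204833,[[(0,0),(0,0),(0,0)],[(0,0),(0,0),(42,288)],[(0,0),(0,0),(48,528)],[(0,0),(0,0),(0,0)],[(0,0),(0,0),(0,0)]],[[],[42],[48],[],[]],33554432,0⟩
def t3_r42 : Row := ⟨143393,[[(0,0),(0,0),(0,0)],[(0,0),(0,0),(41,288)],[(0,0),(0,0),(0,0)],[(0,0),(0,0),(0,0)],[(0,0),(0,0),(0,0)]],[[],[41],[],[],[]],16777216,0⟩
def t3_r43 : Row := ⟨143873,[[(0,0),(0,0),(0,0)],[(0,0),(0,0),(48,288)],[(0,0),(0,0),(0,0)],[(0,0),(0,0),(0,0)],[(0,0),(0,0),(0,0)]],[[],[48],[],[],[]],8192,0⟩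
def t3_r44 : Row := ⟨135696,[[(0,0),(0,0),(48,258)],[(0,0),(0,0),(47,18)],[(0,0),(0,0),(45,288)],[(0,0),(0,0),(47,528)],[(0,0),(0,0),(45,528)]],[[48],[47],[45],[47],[45]],128,0⟩
def t3_r45 : Row := ⟨201232,[[(0,0),(0,0),(0,0)],[(0,0),(0,0),(46,18)],[(0,0),(0,0),(44,288)],[(0,0),(0,0),(0,0)],[(0,0),(44,528),(0,0)]],[[],[46],[44],[],[44]],64,0⟩
def t3_r46 : Row := ⟨78352,[[(0,0),(0,0),(0,0)],[(0,0),(0,0),(45,18)],[(0,0),(0,0),(0,0)],[(0,0),(0,0),(0,0)],[(0,0),(47,528),(0,0)]],[[],[45],[],[],[47]],64,0⟩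
def t3_r47 : Row := ⟨143888,[[(0,0),(0,0),(0,0)],[(0,0),(0,0),(44,18)],[(0,0),(0,0),(0,0)],[(44,528),(0,0),(0,0)],[(46,528),(0,0),(0,0)]],[[],[44],[],[44],[46]],64,0⟩
def t3_r48 : Row := ⟨205601,[[(0,0),(0,0),(0,0)],[(0,0),(0,0),(0,0)],[(0,0),(0,0),(0,0)],[(0,0),(0,0),(0,0)],[(0,0),(0,0),(0,0)]],[[],[],[],[],[]],99636535482328266092631578146153435176227864197841817664,99636535482328266092631578146153435176227864197841817664⟩
def t3 : Tr Row := .node (.node (.node (.node (.node (.node (.leaf t3_r0) (.leaf t3_r32)) (.node (.leaf t3_r16) (.leaf t3_r48))) (.node (.node (.leaf t3_r8) (.leaf t3_r40)) (.node (.leaf t3_r24) (.leaf t3_r0)))) (.node (.node (.node (.leaf t3_r4) (.leaf t3_r36)) (.node (.leaf t3_r20) (.leaf t3_r0))) (.node (.node (.leaf t3_r12) (.leaf t3_r44)) (.node (.leaf t3_r28) (.leaf t3_r0))))) (.node (.node (.node (.node (.leaf t3_r2) (.leaf t3_r34)) (.node (.leaf t3_r18) (.leaf t3_r0))) (.node (.node (.leaf t3_r10)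 (.leaf t3_r42)) (.node (.leaf t3_r26) (.leaf t3_r0)))) (.node (.node (.node (.leaf t3_r6) (.leaf t3_r38)) (.node (.leaf t3_r22) (.leaf t3_r0))) (.node (.node (.leaf t3_r14) (.leaf t3_r46)) (.node (.leaf t3_r30) (.leaf t3_r0)))))) (.node (.node (.node (.node (.node (.leaf t3_r1) (.leaf t3_r33)) (.node (.leaf t3_r17) (.leaf t3_r0))) (.node (.node (.leaf t3_r9) (.leaf t3_r41)) (.node (.leaf t3_r25) (.leaf t3_r0)))) (.node (.node (.node (.leaf t3_r5) (.leaf t3_r37)) (.node (.leaf t3_r21) (.leaf t3_r0))) (.node (.node (.leaf t3_r13) (.leaf t3_r45)) (.node (.leaf t3_r29) (.leaf t3_r0))))) (.node (.node (.node (.node (.leaf t3_r3) (.leaf t3_r35)) (.node (.leaf t3_r19) (.leaf t3_r0))) (.node (.node (.leaf t3_r11) (.leaf t3_r43)) (.node (.leaf t3_r27) (.leaf t3_r0)))) (.node (.node (.node (.leaf t3_r7) (.leaf t3_r39)) (.node (.leaf t3_r23) (.leaf t3_r0))) (.node (.node (.leaf t3_r15) (.leaf t3_r47)) (.node (.leaf t3_r31) (.leaf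 t3_r0))))))
theorem chk3 : chkAll 5 3 6 60 adj t3 = true := by decide +kernel

theorem val3 (m : ℕ) (hm : m < 60) : BobWithin fan m (start (Fin 5) 3) ↔ 6 ≤ m := by
  have h := chk_start adj_spec chk3 (by decide +kernel) (by decide +kernel) m hm
  rw [h]
  have : valN 6 (t3.get 0) (2 ^ 5 - 1) false = 6 := by decide +kernel
  rw [this]

def t4_r0 : Row := ⟨0,[[(1,12816),(1,12801),(1,12546),(1,8451)],[(2,12816),(2,12801),(2,12546),(2,8451)],[(3,12816),(3,12801),(3,12546),(3,8451)],[(4,12816),(4,12801),(4,12546),(4,8451)],[(5,12816),(5,12801),(5,12546),(5,8451)]],[[1],[2],[3],[4],[5]],784637716923335095479473677900958302012794430558004314112,0⟩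
def t4_r1 : Row := ⟨1,[[(0,0),(1,12801),(1,12546),(1,8451)],[(0,0),(6,12816),(6,12576),(6,8496)],[(0,0),(7,12816),(7,12576),(7,8496)],[(0,0),(8,12816),(8,12576),(8,8496)],[(0,0),(9,12816),(9,12576),(9,8496)]],[[1],[6],[7],[8],[9]],0,10727468786061222008508429190052164285331173855285215232⟩
def t4_r2 : Row := ⟨16,[[(0,0),(6,12801),(6,12546),(6,8451)],[(0,0),(2,12801),(2,12546),(2,8451)],[(0,0),(10,12816),(10,12576),(10,8496)],[(11,12816),(12,12816),(12,12576),(12,8496)],[(13,12816),(14,12816),(14,12576),(14,8496)]],[[6],[2],[10],[11,12],[13,14]],0,119726214130147567059245861496117904970213993920593920⟩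
def t4_r3 : Row := ⟨256,[[(0,0),(7,12801),(7,12546),(7,8451)],[(0,0),(10,12801),(10,12546),(10,8451)],[(0,0),(3,12801),(3,12546),(3,8451)],[(0,0),(15,12816),(15,12576),(15,8496)],[(16,12816),(17,12816),(17,12576),(17,8496)]],[[7],[10],[3],[15],[16,17]],0,29230032746618058364073696654325660393118650859520⟩
def t4_r4 : Row := ⟨4096,[[(0,0),(8,12801),(8,12546),(8,8451)],[(11,12816),(12,12801),(12,12546),(12,8451)],[(0,0),(15,12801),(15,12546),(15,8451)],[(0,0),(4,12801),(4,12546),(4,8451)],[(0,0),(18,12816),(18,12576),(18,8496)]],[[8],[11,12],[15],[4],[18]],0,1742245718635204932932477990050653242654720⟩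
def t4_r5 : Row := ⟨65536,[[(0,0),(9,12801),(9,12546),(9,8451)],[(13,12816),(14,12801),(14,12546),(14,8451)],[(16,12816),(17,12801),(17,12546),(17,8451)],[(0,0),(18,12801),(18,12546),(18,8451)],[(0,0),(5,12801),(5,12546),(5,8451)]],[[9],[13,14],[16,17],[18],[5]],0,6189700196426901374495621120⟩
def t4_r6 : Row := ⟨33,[[(0,0),(0,0),(6,12306),(6,8211)],[(0,0),(0,0),(6,12576),(6,8496)],[(0,0),(0,0),(19,12816),(19,8976)],[(0,0),(20,12816),(21,12816),(21,8976)],[(0,0),(22,12816),(23,12816),(23,8976)]],[[6],[6],[19],[20,21],[22,23]],2244866514940266882360859903052210718191512386011136,0⟩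
def t4_r7 : Row := ⟨513,[[(0,0),(0,0),(7,12306),(7,8211)],[(0,0),(0,0),(19,12576),(19,8496)],[(0,0),(0,0),(7,12576),(7,8496)],[(0,0),(0,0),(24,12816),(24,8976)],[(0,0),(25,12816),(26,12816),(26,8976)]],[[7],[19],[7],[24],[25,26]],548063113999088594326381812268606132370974703616,0⟩
def t4_r8 : Row := ⟨8193,[[(0,0),(0,0),(8,12306),(8,8211)],[(0,0),(20,12816),(21,12576),(21,8496)],[(0,0),(0,0),(24,12576),(24,8496)],[(0,0),(0,0),(8,12576),(8,8496)],[(0,0),(0,0),(27,12816),(27,8976)]],[[8],[20,21],[24],[8],[27]],32667107224410092492483962313449748299776,0⟩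
def t4_r9 : Row := ⟨131073,[[(0,0),(0,0),(9,12306),(9,8211)],[(0,0),(22,12816),(23,12576),(23,8496)],[(0,0),(25,12816),(26,12576),(26,8496)],[(0,0),(0,0),(27,12576),(27,8496)],[(0,0),(0,0),(9,12576),(9,8496)]],[[9],[22,23],[25,26],[27],[9]],116056878683004400771792896,0⟩
def t4_r10 : Row := ⟨528,[[(0,0),(0,0),(19,12546),(19,8451)],[(0,0),(0,0),(10,12306),(10,8211)],[(0,0),(0,0),(10,12576),(10,8496)],[(28,12816),(0,0),(29,12816),(29,8976)],[(30,12816),(31,12816),(32,12816),(32,8976)]],[[19],[10],[10],[28,29],[30,31,32]],5708990770823839524233143877797980545530986496,0⟩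
def t4_r11 : Row := ⟨4112,[[(0,0),(20,12801),(20,12546),(20,8451)],[(0,0),(12,12801),(12,12546),(12,8451)],[(0,0),(28,12816),(28,12576),(28,8496)],[(0,0),(12,12816),(12,12576),(12,8496)],[(0,0),(33,12816),(33,12576),(33,8496)]],[[20],[12],[28],[12],[33]],510423550381407695195061911147652317184,0⟩
def t4_r12 : Row := ⟨8208,[[(0,0),(0,0),(21,12546),(21,8451)],[(0,0),(11,12801),(12,12306),(12,8211)],[(0,0),(0,0),(29,12576),(29,8496)],[(11,12816),(0,0),(12,12576),(12,8496)],[(34,12816),(0,0),(35,12816),(35,8976)]],[[21],[11,12],[29],[11,12],[34,35]],340282366920938463463374607431768211456,0⟩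
def t4_r13 : Row := ⟨65552,[[(0,0),(22,12801),(22,12546),(22,8451)],[(0,0),(14,12801),(14,12546),(14,8451)],[(0,0),(30,12816),(30,12576),(30,8496)],[(0,0),(34,12816),(34,12576),(34,8496)],[(0,0),(14,12816),(14,12576),(14,8496)]],[[22],[14],[30],[34],[14]],1208925819614629174706176,0⟩
def t4_r14 : Row := ⟨131088,[[(0,0),(0,0),(23,12546),(23,8451)],[(0,0),(13,12801),(14,12306),(14,8211)],[(0,0),(31,12816),(32,12576),(32,8496)],[(33,12816),(0,0),(35,12576),(35,8496)],[(13,12816),(0,0),(14,12576),(14,8496)]],[[23],[13,14],[31,32],[33,35],[13,14]],1208925819614629174706176,0⟩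
def t4_r15 : Row := ⟨8448,[[(0,0),(0,0),(24,12546),(24,8451)],[(0,0),(28,12801),(29,12546),(29,8451)],[(0,0),(0,0),(15,12306),(15,8211)],[(0,0),(0,0),(15,12576),(15,8496)],[(36,12816),(0,0),(37,12816),(37,8976)]],[[24],[28,29],[15],[15],[36,37]],83076749736557242056487941267521536,0⟩
def t4_r16 : Row := ⟨65792,[[(0,0),(25,12801),(25,12546),(25,8451)],[(0,0),(31,12801),(31,12546),(31,8451)],[(0,0),(17,12801),(17,12546),(17,8451)],[(0,0),(36,12816),(36,12576),(36,8496)],[(0,0),(17,12816),(17,12576),(17,8496)]],[[25],[31],[17],[36],[17]],442721857769029238784,0⟩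
def t4_r17 : Row := ⟨131328,[[(0,0),(0,0),(26,12546),(26,8451)],[(0,0),(30,12801),(32,12546),(32,8451)],[(0,0),(16,12801),(17,12306),(17,8211)],[(0,0),(0,0),(37,12576),(37,8496)],[(16,12816),(0,0),(17,12576),(17,8496)]],[[26],[30,32],[16,17],[37],[16,17]],295147905179352825856,0⟩
def t4_r18 : Row := ⟨135168,[[(0,0),(0,0),(27,12546),(27,8451)],[(33,12816),(34,12801),(35,12546),(35,8451)],[(0,0),(36,12801),(37,12546),(37,8451)],[(0,0),(0,0),(18,12306),(18,8211)],[(0,0),(0,0),(18,12576),(18,8496)]],[[27],[33,34,35],[36,37],[18],[18]],17592186044416,0⟩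
def t4_r19 : Row := ⟨801,[[(0,0),(0,0),(0,0),(19,531)],[(0,0),(0,0),(0,0),(19,4656)],[(0,0),(0,0),(0,0),(19,8976)],[(0,0),(38,12816),(0,0),(39,12816)],[(0,0),(40,12816),(41,12816),(42,12816)]],[[19],[19],[19],[38,39],[40,41,42]],0,66902235595591869424607154817945084517941248⟩
def t4_r20 : Row := ⟨8225,[[(0,0),(0,0),(20,12306),(20,8211)],[(0,0),(0,0),(21,12576),(21,8496)],[(0,0),(0,0),(38,12816),(38,8976)],[(0,0),(0,0),(21,12816),(21,8976)],[(0,0),(0,0),(43,12816),(43,8976)]],[[20],[21],[38],[21],[43]],0,6646139978924579364519035301401722880⟩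
def t4_r21 : Row := ⟨12321,[[(0,0),(0,0),(0,0),(21,531)],[(0,0),(0,0),(20,12576),(21,4656)],[(0,0),(0,0),(0,0),(39,8976)],[(0,0),(20,12816),(0,0),(21,8976)],[(0,0),(44,12816),(0,0),(45,12816)]],[[21],[20,21],[39],[20,21],[44,45]],0,3987683987354747618711421180841033728⟩
def t4_r22 : Row := ⟨131105,[[(0,0),(0,0),(22,12306),(22,8211)],[(0,0),(0,0),(23,12576),(23,8496)],[(0,0),(0,0),(40,12816),(40,8976)],[(0,0),(0,0),(44,12816),(44,8976)],[(0,0),(0,0),(23,12816),(23,8976)]],[[22],[23],[40],[44],[23]],0,14167099448608935641088⟩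
def t4_r23 : Row := ⟨196641,[[(0,0),(0,0),(0,0),(23,531)],[(0,0),(0,0),(22,12576),(23,4656)],[(0,0),(0,0),(41,12816),(42,8976)],[(0,0),(43,12816),(0,0),(45,8976)],[(0,0),(22,12816),(0,0),(23,8976)]],[[23],[22,23],[41,42],[43,45],[22,23]],0,14167099448608935641088⟩
def t4_r24 : Row := ⟨12801,[[(0,0),(0,0),(0,0),(24,531)],[(0,0),(0,0),(38,12576),(39,8496)],[(0,0),(0,0),(0,0),(24,4656)],[(0,0),(0,0),(0,0),(24,8976)],[(0,0),(46,12816),(0,0),(47,12816)]],[[24],[38,39],[24],[24],[46,47]],0,973555660975280180349468061728768⟩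
def t4_r25 : Row := ⟨131585,[[(0,0),(0,0),(25,12306),(25,8211)],[(0,0),(0,0),(41,12576),(41,8496)],[(0,0),(0,0),(26,12576),(26,8496)],[(0,0),(0,0),(46,12816),(46,8976)],[(0,0),(0,0),(26,12816),(26,8976)]],[[25],[41],[26],[46],[26]],0,5764607523034234880⟩
def t4_r26 : Row := ⟨197121,[[(0,0),(0,0),(0,0),(26,531)],[(0,0),(0,0),(40,12576),(42,8496)],[(0,0),(0,0),(25,12576),(26,4656)],[(0,0),(0,0),(0,0),(47,8976)],[(0,0),(25,12816),(0,0),(26,8976)]],[[26],[40,42],[25,26],[47],[25,26]],0,3458764513820540928⟩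
def t4_r27 : Row := ⟨204801,[[(0,0),(0,0),(0,0),(27,531)],[(0,0),(43,12816),(44,12576),(45,8496)],[(0,0),(0,0),(46,12576),(47,8496)],[(0,0),(0,0),(0,0),(27,4656)],[(0,0),(0,0),(0,0),(27,8976)]],[[27],[43,44,45],[46,47],[27],[27]],0,206158430208⟩
def t4_r28 : Row := ⟨4624,[[(0,0),(0,0),(38,12546),(38,8451)],[(0,0),(0,0),(29,12306),(29,8211)],[(0,0),(0,0),(28,12576),(28,8496)],[(0,0),(0,0),(29,12816),(29,8976)],[(0,0),(48,12816),(49,12816),(49,8976)]],[[38],[29],[28],[29],[48,49]],0,15211807202738752817960438464512⟩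
def t4_r29 : Row := ⟨12816,[[(0,0),(0,0),(0,0),(39,8451)],[(0,0),(0,0),(28,12306),(29,531)],[(0,0),(0,0),(0,0),(29,4656)],[(28,12816),(0,0),(0,0),(29,8976)],[(50,12816),(51,12816),(0,0),(52,12816)]],[[39],[28,29],[29],[28,29],[50,51,52]],0,10141204801825835211973625643008⟩
def t4_r30 : Row := ⟨66064,[[(0,0),(0,0),(40,12546),(40,8451)],[(0,0),(0,0),(32,12306),(32,8211)],[(0,0),(0,0),(30,12576),(30,8496)],[(0,0),(0,0),(50,12816),(50,8976)],[(0,0),(31,12816),(32,12816),(32,8976)]],[[40],[32],[30],[50],[31,32]],0,54043195528445952⟩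
def t4_r31 : Row := ⟨131600,[[(0,0),(0,0),(41,12546),(41,8451)],[(0,0),(0,0),(31,12306),(31,8211)],[(0,0),(0,0),(32,12576),(32,8496)],[(48,12816),(0,0),(51,12816),(51,8976)],[(30,12816),(0,0),(32,12816),(32,8976)]],[[41],[31],[32],[48,51],[30,32]],0,54043195528445952⟩
def t4_r32 : Row := ⟨197136,[[(0,0),(0,0),(0,0),(42,8451)],[(0,0),(0,0),(30,12306),(32,531)],[(0,0),(0,0),(31,12576),(32,4656)],[(49,12816),(0,0),(0,0),(52,8976)],[(30,12816),(31,12816),(0,0),(32,8976)]],[[42],[30,32],[31,32],[49,52],[30,31,32]],0,36028797018963968⟩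
def t4_r33 : Row := ⟨135184,[[(0,0),(0,0),(43,12546),(43,8451)],[(0,0),(34,12801),(35,12546),(35,8451)],[(0,0),(48,12816),(49,12576),(49,8496)],[(0,0),(0,0),(35,12576),(35,8496)],[(0,0),(0,0),(33,12576),(33,8496)]],[[43],[34,35],[48,49],[35],[33]],0,3221225472⟩
def t4_r34 : Row := ⟨73744,[[(0,0),(0,0),(44,12546),(44,8451)],[(0,0),(33,12801),(35,12306),(35,8211)],[(0,0),(0,0),(50,12576),(50,8496)],[(0,0),(0,0),(34,12576),(34,8496)],[(0,0),(0,0),(35,12816),(35,8976)]],[[44],[33,35],[50],[34],[35]],0,3221225472⟩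
def t4_r35 : Row := ⟨204816,[[(0,0),(0,0),(0,0),(45,8451)],[(0,0),(33,12321),(34,12306),(35,531)],[(0,0),(0,0),(51,12576),(52,8496)],[(33,12576),(0,0),(0,0),(35,4656)],[(34,12816),(0,0),(0,0),(35,8976)]],[[45],[33,34,35],[51,52],[33,35],[34,35]],0,2147483648⟩
def t4_r36 : Row := ⟨73984,[[(0,0),(0,0),(46,12546),(46,8451)],[(0,0),(48,12801),(51,12546),(51,8451)],[(0,0),(0,0),(37,12306),(37,8211)],[(0,0),(0,0),(36,12576),(36,8496)],[(0,0),(0,0),(37,12816),(37,8976)]],[[46],[48,51],[37],[36],[37]],0,786432⟩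
def t4_r37 : Row := ⟨205056,[[(0,0),(0,0),(0,0),(47,8451)],[(0,0),(49,12801),(50,12546),(52,8451)],[(0,0),(0,0),(36,12306),(37,531)],[(0,0),(0,0),(0,0),(37,4656)],[(36,12816),(0,0),(0,0),(37,8976)]],[[47],[49,50,52],[36,37],[37],[36,37]],0,524288⟩
def t4_r38 : Row := ⟨8993,[[(0,0),(0,0),(0,0),(38,531)],[(0,0),(0,0),(0,0),(39,4656)],[(0,0),(0,0),(0,0),(38,8976)],[(0,0),(0,0),(0,0),(39,12816)],[(0,0),(0,0),(53,12816),(54,12816)]],[[38],[39],[38],[39],[53,54]],316912650057057350374175801344,0⟩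
def t4_r39 : Row := ⟨17185,[[(0,0),(0,0),(0,0),(0,0)],[(0,0),(0,0),(0,0),(38,4656)],[(0,0),(0,0),(0,0),(0,0)],[(0,0),(38,12816),(0,0),(0,0)],[(0,0),(55,12816),(56,12816),(0,0)]],[[],[38],[],[38],[55,56]],158456325028528675187087900672,0⟩
def t4_r40 : Row := ⟨131873,[[(0,0),(0,0),(0,0),(40,531)],[(0,0),(0,0),(0,0),(42,4656)],[(0,0),(0,0),(0,0),(40,8976)],[(0,0),(0,0),(0,0),(55,12816)],[(0,0),(0,0),(41,12816),(42,12816)]],[[40],[42],[40],[55],[41,42]],562949953421312,0⟩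
def t4_r41 : Row := ⟨197409,[[(0,0),(0,0),(0,0),(41,531)],[(0,0),(0,0),(0,0),(41,4656)],[(0,0),(0,0),(0,0),(42,8976)],[(0,0),(53,12816),(0,0),(56,12816)],[(0,0),(40,12816),(0,0),(42,12816)]],[[41],[41],[42],[53,56],[40,42]],1125899906842624,0⟩
def t4_r42 : Row := ⟨262945,[[(0,0),(0,0),(0,0),(0,0)],[(0,0),(0,0),(0,0),(40,4656)],[(0,0),(0,0),(0,0),(41,8976)],[(0,0),(54,12816),(0,0),(0,0)],[(0,0),(40,12816),(41,12816),(0,0)]],[[],[40],[41],[54],[40,41]],562949953421312,0⟩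
def t4_r43 : Row := ⟨204833,[[(0,0),(0,0),(0,0),(43,531)],[(0,0),(0,0),(44,12576),(45,8496)],[(0,0),(0,0),(53,12816),(54,8976)],[(0,0),(0,0),(0,0),(45,8976)],[(0,0),(0,0),(0,0),(43,8976)]],[[43],[44,45],[53,54],[45],[43]],67108864,0⟩
def t4_r44 : Row := ⟨143393,[[(0,0),(0,0),(0,0),(44,531)],[(0,0),(0,0),(43,12576),(45,4656)],[(0,0),(0,0),(0,0),(55,8976)],[(0,0),(0,0),(0,0),(44,8976)],[(0,0),(0,0),(0,0),(45,12816)]],[[44],[43,45],[55],[44],[45]],33554432,0⟩
def t4_r45 : Row := ⟨274465,[[(0,0),(0,0),(0,0),(0,0)],[(0,0),(0,0),(43,4896),(44,4656)],[(0,0),(0,0),(0,0),(56,8976)],[(0,0),(43,8976),(0,0),(0,0)],[(0,0),(44,12816),(0,0),(0,0)]],[[],[43,44],[56],[43],[44]],33554432,0⟩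
def t4_r46 : Row := ⟨143873,[[(0,0),(0,0),(0,0),(46,531)],[(0,0),(0,0),(53,12576),(56,8496)],[(0,0),(0,0),(0,0),(47,4656)],[(0,0),(0,0),(0,0),(46,8976)],[(0,0),(0,0),(0,0),(47,12816)]],[[46],[53,56],[47],[46],[47]],16384,0⟩
def t4_r47 : Row := ⟨274945,[[(0,0),(0,0),(0,0),(0,0)],[(0,0),(0,0),(54,12576),(55,8496)],[(0,0),(0,0),(0,0),(46,4656)],[(0,0),(0,0),(0,0),(0,0)],[(0,0),(46,12816),(0,0),(0,0)]],[[],[54,55],[46],[],[46]],8192,0⟩
def t4_r48 : Row := ⟨135696,[[(0,0),(0,0),(53,12546),(53,8451)],[(0,0),(0,0),(51,12306),(51,8211)],[(0,0),(0,0),(49,12576),(49,8496)],[(0,0),(0,0),(51,12816),(51,8976)],[(0,0),(0,0),(49,12816),(49,8976)]],[[53],[51],[49],[51],[49]],256,0⟩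
def t4_r49 : Row := ⟨201232,[[(0,0),(0,0),(0,0),(54,8451)],[(0,0),(0,0),(50,12306),(52,8211)],[(0,0),(0,0),(48,12576),(49,4656)],[(0,0),(0,0),(0,0),(52,8976)],[(0,0),(48,12816),(0,0),(49,8976)]],[[54],[50,52],[48,49],[52],[48,49]],128,0⟩
def t4_r50 : Row := ⟨78352,[[(0,0),(0,0),(0,0),(55,8451)],[(0,0),(0,0),(49,12306),(52,531)],[(0,0),(0,0),(0,0),(50,4656)],[(0,0),(0,0),(0,0),(50,8976)],[(0,0),(51,12816),(0,0),(52,12816)]],[[55],[49,52],[50],[50],[51,52]],128,0⟩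
def t4_r51 : Row := ⟨143888,[[(0,0),(0,0),(0,0),(56,8451)],[(0,0),(0,0),(48,12306),(51,531)],[(0,0),(0,0),(0,0),(52,4656)],[(48,12816),(0,0),(0,0),(51,8976)],[(50,12816),(0,0),(0,0),(52,12816)]],[[56],[48,51],[52],[48,51],[50,52]],128,0⟩
def t4_r52 : Row := ⟨274960,[[(0,0),(0,0),(0,0),(0,0)],[(0,0),(0,0),(49,786),(50,531)],[(0,0),(0,0),(0,0),(51,4656)],[(49,8976),(0,0),(0,0),(0,0)],[(50,12816),(51,12816),(0,0),(0,0)]],[[],[49,50],[51],[49],[50,51]],64,0⟩
def t4_r53 : Row := ⟨205601,[[(0,0),(0,0),(0,0),(53,531)],[(0,0),(0,0),(0,0),(56,4656)],[(0,0),(0,0),(0,0),(54,8976)],[(0,0),(0,0),(0,0),(56,12816)],[(0,0),(0,0),(0,0),(54,12816)]],[[53],[56],[54],[56],[54]],787799261018983273456662938730987843256243723254537658624,305039588608998805956646816964162097002367114693361291840⟩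
def t4_r54 : Row := ⟨271137,[[(0,0),(0,0),(0,0),(0,0)],[(0,0),(0,0),(0,0),(55,4656)],[(0,0),(0,0),(0,0),(53,8976)],[(0,0),(0,0),(0,0),(0,0)],[(0,0),(0,0),(53,12816),(0,0)]],[[],[55],[53],[],[53]],398521869491425331116482526472162090137415317558800162880,99636535482328276984326425278686714717591183264231731264⟩
def t4_r55 : Row := ⟨148257,[[(0,0),(0,0),(0,0),(0,0)],[(0,0),(0,0),(0,0),(54,4656)],[(0,0),(0,0),(0,0),(0,0)],[(0,0),(0,0),(0,0),(0,0)],[(0,0),(0,0),(56,12816),(0,0)]],[[],[54],[],[],[56]],199273071147522653702252603671359551476134313957710635072,99636535482328266092632876537280718940192347196099940416⟩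
def t4_r56 : Row := ⟨213793,[[(0,0),(0,0),(0,0),(0,0)],[(0,0),(0,0),(0,0),(53,4656)],[(0,0),(0,0),(0,0),(0,0)],[(0,0),(53,12816),(0,0),(0,0)],[(0,0),(55,12816),(0,0),(0,0)]],[[],[53],[],[53],[55]],398738452159379766007172115509505599850223619378925551680,99636535665038271504193622740319216868326226324495831104⟩
def t4 : Tr Row := .node (.node (.node (.node (.node (.node (.leaf t4_r0) (.leaf t4_r32)) (.node (.leaf t4_r16) (.leaf t4_r48))) (.node (.node (.leaf t4_r8) (.leaf t4_r40)) (.node (.leaf t4_r24) (.leaf t4_r56)))) (.node (.node (.node (.leaf t4_r4) (.leaf t4_r36)) (.node (.leaf t4_r20) (.leaf t4_r52))) (.node (.node (.leaf t4_r12) (.leaf t4_r44)) (.node (.leaf t4_r28) (.leaf t4_r0))))) (.node (.node (.node (.node (.leaf t4_r2) (.leaf t4_r34)) (.node (.leaf t4_r18) (.leaf t4_r50))) (.node (.node (.leaf t4_r10) (.leaf t4_r42)) (.node (.leaf t4_r26) (.leaf t4_r0)))) (.node (.node (.node (.leaf t4_r6) (.leaf t4_r38))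 (.node (.leaf t4_r22) (.leaf t4_r54))) (.node (.node (.leaf t4_r14) (.leaf t4_r46)) (.node (.leaf t4_r30) (.leaf t4_r0)))))) (.node (.node (.node (.node (.node (.leaf t4_r1) (.leaf t4_r33)) (.node (.leaf t4_r17) (.leaf t4_r49))) (.node (.node (.leaf t4_r9) (.leaf t4_r41)) (.node (.leaf t4_r25) (.leaf t4_r0)))) (.node (.node (.node (.leaf t4_r5) (.leaf t4_r37)) (.node (.leaf t4_r21) (.leaf t4_r53))) (.node (.node (.leaf t4_r13) (.leaf t4_r45)) (.node (.leaf t4_r29) (.leaf t4_r0))))) (.node (.node (.node (.node (.leaf t4_r3) (.leaf t4_r35)) (.node (.leaf t4_r19) (.leaf t4_r51))) (.node (.node (.leaf t4_r11) (.leaf t4_r43)) (.node (.leaf t4_r27) (.leaf t4_r0)))) (.node (.node (.node (.leaf t4_r7) (.leaf t4_r39)) (.node (.leaf t4_r23) (.leaf t4_r55))) (.node (.node (.leaf t4_r15) (.leaf t4_r47)) (.node (.leaf t4_r31) (.leaf t4_r0))))))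
theorem chk4 : chkAll 5 4 6 60 adj t4 = true := by decide +kernel

theorem val4 (m : ℕ) (hm : m < 60) : BobWithin fan m (start (Fin 5) 4) ↔ 8 ≤ m := by
  have h := chk_start adj_spec chk4 (by decide +kernel) (by decide +kernel) m hm
  rw [h]
  have : valN 6 (t4.get 0) (2 ^ 5 - 1) false = 8 := by decide +kernel
  rw [this]

def t5_r0 : Row := ⟨0,[[(1,274960),(1,274945),(1,274690),(1,270595),(1,205060)],[(2,274960),(2,274945),(2,274690),(2,270595),(2,205060)],[(3,274960),(3,274945),(3,274690),(3,270595),(3,205060)],[(4,274960),(4,274945),(4,274690),(4,270595),(4,205060)],[(5,274960),(5,274945),(5,274690),(5,270595),(5,205060)]],[[1],[2],[3],[4],[5]],2550072580000839060308289453178114481541581899313514020864,0⟩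
def t5_r1 : Row := ⟨1,[[(0,0),(1,274945),(1,274690),(1,270595),(1,205060)],[(0,0),(6,274960),(6,274720),(6,270640),(6,205120)],[(0,0),(7,274960),(7,274720),(7,270640),(7,205120)],[(0,0),(8,274960),(8,274720),(8,270640),(8,205120)],[(0,0),(9,274960),(9,274720),(9,270640),(9,205120)]],[[1],[6],[7],[8],[9]],0,38312388521647221458958675678757729590468478054590054400⟩
def t5_r2 : Row := ⟨16,[[(0,0),(6,274945),(6,274690),(6,270595),(6,205060)],[(0,0),(2,274945),(2,274690),(2,270595),(2,205060)],[(0,0),(10,274960),(10,274720),(10,270640),(10,205120)],[(11,274960),(12,274960),(12,274720),(12,270640),(12,205120)],[(13,274960),(14,274960),(14,274720),(14,270640),(14,205120)]],[[6],[2],[10],[11,12],[13,14]],0,359178642390442701177737584488353714910641981761781760⟩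
def t5_r3 : Row := ⟨256,[[(0,0),(7,274945),(7,274690),(7,270595),(7,205060)],[(0,0),(10,274945),(10,274690),(10,270595),(10,205060)],[(0,0),(3,274945),(3,274690),(3,270595),(3,205060)],[(0,0),(15,274960),(15,274720),(15,270640),(15,205120)],[(16,274960),(17,274960),(17,274720),(17,270640),(17,205120)]],[[7],[10],[3],[15],[16,17]],0,87690098239854175092221089962976981179355952578560⟩
def t5_r4 : Row := ⟨4096,[[(0,0),(8,274945),(8,274690),(8,270595),(8,205060)],[(11,274960),(12,274945),(12,274690),(12,270595),(12,205060)],[(0,0),(15,274945),(15,274690),(15,270595),(15,205060)],[(0,0),(4,274945),(4,274690),(4,270595),(4,205060)],[(0,0),(18,274960),(18,274720),(18,270640),(18,205120)]],[[8],[11,12],[15],[4],[18]],0,5226737155905614798797433970151959727964160⟩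
def t5_r5 : Row := ⟨65536,[[(0,0),(9,274945),(9,274690),(9,270595),(9,205060)],[(13,274960),(14,274945),(14,274690),(14,270595),(14,205060)],[(16,274960),(17,274945),(17,274690),(17,270595),(17,205060)],[(0,0),(18,274945),(18,274690),(18,270595),(18,205060)],[(0,0),(5,274945),(5,274690),(5,270595),(5,205060)]],[[9],[13,14],[16,17],[18],[5]],0,18569100589280704123486863360⟩
def t5_r6 : Row := ⟨33,[[(0,0),(0,0),(6,274450),(6,270355),(6,204820)],[(0,0),(0,0),(6,274720),(6,270640),(6,205120)],[(0,0),(0,0),(19,274960),(19,271120),(19,205840)],[(0,0),(20,274960),(21,274960),(21,271120),(21,205840)],[(0,0),(22,274960),(23,274960),(23,271120),(23,205840)]],[[6],[6],[19],[20,21],[22,23]],8979466059761067529443439612208842872766049544044544,0⟩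
def t5_r7 : Row := ⟨513,[[(0,0),(0,0),(7,274450),(7,270355),(7,204820)],[(0,0),(0,0),(19,274720),(19,270640),(19,205120)],[(0,0),(0,0),(7,274720),(7,270640),(7,205120)],[(0,0),(0,0),(24,274960),(24,271120),(24,205840)],[(0,0),(25,274960),(26,274960),(26,271120),(26,205840)]],[[7],[19],[7],[24],[25,26]],2192252455996354377305527249074424529483898814464,0⟩
def t5_r8 : Row := ⟨8193,[[(0,0),(0,0),(8,274450),(8,270355),(8,204820)],[(0,0),(20,274960),(21,274720),(21,270640),(21,205120)],[(0,0),(0,0),(24,274720),(24,270640),(24,205120)],[(0,0),(0,0),(8,274720),(8,270640),(8,205120)],[(0,0),(0,0),(27,274960),(27,271120),(27,205840)]],[[8],[20,21],[24],[8],[27]],130668428897640369969935849253798993199104,0⟩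
def t5_r9 : Row := ⟨131073,[[(0,0),(0,0),(9,274450),(9,270355),(9,204820)],[(0,0),(22,274960),(23,274720),(23,270640),(23,205120)],[(0,0),(25,274960),(26,274720),(26,270640),(26,205120)],[(0,0),(0,0),(27,274720),(27,270640),(27,205120)],[(0,0),(0,0),(9,274720),(9,270640),(9,205120)]],[[9],[22,23],[25,26],[27],[9]],464227514732017603087171584,0⟩
def t5_r10 : Row := ⟨528,[[(0,0),(0,0),(19,274690),(19,270595),(19,205060)],[(0,0),(0,0),(10,274450),(10,270355),(10,204820)],[(0,0),(0,0),(10,274720),(10,270640),(10,205120)],[(28,274960),(0,0),(29,274960),(29,271120),(29,205840)],[(30,274960),(31,274960),(32,274960),(32,271120),(32,205840)]],[[19],[10],[10],[28,29],[30,31,32]],34253944624943037145398863266787883273185918976,0⟩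
def t5_r11 : Row := ⟨4112,[[(0,0),(20,274945),(20,274690),(20,270595),(20,205060)],[(0,0),(12,274945),(12,274690),(12,270595),(12,205060)],[(0,0),(28,274960),(28,274720),(28,270640),(28,205120)],[(0,0),(12,274960),(12,274720),(12,270640),(12,205120)],[(0,0),(33,274960),(33,274720),(33,270640),(33,205120)]],[[20],[12],[28],[12],[33]],2041694201525630780780247644590609268736,0⟩
def t5_r12 : Row := ⟨8208,[[(0,0),(0,0),(21,274690),(21,270595),(21,205060)],[(0,0),(11,274945),(12,274450),(12,270355),(12,204820)],[(0,0),(0,0),(29,274720),(29,270640),(29,205120)],[(11,274960),(0,0),(12,274720),(12,270640),(12,205120)],[(34,274960),(0,0),(35,274960),(35,271120),(35,205840)]],[[21],[11,12],[29],[11,12],[34,35]],1190988284223284622121811126011188740096,0⟩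
def t5_r13 : Row := ⟨65552,[[(0,0),(22,274945),(22,274690),(22,270595),(22,205060)],[(0,0),(14,274945),(14,274690),(14,270595),(14,205060)],[(0,0),(30,274960),(30,274720),(30,270640),(30,205120)],[(0,0),(34,274960),(34,274720),(34,270640),(34,205120)],[(0,0),(14,274960),(14,274720),(14,270640),(14,205120)]],[[22],[14],[30],[34],[14]],4231240368651202111471616,0⟩
def t5_r14 : Row := ⟨131088,[[(0,0),(0,0),(23,274690),(23,270595),(23,205060)],[(0,0),(13,274945),(14,274450),(14,270355),(14,204820)],[(0,0),(31,274960),(32,274720),(32,270640),(32,205120)],[(33,274960),(0,0),(35,274720),(35,270640),(35,205120)],[(13,274960),(0,0),(14,274720),(14,270640),(14,205120)]],[[23],[13,14],[31,32],[33,35],[13,14]],7253554917687775048237056,0⟩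
def t5_r15 : Row := ⟨8448,[[(0,0),(0,0),(24,274690),(24,270595),(24,205060)],[(0,0),(28,274945),(29,274690),(29,270595),(29,205060)],[(0,0),(0,0),(15,274450),(15,270355),(15,204820)],[(0,0),(0,0),(15,274720),(15,270640),(15,205120)],[(36,274960),(0,0),(37,274960),(37,271120),(37,205840)]],[[24],[28,29],[15],[15],[36,37]],498460498419343452338927647605129216,0⟩
def t5_r16 : Row := ⟨65792,[[(0,0),(25,274945),(25,274690),(25,270595),(25,205060)],[(0,0),(31,274945),(31,274690),(31,270595),(31,205060)],[(0,0),(17,274945),(17,274690),(17,270595),(17,205060)],[(0,0),(36,274960),(36,274720),(36,270640),(36,205120)],[(0,0),(17,274960),(17,274720),(17,270640),(17,205120)]],[[25],[31],[17],[36],[17]],1770887431076116955136,0⟩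
def t5_r17 : Row := ⟨131328,[[(0,0),(0,0),(26,274690),(26,270595),(26,205060)],[(0,0),(30,274945),(32,274690),(32,270595),(32,205060)],[(0,0),(16,274945),(17,274450),(17,270355),(17,204820)],[(0,0),(0,0),(37,274720),(37,270640),(37,205120)],[(16,274960),(0,0),(17,274720),(17,270640),(17,205120)]],[[26],[30,32],[16,17],[37],[16,17]],1033017668127734890496,0⟩
def t5_r18 : Row := ⟨135168,[[(0,0),(0,0),(27,274690),(27,270595),(27,205060)],[(33,274960),(34,274945),(35,274690),(35,270595),(35,205060)],[(0,0),(36,274945),(37,274690),(37,270595),(37,205060)],[(0,0),(0,0),(18,274450),(18,270355),(18,204820)],[(0,0),(0,0),(18,274720),(18,270640),(18,205120)]],[[27],[33,34,35],[36,37],[18],[18]],105553116266496,0⟩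
def t5_r19 : Row := ⟨801,[[(0,0),(0,0),(0,0),(19,262675),(19,197140)],[(0,0),(0,0),(0,0),(19,266800),(19,201280)],[(0,0),(0,0),(0,0),(19,271120),(19,205840)],[(0,0),(38,274960),(0,0),(39,274960),(39,213520)],[(0,0),(40,274960),(41,274960),(42,274960),(42,213520)]],[[19],[19],[19],[38,39],[40,41,42]],0,289909687580898100839964337544428699577745408⟩
def t5_r20 : Row := ⟨8225,[[(0,0),(0,0),(20,274450),(20,270355),(20,204820)],[(0,0),(0,0),(21,274720),(21,270640),(21,205120)],[(0,0),(0,0),(38,274960),(38,271120),(38,205840)],[(0,0),(0,0),(21,274960),(21,271120),(21,205840)],[(0,0),(0,0),(43,274960),(43,271120),(43,205840)]],[[20],[21],[38],[21],[43]],0,30572243903053065076787562386447925248⟩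
def t5_r21 : Row := ⟨12321,[[(0,0),(0,0),(0,0),(21,262675),(21,197140)],[(0,0),(0,0),(20,274720),(21,266800),(21,201280)],[(0,0),(0,0),(0,0),(39,271120),(39,205840)],[(0,0),(20,274960),(0,0),(21,271120),(21,205840)],[(0,0),(44,274960),(0,0),(45,274960),(45,213520)]],[[21],[20,21],[39],[20,21],[44,45]],0,17279963945203906347749491783644479488⟩
def t5_r22 : Row := ⟨131105,[[(0,0),(0,0),(22,274450),(22,270355),(22,204820)],[(0,0),(0,0),(23,274720),(23,270640),(23,205120)],[(0,0),(0,0),(40,274960),(40,271120),(40,205840)],[(0,0),(0,0),(44,274960),(44,271120),(44,205840)],[(0,0),(0,0),(23,274960),(23,271120),(23,205840)]],[[22],[23],[40],[44],[23]],0,61390764277305387778048⟩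
def t5_r23 : Row := ⟨196641,[[(0,0),(0,0),(0,0),(23,262675),(23,197140)],[(0,0),(0,0),(22,274720),(23,266800),(23,201280)],[(0,0),(0,0),(41,274960),(42,271120),(42,205840)],[(0,0),(43,274960),(0,0),(45,271120),(45,205840)],[(0,0),(22,274960),(0,0),(23,271120),(23,205840)]],[[23],[22,23],[41,42],[43,45],[22,23]],0,108614429106001839915008⟩
def t5_r24 : Row := ⟨12801,[[(0,0),(0,0),(0,0),(24,262675),(24,197140)],[(0,0),(0,0),(38,274720),(39,270640),(39,205120)],[(0,0),(0,0),(0,0),(24,266800),(24,201280)],[(0,0),(0,0),(0,0),(24,271120),(24,205840)],[(0,0),(46,274960),(0,0),(47,274960),(47,213520)]],[[24],[38,39],[24],[24],[46,47]],0,7463926734143814716012588473253888⟩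
def t5_r25 : Row := ⟨131585,[[(0,0),(0,0),(25,274450),(25,270355),(25,204820)],[(0,0),(0,0),(41,274720),(41,270640),(41,205120)],[(0,0),(0,0),(26,274720),(26,270640),(26,205120)],[(0,0),(0,0),(46,274960),(46,271120),(46,205840)],[(0,0),(0,0),(26,274960),(26,271120),(26,205840)]],[[25],[41],[26],[46],[26]],0,26517194605957480448⟩
def t5_r26 : Row := ⟨197121,[[(0,0),(0,0),(0,0),(26,262675),(26,197140)],[(0,0),(0,0),(40,274720),(42,270640),(42,205120)],[(0,0),(0,0),(25,274720),(26,266800),(26,201280)],[(0,0),(0,0),(0,0),(47,271120),(47,205840)],[(0,0),(25,274960),(0,0),(26,271120),(26,205840)]],[[26],[40,42],[25,26],[47],[25,26]],0,14987979559889010688⟩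
def t5_r27 : Row := ⟨204801,[[(0,0),(0,0),(0,0),(27,262675),(27,197140)],[(0,0),(43,274960),(44,274720),(45,270640),(45,205120)],[(0,0),(0,0),(46,274720),(47,270640),(47,205120)],[(0,0),(0,0),(0,0),(27,266800),(27,201280)],[(0,0),(0,0),(0,0),(27,271120),(27,205840)]],[[27],[43,44,45],[46,47],[27],[27]],0,893353197568⟩
def t5_r28 : Row := ⟨4624,[[(0,0),(0,0),(38,274690),(38,270595),(38,205060)],[(0,0),(0,0),(29,274450),(29,270355),(29,204820)],[(0,0),(0,0),(28,274720),(28,270640),(28,205120)],[(0,0),(0,0),(29,274960),(29,271120),(29,205840)],[(0,0),(48,274960),(49,274960),(49,271120),(49,205840)]],[[38],[29],[28],[29],[48,49]],0,116623855220997104937696694894592⟩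
def t5_r29 : Row := ⟨12816,[[(0,0),(0,0),(0,0),(39,270595),(39,205060)],[(0,0),(0,0),(28,274450),(29,262675),(29,197140)],[(0,0),(0,0),(0,0),(29,266800),(29,201280)],[(28,274960),(0,0),(0,0),(29,271120),(29,205840)],[(50,274960),(51,274960),(0,0),(52,274960),(52,213520)]],[[39],[28,29],[29],[28,29],[50,51,52]],0,15211807202738752817960438464512⟩
def t5_r30 : Row := ⟨66064,[[(0,0),(0,0),(40,274690),(40,270595),(40,205060)],[(0,0),(0,0),(32,274450),(32,270355),(32,204820)],[(0,0),(0,0),(30,274720),(30,270640),(30,205120)],[(0,0),(0,0),(50,274960),(50,271120),(50,205840)],[(0,0),(31,274960),(32,274960),(32,271120),(32,205840)]],[[40],[32],[30],[50],[31,32]],0,234187180623265792⟩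
def t5_r31 : Row := ⟨131600,[[(0,0),(0,0),(41,274690),(41,270595),(41,205060)],[(0,0),(0,0),(31,274450),(31,270355),(31,204820)],[(0,0),(0,0),(32,274720),(32,270640),(32,205120)],[(48,274960),(0,0),(51,274960),(51,271120),(51,205840)],[(30,274960),(0,0),(32,274960),(32,271120),(32,205840)]],[[41],[31],[32],[48,51],[30,32]],0,414331165718085632⟩
def t5_r32 : Row := ⟨197136,[[(0,0),(0,0),(0,0),(42,270595),(42,205060)],[(0,0),(0,0),(30,274450),(32,262675),(32,197140)],[(0,0),(0,0),(31,274720),(32,266800),(32,201280)],[(49,274960),(0,0),(0,0),(52,271120),(52,205840)],[(30,274960),(31,274960),(0,0),(32,271120),(32,205840)]],[[42],[30,32],[31,32],[49,52],[30,31,32]],0,54043195528445952⟩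
def t5_r33 : Row := ⟨135184,[[(0,0),(0,0),(43,274690),(43,270595),(43,205060)],[(0,0),(34,274945),(35,274690),(35,270595),(35,205060)],[(0,0),(48,274960),(49,274720),(49,270640),(49,205120)],[(0,0),(0,0),(35,274720),(35,270640),(35,205120)],[(0,0),(0,0),(33,274720),(33,270640),(33,205120)]],[[43],[34,35],[48,49],[35],[33]],0,24696061952⟩
def t5_r34 : Row := ⟨73744,[[(0,0),(0,0),(44,274690),(44,270595),(44,205060)],[(0,0),(33,274945),(35,274450),(35,270355),(35,204820)],[(0,0),(0,0),(50,274720),(50,270640),(50,205120)],[(0,0),(0,0),(34,274720),(34,270640),(34,205120)],[(0,0),(0,0),(35,274960),(35,271120),(35,205840)]],[[44],[33,35],[50],[34],[35]],0,13958643712⟩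
def t5_r35 : Row := ⟨204816,[[(0,0),(0,0),(0,0),(45,270595),(45,205060)],[(0,0),(33,274465),(34,274450),(35,262675),(35,197140)],[(0,0),(0,0),(51,274720),(52,270640),(52,205120)],[(33,274720),(0,0),(0,0),(35,266800),(35,201280)],[(34,274960),(0,0),(0,0),(35,271120),(35,205840)]],[[45],[33,34,35],[51,52],[33,35],[34,35]],0,3221225472⟩
def t5_r36 : Row := ⟨73984,[[(0,0),(0,0),(46,274690),(46,270595),(46,205060)],[(0,0),(48,274945),(51,274690),(51,270595),(51,205060)],[(0,0),(0,0),(37,274450),(37,270355),(37,204820)],[(0,0),(0,0),(36,274720),(36,270640),(36,205120)],[(0,0),(0,0),(37,274960),(37,271120),(37,205840)]],[[46],[48,51],[37],[36],[37]],0,6029312⟩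
def t5_r37 : Row := ⟨205056,[[(0,0),(0,0),(0,0),(47,270595),(47,205060)],[(0,0),(49,274945),(50,274690),(52,270595),(52,205060)],[(0,0),(0,0),(36,274450),(37,262675),(37,197140)],[(0,0),(0,0),(0,0),(37,266800),(37,201280)],[(36,274960),(0,0),(0,0),(37,271120),(37,205840)]],[[47],[49,50,52],[36,37],[37],[36,37]],0,786432⟩
def t5_r38 : Row := ⟨8993,[[(0,0),(0,0),(0,0),(38,262675),(38,197140)],[(0,0),(0,0),(0,0),(39,266800),(39,201280)],[(0,0),(0,0),(0,0),(38,271120),(38,205840)],[(0,0),(0,0),(0,0),(39,274960),(39,213520)],[(0,0),(0,0),(53,274960),(54,274960),(54,213520)]],[[38],[39],[38],[39],[53,54]],1743019575313815427057966907392,0⟩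
def t5_r39 : Row := ⟨17185,[[(0,0),(0,0),(0,0),(0,0),(39,12820)],[(0,0),(0,0),(0,0),(38,266800),(39,78400)],[(0,0),(0,0),(0,0),(0,0),(39,144400)],[(0,0),(38,274960),(0,0),(0,0),(39,213520)],[(0,0),(55,274960),(56,274960),(0,0),(57,274960)]],[[39],[38,39],[39],[38,39],[55,56,57]],1743019575313815427057966907392,0⟩
def t5_r40 : Row := ⟨131873,[[(0,0),(0,0),(0,0),(40,262675),(40,197140)],[(0,0),(0,0),(0,0),(42,266800),(42,201280)],[(0,0),(0,0),(0,0),(40,271120),(40,205840)],[(0,0),(0,0),(0,0),(55,274960),(55,213520)],[(0,0),(0,0),(41,274960),(42,274960),(42,213520)]],[[40],[42],[40],[55],[41,42]],3377699720527872,0⟩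
def t5_r41 : Row := ⟨197409,[[(0,0),(0,0),(0,0),(41,262675),(41,197140)],[(0,0),(0,0),(0,0),(41,266800),(41,201280)],[(0,0),(0,0),(0,0),(42,271120),(42,205840)],[(0,0),(53,274960),(0,0),(56,274960),(56,213520)],[(0,0),(40,274960),(0,0),(42,274960),(42,213520)]],[[41],[41],[42],[53,56],[40,42]],6192449487634432,0⟩
def t5_r42 : Row := ⟨262945,[[(0,0),(0,0),(0,0),(0,0),(42,12820)],[(0,0),(0,0),(0,0),(40,266800),(42,78400)],[(0,0),(0,0),(0,0),(41,271120),(42,144400)],[(0,0),(54,274960),(0,0),(0,0),(57,213520)],[(0,0),(40,274960),(41,274960),(0,0),(42,213520)]],[[42],[40,42],[41,42],[54,57],[40,41,42]],6192449487634432,0⟩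
def t5_r43 : Row := ⟨204833,[[(0,0),(0,0),(0,0),(43,262675),(43,197140)],[(0,0),(0,0),(44,274720),(45,270640),(45,205120)],[(0,0),(0,0),(53,274960),(54,271120),(54,205840)],[(0,0),(0,0),(0,0),(45,271120),(45,205840)],[(0,0),(0,0),(0,0),(43,271120),(43,205840)]],[[43],[44,45],[53,54],[45],[43]],369098752,0⟩
def t5_r44 : Row := ⟨143393,[[(0,0),(0,0),(0,0),(44,262675),(44,197140)],[(0,0),(0,0),(43,274720),(45,266800),(45,201280)],[(0,0),(0,0),(0,0),(55,271120),(55,205840)],[(0,0),(0,0),(0,0),(44,271120),(44,205840)],[(0,0),(0,0),(0,0),(45,274960),(45,213520)]],[[44],[43,45],[55],[44],[45]],201326592,0⟩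
def t5_r45 : Row := ⟨274465,[[(0,0),(0,0),(0,0),(0,0),(45,12820)],[(0,0),(0,0),(43,267040),(44,266800),(45,78400)],[(0,0),(0,0),(0,0),(56,271120),(57,205840)],[(0,0),(43,271120),(0,0),(0,0),(45,144400)],[(0,0),(44,274960),(0,0),(0,0),(45,213520)]],[[45],[43,44,45],[56,57],[43,45],[44,45]],369098752,0⟩
def t5_r46 : Row := ⟨143873,[[(0,0),(0,0),(0,0),(46,262675),(46,197140)],[(0,0),(0,0),(53,274720),(56,270640),(56,205120)],[(0,0),(0,0),(0,0),(47,266800),(47,201280)],[(0,0),(0,0),(0,0),(46,271120),(46,205840)],[(0,0),(0,0),(0,0),(47,274960),(47,213520)]],[[46],[53,56],[47],[46],[47]],90112,0⟩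
def t5_r47 : Row := ⟨274945,[[(0,0),(0,0),(0,0),(0,0),(47,12820)],[(0,0),(0,0),(54,274720),(55,270640),(57,205120)],[(0,0),(0,0),(0,0),(46,266800),(47,78400)],[(0,0),(0,0),(0,0),(0,0),(47,144400)],[(0,0),(46,274960),(0,0),(0,0),(47,213520)]],[[47],[54,55,57],[46,47],[47],[46,47]],90112,0⟩
def t5_r48 : Row := ⟨135696,[[(0,0),(0,0),(53,274690),(53,270595),(53,205060)],[(0,0),(0,0),(51,274450),(51,270355),(51,204820)],[(0,0),(0,0),(49,274720),(49,270640),(49,205120)],[(0,0),(0,0),(51,274960),(51,271120),(51,205840)],[(0,0),(0,0),(49,274960),(49,271120),(49,205840)]],[[53],[51],[49],[51],[49]],1408,0⟩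
def t5_r49 : Row := ⟨201232,[[(0,0),(0,0),(0,0),(54,270595),(54,205060)],[(0,0),(0,0),(50,274450),(52,270355),(52,204820)],[(0,0),(0,0),(48,274720),(49,266800),(49,201280)],[(0,0),(0,0),(0,0),(52,271120),(52,205840)],[(0,0),(48,274960),(0,0),(49,271120),(49,205840)]],[[54],[50,52],[48,49],[52],[48,49]],1408,0⟩
def t5_r50 : Row := ⟨78352,[[(0,0),(0,0),(0,0),(55,270595),(55,205060)],[(0,0),(0,0),(49,274450),(52,262675),(52,197140)],[(0,0),(0,0),(0,0),(50,266800),(50,201280)],[(0,0),(0,0),(0,0),(50,271120),(50,205840)],[(0,0),(51,274960),(0,0),(52,274960),(52,213520)]],[[55],[49,52],[50],[50],[51,52]],768,0⟩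
def t5_r51 : Row := ⟨143888,[[(0,0),(0,0),(0,0),(56,270595),(56,205060)],[(0,0),(0,0),(48,274450),(51,262675),(51,197140)],[(0,0),(0,0),(0,0),(52,266800),(52,201280)],[(48,274960),(0,0),(0,0),(51,271120),(51,205840)],[(50,274960),(0,0),(0,0),(52,274960),(52,213520)]],[[56],[48,51],[52],[48,51],[50,52]],1408,0⟩
def t5_r52 : Row := ⟨274960,[[(0,0),(0,0),(0,0),(0,0),(57,205060)],[(0,0),(0,0),(49,262930),(50,262675),(52,12820)],[(0,0),(0,0),(0,0),(51,266800),(52,78400)],[(49,271120),(0,0),(0,0),(0,0),(52,144400)],[(50,274960),(51,274960),(0,0),(0,0),(52,213520)]],[[57],[49,50,52],[51,52],[49,52],[50,51,52]],128,0⟩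
def t5_r53 : Row := ⟨205601,[[(0,0),(0,0),(0,0),(53,262675),(53,197140)],[(0,0),(0,0),(0,0),(56,266800),(56,201280)],[(0,0),(0,0),(0,0),(54,271120),(54,205840)],[(0,0),(0,0),(0,0),(56,274960),(56,213520)],[(0,0),(0,0),(0,0),(54,274960),(54,213520)]],[[53],[56],[54],[56],[54]],2581206751901384984840976307777029537919304361536924509568,2098352772270305164790220694638583444423870520982956218048⟩
def t5_r54 : Row := ⟨271137,[[(0,0),(0,0),(0,0),(0,0),(54,12820)],[(0,0),(0,0),(0,0),(55,266800),(57,201280)],[(0,0),(0,0),(0,0),(53,271120),(54,144400)],[(0,0),(0,0),(0,0),(0,0),(57,213520)],[(0,0),(0,0),(53,274960),(0,0),(54,213520)]],[[54],[55,57],[53,54],[57],[53,54]],1600166412816970737884174932740653273675664755809573193088,2082784622989190875024639845325237737090526024552858285120⟩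
def t5_r55 : Row := ⟨148257,[[(0,0),(0,0),(0,0),(0,0),(55,12820)],[(0,0),(0,0),(0,0),(54,266800),(57,78400)],[(0,0),(0,0),(0,0),(0,0),(55,144400)],[(0,0),(0,0),(0,0),(0,0),(55,213520)],[(0,0),(0,0),(56,274960),(0,0),(57,274960)]],[[55],[54,57],[55],[55],[56,57]],1600413348133614219985001449369423821496318073430616924928,1086666262885276714093543728824325846811745251756618576960⟩
def t5_r56 : Row := ⟨213793,[[(0,0),(0,0),(0,0),(0,0),(56,12820)],[(0,0),(0,0),(0,0),(53,266800),(56,78400)],[(0,0),(0,0),(0,0),(0,0),(57,144400)],[(0,0),(53,274960),(0,0),(0,0),(56,213520)],[(0,0),(55,274960),(0,0),(0,0),(57,274960)]],[[56],[53,56],[57],[53,56],[55,57]],1600413347220175697503893041989422101699775365898403145088,2083027757502637744004666382013369601904104795369943929920⟩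
def t5_r57 : Row := ⟨344865,[[(0,0),(0,0),(0,0),(0,0),(0,0)],[(0,0),(0,0),(0,0),(54,82480),(55,78400)],[(0,0),(0,0),(0,0),(0,0),(56,144400)],[(0,0),(54,213520),(0,0),(0,0),(0,0)],[(0,0),(55,274960),(56,274960),(0,0),(0,0)]],[[],[54,55],[56],[54],[55,56]],619616201979445351486365269295575125691183168083785769024,105773253889793691270347469189334363312282741841944973376⟩
def t5 : Tr Row := .node (.node (.node (.node (.node (.node (.leaf t5_r0) (.leaf t5_r32)) (.node (.leaf t5_r16) (.leaf t5_r48))) (.node (.node (.leaf t5_r8) (.leaf t5_r40)) (.node (.leaf t5_r24) (.leaf t5_r56)))) (.node (.node (.node (.leaf t5_r4) (.leaf t5_r36)) (.node (.leaf t5_r20) (.leaf t5_r52))) (.node (.node (.leaf t5_r12) (.leaf t5_r44)) (.node (.leaf t5_r28) (.leaf t5_r0))))) (.node (.node (.node (.node (.leaf t5_r2) (.leaf t5_r34)) (.node (.leaf t5_r18) (.leaf t5_r50))) (.node (.node (.leaf t5_r10) (.leaf t5_r42)) (.node (.leaf t5_r26) (.leaf t5_r0))))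 (.node (.node (.node (.leaf t5_r6) (.leaf t5_r38)) (.node (.leaf t5_r22) (.leaf t5_r54))) (.node (.node (.leaf t5_r14) (.leaf t5_r46)) (.node (.leaf t5_r30) (.leaf t5_r0)))))) (.node (.node (.node (.node (.node (.leaf t5_r1) (.leaf t5_r33)) (.node (.leaf t5_r17) (.leaf t5_r49))) (.node (.node (.leaf t5_r9) (.leaf t5_r41)) (.node (.leaf t5_r25) (.leaf t5_r57)))) (.node (.node (.node (.leaf t5_r5) (.leaf t5_r37)) (.node (.leaf t5_r21) (.leaf t5_r53))) (.node (.node (.leaf t5_r13) (.leaf t5_r45)) (.node (.leaf t5_r29) (.leaf t5_r0))))) (.node (.node (.node (.node (.leaf t5_r3) (.leaf t5_r35)) (.node (.leaf t5_r19) (.leaf t5_r51))) (.node (.node (.leaf t5_r11) (.leaf t5_r43)) (.node (.leaf t5_r27) (.leaf t5_r0)))) (.node (.node (.node (.leaf t5_r7) (.leaf t5_r39)) (.node (.leaf t5_r23) (.leaf t5_r55))) (.node (.node (.leaf t5_r15) (.leaf t5_r47)) (.node (.leaf t5_r31) (.leaf t5_r0))))))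
theorem chk5 : chkAll 5 5 6 60 adj t5 = true := by decide +kernel

theorem val5 (m : ℕ) (hm : m < 60) : BobWithin fan m (start (Fin 5) 5) ↔ 26 ≤ m := by
  have h := chk_start adj_spec chk5 (by decide +kernel) (by decide +kernel) m hm
  rw [h]
  have : valN 6 (t5.get 0) (2 ^ 5 - 1) false = 26 := by decide +kernel
  rw [this]

end Pool.Agent.R57.Eternal.Fan
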