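import Pool.Agent.R57.KagSign

/-!
Two 3-colourings of the periodic kagome lattice with different signs.
-/

set_option autoImplicit false

namespace Pool.Agent.R57.Kag

open Pool.Agent.H411R2.WSK

variable {n : ℕ}

noncomputable def E (hn : 2 ≤ n) : X n × Fin 3 ≃ (honeycomb n).edgeSet :=
  Equiv.ofBijective (fun p => e p.1 p.2)
    ⟨fun p q h => Prod.ext (e_inj hn h).1 (e_inj hn h).2, fun a => by
      obtain ⟨x, t, h⟩ := e_surj a
      exact ⟨(x, t), h⟩⟩

theorem E_symm (hn : 2 ≤ n) (x : X n) (t : Fin 3) : (E hn).symm (e x t) = (x, t) := by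
  rw [Equiv.symm_apply_eq]; rfl

/-- `τ i x` is the direction of the edge of colour `i` at `(x, A)`. -/
structure Dat (τ : Fin 3 → X n → Fin 3) : Prop where
  A : ∀ x, Function.Injective (fun i => τ i x)
  B : ∀ i, Function.Injective (fun x => x - d (τ i x))

noncomputable def tp {τ : Fin 3 → X n → Fin 3} (hτ : Dat τ) (x : X n) : Equiv.Perm (Fin 3) :=
  Equiv.ofBijective (fun i => τ i x) (Finite.injective_iff_bijective.1 (hτ.A x))

theorem tp_apply {τ : Fin 3 → X n → Fin 3} (hτ : Dat τ) (x : X n) (i : Fin 3) :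
    tp hτ x i = τ i x := rfl

/-- the colouring with given data -/
noncomputable def mk (hn : 2 ≤ n) {τ : Fin 3 → X n → Fin 3} (hτ : Dat τ) :
    (kagome n).Coloring (Fin 3) :=
  SimpleGraph.Coloring.mk (fun a => (tp hτ ((E hn).symm a).1).symm ((E hn).symm a).2) (by
    intro a b hab h
    obtain ⟨x, t, rfl⟩ := e_surj a
    obtain ⟨x', t', rfl⟩ := e_surj b
    rw [E_symm, E_symm] at h
    simp only at h
    rw [adj_iff] at hab
    obtain ⟨hne, h1 | h1⟩ := hab
    · subst h1
      apply hne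
      rw [(tp hτ x).symm.injective h]
    · have e1 : τ ((tp hτ x).symm t) x = t := by rw [← tp_apply hτ]; simp
      have e2 : τ ((tp hτ x).symm t) x' = t' := by rw [h, ← tp_apply hτ]; simp
      have h2 : x = x' := by
        apply hτ.B ((tp hτ x).symm t)
        show x - d (τ ((tp hτ x).symm t) x) = x' - d (τ ((tp hτ x).symm t) x')
        rw [e1, e2, h1]
      subst h2
      apply hne
      rw [(tp hτ x).symm.injective h])

theorem mk_e (hn : 2 ≤ n) {τ : Fin 3 → X n → Fin 3} (hτ : Dat τ) (x : X n) (t : Fin 3) :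
    mk hn hτ (e x t) = (tp hτ x).symm t := by
  show (tp hτ ((E hn).symm (e x t)).1).symm ((E hn).symm (e x t)).2 = _
  rw [E_symm]

theorem pi_mk (hn : 2 ≤ n) {τ : Fin 3 → X n → Fin 3} (hτ : Dat τ) (i : Fin 3) (x : X n) :
    pi hn (mk hn hτ) i x = x - d (τ i x) := by
  rw [pi_apply]
  congr 2
  rw [Equiv.symm_apply_eq, pm_apply, mk_e, Equiv.eq_symm_apply, tp_apply]

/-! ### The colouring by directions -/

theorem dat0 : Dat (fun i (_ : X n) => i) :=
  ⟨fun _ _ _ h => h, fun _ _ _ h => sub_left_injective h⟩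

section signs

variable [NeZero n]

/-- the cyclic shift -/
def sh (n : ℕ) : Equiv.Perm (ZMod n) := Equiv.subRight 1

theorem sh_apply (a : ZMod n) : sh n a = a - 1 := rfl

theorem sh_pow (k : ℕ) (a : ZMod n) : (sh n ^ k) a = a - k := by
  induction k with
  | zero => simp
  | succ k ih => rw [pow_succ', Equiv.Perm.mul_apply, ih, sh_apply]; push_cast; ring

theorem sign_sh_pow : Equiv.Perm.sign (sh n) ^ n = 1 := by
  rw [← map_pow]
  have : sh n ^ n = 1 := by
    ext1 a
    rw [sh_pow]; simp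
  rw [this, map_one]

theorem sign_sub (i : Fin 3) : Equiv.Perm.sign (Equiv.subRight (d i) : Equiv.Perm (X n)) = 1 := by
  fin_cases i
  · have : (Equiv.subRight (d 0) : Equiv.Perm (X n)) = 1 := by
      ext1 x
      simp [d]
    show Equiv.Perm.sign (Equiv.subRight (d 0) : Equiv.Perm (X n)) = 1
    rw [this, map_one]
  · have : (Equiv.subRight (d 1) : Equiv.Perm (X n)) = Equiv.prodCongrLeft (fun _ : ZMod n => sh n) := by
      ext1 x
      obtain ⟨a, b⟩ := x
      simp [d, sh_apply]
    show Equiv.Perm.sign (Equiv.subRight (d 1) : Equiv.Perm (X n)) = 1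
    rw [this, Equiv.Perm.sign_prodCongrLeft, Finset.prod_const, Finset.card_univ, ZMod.card,
      sign_sh_pow]
  · have : (Equiv.subRight (d 2) : Equiv.Perm (X n)) = Equiv.prodCongrRight (fun _ : ZMod n => sh n) := by
      ext1 x
      obtain ⟨a, b⟩ := x
      simp [d, sh_apply]
    show Equiv.Perm.sign (Equiv.subRight (d 2) : Equiv.Perm (X n)) = 1
    rw [this, Equiv.Perm.sign_prodCongrRight, Finset.prod_const, Finset.card_univ, ZMod.card,
      sign_sh_pow]

theorem eps0 (hn : 2 ≤ n) : eps hn (mk hn dat0) = 1 := by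
  unfold eps
  apply Finset.prod_eq_one
  intro i _
  have : pi hn (mk hn dat0) i = Equiv.subRight (d i) := by
    ext1 x
    rw [pi_mk]; rfl
  rw [this]
  convert sign_sub (n := n) i

end signs

/-! ### The second colouring -/

/-- the direction of the edge of colour `0` -/
def t0 (p : X n) : Fin 3 :=
  if (p.1 = 0 ∧ p.2 ≠ 0 ∧ p.2 ≠ 1) ∨ (p.1 = 1 ∧ p.2 = 0) ∨ (p.1 = -1 ∧ p.2 = 1) then 2
  else if (p.2 = 0 ∧ p.1 ≠ 0 ∧ p.1 ≠ 1) ∨ (p.1 = 0 ∧ p.2 = 1) ∨ (p.1 = 1 ∧ p.2 = -1) then 1
  else 0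

/-- the rotation of the lattice -/
def Phi (n : ℕ) : Equiv.Perm (X n) where
  toFun p := (-p.1 - p.2, p.1)
  invFun p := (p.2, -p.1 - p.2)
  left_inv p := Prod.ext rfl (by ring)
  right_inv p := Prod.ext (by ring) rfl

def tt (i : Fin 3) (p : X n) : Fin 3 :=
  match i with
  | 0 => t0 p
  | 1 => t0 ((Phi n)⁻¹ p) + 1
  | 2 => t0 ((Phi n) p) + 2

theorem one_ne (hn : 3 ≤ n) : (1 : ZMod n) ≠ 0 := by
  have : Fact (1 < n) := ⟨by omega⟩
  exact one_ne_zero

theorem two_ne (hn : 3 ≤ n) : (1 : ZMod n) ≠ -1 := by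
  intro h
  have h2 : ((2 : ℕ) : ZMod n) = 0 := by
    push_cast
    linear_combination h
  rw [ZMod.natCast_eq_zero_iff] at h2
  have := Nat.le_of_dvd (by norm_num) h2
  omega

/-- the perfect matching of colour `0` as a product of simple permutations -/
noncomputable def P0 (n : ℕ) : Equiv.Perm (X n) :=
  Equiv.swap (0, 0) (-1, 1) *
    ((Equiv.Perm.prodExtendRight 0 (sh n) *
      (Equiv.prodComm (ZMod n) (ZMod n)).symm.permCongr (Equiv.Perm.prodExtendRight 0 (sh n))) *
      (Equiv.swap (0, 0) (-1, 1) * Equiv.swap (1, 0) (1, -1)))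

theorem C_apply (a b : ZMod n) : (Equiv.Perm.prodExtendRight 0 (sh n) : Equiv.Perm (X n)) (a, b) =
    if a = 0 then (0, b - 1) else (a, b) := by
  split_ifs with h
  · subst h; rw [Equiv.Perm.prodExtendRight_apply_eq]; rfl
  · rw [Equiv.Perm.prodExtendRight_apply_ne _ h]

theorem R_apply (a b : ZMod n) : ((Equiv.prodComm (ZMod n) (ZMod n)).symm.permCongr
    (Equiv.Perm.prodExtendRight 0 (sh n)) : Equiv.Perm (X n)) (a, b) =
    if b = 0 then (a - 1, 0) else (a, b) := by
  rw [Equiv.permCongr_apply]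
  show (Equiv.prodComm (ZMod n) (ZMod n)).symm (Equiv.Perm.prodExtendRight 0 (sh n) (b, a)) = _
  rw [C_apply]
  split_ifs <;> rfl

theorem P0_apply (hn : 3 ≤ n) (p : X n) : P0 n p = p - d (t0 p) := by
  have h1 := one_ne hn
  have h2 := two_ne hn
  have h1' : (-1 : ZMod n) ≠ 0 := neg_ne_zero.2 h1
  have h2' : (-1 : ZMod n) ≠ 1 := h2.symm
  obtain ⟨a, b⟩ := p
  unfold P0
  simp only [Equiv.Perm.mul_apply]
  by_cases hp : a = 1 ∧ b = 0
  · obtain ⟨rfl, rfl⟩ := hp
    have hw : Equiv.swap ((0 : ZMod n), (0 : ZMod n)) (-1, 1) (1, -1) = (1, -1) :=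
      Equiv.swap_apply_of_ne_of_ne (by simp [h1]) (by simp [h2])
    rw [Equiv.swap_apply_left, hw, R_apply, if_neg h1', C_apply, if_neg h1, hw]
    simp [t0, d, h1, h2, h1', h2']
  by_cases hq : a = 1 ∧ b = -1
  · obtain ⟨rfl, rfl⟩ := hq
    have hw : Equiv.swap ((0 : ZMod n), (0 : ZMod n)) (-1, 1) (1, 0) = (1, 0) :=
      Equiv.swap_apply_of_ne_of_ne (by simp [h1]) (by simp [h2])
    have hw2 : Equiv.swap ((0 : ZMod n), (0 : ZMod n)) (-1, 1) (0, 0 - 1) = (0, 0 - 1) :=
      Equiv.swap_apply_of_ne_of_ne (by simp [h1]) (by simp [h1'.symm])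
    rw [Equiv.swap_apply_right, hw, R_apply, if_pos rfl, C_apply, if_pos (by simp), hw2]
    simp [t0, d, h1, h2, h1', h2']
  rw [Equiv.swap_apply_of_ne_of_ne (x := (a, b)) (by simpa using hp) (by simpa using hq)]
  by_cases h0 : a = 0 ∧ b = 0
  · obtain ⟨rfl, rfl⟩ := h0
    rw [Equiv.swap_apply_left, R_apply, if_neg h1, C_apply, if_neg h1', Equiv.swap_apply_right]
    simp [t0, d, h1.symm, h1'.symm]
  by_cases hm : a = -1 ∧ b = 1
  · obtain ⟨rfl, rfl⟩ := hm
    rw [Equiv.swap_apply_right, R_apply, if_pos rfl, C_apply, if_neg (by simpa using h1),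
      Equiv.swap_apply_of_ne_of_ne (by simp [h1]) (by simp [h1.symm])]
    simp [t0, d, h1, h2, h1', h2']
  rw [Equiv.swap_apply_of_ne_of_ne (x := (a, b)) (by simpa using h0) (by simpa using hm)]
  by_cases ha : a = 0
  · subst ha
    have hb : b ≠ 0 := fun h => h0 ⟨rfl, h⟩
    rw [R_apply, if_neg hb, C_apply, if_pos rfl]
    by_cases hb1 : b = 1
    · subst hb1
      simp only [sub_self]
      rw [Equiv.swap_apply_left]
      simp [t0, d, h1, h1.symm, h1'.symm]
    · have hb1' : b - 1 ≠ 0 := sub_ne_zero.2 hb1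
      rw [Equiv.swap_apply_of_ne_of_ne (by simp [hb1']) (by simp [h1'.symm])]
      simp [t0, d, hb, hb1, h1.symm, h1'.symm]
  · by_cases hb : b = 0
    · subst hb
      have ha1 : a ≠ 1 := fun h => hp ⟨h, rfl⟩
      have ha1' : a - 1 ≠ 0 := sub_ne_zero.2 ha1
      rw [R_apply, if_pos rfl, C_apply, if_neg ha1', Equiv.swap_apply_of_ne_of_ne (by simp [ha1']) (by simp [h1.symm])]
      simp [t0, d, ha, ha1, h1.symm]
    · rw [R_apply, if_neg hb, C_apply, if_neg ha, Equiv.swap_apply_of_ne_of_ne (by simp [ha]) (by simpa using hm)]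
      have e1 : t0 (a, b) = 0 := by
        unfold t0
        rw [if_neg, if_neg]
        · simp only; tauto
        · simp only; tauto
      rw [e1]; simp [d]

theorem sign_P0 [NeZero n] (hn : 3 ≤ n) : Equiv.Perm.sign (P0 n) = -1 := by
  have h1 := one_ne hn
  unfold P0
  simp only [map_mul, Equiv.Perm.sign_prodExtendRight, Equiv.Perm.sign_permCongr]
  rw [Equiv.Perm.sign_swap (by simp [h1]), Equiv.Perm.sign_swap (by simp [h1])]
  generalize Equiv.Perm.sign (sh n) = s
  rcases Int.units_eq_one_or s with rfl | rfl <;> simp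

theorem Phi_d (t : Fin 3) : Phi n (d t) = d (t + 1) - d 1 := by
  fin_cases t
  · show Phi n (d 0) = d (0 + 1) - d 1
    simp [Phi, d]
  · show Phi n (d 1) = d (1 + 1) - d 1
    simp [Phi, d]
  · show Phi n (d 2) = d (2 + 1) - d 1
    simp [Phi, d]

theorem Phi_sub (p q : X n) : Phi n (p - q) = Phi n p - Phi n q := by
  ext
  · simp [Phi]; ring
  · simp [Phi]

theorem Phi_cube (p : X n) : Phi n (Phi n (Phi n p)) = p := by
  ext
  · simp only [Phi, Equiv.coe_fn_mk]; ring
  · simp only [Phi, Equiv.coe_fn_mk]; ring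

theorem Phi_inv (p : X n) : (Phi n)⁻¹ p = Phi n (Phi n p) := by
  rw [Equiv.Perm.inv_eq_iff_eq, Phi_cube]

noncomputable def PP (n : ℕ) (i : Fin 3) : Equiv.Perm (X n) :=
  match i with
  | 0 => P0 n
  | 1 => Equiv.subRight (d 1) * (Phi n * P0 n * (Phi n)⁻¹)
  | 2 => Equiv.subRight (d 2) * ((Phi n)⁻¹ * P0 n * Phi n)

theorem PP_apply (hn : 3 ≤ n) (i : Fin 3) (p : X n) : PP n i p = p - d (tt i p) := by
  fin_cases i
  · exact P0_apply hn p
  · show (Phi n (P0 n ((Phi n)⁻¹ p))) - d 1 = p - d (t0 ((Phi n)⁻¹ p) + 1)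
    rw [P0_apply hn, Phi_sub, Phi_d]
    have : Phi n ((Phi n)⁻¹ p) = p := by simp
    rw [this]; abel
  · show ((Phi n)⁻¹ (P0 n (Phi n p))) - d 2 = p - d (t0 (Phi n p) + 2)
    rw [P0_apply hn, Phi_inv, Phi_sub, Phi_sub, Phi_cube, Phi_d, Phi_sub, Phi_d, Phi_d]
    have h3 : t0 (Phi n p) + 1 + 1 = t0 (Phi n p) + 2 := by rw [add_assoc]; rfl
    have h4 : (1 : Fin 3) + 1 = 2 := rfl
    rw [h3, h4]; abel

theorem sign_PP [NeZero n] (hn : 3 ≤ n) (i : Fin 3) : Equiv.Perm.sign (PP n i) = -1 := by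
  fin_cases i
  · exact sign_P0 hn
  · show Equiv.Perm.sign (Equiv.subRight (d 1) * (Phi n * P0 n * (Phi n)⁻¹)) = -1
    rw [map_mul, map_mul, map_mul, sign_sub, map_inv, sign_P0 hn]
    generalize Equiv.Perm.sign (Phi n) = s
    rcases Int.units_eq_one_or s with rfl | rfl <;> simp
  · show Equiv.Perm.sign (Equiv.subRight (d 2) * ((Phi n)⁻¹ * P0 n * Phi n)) = -1
    rw [map_mul, map_mul, map_mul, sign_sub, map_inv, sign_P0 hn]
    generalize Equiv.Perm.sign (Phi n) = s
    rcases Int.units_eq_one_or s with rfl | rfl <;> simp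

theorem dat1 (hn : 3 ≤ n) : Dat (tt : Fin 3 → X n → Fin 3) := by
  have h1 := one_ne hn
  have h2 := two_ne hn
  have h1' : (-1 : ZMod n) ≠ 0 := neg_ne_zero.2 h1
  have h2' : (-1 : ZMod n) ≠ 1 := h2.symm
  constructor
  · intro p
    obtain ⟨a, b⟩ := p
    have key : (tt 0 (a, b) ≠ tt 1 (a, b) ∧ tt 0 (a, b) ≠ tt 2 (a, b)) ∧
        tt 1 (a, b) ≠ tt 2 (a, b) := by
      obtain ⟨c, hc⟩ : ∃ c, c = -a - b := ⟨_, rfl⟩
      have e0 : tt 0 (a, b) = t0 (a, b) := rfl
      have e1 : tt 1 (a, b) = t0 (b, c) + 1 := by rw [hc]; rfl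
      have e2 : tt 2 (a, b) = t0 (c, a) + 2 := by rw [hc]; rfl
      have ha : a = -b - c := by rw [hc]; ring
      have hb : b = -c - a := by rw [hc]; ring
      rw [e0, e1, e2]
      by_cases ha0 : a = 0
      · subst ha0
        have hcb : c = -b := by rw [hc]; ring
        subst hcb
        by_cases hb0 : b = 0
        · subst hb0
          simp [t0, h1.symm, h1'.symm]
        · by_cases hb1 : b = 1
          · subst hb1
            simp [t0, h1, h2, h1', h2', h1.symm, h1'.symm]
          · by_cases hbm : b = -1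
            · subst hbm
              simp [t0, h1, h2, h1', h2', h1.symm, h1'.symm]
            · have hb1' : -b ≠ 1 := fun h => hbm (by rw [← h]; ring)
              simp [t0, hb0, hb1, hbm, hb1', h1.symm, h1'.symm]
      · by_cases hb0 : b = 0
        · subst hb0
          have hca : c = -a := by rw [hc]; ring
          subst hca
          by_cases ha1 : a = 1
          · subst ha1
            simp [t0, h1, h2, h1', h2', h1.symm, h1'.symm]
          · by_cases ham : a = -1
            · subst ham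
              simp [t0, h1, h2, h1', h2', h1.symm, h1'.symm]
            · have ha1' : -a ≠ 1 := fun h => ham (by rw [← h]; ring)
              simp [t0, ha0, ha1, ham, ha1', h1.symm, h1'.symm]
        · by_cases hc0 : c = 0
          · subst hc0
            have hba : b = -a := by rw [hb]; ring
            subst hba
            by_cases ha1 : a = 1
            · subst ha1
              simp [t0, h1, h2, h1', h2', h1.symm, h1'.symm]
            · by_cases ham : a = -1
              · subst ham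
                simp [t0, h1, h2, h1', h2', h1.symm, h1'.symm]
              · have ha1' : -a ≠ 1 := fun h => ham (by rw [← h]; ring)
                simp [t0, ha0, ha1, ham, ha1', h1.symm, h1'.symm]
          · have hz : ∀ x y z : ZMod n, x ≠ 0 → y ≠ 0 → z ≠ 0 → x = -y - z → t0 (x, y) = 0 := by
              intro x y z hx hy hz hxyz
              unfold t0
              have g1 : ¬ (x = -1 ∧ y = 1) := by
                rintro ⟨rfl, rfl⟩
                apply hz
                linear_combination hxyz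
              have g2 : ¬ (x = 1 ∧ y = -1) := by
                rintro ⟨rfl, rfl⟩
                apply hz
                linear_combination hxyz
              rw [if_neg, if_neg]
              · simp only; tauto
              · simp only; tauto
            rw [hz a b c ha0 hb0 hc0 ha, hz b c a hb0 hc0 ha0 hb, hz c a b hc0 ha0 hb0 hc]
            decide
    intro i j hij
    simp only at hij
    obtain ⟨⟨k1, k2⟩, k3⟩ := key
    fin_cases i <;> fin_cases j <;> first | rfl | (exfalso; first | exact k1 hij | exact k2 hij | exact k3 hij | exact k1 hij.symm | exact k2 hij.symm | exact k3 hij.symm)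
  · intro i p q h
    simp only at h
    rw [← PP_apply hn, ← PP_apply hn] at h
    exact (PP n i).injective h

theorem eps1 (hn : 3 ≤ n) (hn2 : 2 ≤ n) : eps hn2 (mk hn2 (dat1 hn)) = -1 := by
  have : NeZero n := ⟨by omega⟩
  unfold eps
  have : ∀ i, pi hn2 (mk hn2 (dat1 hn)) i = PP n i := by
    intro i
    ext1 x
    rw [pi_mk, PP_apply hn]
  rw [Fin.prod_univ_three, this, this, this]
  have h := fun i => sign_PP (n := n) hn i
  have h0 := h 0
  have h1 := h 1
  have h2 := h 2
  rw [h0, h1, h2]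
  simp

theorem not_ergodic (hn : 3 ≤ n) : ¬ WSKErgodic (kagome n) 3 := by
  intro h
  have hn2 : 2 ≤ n := by omega
  have : NeZero n := ⟨by omega⟩
  have h1 := eps_reach hn2 (h (mk hn2 dat0) (mk hn2 (dat1 hn)))
  rw [eps0, eps1 hn] at h1
  exact absurd h1 (by decide)

end Pool.Agent.R57.Kag
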