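import Pool.Agent.H411R2.WSK.Kempe

/-!
The sign of a 3-colouring of the periodic kagome lattice, and its invariance under Kempe changes.
-/

set_option autoImplicit false

namespace Pool.Agent.R57.Kag

open Pool.Agent.H411R2.WSK

abbrev X (n : ℕ) := ZMod n × ZMod n

/-- the three directions of the edges of the honeycomb graph -/
def d {n : ℕ} (t : Fin 3) : X n :=
  match t with
  | 0 => (0, 0)
  | 1 => (1, 0)
  | 2 => (0, 1)

variable {n : ℕ}

theorem adj_e (x : X n) (t : Fin 3) : (honeycomb n).Adj (Sum.inl x) (Sum.inr (x - d t)) := by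
  unfold honeycomb
  rw [SimpleGraph.fromRel_adj]
  refine ⟨by simp, Or.inl ⟨x, rfl, ?_⟩⟩
  fin_cases t
  · left; simp [d]
  · right; left; simp [d]
  · right; right; simp [d]

/-- the edge of direction `t` at the vertex `(x, A)` -/
def e (x : X n) (t : Fin 3) : (honeycomb n).edgeSet :=
  ⟨s(Sum.inl x, Sum.inr (x - d t)), adj_e x t⟩

theorem e_surj (a : (honeycomb n).edgeSet) : ∃ x t, e x t = a := by
  obtain ⟨a, ha⟩ := a
  induction a using Sym2.ind with
  | _ u v =>
    rw [SimpleGraph.mem_edgeSet] at ha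
    unfold honeycomb at ha
    rw [SimpleGraph.fromRel_adj] at ha
    obtain ⟨-, h | h⟩ := ha
    · obtain ⟨x, rfl, rfl | rfl | rfl⟩ := h
      · exact ⟨x, 0, by simp [e, d]⟩
      · exact ⟨x, 1, by simp [e, d]⟩
      · exact ⟨x, 2, by simp [e, d]⟩
    · obtain ⟨x, rfl, rfl | rfl | rfl⟩ := h
      · exact ⟨x, 0, by simp [e, d, Sym2.eq_swap]⟩
      · exact ⟨x, 1, by simp [e, d, Sym2.eq_swap]⟩
      · exact ⟨x, 2, by simp [e, d, Sym2.eq_swap]⟩

theorem d_inj (hn : 2 ≤ n) : Function.Injective (d : Fin 3 → X n) := by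
  have : Fact (1 < n) := ⟨hn⟩
  intro s t h
  fin_cases s <;> fin_cases t <;> simp_all [d]

theorem e_inj (hn : 2 ≤ n) {x x' : X n} {t t' : Fin 3} (h : e x t = e x' t') :
    x = x' ∧ t = t' := by
  have h' : s(Sum.inl x, Sum.inr (x - d t)) = (s(Sum.inl x', Sum.inr (x' - d t')) :
      Sym2 (X n ⊕ X n)) := congrArg Subtype.val h
  rw [Sym2.eq_iff] at h'
  rcases h' with ⟨h1, h2⟩ | ⟨h1, -⟩
  · have hx : x = x' := Sum.inl_injective h1
    subst hx
    refine ⟨rfl, d_inj hn ?_⟩
    have := Sum.inr_injective h2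
    exact sub_right_injective this
  · exact absurd h1 (by simp)

theorem adj_iff {x x' : X n} {t t' : Fin 3} :
    (kagome n).Adj (e x t) (e x' t') ↔
      e x t ≠ e x' t' ∧ (x = x' ∨ x - d t = x' - d t') := by
  unfold kagome
  rw [SimpleGraph.lineGraph_adj_iff_exists]
  refine and_congr_right fun _ => ?_
  constructor
  · rintro ⟨v, hv, hv'⟩
    simp only [e, Sym2.mem_iff] at hv hv'
    rcases hv with rfl | rfl <;> rcases hv' with h | h
    · left; exact Sum.inl_injective h
    · exact absurd h (by simp)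
    · exact absurd h (by simp)
    · right; exact Sum.inr_injective h
  · rintro (rfl | h)
    · exact ⟨Sum.inl x, by simp [e], by simp [e]⟩
    · exact ⟨Sum.inr (x - d t), by simp [e], by simp [e, h]⟩

/-- the colours of the edges at `(x, A)` -/
noncomputable def pm (hn : 2 ≤ n) (c : (kagome n).Coloring (Fin 3)) (x : X n) :
    Equiv.Perm (Fin 3) :=
  Equiv.ofBijective (fun t => c (e x t)) (by
    rw [← Finite.injective_iff_bijective]
    intro t t' h
    by_contra hne
    refine c.valid (adj_iff.2 ⟨?_, Or.inl rfl⟩) h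
    intro he
    exact hne (e_inj hn he).2)

theorem pm_apply (hn : 2 ≤ n) (c : (kagome n).Coloring (Fin 3)) (x : X n) (t : Fin 3) :
    pm hn c x t = c (e x t) := rfl

theorem c_pm_symm (hn : 2 ≤ n) (c : (kagome n).Coloring (Fin 3)) (x : X n) (i : Fin 3) :
    c (e x ((pm hn c x).symm i)) = i := by
  rw [← pm_apply hn]
  exact Equiv.apply_symm_apply _ _

/-- the perfect matching of colour `i`, as a permutation -/
noncomputable def pi (hn : 2 ≤ n) (c : (kagome n).Coloring (Fin 3)) (i : Fin 3) :
    Equiv.Perm (X n) :=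
  haveI : NeZero n := ⟨by omega⟩
  Equiv.ofBijective (fun x => x - d ((pm hn c x).symm i)) (by
    rw [← Finite.injective_iff_bijective]
    intro x x' h
    by_contra hne
    refine c.valid (v := e x ((pm hn c x).symm i)) (w := e x' ((pm hn c x').symm i))
      (adj_iff.2 ⟨?_, Or.inr h⟩) ?_
    · intro he
      exact hne (e_inj hn he).1
    · rw [c_pm_symm, c_pm_symm])

theorem pi_apply (hn : 2 ≤ n) (c : (kagome n).Coloring (Fin 3)) (i : Fin 3) (x : X n) :
    pi hn c i x = x - d ((pm hn c x).symm i) := rfl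

/-- the sign of a colouring -/
noncomputable def eps (hn : 2 ≤ n) (c : (kagome n).Coloring (Fin 3)) : ℤˣ :=
  haveI : NeZero n := ⟨by omega⟩
  ∏ i, Equiv.Perm.sign (pi hn c i)

theorem eps_step (hn : 2 ≤ n) {c c' : (kagome n).Coloring (Fin 3)} (h : KempeStep c c') :
    eps hn c' = eps hn c := by
  have : NeZero n := ⟨by omega⟩
  obtain ⟨a, b, hab, U, hU, hs⟩ := h.closed
  -- the vertices whose edge of colour `a` is in `U`
  set S : Set (X n) := {x | e x ((pm hn c x).symm a) ∈ U} with hS
  have adjA : ∀ (x : X n) (t t' : Fin 3), t ≠ t' → (kagome n).Adj (e x t) (e x t') := by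
    intro x t t' htt
    exact adj_iff.2 ⟨fun he => htt (e_inj hn he).2, Or.inl rfl⟩
  have hSb : ∀ x, x ∈ S ↔ e x ((pm hn c x).symm b) ∈ U := by
    intro x
    have hne : (pm hn c x).symm a ≠ (pm hn c x).symm b := by
      intro h; exact hab ((pm hn c x).symm.injective h)
    constructor
    · intro hx
      exact hU.2 _ hx _ (adjA x _ _ hne) (Or.inr (c_pm_symm hn c x b))
    · intro hx
      exact hU.2 _ hx _ (adjA x _ _ hne.symm) (Or.inl (c_pm_symm hn c x a))
  have hmem : ∀ x t, e x t ∈ U ↔ x ∈ S ∧ (c (e x t) = a ∨ c (e x t) = b) := by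
    intro x t
    constructor
    · intro hx
      have hc := hU.1 _ hx
      refine ⟨?_, hc⟩
      rcases hc with hc | hc
      · have : t = (pm hn c x).symm a := by rw [Equiv.eq_symm_apply, pm_apply, hc]
        rw [hS, Set.mem_ofPred_eq, ← this]; exact hx
      · have : t = (pm hn c x).symm b := by rw [Equiv.eq_symm_apply, pm_apply, hc]
        rw [hSb, ← this]; exact hx
    · rintro ⟨hx, hc | hc⟩
      · have : t = (pm hn c x).symm a := by rw [Equiv.eq_symm_apply, pm_apply, hc]
        rw [this]; exact hx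
      · have : t = (pm hn c x).symm b := by rw [Equiv.eq_symm_apply, pm_apply, hc]
        rw [this]; exact (hSb x).1 hx
  have hc'in : ∀ x ∈ S, ∀ t, c' (e x t) = Equiv.swap a b (c (e x t)) := by
    intro x hx t
    by_cases ht : c (e x t) = a ∨ c (e x t) = b
    · exact hs.1 _ ((hmem x t).2 ⟨hx, ht⟩)
    · rw [hs.2 _ (fun hm => ht ((hmem x t).1 hm).2)]
      push Not at ht
      rw [Equiv.swap_apply_of_ne_of_ne ht.1 ht.2]
  have hc'out : ∀ x ∉ S, ∀ t, c' (e x t) = c (e x t) := by
    intro x hx t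
    exact hs.2 _ (fun hm => hx ((hmem x t).1 hm).1)
  have hpin : ∀ x ∈ S, ∀ i, pi hn c' i x = pi hn c (Equiv.swap a b i) x := by
    intro x hx i
    rw [pi_apply, pi_apply]
    congr 2
    rw [Equiv.symm_apply_eq, pm_apply, hc'in x hx, c_pm_symm, Equiv.swap_apply_self]
  have hpout : ∀ x ∉ S, ∀ i, pi hn c' i x = pi hn c i x := by
    intro x hx i
    rw [pi_apply, pi_apply]
    congr 2
    rw [Equiv.symm_apply_eq, pm_apply, hc'out x hx, c_pm_symm]
  have hthird : ∀ i, i ≠ a → i ≠ b → pi hn c' i = pi hn c i := by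
    intro i hia hib
    ext1 x
    by_cases hx : x ∈ S
    · rw [hpin x hx, Equiv.swap_apply_of_ne_of_ne hia hib]
    · exact hpout x hx i
  -- key identity
  have key : pi hn c' b * ((pi hn c a)⁻¹ * pi hn c' a) = pi hn c b := by
    ext1 x
    rw [Equiv.Perm.mul_apply, Equiv.Perm.mul_apply]
    by_cases hx : x ∈ S
    · have h1 : pi hn c' a x = pi hn c b x := by rw [hpin x hx, Equiv.swap_apply_left]
      rw [h1]
      set z := (pi hn c a)⁻¹ (pi hn c b x) with hz
      have hz' : pi hn c a z = pi hn c b x := by rw [hz]; simp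
      have hzS : z ∈ S := by
        -- the edge of colour `a` at `z` meets the edge of colour `b` at `x`
        have hxb : e x ((pm hn c x).symm b) ∈ U := (hSb x).1 hx
        refine hU.2 _ hxb _ (adj_iff.2 ⟨?_, Or.inr ?_⟩) (Or.inl (c_pm_symm hn c z a))
        · intro he
          have := congrArg c he
          rw [c_pm_symm, c_pm_symm] at this
          exact hab this.symm
        · rw [pi_apply, pi_apply] at hz'
          exact hz'.symm
      rw [hpin z hzS, Equiv.swap_apply_right, hz']
    · have h2 : (pi hn c a)⁻¹ (pi hn c a x) = x := by simp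
      rw [hpout x hx, h2, hpout x hx]
  have hsign : Equiv.Perm.sign (pi hn c' a) * Equiv.Perm.sign (pi hn c' b) =
      Equiv.Perm.sign (pi hn c a) * Equiv.Perm.sign (pi hn c b) := by
    rw [← key]
    simp only [map_mul, map_inv]
    generalize Equiv.Perm.sign (pi hn c' a) = p
    generalize Equiv.Perm.sign (pi hn c' b) = q
    generalize Equiv.Perm.sign (pi hn c a) = r
    rw [mul_comm q, ← mul_assoc, ← mul_assoc, mul_inv_cancel, one_mul]
  unfold eps
  rw [← Finset.mul_prod_erase Finset.univ _ (Finset.mem_univ a),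
    ← Finset.mul_prod_erase Finset.univ (fun i => Equiv.Perm.sign (pi hn c i)) (Finset.mem_univ a),
    ← Finset.mul_prod_erase (Finset.univ.erase a) _ (a := b) (by simp [hab.symm]),
    ← Finset.mul_prod_erase (Finset.univ.erase a) (fun i => Equiv.Perm.sign (pi hn c i)) (a := b)
      (by simp [hab.symm]), ← mul_assoc, ← mul_assoc, hsign]
  congr 1
  apply Finset.prod_congr rfl
  intro i hi
  simp only [Finset.mem_erase, Finset.mem_univ, and_true] at hi
  rw [hthird i hi.2 hi.1]

theorem eps_reach (hn : 2 ≤ n) {c c' : (kagome n).Coloring (Fin 3)}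
    (h : Relation.ReflTransGen KempeStep c c') : eps hn c' = eps hn c := by
  induction h with
  | refl => rfl
  | tail _ h ih => rw [eps_step hn h, ih]

end Pool.Agent.R57.Kag
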