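import Pool.Agent.R57.KagFam

/-!
The WSK dynamics for 3 colours on the `2 × 2` periodic kagome lattice is ergodic.
-/

set_option autoImplicit false

namespace Pool.Agent.R57.Kag

open Pool.Agent.H411R2.WSK

variable {n : ℕ}

structure Move (hn : 2 ≤ n) (c c' : (kagome n).Coloring (Fin 3)) (a b : Fin 3) (S : Set (X n)) :
    Prop where
  ab : a ≠ b
  h1 : ∀ x ∈ S, ∃ z ∈ S, pi hn c a z = pi hn c b x
  h2 : ∀ x ∈ S, ∃ z ∈ S, pi hn c b z = pi hn c a x
  hin : ∀ x ∈ S, pm hn c' x = Equiv.swap a b * pm hn c x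
  hout : ∀ x ∉ S, pm hn c' x = pm hn c x

theorem pi_eq_of (hn : 2 ≤ n) {c c' : (kagome n).Coloring (Fin 3)} {x : X n} {i j : Fin 3}
    (h : (pm hn c' x).symm i = (pm hn c x).symm j) : pi hn c' i x = pi hn c j x := by
  rw [pi_apply, pi_apply, h]

theorem Move.pin {hn : 2 ≤ n} {c c' : (kagome n).Coloring (Fin 3)} {a b : Fin 3} {S : Set (X n)}
    (h : Move hn c c' a b S) {x : X n} (hx : x ∈ S) (i : Fin 3) :
    pi hn c' i x = pi hn c (Equiv.swap a b i) x := by
  apply pi_eq_of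
  rw [Equiv.symm_apply_eq, h.hin x hx, Equiv.Perm.mul_apply, Equiv.apply_symm_apply,
    Equiv.swap_apply_self]

theorem Move.symm {hn : 2 ≤ n} {c c' : (kagome n).Coloring (Fin 3)} {a b : Fin 3} {S : Set (X n)}
    (h : Move hn c c' a b S) : Move hn c' c a b S where
  ab := h.ab
  h1 := by
    intro x hx
    obtain ⟨z, hz, hzx⟩ := h.h2 x hx
    refine ⟨z, hz, ?_⟩
    rw [h.pin hz, h.pin hx, Equiv.swap_apply_left, Equiv.swap_apply_right, hzx]
  h2 := by
    intro x hx
    obtain ⟨z, hz, hzx⟩ := h.h1 x hx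
    refine ⟨z, hz, ?_⟩
    rw [h.pin hz, h.pin hx, Equiv.swap_apply_left, Equiv.swap_apply_right, hzx]
  hin := by
    intro x hx
    rw [h.hin x hx, ← mul_assoc, Equiv.swap_mul_self, one_mul]
  hout := by
    intro x hx
    rw [h.hout x hx]

theorem Move.reach {hn : 2 ≤ n} {c c' : (kagome n).Coloring (Fin 3)} {a b : Fin 3} {S : Set (X n)}
    (h : Move hn c c' a b S) : Relation.ReflTransGen KempeStep c c' := by
  have : NeZero n := ⟨by omega⟩
  have : Finite (honeycomb n).edgeSet := Finite.of_equiv _ (E hn)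
  set U : Set (honeycomb n).edgeSet :=
    {v | ∃ x ∈ S, ∃ t, v = e x t ∧ (c (e x t) = a ∨ c (e x t) = b)} with hU
  have hmem : ∀ x t, e x t ∈ U ↔ x ∈ S ∧ (c (e x t) = a ∨ c (e x t) = b) := by
    intro x t
    constructor
    · rintro ⟨x', hx', t', he, hc⟩
      obtain ⟨rfl, rfl⟩ := e_inj hn he
      exact ⟨hx', hc⟩
    · rintro ⟨hx, hc⟩
      exact ⟨x, hx, t, rfl, hc⟩
  have colpi : ∀ x t i, c (e x t) = i → pi hn c i x = x - d t := by
    intro x t i hi
    rw [pi_apply]
    congr 2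
    rw [Equiv.symm_apply_eq, pm_apply, hi]
  refine reach_of_closed h.ab _ c c' U rfl ⟨?_, ?_⟩ ⟨?_, ?_⟩
  · rintro v ⟨x, -, t, rfl, hc⟩
    exact hc
  · rintro v ⟨x, hx, t, rfl, hc⟩ w hvw hw
    obtain ⟨x', t', rfl⟩ := e_surj w
    rw [hmem]
    refine ⟨?_, hw⟩
    have hval := c.valid hvw
    rw [adj_iff] at hvw
    obtain ⟨hne, rfl | hB⟩ := hvw
    · exact hx
    · rcases hc with hc | hc
      · have hc' : c (e x' t') = b := by
          rcases hw with hw | hw
          · exact absurd (hc.trans hw.symm) hval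
          · exact hw
        obtain ⟨z, hz, hzx⟩ := h.h2 x hx
        rw [colpi x t a hc, hB, ← colpi x' t' b hc'] at hzx
        rw [← (pi hn c b).injective hzx]
        exact hz
      · have hc' : c (e x' t') = a := by
          rcases hw with hw | hw
          · exact hw
          · exact absurd (hc.trans hw.symm) hval
        obtain ⟨z, hz, hzx⟩ := h.h1 x hx
        rw [colpi x t b hc, hB, ← colpi x' t' a hc'] at hzx
        rw [← (pi hn c a).injective hzx]
        exact hz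
  · rintro v ⟨x, hx, t, rfl, hc⟩
    rw [← pm_apply hn, h.hin x hx, Equiv.Perm.mul_apply, pm_apply]
  · intro v hv
    obtain ⟨x, t, rfl⟩ := e_surj v
    rw [hmem] at hv
    by_cases hx : x ∈ S
    · have hc : ¬ (c (e x t) = a ∨ c (e x t) = b) := fun hc => hv ⟨hx, hc⟩
      rw [← pm_apply hn, h.hin x hx, Equiv.Perm.mul_apply, pm_apply]
      push Not at hc
      exact Equiv.swap_apply_of_ne_of_ne hc.1 hc.2
    · rw [← pm_apply hn, h.hout x hx, pm_apply]

theorem ext_pm (hn : 2 ≤ n) {c c' : (kagome n).Coloring (Fin 3)}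
    (h : ∀ x, pm hn c x = pm hn c' x) : c = c' := by
  apply DFunLike.ext
  intro v
  obtain ⟨x, t, rfl⟩ := e_surj v
  rw [← pm_apply hn, ← pm_apply hn, h]

/-- the colouring from the colours at the vertices of class `A` -/
theorem exists_of_pm (hn : 2 ≤ n) (f : X n → Equiv.Perm (Fin 3))
    (hf : ∀ i, Function.Injective (fun x => x - d ((f x).symm i))) :
    ∃ c : (kagome n).Coloring (Fin 3), ∀ x, pm hn c x = f x := by
  have hτ : Dat (fun i x => (f x).symm i) := ⟨fun x => (f x).symm.injective, hf⟩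
  refine ⟨mk hn hτ, fun x => ?_⟩
  ext1 t
  rw [pm_apply, mk_e, Equiv.symm_apply_eq, tp_apply, Equiv.symm_apply_apply]

/-- both directions -/
def Eqv (c c' : (kagome n).Coloring (Fin 3)) : Prop :=
  Relation.ReflTransGen KempeStep c c' ∧ Relation.ReflTransGen KempeStep c' c

theorem Move.eqv {hn : 2 ≤ n} {c c' : (kagome n).Coloring (Fin 3)} {a b : Fin 3} {S : Set (X n)}
    (h : Move hn c c' a b S) : Eqv c c' := ⟨h.reach, h.symm.reach⟩

theorem Eqv.trans {c c' c'' : (kagome n).Coloring (Fin 3)} (h : Eqv c c') (h' : Eqv c' c'') :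
    Eqv c c'' := ⟨h.1.trans h'.1, h'.2.trans h.2⟩

theorem exists_perm (hn : 2 ≤ n) (σ : Equiv.Perm (Fin 3)) :
    ∀ c : (kagome n).Coloring (Fin 3), ∃ c', Eqv c c' ∧ ∀ x, pm hn c' x = σ * pm hn c x := by
  induction σ using Equiv.Perm.swap_induction_on with
  | one => exact fun c => ⟨c, ⟨.refl, .refl⟩, fun x => by rw [one_mul]⟩
  | swap_mul f a b hab ih =>
    intro c
    obtain ⟨c1, h1, h2⟩ := ih c
    have hinj : ∀ i, Function.Injective
        (fun x => x - d ((Equiv.swap a b * pm hn c1 x).symm i)) := by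
      intro i
      have : (fun x => x - d ((Equiv.swap a b * pm hn c1 x).symm i)) =
          pi hn c1 (Equiv.swap a b i) := by
        funext x
        rw [pi_apply]
        rfl
      rw [this]
      exact (pi hn c1 _).injective
    obtain ⟨c2, h3⟩ := exists_of_pm hn _ hinj
    have hm : Move hn c1 c2 a b Set.univ := by
      have : NeZero n := ⟨by omega⟩
      refine ⟨hab, ?_, ?_, fun x _ => h3 x, fun x hx => absurd (Set.mem_univ x) hx⟩
      · intro x _
        exact ⟨(pi hn c1 a).symm (pi hn c1 b x), Set.mem_univ _, by simp⟩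
      · intro x _
        exact ⟨(pi hn c1 b).symm (pi hn c1 a x), Set.mem_univ _, by simp⟩
    refine ⟨c2, h1.trans hm.eqv, fun x => ?_⟩
    rw [h3, h2, mul_assoc]

/-! ### The case `n = 2` -/

def F (p q r : Equiv.Perm (Fin 3)) (x : X 2) : Equiv.Perm (Fin 3) :=
  if x = (1, 0) then p else if x = (0, 1) then q else if x = (1, 1) then r else 1

def V (p q r : Equiv.Perm (Fin 3)) : Prop := ∀ i : Fin 3, ∀ x y : X 2,
  x - d ((F p q r x).symm i) = y - d ((F p q r y).symm i) → x = y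

instance (p q r : Equiv.Perm (Fin 3)) : Decidable (V p q r) := by unfold V; infer_instance

def W (p q r : Equiv.Perm (Fin 3)) : Prop :=
  (p = 1 ∧ q = 1 ∧ r = 1) ∨ (p = 1 ∧ q = Equiv.swap 0 1 ∧ r = Equiv.swap 0 1) ∨
    (p = Equiv.swap 0 2 ∧ q = 1 ∧ r = Equiv.swap 0 2) ∨
    (p = Equiv.swap 1 2 ∧ q = Equiv.swap 1 2 ∧ r = 1)

instance (p q r : Equiv.Perm (Fin 3)) : Decidable (W p q r) := by unfold W; infer_instance

theorem cases2 : ∀ p q r : Equiv.Perm (Fin 3), V p q r → W p q r := by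
  decide +kernel

theorem X2 (x : X 2) : x = (0, 0) ∨ x = (1, 0) ∨ x = (0, 1) ∨ x = (1, 1) := by
  revert x; decide

theorem pm0 (hn : 2 ≤ n) (x : X n) : pm hn (mk hn dat0) x = 1 := by
  ext1 t
  rw [pm_apply, mk_e, Equiv.symm_apply_eq, tp_apply]
  rfl

theorem pi0 (hn : 2 ≤ n) (i : Fin 3) (x : X n) : pi hn (mk hn dat0) i x = x - d i := pi_mk hn dat0 i x

theorem to_base (c : (kagome 2).Coloring (Fin 3)) : Eqv c (mk le_rfl dat0) := by
  obtain ⟨c1, hc1, h1⟩ := exists_perm le_rfl (pm le_rfl c (0, 0))⁻¹ c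
  have h00 : pm le_rfl c1 (0, 0) = 1 := by rw [h1]; simp
  refine hc1.trans ?_
  set p := pm le_rfl c1 (1, 0) with hp
  set q := pm le_rfl c1 (0, 1) with hq
  set r := pm le_rfl c1 (1, 1) with hr
  have hF : ∀ x, pm le_rfl c1 x = F p q r x := by
    intro x
    rcases X2 x with rfl | rfl | rfl | rfl
    · rw [h00]; rfl
    · rfl
    · rfl
    · rfl
  have hV : V p q r := by
    intro i x y h
    rw [← hF, ← hF] at h
    exact (pi le_rfl c1 i).injective h
  have mv : ∀ (a b : Fin 3) (S : Set (X 2)), a ≠ b →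
      (∀ x ∈ S, ∃ z ∈ S, z - d a = x - (d b : X 2)) → (∀ x ∈ S, ∃ z ∈ S, z - d b = x - (d a : X 2)) →
      (∀ x ∈ S, pm le_rfl c1 x = Equiv.swap a b) → (∀ x ∉ S, pm le_rfl c1 x = 1) →
      Eqv c1 (mk le_rfl dat0) := by
    intro a b S hab g1 g2 g3 g4
    have : Move le_rfl (mk le_rfl dat0) c1 a b S := by
      refine ⟨hab, ?_, ?_, ?_, ?_⟩
      · intro x hx
        obtain ⟨z, hz, hzx⟩ := g1 x hx
        exact ⟨z, hz, by rw [pi0, pi0, hzx]⟩
      · intro x hx
        obtain ⟨z, hz, hzx⟩ := g2 x hx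
        exact ⟨z, hz, by rw [pi0, pi0, hzx]⟩
      · intro x hx
        rw [g3 x hx, pm0, mul_one]
      · intro x hx
        rw [g4 x hx, pm0]
    exact this.symm.eqv
  rcases cases2 p q r hV with ⟨e1, e2, e3⟩ | ⟨e1, e2, e3⟩ | ⟨e1, e2, e3⟩ | ⟨e1, e2, e3⟩
  · have : c1 = mk le_rfl dat0 := by
      apply ext_pm le_rfl
      intro x
      rw [hF, pm0, e1, e2, e3]
      revert x
      decide
    rw [this]
    exact ⟨.refl, .refl⟩
  · refine mv 0 1 {x | x.2 = 1} (by decide) ?_ ?_ ?_ ?_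
    · decide
    · decide
    · intro x hx
      rw [hF, e1, e2, e3]
      revert x
      decide
    · intro x hx
      rw [hF, e1, e2, e3]
      revert x
      decide
  · refine mv 0 2 {x | x.1 = 1} (by decide) ?_ ?_ ?_ ?_
    · decide
    · decide
    · intro x hx
      rw [hF, e1, e2, e3]
      revert x
      decide
    · intro x hx
      rw [hF, e1, e2, e3]
      revert x
      decide
  · refine mv 1 2 {x | x.1 + x.2 = 1} (by decide) ?_ ?_ ?_ ?_
    · decide
    · decide
    · intro x hx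
      rw [hF, e1, e2, e3]
      revert x
      decide
    · intro x hx
      rw [hF, e1, e2, e3]
      revert x
      decide

theorem ergodic_two : WSKErgodic (kagome 2) 3 :=
  fun c c' => (to_base c).1.trans (to_base c').2

end Pool.Agent.R57.Kag
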