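import Pool.Agent.H411R2.WSK.Kempe

/-!
General facts about Kempe changes: reversal, permutations of the colours, recolouring one vertex.
-/

set_option autoImplicit false

namespace Pool.Agent.R57.KG

open Pool.Agent.H411R2.WSK

variable {V : Type*} {G : SimpleGraph V} {q : ℕ}

theorem swap_in {a b x : Fin q} (h : Equiv.swap a b x = a ∨ Equiv.swap a b x = b) :
    x = a ∨ x = b := swap_mem_iff.1 h

theorem closed_symm {c c' : V → Fin q} {a b : Fin q} {U : Set V} (hU : Closed G c a b U)
    (hs : IsSwap c c' a b U) : Closed G c' a b U ∧ IsSwap c' c a b U := by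
  refine ⟨⟨?_, ?_⟩, ?_, ?_⟩
  · intro v hv
    rw [hs.1 v hv]
    exact swap_mem (hU.1 v hv)
  · intro v hv w hvw hw
    by_cases hwU : w ∈ U
    · exact hwU
    · rw [hs.2 w hwU] at hw
      exact hU.2 v hv w hvw hw
  · intro v hv
    rw [hs.1 v hv, Equiv.swap_apply_self]
  · intro v hv
    rw [hs.2 v hv]

theorem step_symm [Finite V] {c c' : G.Coloring (Fin q)} (h : KempeStep c c') :
    Relation.ReflTransGen KempeStep c' c := by
  obtain ⟨a, b, hab, U, hU, hs⟩ := h.closed
  obtain ⟨h1, h2⟩ := closed_symm hU hs
  exact reach_of_closed hab _ c' c U rfl h1 h2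

theorem reach_symm [Finite V] {c c' : G.Coloring (Fin q)}
    (h : Relation.ReflTransGen KempeStep c c') : Relation.ReflTransGen KempeStep c' c := by
  induction h with
  | refl => exact .refl
  | tail _ h ih => exact (step_symm h).trans ih

/-- composing with a permutation of the colours -/
def permCol (σ : Equiv.Perm (Fin q)) (c : G.Coloring (Fin q)) : G.Coloring (Fin q) :=
  SimpleGraph.Coloring.mk (fun v => σ (c v)) (fun h he => c.valid h (σ.injective he))

theorem permCol_apply (σ : Equiv.Perm (Fin q)) (c : G.Coloring (Fin q)) (v : V) :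
    permCol σ c v = σ (c v) := rfl

theorem reach_perm [Finite V] (σ : Equiv.Perm (Fin q)) :
    ∀ c : G.Coloring (Fin q), Relation.ReflTransGen KempeStep c (permCol σ c) := by
  induction σ using Equiv.Perm.swap_induction_on with
  | one =>
    intro c
    have : permCol 1 c = c := by
      apply DFunLike.ext
      intro v
      rfl
    rw [this]
  | swap_mul f a b hab ih =>
    intro c
    refine (ih c).trans ?_
    refine reach_of_closed hab _ (permCol f c) (permCol (Equiv.swap a b * f) c)
      {v | permCol f c v = a ∨ permCol f c v = b} rfl ⟨fun v hv => hv, fun v _ w _ hw => hw⟩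
      ⟨fun v _ => rfl, ?_⟩
    intro v hv
    have hv' : ¬ (f (c v) = a ∨ f (c v) = b) := hv
    push Not at hv'
    exact Equiv.swap_apply_of_ne_of_ne hv'.1 hv'.2

/-- recolouring one vertex `v` with a colour `a` that does not occur in its neighbourhood -/
theorem reach_single [Finite V] (c : G.Coloring (Fin q)) (v : V) (a : Fin q)
    (ha : ∀ w, G.Adj v w → c w ≠ a) :
    ∃ c' : G.Coloring (Fin q), Relation.ReflTransGen KempeStep c c' ∧ c' v = a ∧
      ∀ w, w ≠ v → c' w = c w := by
  classical
  by_cases hva : c v = a
  · exact ⟨c, .refl, hva, fun _ _ => rfl⟩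
  · let c' : G.Coloring (Fin q) := SimpleGraph.Coloring.mk (fun w => if w = v then a else c w) (by
      intro x y hxy h
      by_cases hx : x = v
      · subst hx
        rw [if_pos rfl, if_neg (G.ne_of_adj hxy).symm] at h
        exact ha y hxy h.symm
      · by_cases hy : y = v
        · subst hy
          rw [if_neg hx, if_pos rfl] at h
          exact ha x hxy.symm h
        · rw [if_neg hx, if_neg hy] at h
          exact c.valid hxy h)
    have h1 : ∀ w, c' w = if w = v then a else c w := fun _ => rfl
    refine ⟨c', ?_, by rw [h1, if_pos rfl], fun w hw => by rw [h1, if_neg hw]⟩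
    refine reach_of_closed hva _ c c' {v} rfl ⟨?_, ?_⟩ ⟨?_, ?_⟩
    · rintro w rfl; exact Or.inl rfl
    · rintro x rfl w hxw hw
      rcases hw with hw | hw
      · exact absurd hw.symm (c.valid hxw)
      · exact absurd hw (ha w hxw)
    · rintro w rfl
      rw [h1, if_pos rfl, Equiv.swap_apply_left]
    · intro w hw
      have hw' : w ≠ v := hw
      rw [h1, if_neg hw']

end Pool.Agent.R57.KG
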