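import Pool.Agent.R57.P5Check

/-! The certificate. -/

set_option autoImplicit false
set_option maxRecDepth 100000

namespace Pool.Agent.R57.P5

def c0 : Cert := (.b 2 (.w 4 1 (.b 3 (.b 5 .n (.b 0 (.p 345857) (.b 6 .n (.b 2 (.w 5 0 (.b 2 (.b 4 .n (.b 1 (.p 411009) (.b 3 (.b 7 (.w 6 1 (.b 4 (.b 3 .n (.p 79689)) (.b 8 (.b 0 (.p 476816) (.b 2 .n (.b 3 (.p 270393) (.b 5 (.p 131929) (.w 5 1 (.b 0 (.b 2 (.b 6 (.p 616961) (.p 615077)) (.p 467109)) (.b 2 (.b 6 (.b 8 .n (.p 493930)) (.p 615077)) (.b 3 (.b 4 .n (.p 270394)) (.p 131930))))))))) (.p 554089)))) (.w 6 1 (.b 4 (.b 3 .n (.p 79689)) (.b 0 (.p 476816) (.b 8 (.p 476824) (.b 5 (.b 2 (.b 3 (.w 7 0 (.b 5 (.b 2 (.b 9 .n (.p 431527)) (.p 10330)) (.b 2 (.b 3 (.b 4 .n (.p 545914)) (.p 340010)) (.p 361082)))) (.w 7 0 (.b 5 (.b 2 (.b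 9 .n (.p 431527)) (.p 10330)) (.b 2 (.b 3 (.b 4 .n (.p 545914)) (.p 340010)) (.p 361082))))) (.p 9305)) (.p 545897))))))) (.b 7 (.w 6 1 (.b 8 (.b 3 .n (.p 79753)) (.b 3 (.b 2 (.b 4 .n (.p 554089)) (.p 532793)) (.p 553833)))) (.w 8 3 (.b 5 (.b 2 .n (.b 0 (.b 6 (.b 7 (.b 1 (.w 8 1 (.b 3 (.b 4 (.b 9 (.b 0 (.p 477697) (.b 5 .n (.b 6 .n (.b 2 (.w 6 1 (.b 4 (.b 3 .n (.p 79691)) (.b 8 (.p 477835) (.p 566379)))) (.w 6 1 (.b 4 (.b 3 .n (.p 79691)) (.b 8 (.p 477835) (.p 566379)))))))) (.p 104266)) (.p 291752)) (.b 4 (.p 79690) (.b 0 (.p 291594) (.b 2 (.b 5 .n (.p 340010)) (.p 197258)))))) (.p 136025)) (.p 291593)) (.p 287497)) (.p 131929))) (.b 0 (.p 283401) (.p 13705)))))))) (.b 3 (.b 4 .n (.p 270392)) (.p 131928)))) (.w 7 2 (.b 4 (.b 3 .n (.b 0 (.b 1 (.b 6 (.w 5 1 (.b 2 (.b 3 (.b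 8 (.b 4 .n (.b 0 (.p 476560) (.b 6 (.w 7 0 (.b 2 (.b 4 .n (.b 9 .n (.p 615546))) (.b 3 (.b 4 .n (.p 270394)) (.p 131962)))) (.w 6 1 (.b 5 (.b 2 (.b 3 (.b 8 (.b 0 (.p 612865) (.b 4 .n (.w 7 0 (.b 2 (.b 4 .n (.b 10 .n (.p 681083))) (.b 3 (.b 4 .n (.p 270395)) (.p 131963)))))) (.p 491818)) (.p 471338)) (.p 76122)) (.b 2 (.b 3 (.b 8 (.b 4 .n (.p 611434)) (.p 491818)) (.p 340266)) (.p 365162))))))) (.p 491817)) (.p 471337)) (.b 3 (.b 4 .n (.p 270649)) (.p 136025)))) (.p 156536)) (.p 201288)) (.p 197192))) (.b 0 (.p 344584) (.p 9336)))))))) (.b 2 (.b 5 .n (.p 340263)) (.p 201287)))) (.w 5 0 (.b 4 (.b 3 .n (.p 13895)) (.b 2 (.b 3 (.b 1 (.p 410993) (.w 6 2 (.b 4 (.b 3 .n (.b 0 (.b 7 (.b 1 (.w 6 1 (.b 2 (.b 4 .n (.b 0 (.p 289025) (.b 7 .n (.b 5 (.b 8 (.b 3 (.w 7 1 (.b 5 (.b 2 .n (.p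 76122)) (.b 6 (.b 2 .n (.p 76138)) (.p 431482)))) (.w 7 1 (.b 5 (.b 2 .n (.p 76122)) (.b 6 (.b 2 .n (.p 76138)) (.p 431482))))) (.p 33881)) (.p 480361))))) (.b 3 (.b 4 .n (.p 270649)) (.p 136041)))) (.p 201288)) (.p 356872)) (.p 197192))) (.b 0 (.p 344584) (.p 9320))))) (.p 405543)) (.p 9303)))))

def c1 : Cert := (.b 1 (.w 4 2 (.b 3 (.b 5 .n (.b 0 (.p 345858) (.b 6 .n (.b 1 (.w 5 0 (.b 1 (.b 4 .n (.b 2 (.p 411010) (.b 3 (.b 7 (.w 6 2 (.b 4 (.b 3 .n (.p 145225)) (.b 8 (.b 0 (.p 476816) (.b 1 .n (.b 3 (.p 266297) (.b 5 (.p 66393) (.w 5 2 (.b 0 (.b 1 (.b 6 (.p 616962) (.p 614821)) (.p 463013)) (.b 1 (.b 6 (.b 8 .n (.p 493930)) (.p 614821)) (.b 3 (.b 4 .n (.p 266298)) (.p 66394))))))))) (.p 554089)))) (.w 6 2 (.b 4 (.b 3 .n (.p 145225)) (.b 0 (.p 476816) (.b 8 (.p 476824) (.b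 5 (.b 1 (.b 3 (.w 7 0 (.b 5 (.b 1 (.b 9 .n (.p 431527)) (.p 6234)) (.b 1 (.b 3 (.b 4 .n (.p 545914)) (.p 339994)) (.p 360826)))) (.w 7 0 (.b 5 (.b 1 (.b 9 .n (.p 431527)) (.p 6234)) (.b 1 (.b 3 (.b 4 .n (.p 545914)) (.p 339994)) (.p 360826))))) (.p 5209)) (.p 545897))))))) (.b 7 (.w 6 2 (.b 8 (.b 3 .n (.p 145289)) (.b 3 (.b 1 (.b 4 .n (.p 554089)) (.p 528953)) (.p 553833)))) (.w 8 3 (.b 5 (.b 1 .n (.b 0 (.b 6 (.b 7 (.b 2 (.w 8 2 (.b 3 (.b 4 (.b 9 (.b 0 (.p 477698) (.b 5 .n (.b 6 .n (.b 1 (.w 6 2 (.b 4 (.b 3 .n (.p 145227)) (.b 8 (.p 477835) (.p 566379)))) (.w 6 2 (.b 4 (.b 3 .n (.p 145227)) (.b 8 (.p 477835) (.p 566379)))))))) (.p 169802)) (.p 291752)) (.b 4 (.p 145226) (.b 0 (.p 291594) (.b 1 (.b 5 .n (.p 339994)) (.p 197002)))))) (.p 74585)) (.p 291593)) (.p 287497)) (.p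 66393))) (.b 0 (.p 283401) (.p 13705)))))))) (.b 3 (.b 4 .n (.p 266296)) (.p 66392)))) (.w 7 1 (.b 4 (.b 3 .n (.b 0 (.b 2 (.b 6 (.w 5 2 (.b 1 (.b 3 (.b 8 (.b 4 .n (.b 0 (.p 476560) (.b 6 (.w 7 0 (.b 1 (.b 4 .n (.b 9 .n (.p 615546))) (.b 3 (.b 4 .n (.p 266298)) (.p 66426)))) (.w 6 2 (.b 5 (.b 1 (.b 3 (.b 8 (.b 0 (.p 612866) (.b 4 .n (.w 7 0 (.b 1 (.b 4 .n (.b 10 .n (.p 681083))) (.b 3 (.b 4 .n (.p 266299)) (.p 66427)))))) (.p 492058)) (.p 471578)) (.p 137562)) (.b 1 (.b 3 (.b 8 (.b 4 .n (.p 611434)) (.p 492058)) (.p 340506)) (.p 364906))))))) (.p 492057)) (.p 471577)) (.b 3 (.b 4 .n (.p 266809)) (.p 74585)))) (.p 91000)) (.p 205128)) (.p 196936))) (.b 0 (.p 344328) (.p 5240)))))))) (.b 1 (.b 5 .n (.p 340503)) (.p 205127)))) (.w 5 0 (.b 4 (.b 3 .n (.p 13895)) (.b 1 (.b 3 (.b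 2 (.p 410994) (.w 6 1 (.b 4 (.b 3 .n (.b 0 (.b 7 (.b 2 (.w 6 2 (.b 1 (.b 4 .n (.b 0 (.p 289026) (.b 7 .n (.b 5 (.b 8 (.b 3 (.w 7 2 (.b 5 (.b 1 .n (.p 137562)) (.b 6 (.b 1 .n (.p 137578)) (.p 431482)))) (.w 7 2 (.b 5 (.b 1 .n (.p 137562)) (.b 6 (.b 1 .n (.p 137578)) (.p 431482))))) (.p 33881)) (.p 480361))))) (.b 3 (.b 4 .n (.p 266809)) (.p 74601)))) (.p 205128)) (.p 356616)) (.p 196936))) (.b 0 (.p 344328) (.p 5224))))) (.p 405527)) (.p 5207)))))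

def c2 : Cert := (.b 0 (.w 3 2 (.b 4 (.b 5 .n (.b 1 (.p 341778) (.b 6 .n (.b 0 (.w 5 1 (.b 0 (.b 3 .n (.b 2 (.p 406914) (.b 4 (.b 7 (.w 6 2 (.b 3 (.b 4 .n (.p 149305)) (.b 8 (.b 1 (.p 472721) (.b 0 .n (.b 4 (.p 196937) (.b 5 (.p 66393) (.w 5 2 (.b 1 (.b 0 (.b 6 (.p 616978) (.p 614565)) (.p 459173)) (.b 0 (.b 6 (.b 8 .n (.p 493930)) (.p 614565)) (.b 3 (.b 4 .n (.p 266298)) (.p 66394))))))))) (.p 553833)))) (.w 6 2 (.b 3 (.b 4 .n (.p 149305)) (.b 1 (.p 472721) (.b 8 (.p 472728) (.b 5 (.b 0 (.b 4 (.w 7 1 (.b 5 (.b 0 (.b 9 .n (.p 431527)) (.p 67674)) (.b 0 (.b 4 (.b 3 .n (.p 545658)) (.p 344330)) (.p 360570)))) (.w 7 1 (.b 5 (.b 0 (.b 9 .n (.p 431527)) (.p 67674)) (.b 0 (.b 4 (.b 3 .n (.p 545658)) (.p 344330)) (.p 360570))))) (.p 66393)) (.p 545641))))))) (.b 7 (.w 6 2 (.b 8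 (.b 4 .n (.p 149385)) (.b 3 (.b 4 .n (.p 149305)) (.p 553833)))) (.w 8 3 (.b 5 (.b 0 .n (.b 1 (.b 6 (.b 7 (.b 2 (.w 8 2 (.b 4 (.b 3 (.b 9 (.b 1 (.p 473618) (.b 5 .n (.b 6 .n (.b 0 (.w 6 2 (.b 3 (.b 4 .n (.p 149307)) (.b 8 (.p 473739) (.p 566123)))) (.w 6 2 (.b 3 (.b 4 .n (.p 149307)) (.b 8 (.p 473739) (.p 566123)))))))) (.p 169786)) (.p 226472)) (.b 3 (.p 149306) (.b 1 (.p 226330) (.b 0 (.b 5 .n (.p 344330)) (.p 266378)))))) (.p 131929)) (.p 226329)) (.p 222233)) (.p 66393))) (.b 0 (.p 283401) (.b 1 (.p 339993) (.p 266377))))))))) (.b 3 (.b 4 .n (.p 266296)) (.p 66392)))) (.w 7 0 (.b 3 (.b 4 .n (.b 1 (.b 2 (.b 6 (.w 5 2 (.b 0 (.b 4 (.b 8 (.b 3 .n (.b 1 (.p 472465) (.b 6 (.w 7 1 (.b 0 (.b 3 .n (.b 9 .n (.p 615290))) (.b 3 (.b 4 .n (.p 266298)) (.p 66426)))) (.w 6 2 (.b 5 (.b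 0 (.b 4 (.b 8 (.b 1 (.p 612882) (.b 3 .n (.w 7 1 (.b 0 (.b 3 .n (.b 10 .n (.p 680827))) (.b 3 (.b 4 .n (.p 266299)) (.p 66427)))))) (.p 492042)) (.p 475658)) (.p 133466)) (.b 0 (.b 4 (.b 8 (.b 3 .n (.p 611178)) (.p 492042)) (.p 344586)) (.p 364650))))))) (.p 492041)) (.p 475657)) (.b 3 (.b 4 .n (.p 270393)) (.p 131929)))) (.p 25720)) (.p 270392)) (.p 266296))) (.b 1 (.p 339992) (.p 66424)))))))) (.b 0 (.b 5 .n (.p 344583)) (.p 270391)))) (.w 5 1 (.b 3 (.b 4 .n (.p 83511)) (.b 0 (.b 4 (.b 2 (.p 406898) (.w 6 0 (.b 3 (.b 4 .n (.b 1 (.b 7 (.b 2 (.w 6 2 (.b 0 (.b 3 .n (.b 1 (.p 223506) (.b 7 .n (.b 5 (.b 8 (.b 4 (.w 7 2 (.b 5 (.b 0 .n (.p 133466)) (.b 6 (.b 0 .n (.p 133482)) (.p 431482)))) (.w 7 2 (.b 5 (.b 0 .n (.p 133466)) (.b 6 (.b 0 .n (.p 133482)) (.p 431482))))) (.p 99161))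 (.p 480105))))) (.b 3 (.b 4 .n (.p 270393)) (.p 131945)))) (.p 270392)) (.p 356376)) (.p 266296))) (.b 1 (.p 339992) (.p 66408))))) (.p 409863)) (.p 66391)))))

def c3 : Cert := (.b 0 (.b 1 .n (.w 5 1 (.b 4 (.b 3 (.b 2 (.b 0 .n (.w 4 2 (.b 1 (.b 0 .n (.b 6 .n (.p 9799))) (.b 5 (.b 3 (.p 136307) (.b 0 .n (.p 196935))) (.p 336199))))) (.p 136291)) (.b 0 (.b 2 .n (.w 4 0 (.b 3 (.b 2 (.b 5 .n (.p 328564)) (.p 131956)) (.b 1 (.b 6 .n (.p 198215)) (.p 196935))))) (.p 196934))) (.b 0 (.b 2 .n (.p 266838)) (.p 266326))))) (.b 1 (.w 5 0 (.b 3 (.b 4 (.b 2 (.b 1 .n (.w 3 2 (.b 0 (.b 1 .n (.b 6 .n (.p 75319))) (.b 5 (.b 4 (.p 131956) (.b 1 .n (.p 266295))) (.p 335927))))) (.p 131940)) (.b 1 (.b 2 .n (.w 3 1 (.b 4 (.b 2 (.b 5 .n (.p 332915)) (.p 136307)) (.b 0 (.b 6 .n (.p 267831)) (.p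 266295))))) (.p 266294))) (.b 1 (.b 2 .n (.p 197206)) (.p 196950)))) (.w 3 1 (.b 4 (.b 2 (.b 0 (.b 5 (.w 3 2 (.b 1 (.b 5 .n (.p 336243)) (.b 6 (.b 4 (.p 136307) (.b 0 .n (.p 266295))) (.p 75319)))) (.w 3 2 (.b 5 (.b 1 (.b 0 .n (.b 6 (.b 4 (.p 131956) (.w 5 1 (.b 4 (.b 0 (.b 3 .n (.p 222341)) (.p 5253)) (.b 3 (.p 83512) (.b 2 (.b 7 .n (.p 225576)) (.p 266840)))))) (.p 393589))) (.p 75123)) (.b 0 (.b 6 .n (.p 337463)) (.p 335927))))) (.b 5 (.p 66405) (.w 5 1 (.b 4 (.b 0 (.b 3 (.b 2 (.w 3 2 (.b 1 (.b 5 .n (.p 336259)) (.b 6 (.b 7 (.b 4 (.p 136323) (.b 0 .n (.p 266296))) (.p 75576)) (.p 75320)))) (.p 75319)) (.p 405621)) (.p 5237)) (.b 0 (.p 409863) (.b 3 (.p 266295) (.b 2 (.w 5 0 (.b 3 (.b 1 (.b 7 (.b 2 .n (.b 4 (.p 131972) (.b 6 (.w 4 0 (.b 3 (.b 2 (.b 5 (.b 1 (.b 7 .n (.p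 553620)) (.p 6233)) (.p 545428)) (.p 131988)) (.b 2 (.p 536617) (.b 1 (.b 6 .n (.p 405529)) (.p 196937))))) (.p 287320)))) (.p 481296)) (.p 66437)) (.b 2 (.b 1 (.p 196997) (.b 4 (.p 196936) (.b 6 (.p 66408) (.b 7 .n (.w 7 0 (.b 3 (.b 2 (.b 1 (.b 5 (.p 547088) (.p 546705)) (.p 66455)) (.p 532537)) (.b 2 (.b 1 (.p 197015) (.b 4 (.p 196937) (.b 6 (.p 66409) (.b 5 .n (.w 8 1 (.b 4 (.b 2 (.b 0 (.b 3 (.b 5 (.p 481793) (.p 481440)) (.p 405672)) (.p 5288)) (.p 467274)) (.b 0 (.p 409866) (.b 3 (.p 266298) (.b 2 (.b 5 .n (.b 9 .n (.p 619914))) (.p 197258)))))))))) (.p 197241)))))))) (.p 197208)))) (.p 197207)))))))) (.p 136291)) (.b 0 (.b 5 (.p 266341) (.b 2 (.p 266851) (.w 3 2 (.b 1 (.b 5 (.b 6 (.b 0 .n (.b 4 (.p 131956) (.w 4 2 (.b 5 (.b 0 (.b 3 (.b 1 (.b 6 .n (.p 483460)) (.p 137016))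 (.p 471172)) (.p 9604)) (.b 0 (.p 479752) (.b 3 (.p 335928) (.b 1 (.b 6 (.p 335976) (.w 5 1 (.b 0 (.b 4 (.b 7 (.b 8 .n (.p 528533)) (.p 422217)) (.p 266389)) (.b 4 (.p 393545) (.b 3 (.p 266297) (.b 2 (.b 7 .n (.p 471081)) (.p 197209))))))) (.p 196936)))))))) (.p 407314)) (.p 336243)) (.b 4 (.p 136307) (.b 0 (.b 5 (.p 266839) (.b 6 .n (.w 6 2 (.b 5 (.b 0 (.b 1 (.b 3 (.p 473106) (.p 472705)) (.p 75142)) (.p 459352)) (.b 0 (.b 4 (.p 336004) (.b 1 (.p 336262) (.b 3 .n (.w 7 1 (.b 4 (.b 0 (.b 2 (.b 3 (.p 407841) (.p 407442)) (.p 136343)) (.p 393545)) (.b 0 (.b 5 (.p 266389) (.b 2 (.p 266903) (.b 3 .n (.b 8 .n (.p 549753))))) (.p 266361))))))) (.p 335976)))))) (.p 266295))))))) (.p 266294))))))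

def c4 : Cert := (.b 0 (.b 2 .n (.w 2 3 (.b 0 (.b 1 .n (.w 4 2 (.b 1 (.b 0 .n (.b 3 (.b 5 (.w 5 1 (.b 2 (.b 0 .n (.b 6 .n (.b 3 (.b 4 (.w 6 0 (.b 2 (.b 1 .n (.b 7 (.p 5767) (.b 5 .n (.b 3 (.b 4 (.w 7 0 (.b 1 (.b 3 .n (.p 536601)) (.b 3 (.b 2 (.b 4 (.b 5 .n (.p 66937)) (.p 84025)) (.p 75833)) (.p 66425)))) (.p 83768)) (.b 4 (.w 7 0 (.b 6 (.b 2 (.b 1 .n (.p 5783)) (.p 10345)) (.b 2 (.b 3 (.b 4 (.b 5 .n (.p 550265)) (.p 409641)) (.p 405545)) (.p 426617)))) (.w 7 0 (.b 6 (.b 2 (.b 1 .n (.p 5783)) (.p 10345)) (.b 2 (.b 3 (.b 4 (.b 5 .n (.p 550265)) (.p 409641)) (.p 405545)) (.p 426617))))))))) (.b 3 (.b 4 (.b 1 .n (.p 136323)) (.p 132200)) (.p 131944)))) (.p 409639)) (.p 405543)))) (.b 4 (.b 3 (.p 136307) (.b 0 .n (.b 6 (.p 131943) (.w 7 0 (.b 3 (.b 1 (.b 2 .n (.p 131975)) (.p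 66439)) (.b 4 (.b 5 .n (.p 198008)) (.p 197752))))))) (.p 266839)))) (.p 336227)) (.b 5 (.w 6 0 (.b 3 (.b 2 (.b 1 .n (.b 4 (.b 5 .n (.w 5 1 (.b 3 (.b 2 (.b 4 (.b 6 .n (.p 397955)) (.p 266883)) (.p 75139)) (.b 7 (.b 0 (.b 4 .n (.p 83845)) (.p 66424)) (.b 0 (.b 6 (.b 2 .n (.p 225880)) (.p 483592)) (.p 471128)))))) (.p 266867))) (.p 131958)) (.b 1 (.b 4 .n (.p 197735)) (.p 196967)))) (.w 5 1 (.b 2 (.b 0 .n (.b 6 .n (.p 397399))) (.b 4 (.b 6 .n (.p 397911)) (.p 266839))))))) (.b 5 (.b 3 (.p 136291) (.b 0 .n (.w 6 0 (.b 3 (.b 1 (.b 2 .n (.p 131958)) (.p 66422)) (.b 4 (.b 5 .n (.p 197991)) (.p 197735)))))) (.p 336198))))) (.b 1 (.w 5 0 (.b 3 (.b 4 (.b 1 .n (.b 2 (.w 3 2 (.b 1 (.b 0 .n (.b 5 .n (.p 335927))) (.b 6 (.b 4 (.p 136307) (.b 5 (.p 267635) (.b 0 .n (.p 331831)))) (.p 75319))))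 (.p 136291))) (.p 263013)) (.b 1 (.b 2 .n (.p 197206)) (.p 196950)))) (.w 4 2 (.b 5 (.b 3 (.b 1 (.b 0 .n (.w 5 1 (.b 2 (.b 0 .n (.b 6 .n (.p 5719))) (.b 4 (.b 3 (.p 136307) (.b 0 .n (.p 197207))) (.p 266839))))) (.p 136291)) (.b 0 (.b 1 .n (.w 5 0 (.b 3 (.b 1 (.b 4 .n (.p 263029)) (.p 66421)) (.b 2 (.b 6 .n (.p 198231)) (.p 197207))))) (.p 197206))) (.b 0 (.b 1 .n (.p 336198)) (.p 335942)))))))) (.b 2 (.w 4 0 (.b 3 (.b 1 (.b 2 .n (.w 3 1 (.b 2 (.b 0 .n (.b 4 .n (.p 266294))) (.b 5 (.b 0 .n (.b 4 .n (.p 266294))) (.p 136502))))) (.b 2 (.w 3 2 (.b 1 (.b 0 .n (.b 4 .n (.p 270390))) (.b 5 (.b 0 .n (.b 4 .n (.p 266294))) (.p 75062)))) (.w 3 1 (.b 4 (.b 5 .n (.b 2 (.p 341537) c2)) (.b 0 (.b 5 .n (.p 344326)) (.p 266294)))))) (.b 1 (.b 2 .n (.p 197189)) (.p 196933)))) (.w 2 3 c3)))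

def c5 : Cert := (.b 1 (.b 2 .n (.w 2 3 (.b 0 (.b 1 .n (.w 3 2 (.b 1 (.b 0 .n (.b 4 (.w 4 1 (.b 2 (.b 0 .n (.b 5 .n (.b 3 (.w 5 0 (.b 6 (.b 1 (.b 2 .n (.p 9845)) (.p 5494)) (.b 2 (.b 1 .n (.b 4 .n (.b 3 (.w 6 0 (.b 5 (.b 2 (.b 1 .n (.p 5510)) (.p 10072)) (.b 2 (.b 3 (.b 4 .n (.p 480360)) (.p 340008)) (.p 356968)))) (.w 6 0 (.b 5 (.b 2 (.b 1 .n (.p 5510)) (.p 10072)) (.b 2 (.b 3 (.b 4 .n (.p 480360)) (.p 340008)) (.p 356968))))))) (.b 1 (.b 4 (.b 3 .n (.p 131927)) (.p 409623)) (.p 401751))))) (.p 340006)))) (.b 3 (.b 0 .n (.b 5 .n (.w 6 0 (.b 1 (.b 2 .n (.b 3 .n (.p 131943))) (.b 4 (.b 5 (.p 5494) (.b 2 (.p 332406) (.b 3 .n (.p 201287)))) (.p 66663)))))) (.p 201286)))) (.w 4 1 (.b 5 (.b 2 .n (.b 3 .n (.p 201286))) (.b 0 (.b 2 .n (.p 332358)) (.p 331846)))))) (.b 4 (.b 0 .n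 (.w 5 0 (.b 1 (.b 2 .n (.b 3 .n (.p 131926))) (.b 4 (.b 2 .n (.b 3 .n (.p 201286))) (.p 66646))))) (.p 270645))))) (.b 1 (.w 3 2 (.b 0 (.b 1 .n (.b 4 (.w 4 0 (.b 2 (.b 1 .n (.b 5 .n (.b 3 (.w 5 1 (.b 6 (.b 0 (.b 2 .n (.p 75381)) (.p 66934)) (.b 2 (.b 0 .n (.b 4 .n (.b 3 (.w 6 1 (.b 5 (.b 2 (.b 0 .n (.p 66950)) (.p 75608)) (.b 2 (.b 3 (.b 4 .n (.p 480360)) (.p 340264)) (.p 356968)))) (.w 6 1 (.b 5 (.b 2 (.b 0 .n (.p 66950)) (.p 75608)) (.b 2 (.b 3 (.b 4 .n (.p 480360)) (.p 340264)) (.p 356968))))))) (.b 0 (.b 4 (.b 3 .n (.p 136023)) (.p 409863)) (.p 401495))))) (.p 340262)))) (.b 3 (.b 1 .n (.b 5 .n (.w 6 1 (.b 0 (.b 2 .n (.b 3 .n (.p 136039))) (.b 4 (.b 5 (.p 66934) (.b 2 (.p 328310) (.b 3 .n (.p 197191)))) (.p 5223)))))) (.p 197190)))) (.w 4 0 (.b 5 (.b 2 .n (.b 3 .n (.p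 197190))) (.b 1 (.b 2 .n (.p 328262)) (.p 328006)))))) (.b 4 (.b 1 .n (.w 5 1 (.b 0 (.b 2 .n (.b 3 .n (.p 136022))) (.b 4 (.b 2 .n (.b 3 .n (.p 197190))) (.p 5206))))) (.p 270389)))) (.w 3 2 (.b 4 (.b 0 (.b 1 .n (.w 4 0 (.b 1 (.b 2 .n (.b 3 .n (.p 197190))) (.b 5 (.b 2 .n (.b 3 .n (.p 197190))) (.p 66886))))) (.b 1 (.w 4 1 (.b 0 (.b 2 .n (.b 3 .n (.p 201286))) (.b 5 (.b 2 .n (.b 3 .n (.p 197190))) (.p 5446)))) (.w 4 0 (.b 3 (.b 5 .n (.b 1 (.p 345616) c0)) (.b 2 (.b 5 .n (.p 340006)) (.p 197190)))))) (.b 0 (.b 1 .n (.p 270645)) (.p 270389)))))))) (.b 2 (.w 1 3 (.b 0 (.b 2 .n (.w 3 1 (.b 2 (.b 0 .n (.b 4 (.w 4 2 (.b 1 (.b 0 .n (.b 5 .n (.b 3 (.w 5 0 (.b 6 (.b 2 (.b 1 .n (.p 5749)) (.p 9590)) (.b 1 (.b 2 .n (.b 4 .n (.b 3 (.w 6 0 (.b 5 (.b 1 (.b 2 .n (.p 9606)) (.p 5976)) (.b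 1 (.b 3 (.b 4 .n (.p 480360)) (.p 339992)) (.p 356712)))) (.w 6 0 (.b 5 (.b 1 (.b 2 .n (.p 9606)) (.p 5976)) (.b 1 (.b 3 (.b 4 .n (.p 480360)) (.p 339992)) (.p 356712))))))) (.b 2 (.b 4 (.b 3 .n (.p 66391)) (.p 409639)) (.p 397911))))) (.p 339990)))) (.b 3 (.b 0 .n (.b 5 .n (.w 6 0 (.b 2 (.b 1 .n (.b 3 .n (.p 66407))) (.b 4 (.b 5 (.p 9590) (.b 1 (.p 336246) (.b 3 .n (.p 205127)))) (.p 132199)))))) (.p 205126)))) (.w 4 2 (.b 5 (.b 1 .n (.b 3 .n (.p 205126))) (.b 0 (.b 1 .n (.p 336198)) (.p 335942)))))) (.b 4 (.b 0 .n (.w 5 0 (.b 1 (.b 2 .n (.b 4 .n (.p 132182))) (.b 3 (.b 2 .n (.b 4 .n (.p 266806))) (.p 66390))))) (.p 266805))))) (.b 2 (.w 3 1 (.b 0 (.b 2 .n (.b 4 (.w 4 0 (.b 1 (.b 2 .n (.b 5 .n (.b 3 (.w 5 2 (.b 6 (.b 0 (.b 1 .n (.p 136821)) (.p 132470)) (.b 1 (.b 0 .n (.b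 4 .n (.b 3 (.w 6 2 (.b 5 (.b 1 (.b 0 .n (.p 132486)) (.p 137048)) (.b 1 (.b 3 (.b 4 .n (.p 480360)) (.p 340504)) (.p 356712)))) (.w 6 2 (.b 5 (.b 1 (.b 0 .n (.p 132486)) (.p 137048)) (.b 1 (.b 3 (.b 4 .n (.p 480360)) (.p 340504)) (.p 356712))))))) (.b 0 (.b 4 (.b 3 .n (.p 74583)) (.p 410119)) (.p 397399))))) (.p 340502)))) (.b 3 (.b 2 .n (.b 5 .n (.w 6 2 (.b 0 (.b 1 .n (.b 3 .n (.p 74599))) (.b 4 (.b 5 (.p 132470) (.b 1 (.p 328054) (.b 3 .n (.p 196935)))) (.p 9319)))))) (.p 196934)))) (.w 4 0 (.b 5 (.b 1 .n (.b 3 .n (.p 196934))) (.b 1 (.b 2 .n (.p 328262)) (.p 328006)))))) (.b 4 (.b 2 .n (.w 5 2 (.b 0 (.b 1 .n (.b 3 .n (.p 74582))) (.b 4 (.b 1 .n (.b 3 .n (.p 196934))) (.p 9302))))) (.p 266293)))) (.w 3 1 (.b 4 (.b 0 (.b 2 .n (.w 4 0 (.b 2 (.b 1 .n (.b 3 .n (.p 196934)))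 (.b 5 (.b 1 .n (.b 3 .n (.p 196934))) (.p 132422))))) (.b 2 (.w 4 2 (.b 0 (.b 1 .n (.b 3 .n (.p 205126))) (.b 5 (.b 1 .n (.b 3 .n (.p 196934))) (.p 9542)))) (.w 4 0 (.b 3 (.b 5 .n (.b 2 (.p 345632) c1)) (.b 1 (.b 5 .n (.p 339990)) (.p 196934)))))) (.b 0 (.b 2 .n (.p 266805)) (.p 266293))))))) (.w 1 3 c4)))

def c6 : Cert := (.b 4 (.b 1 (.b 6 (.b 0 .n (.w 7 0 (.b 3 (.b 2 (.b 1 .n (.b 4 .n (.b 5 (.b 6 .n (.p 415793)) (.b 6 (.p 354353) (.w 1 3 (.b 8 (.b 0 (.b 2 .n (.b 4 (.b 6 (.p 354626) (.b 3 .n (.b 7 (.w 2 3 (.b 6 (.b 4 (.p 608869) (.p 606886)) (.b 7 (.b 1 .n (.b 4 .n (.p 103466))) (.b 0 (.b 8 .n (.p 554250)) (.p 479274))))) (.w 2 3 (.b 6 (.b 4 (.p 608869) (.p 606886)) (.b 7 (.b 0 (.b 1 .n (.p 595874)) (.p 591226)) (.b 0 (.b 8 .n (.p 554250)) (.p 479274)))))))) (.p 272529)))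 (.p 328088)) (.b 2 (.b 7 .n (.p 358441)) (.b 0 (.b 7 (.b 3 .n (.p 164633)) (.p 492041)) (.p 532505))))))))) (.p 131975)) (.b 5 (.b 6 .n (.p 198264)) (.p 198008))))) (.p 415554)) (.p 78965)) (.b 1 (.p 148247) (.b 0 (.b 6 .n (.w 6 2 (.b 4 (.b 1 (.b 5 (.p 481346) (.p 480897)) (.p 78982)) (.b 1 (.p 148248) (.b 0 (.b 5 .n (.w 7 1 (.b 3 (.b 2 (.b 5 (.p 416049) (.p 415634)) (.p 148375)) (.b 2 (.p 78889) (.b 5 (.b 0 .n (.b 8 (.w 9 0 (.b 3 (.b 2 (.b 1 .n (.p 66217)) (.p 132009)) (.b 5 (.b 7 .n (.p 198554)) (.p 198042)))) (.w 8 3 (.b 9 (.b 6 .n (.b 7 .n (.p 480906))) (.b 0 (.b 6 .n (.p 611978)) (.p 610442)))))) (.b 8 (.b 0 .n (.w 9 0 (.b 3 (.b 2 (.b 1 .n (.p 66217)) (.p 132009)) (.b 7 (.b 8 .n (.p 198810)) (.p 198554))))) (.p 550265))))))) (.b 5 (.w 8 0 (.b 3 (.b 2 (.b 1 .n (.p 66200))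 (.p 131992)) (.b 5 (.b 6 .n (.p 198281)) (.p 198025)))) (.w 7 1 (.b 8 (.b 0 (.b 3 (.p 428337) (.b 2 (.p 78889) (.b 5 .n (.w 8 0 (.b 3 (.b 2 (.b 1 .n (.p 66216)) (.p 132008)) (.b 6 (.b 9 .n (.p 199050)) (.p 198282))))))) (.p 67209)) (.b 0 (.b 5 .n (.p 550265)) (.p 548985)))))))))) (.b 6 (.w 7 0 (.b 3 (.b 2 (.b 1 .n (.p 66183)) (.p 131975)) (.b 5 (.b 6 .n (.p 198264)) (.p 198008)))) (.w 1 3 (.b 7 (.b 6 (.b 3 (.b 4 (.b 2 (.b 0 .n (.w 8 0 (.b 5 (.b 6 .n (.b 7 .n (.b 3 (.b 1 .n (.p 416049)) (.b 1 (.p 416019) (.b 4 (.p 78997) (.b 2 (.p 78889) (.w 7 0 (.b 5 (.b 8 .n (.b 1 (.b 2 (.b 3 (.b 4 (.b 6 (.w 9 2 (.b 5 (.b 8 .n (.p 165723)) (.b 0 (.b 8 (.b 10 (.b 1 (.p 481713) (.b 4 (.p 79033) (.b 6 (.w 7 1 (.b 5 (.b 8 .n (.p 99932)) (.b 0 (.b 11 .n (.p 746876)) (.p 66940)))) (.w 6 2 (.b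 9 (.b 0 (.b 8 (.b 10 (.b 4 (.p 760898) (.b 1 (.p 148252) (.b 5 .n (.w 7 1 (.b 5 (.b 8 .n (.p 99933)) (.b 0 (.b 12 .n (.p 812413)) (.p 66941))))))) (.p 500236)) (.p 492044)) (.p 134044)) (.b 0 (.b 8 (.b 10 (.b 5 .n (.p 759148)) (.p 500236)) (.p 492044)) (.p 634988))))))) (.p 500235)) (.p 492043)) (.p 132507)))) (.p 26746)) (.p 540762)) (.p 536666)) (.p 532570)) (.p 528474))) (.b 1 (.p 610330) (.p 66938)))))))))) (.b 1 (.b 7 (.b 2 .n (.p 132473)) (.p 479257)) (.p 328073))))) (.p 354370)) (.p 354356)) (.p 354323)) (.p 415617)) (.b 0 (.b 6 (.p 480897) (.b 2 .n (.b 3 .n (.b 4 (.w 2 3 (.b 7 (.b 0 (.b 4 (.p 543093) (.p 541335)) (.p 525689)) (.b 0 (.b 6 (.p 480914) (.b 1 .n (.b 4 .n (.p 99369)))) (.p 479273)))) (.p 148248))))) (.p 479256))))))))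

def c7 : Cert := (.b 2 (.b 3 (.b 0 (.w 5 2 (.b 1 (.b 4 (.b 6 (.b 0 .n (.w 2 3 (.b 7 (.b 1 .n (.b 3 (.b 4 .n (.b 6 .n (.b 0 (.w 1 3 (.b 2 (.b 7 .n (.p 358441)) (.b 3 (.b 7 .n (.p 165657)) (.p 164633)))) (.w 1 3 (.b 2 (.b 7 .n (.p 358441)) (.b 0 (.b 7 (.b 3 .n (.p 164633)) (.p 492041)) (.p 532505))))))) (.p 202626))) (.b 0 (.b 4 .n (.p 357416)) (.p 479272))))) (.p 156439)) (.p 148247)) (.b 6 (.b 4 (.p 78965) (.b 0 .n (.w 7 0 (.b 1 (.b 2 .n (.p 131463)) (.b 5 (.b 6 .n (.p 67192)) (.p 66936)))))) (.p 79447)))) (.w 5 2 (.b 1 (.b 4 (.b 6 (.b 0 (.w 1 3 (.b 6 (.b 2 .n (.b 4 (.b 3 .n (.b 7 .n (.b 0 (.w 2 3 (.b 1 (.b 6 .n (.p 354329)) (.b 4 (.b 6 .n (.p 99881)) (.p 99369)))) (.w 2 3 (.b 1 (.b 6 .n (.p 354329)) (.b 0 (.b 6 (.b 4 .n (.p 99369)) (.p 426249)) (.p 528425))))))) (.p 272001)))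 (.b 0 (.b 3 .n (.p 353048)) (.p 413720)))) (.w 1 3 (.b 6 (.b 4 (.b 7 (.b 2 .n (.b 0 (.b 3 .n (.w 2 3 (.b 1 (.b 6 (.b 7 .n (.p 356754)) (.p 354329)) (.b 4 (.b 6 (.b 0 .n (.p 66921)) (.p 99881)) (.p 99369))))) (.p 132472))) (.b 2 (.p 356738) (.b 0 (.b 3 .n (.w 2 3 (.b 1 (.b 6 (.b 7 .n (.p 356754)) (.p 354329)) (.b 4 (.b 6 (.b 0 .n (.p 66921)) (.p 99881)) (.p 99369))))) (.b 3 (.p 479288) (.w 2 3 (.b 1 (.b 6 (.b 7 .n (.p 356754)) (.p 354329)) (.b 0 (.b 6 (.b 4 .n (.p 99369)) (.p 426249)) (.p 528425)))))))) (.b 0 (.b 2 .n (.p 272001)) (.p 263528))) (.b 0 (.b 3 .n (.p 353048)) (.p 413720))))) (.p 156439)) (.p 148247)) (.b 6 (.b 0 (.b 4 (.p 78965) (.w 6 0 (.b 4 (.b 1 (.b 2 .n (.b 3 .n (.b 5 (.b 7 .n (.p 481346)) (.b 7 (.p 358466) (.w 1 3 (.b 6 (.b 2 .n (.b 4 (.b 7 (.p 358722) (.b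 3 .n (.b 8 .n (.b 0 (.w 2 3 (.b 1 (.b 6 .n (.p 354586)) (.b 4 (.b 6 .n (.p 103978)) (.p 103466)))) (.w 2 3 (.b 1 (.b 6 .n (.p 354586)) (.b 0 (.b 6 (.b 4 .n (.p 103466)) (.p 430346)) (.p 593962)))))))) (.p 272017))) (.b 0 (.b 8 .n (.p 550153)) (.p 413721)))))))) (.p 66694)) (.b 5 (.b 7 .n (.p 264040)) (.p 263528))))) (.p 66151)) (.p 79447))))) (.p 78886)) (.b 3 (.p 148325) (.b 0 (.w 5 2 c6) (.w 1 3 (.b 6 (.b 3 (.b 4 (.b 2 (.b 0 .n (.w 7 0 (.b 5 (.b 6 .n (.b 3 (.b 1 .n (.p 415793)) (.b 1 (.p 415763) (.b 4 (.p 78981) (.b 2 (.p 78888) (.w 6 0 (.b 5 (.b 7 .n (.b 1 (.b 2 (.b 3 (.b 4 (.w 8 1 (.b 5 (.b 7 .n (.p 95834)) (.b 0 (.b 7 (.b 9 (.b 2 (.p 415906) (.b 3 (.p 148392) (.w 6 2 (.b 0 (.b 5 .n (.b 4 (.p 355138) (.b 1 (.p 148251) (.b 10 .n (.b 8 (.b 9 (.b 7 (.w 10 2 (.b 8 (.b 0 .n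 (.p 134028)) (.b 6 (.b 0 .n (.p 133996)) (.p 440492)))) (.w 10 2 (.b 8 (.b 0 .n (.p 134028)) (.b 6 (.b 0 .n (.p 133996)) (.p 440492))))) (.p 103819)) (.p 689515)))))) (.b 5 (.b 7 .n (.p 467035)) (.p 132459)))))) (.p 430346)) (.p 422154)) (.p 66954)))) (.p 475225)) (.p 471129)) (.p 467033)) (.p 462937))) (.b 1 (.p 544793) (.p 66921))))))))) (.b 1 (.b 6 (.b 2 .n (.p 132456)) (.p 413720)) (.p 328056))))) (.p 354114)) (.p 354100)) (.p 354067)) (.b 0 (.b 2 .n (.b 3 .n (.b 4 (.w 2 3 (.b 6 (.b 0 (.b 4 (.p 477285) (.p 475782)) (.p 460136)) (.b 0 (.b 1 .n (.b 4 .n (.p 95272))) (.p 413736)))) (.p 148247)))) (.p 413719)))))))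

def c8 : Cert := (.b 1 (.b 2 .n (.b 3 .n (.b 4 (.w 5 2 (.b 1 (.b 4 (.b 0 .n (.w 2 3 (.b 1 (.b 0 .n (.b 6 .n (.p 413735))) (.b 4 (.b 3 (.p 332658) (.b 6 (.p 202354) (.b 0 .n (.p 397351)))) (.p 87079))))) (.p 148246)) (.b 0 (.b 4 .n (.w 6 1 (.b 2 (.b 3 (.b 5 (.b 0 .n (.w 7 0 (.b 1 (.b 4 (.b 2 .n (.b 3 .n (.b 5 .n (.b 6 (.w 8 3 (.b 2 (.b 0 (.b 1 .n (.p 333970)) (.p 328344)) (.b 0 (.b 1 .n (.b 4 .n (.b 6 (.p 148841) (.b 3 (.p 414009) (.b 7 (.w 2 3 (.b 1 (.b 7 .n (.p 619802)) (.b 4 (.b 7 .n (.p 87850)) (.p 87082)))) (.w 2 3 (.b 8 (.b 0 (.b 1 .n (.p 333986)) (.p 330122)) (.b 0 (.b 7 (.b 4 .n (.p 623658)) (.p 554250)) (.p 561194))))))))) (.b 1 (.b 7 .n (.p 466969)) (.p 131465))))) (.w 8 3 (.b 6 (.b 0 .n (.b 7 .n (.p 22409))) (.b 1 (.b 4 (.b 2 (.p 414098) (.b 7 .n (.p 161049)))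 (.p 414857)) (.p 414089)))))))) (.p 262535)) (.b 2 (.b 6 .n (.p 67192)) (.p 66168))))) (.p 87079)) (.p 78887)) (.b 5 (.b 3 (.p 148342) (.b 0 .n (.w 2 3 (.b 7 (.b 1 .n (.p 87938)) (.b 0 (.b 4 .n (.p 480296)) (.p 479272)))))) (.p 148839))))) (.b 4 (.w 2 3 (.b 1 (.b 6 .n (.p 414066)) (.b 4 (.b 3 (.p 332658) (.b 6 (.p 202087) (.b 0 .n (.p 413735)))) (.p 87079)))) (.w 2 3 (.b 6 (.b 1 (.b 0 .n (.b 3 (.b 4 (.w 6 1 (.b 2 (.b 3 (.b 5 (.b 0 .n (.p 66182)) (.p 87080)) (.p 78888)) (.b 5 (.b 7 .n (.p 160088)) (.p 148840)))) (.p 262518)) (.p 197991))) (.p 87666)) (.b 0 (.b 4 .n (.p 414759)) (.p 413735)))))))) (.p 148245)))) (.b 2 (.b 4 .n (.b 3 (.w 5 1 (.b 2 (.b 3 (.b 0 .n (.w 1 3 (.b 2 (.b 0 .n (.b 6 .n (.p 413719))) (.b 3 (.b 4 (.p 337009) (.b 6 (.p 271985) (.b 0 .n (.p 401431)))) (.p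 152343))))) (.p 78886)) (.b 0 (.b 3 .n (.w 6 2 (.b 1 (.b 4 (.b 5 (.b 0 .n (.w 7 0 (.b 2 (.b 3 (.b 1 .n (.b 4 .n (.b 5 .n (.b 6 (.w 8 3 (.b 1 (.b 0 (.b 2 .n (.p 338065)) (.p 328088)) (.b 0 (.b 2 .n (.b 3 .n (.b 6 (.p 79209) (.b 4 (.p 414281) (.b 7 (.w 1 3 (.b 2 (.b 7 .n (.p 619818)) (.b 3 (.b 7 .n (.p 153370)) (.p 152346)))) (.w 1 3 (.b 8 (.b 0 (.b 2 .n (.p 338081)) (.p 330122)) (.b 0 (.b 7 (.b 3 .n (.p 623386)) (.p 554250)) (.p 561178))))))))) (.b 2 (.b 7 .n (.p 462889)) (.p 66185))))) (.w 8 3 (.b 6 (.b 0 .n (.b 7 .n (.p 22409))) (.b 2 (.b 3 (.b 1 (.p 414353) (.b 7 .n (.p 95529))) (.p 414601)) (.p 414345)))))))) (.p 197255)) (.b 1 (.b 6 .n (.p 132728)) (.p 131448))))) (.p 152343)) (.p 148247)) (.b 5 (.b 4 (.p 78966) (.b 0 .n (.w 1 3 (.b 7 (.b 2 .n (.p 153473)) (.b 0 (.b 3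 .n (.p 480024)) (.p 479256)))))) (.p 79207))))) (.b 3 (.w 1 3 (.b 2 (.b 6 .n (.p 414321)) (.b 3 (.b 4 (.p 337009) (.b 6 (.p 271719) (.b 0 .n (.p 413719)))) (.p 152343)))) (.w 1 3 (.b 6 (.b 2 (.b 0 .n (.b 4 (.b 3 (.w 6 2 (.b 1 (.b 4 (.b 5 (.b 0 .n (.p 131462)) (.p 152344)) (.p 148248)) (.b 5 (.b 7 .n (.p 94808)) (.p 79208)))) (.p 197238)) (.p 263527))) (.p 153201)) (.b 0 (.b 3 .n (.p 414487)) (.p 413719)))))))) (.p 78885))) (.b 3 (.b 4 .n (.w 5 1 (.b 2 (.b 3 (.b 0 .n (.w 1 3 (.b 6 (.b 2 .n (.b 4 (.b 3 .n (.b 0 (.w 2 3 (.b 1 (.b 6 .n (.p 354072)) (.b 4 (.b 6 .n (.p 95784)) (.p 95272)))) (.w 2 3 (.b 1 (.b 6 .n (.p 354072)) (.b 0 (.b 6 (.b 4 .n (.p 95272)) (.p 422152)) (.p 462888)))))) (.p 271985))) (.b 0 (.b 2 (.p 352881) (.b 3 .n (.p 156439))) (.p 413719))))) (.p 78886)) (.b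 3 (.b 0 .n (.w 6 0 (.b 1 (.b 2 .n (.p 131446)) (.b 5 (.b 2 (.p 66166) (.b 3 .n (.p 131943))) (.p 66919))))) (.p 148310))))) (.b 4 (.w 5 2 (.b 1 (.b 4 (.b 0 .n (.w 2 3 (.b 6 (.b 1 .n (.b 3 (.b 4 .n (.b 0 (.w 1 3 (.b 2 (.b 6 .n (.p 354088)) (.b 3 (.b 6 .n (.p 161304)) (.p 160536)))) (.w 1 3 (.b 2 (.b 6 .n (.p 354088)) (.b 0 (.b 6 (.b 3 .n (.p 160536)) (.p 422408)) (.p 466968)))))) (.p 202354))) (.b 0 (.b 1 (.p 352626) (.b 4 .n (.p 91175))) (.p 413735))))) (.p 148246)) (.b 4 (.b 0 .n (.w 6 0 (.b 1 (.b 2 .n (.p 131446)) (.b 4 (.b 5 .n (.p 66919)) (.p 66663))))) (.p 78934)))) (.w 5 1 c7)))))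

def c9 : Cert := (.b 0 (.b 6 .n (.w 6 2 (.b 5 (.b 4 (.p 481346) (.b 1 (.p 481299) (.b 0 .n (.w 8 0 (.b 7 (.b 1 (.b 2 (.b 4 .n (.p 262552)) (.p 131480)) (.p 67480)) (.b 6 (.b 1 (.p 459160) (.b 5 .n (.p 66953))) (.p 460425))))))) (.b 1 (.p 480897) (.b 4 (.p 480900) (.b 0 (.w 7 1 (.b 5 (.b 3 (.p 416049) (.b 2 (.p 416036) (.b 0 .n (.b 8 (.w 9 0 (.b 6 (.b 1 (.b 2 (.b 4 .n (.p 262569)) (.p 131497)) (.p 67241)) (.b 7 (.b 1 (.p 393641) (.b 5 .n (.p 66970))) (.p 395162)))) (.w 8 3 (.b 9 (.b 6 .n (.b 7 .n (.p 480906))) (.b 0 (.b 6 .n (.p 611978)) (.p 610442)))))))) (.b 8 (.b 2 (.p 415634) (.b 3 (.p 415635) (.b 0 .n (.w 9 0 (.b 5 (.b 1 (.b 2 (.b 4 .n (.p 262569)) (.p 131497)) (.p 66985)) (.b 8 (.b 1 (.p 328105) (.b 7 .n (.p 67482))) (.p 329882))))))) (.p 550265)))) (.w 7 1 (.b 8 (.b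 0 (.b 3 (.p 428337) (.b 2 (.p 428324) (.b 5 .n (.w 8 0 (.b 5 (.b 1 (.b 2 (.b 4 .n (.p 262568)) (.p 131496)) (.p 66984)) (.b 9 (.b 1 (.p 328104) (.b 6 .n (.p 67210))) (.p 330122))))))) (.p 67209)) (.b 0 (.b 5 .n (.p 550265)) (.p 548985)))))))))) (.b 6 (.w 7 0 (.b 1 (.b 2 (.b 4 .n (.p 262535)) (.p 131463)) (.b 5 (.b 6 .n (.p 67192)) (.p 66936)))) (.w 1 3 (.b 7 (.b 6 (.b 3 (.b 0 .n (.b 2 (.b 4 (.w 8 0 (.b 5 (.b 6 .n (.b 7 .n (.b 1 (.b 3 .n (.p 416019)) (.b 3 (.p 416049) (.b 2 (.b 4 .n (.p 416036)) (.b 4 (.p 416066) (.w 7 0 (.b 5 (.b 8 .n (.b 1 (.b 2 (.b 3 (.b 4 (.b 6 (.w 9 2 (.b 0 (.b 8 (.b 10 (.b 5 .n (.b 1 (.p 481713) (.b 4 (.p 481716) (.b 6 (.w 7 1 (.b 0 (.b 5 .n (.b 11 .n (.p 746876))) (.b 5 (.b 8 .n (.p 528476)) (.p 66940)))) (.w 6 2 (.b 9 (.b 0 (.b 8 (.b 10 (.b 4 (.p 760898)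 (.b 1 (.p 760851) (.b 5 .n (.w 7 1 (.b 0 (.b 5 .n (.b 12 .n (.p 812413))) (.b 5 (.b 8 .n (.p 528477)) (.p 66941))))))) (.p 500236)) (.p 492044)) (.p 134044)) (.b 0 (.b 8 (.b 10 (.b 5 .n (.p 759148)) (.p 500236)) (.p 492044)) (.p 634988)))))))) (.p 500235)) (.p 492043)) (.b 5 (.b 8 .n (.p 532571)) (.p 132507)))) (.p 26746)) (.p 540762)) (.p 536666)) (.p 532570)) (.p 528474))) (.b 1 (.p 610330) (.p 66938)))))))))) (.b 1 (.b 7 (.b 2 (.b 3 .n (.p 198009)) (.p 132473)) (.p 479257)) (.p 328073)))) (.p 263544)) (.p 132472))) (.p 354323)) (.p 415617)) (.b 0 (.b 6 (.p 480897) (.b 3 .n (.b 2 (.b 4 .n (.p 272403)) (.b 4 (.p 202818) (.w 2 3 (.b 7 (.b 0 (.b 6 (.b 4 .n (.p 354596)) (.p 415634)) (.p 525689)) (.b 0 (.b 6 (.p 480914) (.b 4 .n (.b 1 (.p 530724) (.b 3 (.p 529298) (.w 3 3 (.b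 7 (.b 0 (.b 1 (.p 531061) (.p 529319)) (.p 525690)) (.b 0 (.b 6 (.p 480931) (.b 1 .n (.b 2 (.p 529314) (.b 4 (.p 529316) (.w 8 2 (.b 1 (.b 4 (.p 203586) (.b 9 (.p 272817) (.b 5 (.p 482067) (.b 0 .n (.p 479259))))) (.b 10 (.b 4 (.p 202932) (.b 5 (.p 202933) (.b 0 .n (.p 479371)))) (.p 668043)))))))) (.p 479290)))))))) (.p 479273)))))))) (.p 479256))))))

def c10 : Cert := (.b 0 (.b 3 (.w 5 2 (.b 4 (.b 6 (.p 223042) (.p 222580)) (.b 1 (.b 0 .n (.b 6 (.w 7 0 (.b 2 (.b 3 (.b 4 .n (.p 263047)) (.p 197255)) (.b 1 (.b 5 .n (.p 132472)) (.p 131448)))) (.w 7 0 (.b 2 (.b 3 (.b 6 .n (.p 393863)) (.p 197255)) (.b 1 (.b 5 .n (.p 132472)) (.p 131448)))))) (.b 6 (.b 0 .n (.w 7 0 (.b 2 (.b 1 (.b 4 .n (.p 262535)) (.p 66183)) (.b 5 (.b 6 .n (.p 132728)) (.p 132472))))) (.p 79447))))) (.w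 5 2 (.b 1 (.b 4 (.p 202562) (.b 6 (.b 0 .n (.w 7 0 (.b 2 (.b 3 (.b 4 .n (.p 263047)) (.p 197255)) (.b 1 (.b 5 (.b 6 .n (.p 132728)) (.p 132472)) (.p 131448))))) (.p 415507))) (.b 4 (.b 6 (.b 0 .n (.w 7 0 (.b 1 (.b 2 (.b 3 .n (.p 197255)) (.p 131463)) (.b 4 (.b 5 (.b 6 .n (.p 67192)) (.p 66936)) (.p 66680))))) (.p 415554)) c9)))) (.b 3 (.w 1 3 (.b 6 (.b 2 (.b 4 (.b 0 .n (.b 3 (.w 5 2 (.b 6 (.b 0 .n (.p 131944)) (.b 1 (.b 7 .n (.p 161368)) (.p 79448)))) (.w 5 2 (.b 6 (.b 0 .n (.p 131944)) (.b 1 (.b 7 .n (.p 161368)) (.p 79448)))))) (.p 354084)) (.b 0 (.b 4 (.p 354114) (.b 3 .n (.w 2 3 (.b 6 (.b 1 (.b 4 (.b 0 .n (.b 3 (.w 5 2 (.b 6 (.b 0 .n (.p 131945)) (.b 1 (.b 8 .n (.p 165465)) (.p 79449)))) (.w 5 2 (.b 6 (.b 0 .n (.p 131945)) (.b 1 (.b 8 .n (.p 165465)) (.p 79449)))))) (.p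 354340)) (.p 95874)) (.b 1 (.p 354072) (.b 0 (.b 3 (.p 463746) (.b 4 .n (.w 4 3 (.b 6 (.b 0 (.b 2 (.p 534885) (.p 533654)) (.p 525673)) (.b 1 (.p 354073) (.b 0 (.b 3 (.p 463764) (.b 2 .n (.w 8 1 (.b 3 (.b 7 (.b 5 (.b 2 (.p 272945) (.p 272547)) (.p 353192)) (.p 463784)) (.b 5 (.p 79450) (.b 0 (.b 7 (.p 202664) (.b 2 .n (.b 9 .n (.p 606858)))) (.p 405642))))))) (.p 413769))))))) (.p 413736))))))) (.p 132455))) (.b 0 (.b 3 .n (.p 353047)) (.p 413719)))) (.w 1 3 (.b 6 (.b 3 (.b 0 .n (.b 2 (.b 4 (.w 7 0 (.b 5 (.b 6 .n (.b 1 (.b 3 .n (.p 415763)) (.b 3 (.p 415793) (.b 2 (.b 4 .n (.p 415780)) (.b 4 (.p 415810) (.w 6 0 (.b 5 (.b 7 .n (.b 1 (.b 2 (.b 3 (.b 4 (.w 8 1 (.b 0 (.b 7 (.b 9 (.b 5 .n (.b 2 (.p 415906) (.b 3 (.p 415907) (.w 6 2 (.b 0 (.b 5 .n (.b 4 (.p 355138) (.b 1 (.p 355091)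 (.b 10 .n (.b 8 (.b 9 (.b 7 (.w 10 2 (.b 8 (.b 0 .n (.p 134028)) (.b 6 (.b 0 .n (.p 133996)) (.p 440492)))) (.w 10 2 (.b 8 (.b 0 .n (.p 134028)) (.b 6 (.b 0 .n (.p 133996)) (.p 440492))))) (.p 103819)) (.p 689515)))))) (.b 5 (.b 7 .n (.p 467035)) (.p 132459))))))) (.p 430346)) (.p 422154)) (.b 5 (.b 7 .n (.p 462938)) (.p 66954)))) (.p 475225)) (.p 471129)) (.p 467033)) (.p 462937))) (.b 1 (.p 544793) (.p 66921))))))))) (.b 1 (.b 6 (.b 2 (.b 3 .n (.p 197992)) (.p 132456)) (.p 413720)) (.p 328056)))) (.p 263527)) (.p 132455))) (.p 354067)) (.b 0 (.b 3 .n (.b 2 (.b 4 .n (.p 272147)) (.b 4 (.p 202562) (.w 2 3 (.b 6 (.b 0 (.b 4 .n (.p 354340)) (.p 460136)) (.b 0 (.b 4 .n (.b 1 (.p 464932) (.b 3 (.p 463746) (.w 3 3 (.b 6 (.b 0 (.b 1 (.p 465253) (.p 463766)) (.p 460137)) (.b 0 (.b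 1 .n (.b 2 (.p 463762) (.b 4 (.p 463764) (.w 7 2 (.b 1 (.b 4 (.p 203330) (.b 8 (.p 272545) (.b 0 .n (.b 6 (.p 131494) (.b 5 (.p 416275) (.p 413722)))))) (.b 9 (.b 4 (.p 202660) (.b 5 (.p 202661) (.b 6 (.p 202662) (.b 0 .n (.p 413818))))) (.p 602490))))))) (.p 413753))))))) (.p 413736))))))) (.p 413719))))))

def c11 : Cert := (.b 3 (.b 4 (.p 148785) (.w 5 1 (.b 2 (.b 3 (.p 271921) (.p 79202)) (.b 0 (.b 3 .n (.w 6 2 (.b 4 (.b 5 (.p 218946) (.p 218740)) (.b 1 (.b 0 .n (.b 5 (.w 7 0 (.b 2 (.b 3 (.b 4 .n (.p 263047)) (.p 197255)) (.b 1 (.b 5 (.b 6 .n (.p 132728)) (.p 132472)) (.p 131448)))) (.w 7 0 (.b 2 (.b 3 (.b 5 .n (.p 328327)) (.p 197255)) (.b 1 (.b 6 .n (.p 132728)) (.p 131448)))))) (.b 5 (.b 0 .n (.w 1 3 (.b 3 (.b 0 .n (.b 7 .n (.p 479256))) (.b 6 (.b 7 .n (.p 480024))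 (.p 414488))))) (.p 79207)))))) (.b 3 (.w 6 0 (.b 1 (.b 2 (.b 4 .n (.p 262518)) (.p 131446)) (.b 5 (.b 2 (.p 66166) (.b 3 .n (.p 131943))) (.p 66919)))) (.w 1 3 (.b 3 (.b 0 .n (.b 6 (.b 2 (.b 4 (.w 6 2 (.b 5 (.b 7 .n (.p 160600)) (.b 0 (.b 1 .n (.p 79208)) (.p 132456)))) (.p 263527)) (.p 132455)) (.p 413719))) (.b 6 (.b 2 (.p 340338) (.b 0 (.b 4 (.p 340340) (.w 6 0 (.b 2 (.b 1 (.b 4 .n (.p 262534)) (.p 66182)) (.b 5 (.b 7 .n (.p 132968)) (.p 132456))))) (.p 132455))) (.p 414487))))))))) (.b 4 (.w 5 2 (.b 1 (.b 4 (.p 202306) (.p 148833)) (.b 0 (.b 4 .n (.w 6 1 (.b 3 (.b 5 (.p 284465) (.p 284275)) (.b 2 (.b 0 .n (.b 5 (.w 7 0 (.b 1 (.b 4 (.b 3 .n (.p 197767)) (.p 262535)) (.b 2 (.b 5 (.b 6 .n (.p 67192)) (.p 66936)) (.p 66168)))) (.w 7 0 (.b 1 (.b 4 (.b 5 .n (.p 328071)) (.p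 262535)) (.b 2 (.b 6 .n (.p 67192)) (.p 66168)))))) (.b 5 (.b 0 .n (.w 2 3 (.b 4 (.b 0 .n (.b 7 .n (.p 479272))) (.b 6 (.b 7 .n (.p 480296)) (.p 414760))))) (.p 148839)))))) (.b 4 (.w 6 0 (.b 1 (.b 2 (.b 3 .n (.p 197238)) (.p 131446)) (.b 4 (.b 5 .n (.p 66919)) (.p 66663)))) (.w 1 3 (.b 6 (.b 4 (.b 3 (.b 0 .n (.b 2 (.w 6 1 (.b 5 (.b 7 .n (.p 95320)) (.b 0 (.b 2 .n (.p 148840)) (.p 66920)))) (.p 132455))) (.p 345875)) (.p 284273)) (.b 0 (.b 4 (.p 414833) (.b 2 (.p 414759) (.b 3 .n (.w 2 3 (.b 6 (.b 0 (.b 1 (.p 464997) (.b 3 (.p 463746) (.b 4 .n (.w 6 0 (.b 1 (.b 2 (.b 4 .n (.p 262550)) (.p 131478)) (.b 5 (.b 8 .n (.p 67689)) (.p 66921))))))) (.p 460136)) (.b 0 (.b 4 .n (.p 414760)) (.p 413736))))))) (.p 413719)))))))) (.w 5 1 (.b 2 (.b 3 (.p 271921) (.b 0 (.w 5 2 (.b 1 (.b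 6 (.p 202594) (.p 157041)) (.b 4 (.b 0 .n (.b 6 (.w 7 0 (.b 1 (.b 2 (.b 3 .n (.p 197255)) (.p 131463)) (.b 4 (.b 5 .n (.p 66936)) (.p 66680)))) (.w 7 0 (.b 1 (.b 2 (.b 6 .n (.p 393607)) (.p 131463)) (.b 4 (.b 5 .n (.p 66936)) (.p 66680)))))) (.b 6 (.b 0 .n (.w 7 0 (.b 1 (.b 2 (.b 4 .n (.p 262535)) (.p 131463)) (.b 5 (.b 6 .n (.p 67192)) (.p 66936))))) (.p 271959))))) (.w 1 3 (.b 6 (.b 3 (.b 0 .n (.b 4 (.b 2 (.w 5 2 (.b 6 (.b 0 .n (.p 197224)) (.b 4 (.b 7 .n (.p 226904)) (.p 271960)))) (.w 5 2 (.b 6 (.b 0 .n (.p 197224)) (.b 4 (.b 7 .n (.p 226904)) (.p 271960))))) (.p 263527))) (.p 354067)) (.b 0 (.b 2 (.p 352881) (.b 4 (.p 352839) (.b 3 .n (.w 3 3 (.b 6 (.b 0 (.b 1 (.p 464997) (.p 463750)) (.p 460136)) (.b 0 (.b 2 (.p 352899) (.b 4 (.p 352840) (.b 1 .n (.w 7 2 (.b 6 (.b 0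 (.b 4 (.b 1 (.p 203074) (.p 202644)) (.p 272023)) (.p 197225)) (.b 0 (.b 4 (.p 402583) (.b 5 (.p 271961) (.b 1 .n (.b 8 .n (.p 536953))))) (.p 401529))))))) (.p 413752))))))) (.p 413719)))))) c10))))

def c12 : Cert := (.b 5 (.w 2 3 (.b 1 (.b 0 .n (.b 5 .n (.b 3 (.b 4 (.w 6 2 (.b 7 (.b 1 .n (.b 4 .n (.b 0 (.b 5 (.w 8 1 (.b 2 (.b 3 (.b 6 (.b 0 .n (.b 5 .n (.b 7 .n (.w 9 0 (.b 1 (.b 4 (.b 8 (.b 2 .n (.b 3 .n (.b 6 .n (.b 7 (.p 393850) (.w 7 0 (.b 9 (.b 1 (.b 4 (.b 8 (.b 6 .n (.p 27063)) (.p 34123)) (.p 346779)) (.p 6811)) (.b 1 (.b 2 .n (.p 598043)) (.p 631163)))))))) (.p 34122)) (.p 283049)) (.b 4 (.p 5450) (.b 2 (.b 3 (.b 6 (.b 8 .n (.p 67738)) (.p 91178)) (.p 78890)) (.p 66202)))))))) (.p 91177)) (.p 78889)) (.b 0 (.b 5 (.b 7 (.b 6 .n (.p 149129)) (.p 291081)) (.p 282889))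 (.p 270473)))) (.p 282888)) (.b 5 (.w 8 1 (.b 0 (.b 5 (.b 7 (.b 2 .n (.p 270488)) (.p 291081)) (.p 282889)) (.b 5 (.b 7 (.b 6 .n (.p 25721)) (.p 6025)) (.p 5513)))) (.w 8 1 (.b 0 (.b 5 (.b 7 (.b 2 .n (.p 270488)) (.p 291081)) (.p 282889)) (.b 7 (.b 6 .n (.p 25721)) (.p 6025)))))))) (.b 0 (.b 1 .n (.p 160104)) (.p 467048)))) (.w 7 0 (.b 6 (.b 1 .n (.b 4 (.p 5448) (.p 283000))) (.b 2 (.b 3 (.b 1 .n (.p 398210)) (.p 394104)) (.p 393848))))) (.b 4 (.w 6 2 (.b 7 (.b 0 (.b 5 (.b 1 .n (.b 4 .n (.w 8 1 (.b 3 (.b 2 (.b 6 (.b 0 .n (.b 5 .n (.b 7 .n (.w 9 0 (.b 7 (.b 1 (.b 4 (.b 8 (.b 3 .n (.p 14759)) (.p 34122)) (.p 283049)) (.p 6057)) (.b 1 (.b 4 (.b 8 (.b 2 .n (.b 3 (.p 467002) (.b 6 (.p 467050) (.w 7 0 (.b 9 (.b 1 (.b 4 (.b 8 (.b 3 .n (.p 14775)) (.p 34123)) (.p 346779)) (.p 6811))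 (.b 1 (.b 2 .n (.p 598043)) (.p 631163))))))) (.p 34122)) (.p 283049)) (.b 4 (.p 5450) (.b 2 (.b 3 (.b 6 (.b 8 .n (.p 491578)) (.p 91178)) (.p 78890)) (.p 66202))))))))) (.p 91177)) (.p 148376)) (.b 2 (.p 78889) (.b 0 (.b 5 (.b 7 (.b 6 .n (.p 202377)) (.p 291081)) (.p 282889)) (.p 270473))))))) (.p 217720)) (.p 197240)) (.b 0 (.b 4 .n (.p 475912)) (.p 467048)))) (.w 6 2 (.b 7 (.b 0 (.b 4 .n (.p 213624)) (.p 197240)) (.b 0 (.b 1 .n (.p 160104)) (.p 467048)))))))) (.b 4 (.b 3 (.p 398194) (.b 0 .n (.b 5 .n (.p 5447)))) (.p 91175)))) (.w 6 2 (.b 5 (.b 1 .n (.b 4 .n (.b 0 (.w 7 1 (.b 2 (.b 3 (.b 6 (.b 0 .n (.b 5 .n (.w 8 0 (.b 1 (.b 4 (.b 7 (.b 2 .n (.b 6 (.p 335977) (.b 3 .n (.w 9 3 (.b 2 (.b 0 (.b 1 .n (.p 399778)) (.p 393897)) (.b 0 (.b 5 (.b 8 (.b 1 .n (.b 4 .n (.b 7 (.p 149114)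 (.b 3 (.p 483642) (.w 2 3 (.b 9 (.b 0 (.b 1 .n (.p 399794)) (.p 395931)) (.b 0 (.b 4 .n (.p 607755)) (.p 630827)))))))) (.p 426586)) (.p 336041)) (.b 5 (.p 393818) (.b 1 (.b 4 (.b 8 .n (.p 532506)) (.p 270362)) (.p 131482))))))))) (.p 30025)) (.p 283032)) (.b 4 (.p 5449) (.b 2 (.b 3 (.b 6 (.b 7 .n (.p 67465)) (.p 91177)) (.p 78889)) (.p 66185))))))) (.p 91176)) (.p 78888)) (.b 0 (.b 5 (.b 6 .n (.p 149112)) (.p 282888)) (.p 270456)))) (.w 7 1 (.b 2 (.b 3 (.b 6 (.b 0 .n (.p 66183)) (.p 91176)) (.p 78888)) (.b 6 (.b 5 .n (.p 151912)) (.p 149112))))))) (.b 0 (.b 1 .n (.p 151911)) (.p 335975)))))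

def c13 : Cert := (.b 4 (.b 2 .n (.b 3 .n (.b 5 (.w 6 2 (.b 1 (.b 4 (.b 0 .n (.b 5 .n (.w 7 0 (.b 2 (.b 3 (.b 1 .n (.b 4 (.p 5448) (.b 6 (.w 8 1 (.b 7 (.b 2 .n (.b 0 (.b 5 (.b 3 .n (.b 6 (.p 78953) (.w 9 3 (.b 7 (.b 1 .n (.b 4 .n (.b 0 (.b 5 (.b 8 .n (.p 288922)) (.p 282890)) (.p 286874)))) (.b 2 (.p 424354) (.b 4 (.b 3 (.p 424355) (.b 1 (.b 8 (.b 0 .n (.b 5 .n (.w 2 3 (.b 1 (.b 4 (.b 8 (.b 7 .n (.p 422322)) (.p 428571)) (.p 412187)) (.b 0 (.b 4 .n (.p 303371)) (.p 659499)))))) (.p 164634)) (.p 202650))) (.p 149402))))))) (.p 282889)) (.p 131449))) (.b 0 (.p 291081) (.p 6025)))) (.w 8 1 (.b 0 (.b 5 (.b 7 (.b 6 .n (.p 286872)) (.p 291081)) (.p 282889)) (.b 2 (.b 7 .n (.p 462889)) (.p 66185))))))) (.p 197255)) (.b 1 (.b 4 (.b 6 .n (.p 132728)) (.p 270360)) (.p 131448))))))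 (.p 148247)) (.b 4 (.b 0 .n (.p 66119)) (.p 78951)))) (.w 6 2 (.b 1 (.b 4 (.b 5 .n (.p 151926)) (.p 148247)) (.b 4 (.b 0 .n (.p 66119)) (.p 78951))))))) (.b 5 (.b 2 (.b 3 (.w 1 3 (.b 4 (.b 0 (.b 2 .n (.p 402545)) (.p 393588)) (.b 2 (.b 0 .n (.b 5 .n (.b 3 (.w 4 3 (.b 1 (.b 2 (.b 0 .n (.p 393604)) (.p 403224)) (.b 2 (.b 3 (.b 5 .n (.p 464200)) (.p 79400)) (.p 94792)))) (.w 4 3 (.b 1 (.b 2 (.b 0 .n (.p 393604)) (.p 403224)) (.b 2 (.b 3 (.b 5 .n (.p 464200)) (.p 79400)) (.p 94792))))))) (.b 0 (.b 5 (.b 3 .n (.p 148247)) (.p 284167)) (.p 270359))))) (.p 78886)) (.b 3 (.w 6 1 (.b 2 (.b 3 (.b 0 .n (.b 5 .n (.w 7 0 (.b 1 (.b 4 (.b 6 (.b 2 .n (.b 3 .n (.w 1 3 (.b 2 (.b 3 (.b 8 (.b 7 .n (.p 422545)) (.p 426386)) (.p 405906)) (.b 7 (.b 4 (.b 0 (.b 3 .n (.b 8 .n (.b 5 (.w 2 3 (.b 8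 (.b 0 (.b 5 (.b 1 .n (.p 596130)) (.p 611978)) (.p 591498)) (.b 0 (.b 4 .n (.p 296458)) (.p 548906)))) (.w 2 3 (.b 8 (.b 0 (.b 1 .n (.p 596130)) (.p 591498)) (.b 0 (.b 4 .n (.p 296458)) (.p 548906))))))) (.p 393801)) (.p 272273)) (.b 0 (.b 8 .n (.p 553481)) (.p 466969))))))) (.p 25928)) (.p 283015)) (.b 4 (.p 5448) (.b 2 (.b 3 (.b 6 .n (.p 67192)) (.p 78888)) (.p 66168))))))) (.p 78887)) (.b 0 (.b 5 (.b 3 .n (.p 148327)) (.p 282887)) (.p 270439)))) (.w 1 3 (.b 4 (.b 0 (.b 2 .n (.b 3 .n (.b 5 (.w 2 3 (.b 4 (.b 0 .n (.p 395080)) (.b 1 (.b 0 .n (.b 5 .n (.b 3 (.w 8 0 (.b 6 (.b 7 (.b 4 .n (.p 284312)) (.p 460440)) (.b 4 (.p 25929) (.b 1 (.b 2 .n (.p 270361)) (.p 393609))))) (.w 7 2 (.b 8 (.b 0 (.b 4 .n (.p 213641)) (.p 197257)) (.b 0 (.b 1 .n (.p 164217)) (.p 532601))))))) (.p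 95272)))) (.w 2 3 (.b 0 (.b 1 .n (.b 4 .n (.p 95272))) (.b 4 (.p 395080) (.b 1 (.b 5 (.p 29784) (.b 3 (.w 8 0 (.b 6 (.b 7 (.b 2 (.b 3 (.b 4 .n (.p 284312)) (.p 340089)) (.p 335993)) (.p 460440)) (.b 4 (.p 25929) (.b 7 (.p 352377) (.b 1 (.b 2 .n (.p 270361)) (.p 393609)))))) (.w 7 2 (.b 8 (.b 0 (.b 4 .n (.p 213641)) (.p 197257)) (.b 0 (.b 1 .n (.p 164217)) (.p 532601)))))) (.p 95272)))))))) (.p 393588)) (.b 0 (.b 5 (.b 2 .n (.b 3 .n (.p 148247))) (.p 284167)) (.b 2 (.b 5 .n (.b 3 (.w 7 0 (.b 6 (.b 4 (.b 1 (.b 2 .n (.b 3 .n (.w 4 3 (.b 8 (.b 0 .n (.b 2 (.b 3 (.b 5 .n (.p 25929)) (.p 394057)) (.p 393801))) (.b 0 (.p 493065) (.p 26697)))))) (.p 5448)) (.p 284295)) (.b 4 (.p 25928) (.b 1 (.b 2 .n (.p 270360)) (.p 393592))))) (.w 7 0 (.b 6 (.b 3 (.b 4 .n (.p 284295)) (.p 198279))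 (.b 4 (.p 25928) (.b 1 (.b 2 .n (.p 270360)) (.p 393592))))))) (.p 270359))))))) (.p 282886)))

def c14 : Cert := (.b 3 (.b 2 (.b 0 (.b 5 (.w 6 2 (.b 4 (.b 1 (.b 7 (.b 0 .n (.b 5 (.p 197208) (.w 8 0 (.b 2 (.b 3 (.b 6 (.b 1 .n (.b 4 (.p 5449) (.b 7 .n (.w 9 1 (.b 5 (.b 0 (.b 8 (.b 2 .n (.b 6 (.p 272234) (.b 3 .n (.w 10 3 (.b 9 (.b 0 .n (.b 1 (.b 4 (.p 393652) (.b 2 (.b 8 .n (.p 548907)) (.p 270363))) (.p 67227))) (.b 7 (.b 1 (.p 616369) (.b 3 (.b 5 .n (.p 414011)) (.p 80299))) (.p 485803))))))) (.p 295178)) (.p 5545)) (.b 0 (.p 282890) (.b 2 (.b 8 .n (.p 528426)) (.p 66202)))))))) (.p 352313)) (.p 197272)) (.b 3 (.p 335929) (.b 1 (.b 4 (.b 7 (.b 6 .n (.p 393801)) (.p 160537)) (.p 270361)) (.p 131465))))))) (.p 160536)) (.p 78982)) (.b 1 (.p 148248) (.b 0 (.b 5 (.b 7 .n (.p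 272232)) (.p 282888)) (.p 270440))))) (.p 282887)) (.b 5 (.w 6 2 (.b 4 (.b 1 (.b 7 (.b 5 .n (.b 0 (.w 1 3 (.b 0 (.b 3 .n (.b 7 (.b 5 .n (.b 4 (.b 8 .n (.b 2 (.p 550185) (.w 2 3 (.b 1 (.b 7 (.b 8 .n (.p 426402)) (.p 424218)) (.b 4 (.b 5 .n (.p 595242)) (.p 103466)))))) (.p 344841))) (.p 422681))) (.b 7 (.b 4 (.p 393620) (.b 2 (.b 8 .n (.p 427049)) (.p 270361))) (.p 483353)))) (.w 2 3 (.b 8 (.b 4 .n (.b 7 .n (.b 1 (.p 422545) (.b 3 (.b 5 (.b 0 (.w 1 3 (.b 0 (.b 2 .n (.b 3 .n (.p 168730))) (.b 7 (.p 591482) (.p 483354)))) (.w 1 3 (.b 0 (.b 5 (.b 8 (.b 2 .n (.b 3 .n (.p 168730))) (.p 624138)) (.p 611850)) (.b 2 (.b 7 (.b 8 .n (.p 548906)) (.p 483354)) (.p 598042))))) (.p 414009)) (.p 78889))))) (.b 0 (.b 4 (.b 5 .n (.p 550185)) (.p 296457)) (.p 548905)))))) (.p 160536)) (.p 78982))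 (.b 1 (.p 148248) (.b 0 (.b 5 (.b 7 .n (.p 272232)) (.p 282888)) (.p 270440))))) (.w 1 3 (.b 7 (.b 4 (.b 0 (.b 3 .n (.b 2 (.b 5 .n (.w 3 3 (.b 5 (.b 0 (.b 7 (.b 2 .n (.p 533907)) (.p 554585)) (.p 525913)) (.b 0 (.b 4 (.b 1 .n (.p 414009)) (.p 284169)) (.p 352313))))) (.b 5 (.w 2 3 (.b 7 (.b 5 (.b 1 .n (.b 4 .n (.p 99369))) (.b 1 (.b 4 (.b 0 .n (.p 25929)) (.p 284281)) (.p 87673))) (.b 1 (.p 423961) (.p 100137)))) (.w 2 3 (.b 5 (.b 0 (.b 7 (.b 1 .n (.b 4 .n (.p 99369))) (.p 554585)) (.p 525913)) (.b 1 (.b 7 (.b 4 (.b 0 (.b 3 (.p 414355) (.w 3 3 (.b 5 (.b 0 (.b 7 (.b 2 .n (.p 599459)) (.p 554586)) (.p 525914)) (.b 0 (.b 4 (.b 1 .n (.p 414010)) (.p 284170)) (.p 352314))))) (.p 25929)) (.p 284281)) (.p 484633)) (.p 529705))))))) (.p 393604)) (.b 5 (.b 2 .n (.p 272257)) (.p 284280)))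 (.b 0 (.b 3 .n (.p 422680)) (.p 483352)))))) (.p 148342)) (.b 2 (.p 78887) (.b 0 (.b 5 (.w 6 2 (.b 4 (.b 1 (.b 7 (.b 0 .n (.b 5 (.p 197208) (.w 8 0 (.b 3 (.b 2 (.b 6 (.b 7 .n (.p 356409)) (.p 352313)) (.p 335929)) (.b 4 (.b 6 (.b 7 .n (.p 459593)) (.p 394057)) (.p 13449)))))) (.p 485442)) (.p 78982)) (.b 1 (.p 148248) (.b 0 (.b 5 (.b 7 .n (.w 7 2 (.b 4 (.b 0 (.b 1 (.b 6 (.p 551234) (.p 550801)) (.p 78999)) (.p 524873)) (.b 1 (.p 148249) (.b 0 (.b 5 (.b 6 .n (.w 8 1 (.b 3 (.b 5 (.b 2 (.b 6 (.p 485937) (.p 485538)) (.p 148392)) (.p 479546)) (.b 2 (.p 78890) (.b 0 (.b 5 (.b 6 .n (.b 9 .n (.p 620170))) (.p 282890)) (.p 270474)))))) (.p 282889)) (.p 270457)))))) (.p 282888)) (.p 270440))))) (.p 282887)) (.p 270439))))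

def c15 : Cert := (.b 5 (.b 2 (.b 4 .n (.b 3 (.w 1 3 (.b 4 (.b 0 (.b 2 .n (.p 402545)) (.p 393588)) (.b 2 (.b 0 .n (.b 5 .n (.b 3 (.w 4 3 (.b 1 (.b 2 (.b 0 .n (.p 393604)) (.p 403224)) (.b 2 (.b 3 (.b 5 .n (.p 464200)) (.p 79400)) (.p 94792)))) (.w 4 3 (.b 1 (.b 2 (.b 0 .n (.p 393604)) (.p 403224)) (.b 2 (.b 3 (.b 5 .n (.p 464200)) (.p 79400)) (.p 94792))))))) (.b 0 (.b 5 (.b 3 .n (.p 148247)) (.p 284167)) (.p 270359))))) (.p 78886))) (.b 3 (.b 4 (.w 1 3 (.b 2 (.b 3 (.b 4 .n (.p 410225)) (.p 405874)) (.b 4 (.b 3 .n (.b 5 .n (.b 0 (.w 2 3 (.b 1 (.b 4 (.b 3 .n (.p 405890)) (.p 411416)) (.b 4 (.b 5 .n (.p 464168)) (.p 95272)))) (.w 2 3 (.b 1 (.b 4 (.b 3 .n (.p 405890)) (.p 411416)) (.b 0 (.b 4 (.b 5 .n (.p 464168)) (.p 291080)) (.p 462888))))))) (.b 0 (.b 3 .n (.p 148247))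 (.p 270359))))) (.w 6 1 (.b 2 (.b 3 (.b 0 .n (.b 5 (.w 1 3 (.b 0 (.b 3 .n (.b 2 (.p 405890) (.b 4 (.b 7 (.b 5 .n (.w 2 3 (.b 1 (.b 7 (.b 3 .n (.p 405906)) (.p 423961)) (.b 4 (.b 5 .n (.p 529705)) (.p 99369))))) (.p 160536)) (.p 148248)))) (.b 7 (.b 4 (.p 393604) (.b 2 (.b 3 .n (.p 406568)) (.p 270360))) (.p 483352)))) (.w 1 3 (.b 7 (.b 3 .n (.b 2 (.p 405890) (.b 4 (.b 0 (.b 5 (.w 2 3 (.b 1 (.b 7 .n (.p 423961)) (.b 4 (.b 7 .n (.p 100137)) (.p 99369)))) (.w 2 3 (.b 1 (.b 7 (.b 3 .n (.p 405906)) (.p 423961)) (.b 4 (.b 5 .n (.p 529705)) (.p 99369))))) (.p 393800)) (.p 148248)))) (.b 0 (.b 5 (.b 3 .n (.p 471173)) (.p 484632)) (.p 483352)))))) (.p 78887)) (.b 0 (.b 5 (.b 3 .n (.p 148327)) (.p 282887)) (.p 270439))))) (.b 4 (.w 6 2 (.b 1 (.b 4 (.b 5 .n (.b 0 (.w 2 3 (.b 5 (.b 0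 .n (.b 3 (.b 7 (.b 4 .n (.b 1 (.p 286744) (.w 1 3 (.b 2 (.b 7 (.b 4 .n (.p 410257)) (.p 423977)) (.b 0 (.b 5 .n (.p 546313)) (.p 532505)))))) (.p 459653)) (.p 198232))) (.b 7 (.b 3 (.p 414339) (.b 1 (.b 4 .n (.p 410392)) (.p 202024))) (.p 484648)))) (.w 2 3 (.b 7 (.b 4 .n (.b 1 (.p 410241) (.b 3 (.b 5 (.b 0 (.w 1 3 (.b 2 (.b 7 .n (.p 423977)) (.b 3 (.b 7 .n (.p 165657)) (.p 164633)))) (.w 1 3 (.b 2 (.b 7 (.b 4 .n (.p 410257)) (.p 423977)) (.b 0 (.b 7 (.b 5 (.b 3 .n (.p 164633)) (.p 546313)) (.p 492041)) (.p 532505))))) (.p 414008)) (.p 78888)))) (.b 0 (.b 5 (.b 1 (.p 422274) (.b 4 .n (.p 291080))) (.p 484648)) (.p 483368)))))) (.p 148247)) (.b 4 (.b 0 (.b 5 .n (.p 202087)) (.p 66119)) (.p 78951)))) (.w 6 1 c14)))) (.b 4 (.b 2 (.b 3 .n (.p 202022)) (.b 3 (.p 151862) (.w 6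 2 (.b 1 (.b 4 (.b 5 .n (.p 151926)) (.p 148247)) (.b 4 (.b 0 (.b 5 (.p 202102) (.w 2 3 (.b 1 (.b 4 (.b 3 .n (.b 7 (.p 423955) (.b 5 .n (.b 0 (.w 3 3 (.b 1 (.b 4 .n (.p 411673)) (.b 2 (.b 7 (.p 98967) (.b 0 .n (.b 4 (.p 67145) (.b 5 (.p 393561) (.w 5 3 (.b 7 (.b 1 (.p 531062) (.p 529831)) (.b 0 (.b 3 (.b 2 .n (.p 534842)) (.p 602277)) (.b 1 (.b 2 (.b 4 .n (.p 286746)) (.p 598042)) (.p 393562))))))))) (.p 164153)))) (.w 3 3 (.b 1 (.b 4 .n (.p 411673)) (.b 2 (.b 7 (.p 98967) (.b 0 .n (.b 4 (.p 67145) (.b 5 (.p 393561) (.w 5 3 (.b 7 (.b 1 (.p 531062) (.p 529831)) (.b 0 (.b 4 (.b 3 (.b 2 .n (.p 534842)) (.p 602277)) (.p 542218)) (.b 1 (.b 2 (.b 4 .n (.p 286746)) (.p 598042)) (.p 393562))))))))) (.p 164153)))))))) (.p 410241)) (.b 5 (.b 0 .n (.p 393560)) (.b 3 (.b 7 (.p 86663)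 (.b 0 .n (.b 4 (.p 5448) (.w 8 0 (.b 1 (.b 6 (.b 2 (.b 7 .n (.p 459160)) (.p 335977)) (.p 393624)) (.b 4 (.p 5449) (.b 6 (.p 331881) (.b 7 (.p 331897) (.b 2 (.b 3 .n (.p 78889)) (.p 66185)))))))))) (.p 202024)))))) (.p 66119)) (.p 78951)))))) (.p 282886)))

def c16 : Cert := (.b 6 (.b 2 (.b 3 (.w 0 3 (.b 5 (.b 2 (.b 3 (.b 4 .n (.p 476544)) (.p 471173)) (.p 467077)) (.b 1 (.b 2 .n (.b 4 (.b 3 .n (.b 6 .n (.w 5 3 (.b 2 (.b 1 .n (.p 530217)) (.b 1 (.b 4 (.b 6 .n (.p 161369)) (.p 149529)) (.p 160089)))))) (.p 344584))) (.b 4 (.b 2 (.p 333608) (.b 3 .n (.b 6 (.p 202088) (.w 5 3 (.b 0 (.b 4 (.b 2 .n (.p 467093)) (.p 477193)) (.b 1 (.b 4 (.b 6 .n (.p 525913)) (.p 294937)) (.p 524633))))))) (.p 282888))))) (.w 5 3 (.b 2 (.b 4 .n (.b 0 (.p 476544) (.b 3 (.b 6 (.b 1 (.w 0 3 (.b 5 (.b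 2 .n (.p 469081)) (.b 2 (.b 3 .n (.p 361225)) (.p 360969)))) (.w 0 3 (.b 5 (.b 2 (.b 4 .n (.p 476560)) (.p 469081)) (.b 1 (.b 2 (.b 3 .n (.p 361225)) (.p 360969)) (.p 545033))))) (.p 483384)) (.p 13400)))) (.b 1 (.b 6 (.b 0 (.p 467077) (.b 4 .n (.p 270360))) (.p 161368)) (.p 160088))))) (.b 3 (.w 5 3 (.b 2 (.b 1 .n (.p 464258)) (.b 0 (.b 4 (.b 3 .n (.p 471173)) (.p 475656)) (.b 1 (.b 4 (.b 6 .n (.p 132696)) (.p 270360)) (.p 131416))))) (.w 7 0 (.b 2 (.b 1 (.b 6 (.b 3 (.b 4 .n (.w 5 3 (.b 2 (.b 8 (.b 1 .n (.p 464274)) (.p 492181)) (.b 0 (.b 4 (.b 8 (.b 1 .n (.b 6 .n (.b 3 (.p 422201) (.w 3 3 (.b 5 (.b 8 (.b 6 .n (.p 484771)) (.p 493914)) (.b 0 (.b 4 (.b 8 (.b 1 .n (.p 610618)) (.p 493834)) (.p 477450)) (.p 364602))))))) (.p 492041)) (.p 475657)) (.b 1 (.b 4 .n (.p 270361))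 (.p 131417)))))) (.p 197255)) (.p 352296)) (.p 331816)) (.b 1 (.b 4 (.b 6 .n (.p 132728)) (.p 270360)) (.p 131448)))))) (.b 2 (.p 352295) (.b 3 (.p 352311) (.w 7 0 (.b 2 (.b 1 (.b 6 (.b 3 (.b 4 (.w 7 2 (.b 0 (.b 5 (.b 8 (.b 1 .n (.b 4 .n (.w 9 1 (.b 2 (.b 3 (.b 5 .n (.p 87082)) (.p 78890)) (.b 0 (.b 5 (.b 7 .n (.p 291082)) (.p 282890)) (.p 270490)))))) (.p 165465)) (.p 352407)) (.b 5 (.p 132697) (.b 1 (.b 4 (.b 8 .n (.p 10361)) (.p 270361)) (.p 131449))))) (.w 7 2 (.b 0 (.b 5 (.b 8 (.b 1 .n (.b 4 (.w 3 3 (.b 1 (.b 0 .n (.b 9 (.b 4 .n (.b 2 (.b 6 (.b 8 .n (.b 5 (.p 554074) (.w 5 3 (.b 2 (.b 1 (.b 9 (.b 8 .n (.p 492213)) (.p 498219)) (.p 465451)) (.b 1 (.b 4 .n (.p 149275)) (.p 172379)))))) (.p 286746)) (.p 270362))) (.p 495674))) (.b 9 (.b 2 (.p 463778) (.b 6 (.p 463782) (.b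 5 (.b 0 .n (.p 131418)) (.p 414010)))) (.p 618810)))) (.w 9 1 (.b 2 (.b 3 (.b 5 (.b 7 (.b 6 (.b 0 .n (.b 8 .n (.w 3 3 (.b 1 (.b 0 .n (.b 9 (.b 4 .n (.b 2 (.b 6 (.b 8 .n (.b 5 (.p 554075) (.b 10 .n (.w 5 3 (.b 2 (.b 1 (.b 9 (.b 8 .n (.p 492229)) (.p 498476)) (.p 465708)) (.b 1 (.b 4 .n (.p 149276)) (.p 176476))))))) (.p 286747)) (.p 270363))) (.p 495675))) (.b 9 (.b 2 (.p 463794) (.b 4 .n (.p 149403))) (.p 618811)))))) (.p 410281)) (.p 95274)) (.p 87082)) (.p 78890)) (.b 0 (.b 5 (.b 7 .n (.p 291082)) (.p 282890)) (.p 270490)))))) (.p 165465)) (.p 352407)) (.b 5 (.p 132697) (.b 1 (.b 4 (.b 8 .n (.p 10361)) (.p 270361)) (.p 131449)))))) (.p 197255)) (.p 352296)) (.p 331816)) (.b 1 (.b 4 (.b 3 (.p 131975) (.b 6 (.p 132743) (.w 5 3 (.b 0 (.b 4 (.b 2 .n (.b 8 (.p 493826) (.b 3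 .n (.b 6 .n (.b 1 (.w 2 3 (.b 1 (.b 0 .n (.b 5 .n (.p 364586))) (.b 0 (.b 4 .n (.p 291082)) (.p 462890)))) (.w 2 3 (.b 1 (.b 4 (.b 5 .n (.p 610722)) (.p 608026)) (.b 0 (.b 4 .n (.p 291082)) (.p 462890))))))))) (.p 476560)) (.b 2 (.b 1 .n (.p 462889)) (.b 1 (.b 4 (.b 6 .n (.p 132697)) (.p 270361)) (.p 131417))))))) (.p 270360)) (.p 131448)))))))

def c17 : Cert := (.b 0 (.b 3 .n (.b 4 (.b 2 (.b 5 .n (.b 6 (.w 5 3 (.b 2 (.b 0 .n (.b 4 .n (.p 29784))) (.b 1 (.b 6 (.b 4 .n (.p 149121)) (.p 161368)) (.p 160088)))) (.p 414066))) (.b 5 (.b 6 .n (.w 2 3 (.b 1 (.b 0 .n (.b 5 .n (.p 356392))) (.b 4 (.b 3 (.p 463746) (.b 5 (.p 202114) (.b 0 .n (.p 331816)))) (.p 95272))))) (.b 6 (.w 3 3 (.b 1 (.b 0 .n (.b 5 (.p 459653) (.b 6 (.b 4 .n (.b 2 (.w 5 3 (.b 2 (.b 1 (.b 6 (.b 0 .n (.p 459413))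 (.p 485417)) (.p 464937)) (.b 1 (.b 4 .n (.p 149273)) (.p 164185)))) (.p 270360))) (.p 352312)))) (.b 6 (.b 2 (.p 463746) (.b 0 .n (.b 4 (.p 66120) (.b 5 (.p 131416) (.w 5 3 (.b 3 (.b 6 (.b 0 .n (.p 459669)) (.p 485433)) (.b 1 (.b 6 (.b 4 .n (.p 537689)) (.p 426777)) (.p 536921)))))))) (.p 422200)))) (.w 7 2 (.b 5 (.b 0 (.b 1 .n (.b 4 (.w 3 3 (.b 1 (.b 0 .n (.b 5 (.p 459669) (.b 6 (.b 8 (.b 4 .n (.b 2 (.w 5 3 (.b 2 (.b 1 (.b 8 (.b 0 .n (.p 459429)) (.p 493866)) (.p 465194)) (.b 1 (.b 4 .n (.p 149274)) (.p 168282)))) (.p 270361))) (.p 360505)) (.p 352313)))) (.b 8 (.b 2 (.p 463762) (.b 6 (.p 463766) (.b 5 (.b 0 .n (.p 131417)) (.p 414009)))) (.p 553273)))) (.w 8 1 (.b 2 (.b 3 (.b 5 (.b 7 (.b 6 (.b 0 .n (.w 3 3 (.b 1 (.b 0 .n (.b 5 (.p 459685) (.b 6 (.b 8 (.b 4 .n (.b 2 (.b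 9 .n (.w 5 3 (.b 2 (.b 1 (.b 8 (.b 0 .n (.p 459445)) (.p 494123)) (.p 465451)) (.b 1 (.b 4 .n (.p 149275)) (.p 172379))))) (.p 270362))) (.p 360506)) (.p 352314)))) (.b 8 (.b 2 (.p 463778) (.b 4 .n (.p 149386))) (.p 553274))))) (.p 410264)) (.p 95273)) (.p 87081)) (.p 78889)) (.b 0 (.b 5 (.b 7 .n (.p 149385)) (.p 282889)) (.p 270473)))))) (.p 132696)) (.b 0 (.b 4 (.b 1 .n (.p 414072)) (.p 344584)) (.p 352376))))))) (.b 5 (.b 2 .n (.p 148247)) (.p 344839)))) (.b 4 (.b 5 (.b 2 .n (.b 6 .n (.p 132695))) c16) (.b 2 (.b 6 (.b 3 (.b 5 (.w 0 3 (.b 5 (.b 1 .n (.b 4 (.p 462980) (.b 6 .n (.b 2 (.b 3 (.w 4 3 (.b 1 (.b 2 .n (.p 534297)) (.b 2 (.b 3 (.b 5 (.b 6 .n (.p 95817)) (.p 88105)) (.p 79913)) (.p 94793)))) (.p 78888)) (.b 3 (.w 4 3 (.b 0 (.b 5 (.b 1 .n (.p 462996)) (.p 481289))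 (.b 2 (.b 5 (.b 3 (.b 6 .n (.p 525897)) (.p 538409)) (.p 360489)) (.p 524873)))) (.w 4 3 (.b 0 (.b 5 (.b 1 .n (.p 462996)) (.p 481289)) (.b 2 (.b 5 (.b 3 (.b 6 .n (.p 525897)) (.p 525129)) (.p 360489)) (.p 524873))))))))) (.b 2 (.b 3 (.b 1 .n (.p 332674)) (.p 357128)) (.p 356872)))) (.w 7 0 (.b 1 (.b 3 .n (.b 4 (.b 2 (.b 6 (.w 0 3 (.b 5 (.b 2 .n (.p 467093)) (.b 4 (.b 1 (.b 8 .n (.p 492688)) (.p 464201)) (.b 1 (.b 2 (.b 3 .n (.p 344841)) (.p 344585)) (.p 282889))))) (.p 352296)) (.b 6 (.w 0 3 (.b 5 (.b 2 (.b 3 (.b 8 (.b 1 .n (.b 4 (.p 462996) (.b 6 .n (.w 4 3 (.b 2 (.b 1 .n (.b 5 (.b 3 (.b 8 (.b 6 .n (.p 95818)) (.p 100650)) (.p 80170)) (.p 333610))) (.b 1 (.p 599834) (.p 94794))))))) (.p 553621)) (.p 471189)) (.p 467093)) (.b 4 (.b 1 (.b 8 .n (.p 492688)) (.p 464201)) (.b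 1 (.b 2 (.b 3 .n (.p 344841)) (.p 344585)) (.p 282889))))) (.w 0 3 (.b 5 (.b 2 (.b 3 (.b 8 (.b 1 .n (.b 4 (.p 462996) (.b 6 (.w 4 3 (.b 1 (.b 2 (.b 6 (.b 0 .n (.p 590244)) (.p 616218)) (.p 599834)) (.b 2 (.b 5 .n (.p 333610)) (.p 94794)))) (.w 4 3 (.b 5 (.b 2 (.b 3 (.b 8 (.b 1 .n (.b 6 .n (.p 95818))) (.p 493914)) (.p 473434)) (.p 469338)) (.b 1 (.b 2 (.b 6 (.b 0 .n (.p 38218)) (.p 354090)) (.p 169242)) (.p 464202))))))) (.p 553621)) (.p 471189)) (.p 467093)) (.b 4 (.b 1 (.b 8 .n (.p 492688)) (.p 464201)) (.b 1 (.b 2 (.b 3 .n (.p 344841)) (.p 344585)) (.p 282889))))))) (.p 344952))) (.b 2 (.p 331816) (.b 4 (.p 66120) (.p 283000)))))) (.b 5 (.p 13399) (.w 7 0 (.b 4 (.b 1 (.b 3 .n (.p 13447)) (.p 5448)) (.b 1 (.b 2 (.b 6 (.b 3 (.p 344967) (.w 5 3 (.b 2 (.b 0 .n (.b 3 (.b 6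 (.b 8 (.p 493872) (.b 4 .n (.b 1 (.w 0 3 (.b 3 (.b 2 .n (.p 469306)) (.b 5 (.b 2 .n (.p 469338)) (.p 365322)))) (.w 0 3 (.b 3 (.b 2 .n (.p 469306)) (.b 5 (.b 2 .n (.p 469338)) (.p 365322))))))) (.p 483385)) (.p 197269))) (.b 1 (.b 4 .n (.p 272153)) (.p 160089))))) (.p 286744)) (.p 270360)) (.p 283000)))))) (.p 286743)) (.p 270359))))

def c18 : Cert := (.b 0 (.b 3 .n (.b 7 (.b 2 (.b 5 .n (.b 6 (.w 5 3 (.b 6 (.b 0 .n (.b 4 .n (.p 33881))) (.b 2 (.b 3 (.p 426643) (.b 1 (.b 7 .n (.p 422681)) (.p 202793))) (.p 165465)))) (.p 414082))) (.b 5 (.b 6 .n (.w 2 3 (.b 6 (.b 4 (.b 1 (.b 5 .n (.p 546450)) (.p 99478)) (.p 541334)) (.b 1 (.b 7 (.b 5 .n (.p 414098)) (.p 423961)) (.b 4 (.b 7 (.b 0 .n (.p 395337)) (.p 100137)) (.p 99369)))))) (.b 6 (.w 3 3 (.b 2 (.b 1 (.b 6 (.b 0 .n (.b 5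 (.p 524949) (.b 7 .n (.b 4 (.w 5 3 (.b 2 (.b 1 (.b 6 (.b 0 .n (.p 524965)) (.p 551210)) (.p 530730)) (.b 1 (.b 4 (.b 7 .n (.p 161818)) (.p 149530)) (.p 168282)))) (.w 5 3 (.b 2 (.b 1 (.b 6 (.b 0 .n (.p 524965)) (.p 551210)) (.p 530730)) (.b 1 (.b 4 (.b 7 .n (.p 161818)) (.p 149530)) (.p 168282)))))))) (.p 426386)) (.p 529298)) (.b 4 (.b 0 (.b 1 .n (.b 6 .n (.p 426297))) (.b 1 (.b 7 .n (.p 466969)) (.p 66121))) (.b 1 (.p 149529) (.b 6 (.p 149609) (.p 426297)))))) (.w 8 2 (.b 0 (.b 1 .n (.b 5 (.b 4 (.b 7 (.w 3 3 (.b 1 (.b 0 .n (.b 5 (.p 525221) (.b 6 (.b 9 (.b 4 .n (.p 295018)) (.p 364602)) (.p 352314)))) (.b 9 (.b 2 (.p 529314) (.b 6 (.p 529318) (.b 5 (.b 0 .n (.p 131418)) (.p 414010)))) (.p 622906)))) (.p 422473)) (.b 7 (.w 3 3 (.b 4 (.b 1 (.b 0 .n (.b 6 (.b 9 (.b 5 (.p 525221)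 (.b 7 .n (.b 2 (.w 5 3 (.b 2 (.b 1 (.b 9 (.b 0 .n (.p 524981)) (.p 563755)) (.p 530987)) (.b 1 (.b 4 (.b 7 .n (.p 161819)) (.p 149531)) (.p 172379)))) (.p 466970)))) (.p 590244)) (.p 395338))) (.b 9 (.b 2 (.p 529314) (.b 0 .n (.p 66122))) (.p 622906))) (.b 9 (.b 2 (.b 1 (.b 6 (.p 295334) (.b 7 .n (.p 423962))) (.p 99370)) (.p 149658)) (.p 623674)))) (.w 9 1 (.b 2 (.b 3 (.b 5 (.b 8 (.b 6 (.b 0 .n (.w 3 3 (.b 2 (.b 1 (.b 9 (.b 0 .n (.b 5 (.p 524981) (.b 6 (.b 4 (.b 7 .n (.b 10 .n (.w 5 3 (.b 2 (.b 1 (.b 9 (.b 0 .n (.p 524997)) (.p 564012)) (.p 531244)) (.b 1 (.b 4 (.b 7 .n (.p 161820)) (.p 149532)) (.p 176476)))))) (.p 295019)) (.p 352299)))) (.p 623026)) (.p 529330)) (.b 4 (.b 6 (.b 1 (.b 7 .n (.p 161819)) (.p 529334)) (.b 0 (.b 7 (.b 10 (.b 1 .n (.b 5 (.b 9 .n (.p 622907))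 (.p 414011))) (.p 434763)) (.p 422475)) (.p 393803))) (.b 1 (.p 149531) (.b 9 (.p 149659) (.p 622907))))))) (.p 422569)) (.p 99370)) (.p 87082)) (.p 78890)) (.b 6 (.p 272234) (.b 0 (.b 5 (.b 8 .n (.p 149658)) (.p 282890)) (.p 270490))))))) (.p 414089))) (.b 4 (.p 393801) (.b 1 (.p 270361) (.b 5 (.p 131417) (.p 352393))))))))) (.b 5 (.b 2 .n (.p 160536)) (.p 357128)))) (.b 6 (.b 2 (.b 3 (.b 5 (.b 7 .n (.w 0 3 (.b 1 (.b 2 .n (.b 5 .n (.p 360969))) (.b 4 (.b 7 (.p 528535) (.b 5 .n (.p 479497))) (.p 295177))))) (.b 7 (.w 8 0 (.b 1 (.b 2 .n (.b 4 (.b 7 (.b 6 .n (.p 393801)) (.p 466969)) (.p 270361))) (.b 2 (.p 331817) (.b 4 (.p 66121) (.b 6 (.p 270441) (.b 3 (.p 352313) (.b 7 (.p 66169) (.w 0 3 (.b 9 (.b 4 (.b 7 (.b 2 .n (.b 5 (.p 532645) (.b 1 (.b 6 .n (.p 354458)) (.p 333978))))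 (.p 492704)) (.p 297376)) (.b 1 (.b 2 .n (.p 623114)) (.p 622858))))))))))) (.w 8 0 (.b 1 (.b 2 .n (.b 4 (.b 7 (.b 6 (.b 3 .n (.w 0 3 (.b 5 (.b 2 (.b 3 (.b 9 (.b 4 .n (.p 542112)) (.p 623269)) (.p 536741)) (.p 532645)) (.b 4 (.b 7 (.b 1 (.b 9 .n (.p 563104)) (.p 529786)) (.p 480416)) (.b 1 (.b 2 .n (.p 344586)) (.p 282890)))))) (.p 393801)) (.p 466969)) (.p 270361))) (.b 2 (.p 331817) (.b 4 (.p 66121) (.b 6 (.p 270441) (.b 3 (.p 352313) (.b 7 (.p 66169) (.p 479625)))))))))) (.b 5 (.p 197253) (.b 7 (.w 8 0 (.b 6 (.b 4 .n (.b 2 (.b 1 (.b 3 (.b 7 .n (.w 5 3 (.b 0 (.b 2 .n (.p 532645)) (.b 2 (.b 3 (.b 6 (.b 9 .n (.p 562085)) (.p 548922)) (.p 197285)) (.b 3 (.p 532538) (.b 1 (.b 4 .n (.p 270362)) (.p 131418))))))) (.p 274537)) (.p 331817)) (.p 270441))) (.b 2 (.p 352297) (.b 3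 (.p 352313) (.p 197257))))) (.w 8 0 (.b 3 (.b 6 (.b 7 .n (.p 357272)) (.p 352313)) (.b 2 (.b 1 (.b 6 (.b 4 .n (.p 274537)) (.p 352297)) (.p 331817)) (.p 197257))))))) (.b 7 (.b 5 .n (.b 3 (.w 5 3 (.b 0 (.b 3 (.b 4 .n (.p 542096)) (.p 536725)) (.b 2 (.b 1 .n (.p 528425)) (.b 1 (.b 4 (.b 7 (.b 6 .n (.p 393801)) (.p 466969)) (.p 270361)) (.p 131417))))) (.w 8 0 (.b 2 (.b 1 (.b 6 (.b 3 (.b 7 .n (.b 4 (.w 5 3 (.b 0 (.b 4 .n (.p 542112)) (.b 2 (.b 1 (.b 6 (.b 3 (.b 9 .n (.p 561829)) (.p 197285)) (.p 548906)) (.p 528426)) (.b 1 (.b 4 (.b 7 .n (.p 466970)) (.p 270362)) (.p 131418))))) (.w 5 3 (.b 2 (.b 9 (.b 1 .n (.p 529826)) (.p 561829)) (.b 0 (.b 4 (.b 7 (.b 9 (.b 1 .n (.b 6 .n (.b 3 (.p 426298) (.w 3 3 (.b 4 (.b 1 .n (.b 5 (.b 6 .n (.p 426299)) (.p 676155))) (.b 0 (.p 543243)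 (.b 1 (.p 303131) (.b 2 (.p 528427) (.b 6 (.p 270443) (.p 548923)))))))))) (.p 561674)) (.p 553482)) (.p 541194)) (.b 1 (.b 4 (.b 7 .n (.p 466970)) (.p 270362)) (.p 131418))))))) (.p 197272)) (.p 352297)) (.p 331817)) (.b 1 (.b 4 (.b 7 (.b 6 .n (.p 393801)) (.p 466969)) (.p 270361)) (.p 131465)))))) (.p 466968))) (.p 393604)))

def c19 : Cert := (.b 0 (.w 1 3 (.b 4 (.b 0 (.b 2 .n (.b 7 (.b 3 .n (.b 6 .n (.b 5 (.w 2 3 (.b 6 (.b 4 (.b 1 (.b 5 .n (.p 546450)) (.p 99478)) (.p 541334)) (.b 1 (.b 7 (.b 5 .n (.p 414098)) (.p 423961)) (.b 4 (.b 7 (.b 0 .n (.p 395337)) (.p 100137)) (.p 99369))))) (.w 8 2 (.b 0 (.b 1 .n (.b 5 (.b 4 .n (.b 7 .n (.w 9 1 (.b 2 (.b 3 (.b 5 .n (.p 87082)) (.p 78890)) (.b 6 (.p 272234) (.b 0 (.b 5 (.b 8 .n (.p 149658)) (.p 282890)) (.p 270490))))))) (.p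 414089))) (.b 4 (.p 393801) (.b 1 (.p 270361) (.b 5 (.p 131417) (.p 352393))))))))) (.p 468097))) (.b 6 (.b 7 (.b 5 .n (.b 2 (.b 3 (.w 0 3 (.b 4 (.b 2 .n (.b 5 (.p 532629) (.b 3 .n (.b 6 .n (.b 7 (.b 1 (.w 5 3 (.b 2 (.b 1 .n (.p 596010)) (.b 1 (.b 4 (.b 7 (.b 6 .n (.p 165466)) (.p 162074)) (.p 149786)) (.p 164186)))) (.w 5 3 (.b 0 (.b 4 (.b 2 .n (.p 532645)) (.p 542986)) (.b 1 (.b 4 (.b 7 (.b 6 .n (.p 26698)) (.p 620570)) (.p 299034)) (.p 590170))))) (.p 422473)))))) (.b 1 (.b 6 .n (.p 296457)) (.p 295177)))) (.w 8 0 (.b 6 (.b 1 .n (.b 2 (.p 331817) (.b 4 (.p 66121) (.p 270441)))) (.b 2 (.p 352297) (.b 3 (.p 352313) (.p 197257)))))) (.b 3 (.w 5 3 (.b 2 (.b 1 .n (.p 529810)) (.b 0 (.b 4 (.b 3 .n (.p 536725)) (.p 541193)) (.b 1 (.b 4 (.b 7 (.b 6 .n (.p 393801)) (.p 161817))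 (.p 270361)) (.p 131417))))) (.w 8 0 (.b 2 (.b 1 .n (.p 331817)) (.b 1 (.b 4 (.b 7 (.b 6 .n (.p 393801)) (.p 161049)) (.p 270361)) (.p 131465))))))) (.p 459140)) (.p 393604))) (.b 2 (.b 0 .n (.b 5 .n (.b 6 (.b 3 (.b 7 (.w 8 0 (.b 4 (.b 1 (.b 6 .n (.p 25929)) (.p 5449)) (.b 1 (.b 2 .n (.p 270361)) (.p 283017)))) (.w 8 0 (.b 4 (.b 1 (.b 6 .n (.p 25929)) (.p 5449)) (.b 1 (.b 2 .n (.p 270361)) (.p 283017))))) (.p 274536)) (.p 352296)))) (.b 0 (.b 5 (.b 3 .n (.p 148248)) (.p 344584)) (.p 270360))))) (.w 1 3 (.b 4 c18 (.b 2 (.b 6 (.b 3 (.b 0 .n (.b 5 (.b 7 .n (.w 7 3 (.b 4 (.b 6 (.b 1 (.b 3 .n (.b 5 .n (.b 0 (.p 361225) (.b 2 (.w 0 3 (.b 4 (.b 1 (.b 6 (.b 5 .n (.p 545952)) (.p 551242)) (.p 530762)) (.b 1 (.b 3 .n (.p 606986)) (.p 299274)))) (.w 0 3 (.b 4 (.b 1 (.b 6 (.b 5 .n (.p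 545952)) (.p 551242)) (.p 530762)) (.b 1 (.b 2 (.b 3 .n (.p 606986)) (.p 606730)) (.p 299274)))))))) (.p 99988)) (.p 550804)) (.b 2 (.b 5 (.b 1 .n (.b 3 (.b 6 .n (.p 99961)) (.p 78889))) (.b 1 (.b 6 (.b 3 .n (.p 214377)) (.p 414761)) (.p 87081))) (.b 1 (.p 272409) (.p 98937)))))) (.b 7 (.w 0 3 (.b 5 (.b 2 (.b 3 (.b 7 .n (.p 554384)) (.p 536725)) (.p 532629)) (.b 4 (.b 1 (.b 6 .n (.p 550217)) (.p 529737)) (.b 1 (.b 2 .n (.p 344585)) (.p 282889))))) (.w 8 0 (.b 4 (.b 1 (.b 6 (.b 7 (.b 3 .n (.b 2 (.w 0 3 (.b 4 (.b 1 (.b 6 (.b 9 .n (.p 562336)) (.p 549028)) (.p 528548)) (.b 5 (.b 2 .n (.p 533594)) (.b 1 (.b 2 (.b 3 .n (.p 344842)) (.p 344586)) (.p 282890))))) (.w 0 3 (.b 4 (.b 1 (.b 6 (.b 9 .n (.p 562336)) (.p 549028)) (.p 528548)) (.b 5 (.b 2 (.b 3 (.b 9 (.b 1 .n (.b 7 (.p 528551)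 (.b 6 .n (.w 7 3 (.b 2 (.b 1 .n (.b 5 (.b 3 (.b 9 (.b 6 .n (.p 99963)) (.p 105003)) (.p 80427)) (.p 333867))) (.b 1 (.p 665627) (.p 98939))))))) (.p 562266)) (.p 537690)) (.p 533594)) (.b 1 (.b 2 (.b 3 .n (.p 344842)) (.p 344586)) (.p 282890))))))) (.p 480408)) (.p 25929)) (.p 5449)) (.b 1 (.b 2 (.b 6 (.b 3 .n (.p 274537)) (.p 352297)) (.p 270361)) (.p 283017))))))) (.p 274822)) (.b 5 (.b 7 .n (.p 422529)) (.p 414760))) (.b 0 (.b 5 (.b 3 .n (.p 148248)) (.p 344584)) (.p 270360))))))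

def c20 : Cert := (.b 1 (.b 4 (.w 2 3 (.b 5 (.b 1 .n (.b 3 (.b 6 (.b 4 .n (.b 0 (.w 1 3 (.b 2 (.b 0 .n (.b 4 (.p 459140) (.b 5 .n (.b 6 (.b 3 (.w 4 3 (.b 1 (.b 2 (.b 0 .n (.p 459156)) (.p 469017)) (.b 2 (.b 3 (.b 5 .n (.p 87849)) (.p 79657)) (.p 98889)))) (.w 4 3 (.b 1 (.b 2 (.b 0 .n (.p 459156)) (.p 469017)) (.b 2 (.b 3 (.b 5 .n (.p 87849)) (.p 79657)) (.p 98889))))) (.p 352296))))) (.b 3 (.b 5 .n (.p 161048)) (.p 160536)))) (.w 7 1 (.b 5 (.b 2 .n (.b 0 (.b 3 .n (.b 6 .n (.w 8 2 (.b 4 (.b 1 (.b 7 (.b 0 .n (.b 5 (.p 132697) (.w 9 0 (.b 2 (.b 1 .n (.p 331818)) (.b 1 (.b 4 (.b 7 (.b 8 .n (.p 524874)) (.p 466970)) (.p 270362)) (.p 131482)))))) (.p 160537)) (.p 79000)) (.b 1 (.p 148249) (.b 0 (.b 5 (.b 7 .n (.p 272265)) (.p 282889)) (.p 270473))))))) (.p 131416))) (.b 0 (.p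 282888) (.p 5496)))))) (.p 398194)) (.p 202098))) (.b 1 (.b 0 .n (.b 6 (.b 3 (.b 4 (.w 5 3 (.b 2 (.b 3 (.b 1 .n (.b 6 (.b 4 .n (.b 0 (.p 291080) (.w 0 3 (.b 5 (.b 2 (.b 3 (.b 4 .n (.p 476560)) (.p 473177)) (.p 469081)) (.b 1 (.b 2 .n (.p 360969)) (.p 545033)))))) (.p 398210))) (.p 225925)) (.b 1 (.b 6 .n (.p 161368)) (.p 160088)))) (.w 7 0 (.b 4 (.b 1 (.b 2 .n (.b 3 .n (.b 6 .n (.w 0 3 (.b 8 (.b 1 .n (.b 4 (.p 462996) (.b 5 (.b 2 (.b 3 (.b 6 (.w 4 3 (.b 2 (.b 0 .n (.b 5 .n (.p 38218))) (.b 1 (.p 599834) (.p 94794)))) (.p 91177)) (.p 78889)) (.p 160089)) (.p 282889)))) (.b 2 (.b 3 (.b 6 (.b 5 (.p 553621) (.b 1 .n (.p 333609))) (.p 554505)) (.p 553737)) (.p 553481))))))) (.p 5448)) (.b 1 (.b 2 .n (.p 270360)) (.p 283000))))) (.b 4 (.w 5 3 (.b 2 (.b 1 .n (.b 3 (.b 6 (.b 4 .n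 (.b 0 (.p 291080) (.w 0 3 (.b 2 (.b 1 .n (.b 5 (.b 4 .n (.p 291081)) (.p 545033))) (.b 5 (.p 469081) (.p 360969)))))) (.p 422531)) (.p 202536))) (.b 1 (.b 6 .n (.p 161368)) (.p 160088)))) (.w 7 0 (.b 4 (.b 1 (.b 3 .n (.p 13447)) (.p 5448)) (.b 1 (.b 2 .n (.p 270360)) (.p 283000)))))) (.p 352295))) (.b 0 (.b 4 .n (.p 282887)) (.p 331815))))) (.p 148246)) (.b 4 (.w 1 3 c17) (.w 6 1 (.b 2 (.b 3 (.b 5 c19 (.p 87079)) (.p 78887)) (.b 0 (.b 5 (.b 3 (.p 148342) (.w 2 3 (.b 3 (.b 5 (.b 1 .n (.b 4 .n (.b 6 (.b 7 .n (.p 485425)) (.b 7 (.p 423985) (.b 0 (.w 1 3 (.b 4 (.b 0 (.b 2 .n (.p 533649)) (.p 524692)) (.b 3 (.b 0 .n (.b 2 (.b 5 .n (.b 6 (.b 7 (.w 4 3 (.b 2 (.b 0 .n (.b 5 .n (.p 34122))) (.b 1 (.p 534810) (.p 102986)))) (.p 356393)) (.p 352297))) (.p 270361))) (.b 2 (.b 6 (.p 274838)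 (.b 5 .n (.p 414761))) (.p 148249))))) (.w 8 1 (.b 5 (.b 2 .n (.b 0 (.b 6 (.p 272534) (.b 3 .n (.w 9 2 (.b 4 (.b 0 .n (.p 393802)) (.b 1 (.p 148250) (.b 0 (.b 5 (.b 8 .n (.p 272538)) (.p 282890)) (.p 270490))))))) (.p 131417))) (.b 0 (.p 282889) (.p 5513))))))))) (.b 1 (.b 6 (.b 7 (.b 0 .n (.b 4 (.w 5 3 (.b 2 (.b 3 (.b 1 .n (.b 4 .n (.b 0 (.p 295177) (.b 6 (.b 7 .n (.p 485681)) (.b 7 (.p 424241) (.w 0 3 (.b 5 (.b 2 (.b 3 (.b 4 .n (.p 542112)) (.p 538970)) (.p 534874)) (.b 1 (.b 2 .n (.p 365066)) (.p 610570))))))))) (.p 230037)) (.b 1 (.b 6 (.b 7 .n (.p 165721)) (.p 165465)) (.p 164185)))) (.w 8 0 (.b 4 (.b 1 (.b 6 (.b 7 .n (.p 30025)) (.p 25929)) (.p 5449)) (.b 1 (.b 2 .n (.p 270361)) (.p 283017)))))) (.p 479618)) (.p 414082)) (.p 332674))) (.b 4 (.b 0 .n (.b 6 (.b 7 (.b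 5 (.p 197253) (.b 1 (.w 5 3 (.b 3 (.b 6 (.b 7 .n (.p 554387)) (.p 550291)) (.b 4 (.b 2 .n (.b 1 (.b 6 (.b 7 .n (.p 165721)) (.p 165465)) (.p 164185))) (.b 0 (.p 541449) (.p 13401))))) (.p 331816))) (.p 459592)) (.p 394056))) (.b 1 (.b 6 (.p 274822) (.b 5 .n (.p 414760))) (.p 78888)))))) (.p 282887)) (.p 270439))))))

def c21 : Cert := (.b 3 (.w 2 3 (.b 1 (.b 0 .n (.b 5 .n (.b 3 (.b 4 (.w 5 3 (.b 2 (.b 1 .n (.b 4 .n (.b 0 (.p 286983) (.b 3 (.w 0 3 (.b 5 (.b 2 (.b 4 .n (.p 411008)) (.p 403288)) (.b 1 (.b 2 .n (.p 356872)) (.p 479496)))) (.p 78887))))) (.b 1 (.b 3 .n (.p 156503)) (.p 155991)))) (.w 6 0 (.b 1 (.b 2 .n (.b 4 (.b 3 .n (.w 0 3 (.b 7 (.b 1 .n (.b 4 (.p 397444) (.b 5 (.b 2 (.b 3 (.w 4 3 (.b 1 (.b 2 (.b 0 .n (.p 524692)) (.p 534041)) (.b 2 (.b 5 .n (.p 333353)) (.p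 90697)))) (.p 78888)) (.p 155992)) (.p 282888)))) (.b 2 (.b 3 (.b 5 (.p 483973) (.b 1 .n (.p 333352))) (.p 484104)) (.p 483848))))) (.p 270359))) (.b 2 (.p 331815) (.b 4 (.p 66119) (.p 282983)))))) (.p 340006)))) (.b 5 (.b 4 .n (.b 3 (.b 0 (.w 1 3 (.b 2 (.b 0 .n (.b 4 (.p 393588) (.b 5 .n (.b 3 (.w 4 3 (.b 1 (.b 2 (.b 0 .n (.p 393604)) (.p 403224)) (.b 2 (.b 3 (.b 5 .n (.p 87592)) (.p 79400)) (.p 94792)))) (.p 340007))))) (.b 3 (.b 5 .n (.p 156951)) (.p 156439)))) (.w 6 1 (.b 0 (.b 5 (.b 2 .n (.b 3 .n (.w 4 3 (.b 7 (.b 0 .n (.b 1 (.b 2 (.b 5 .n (.b 3 (.w 0 3 (.b 5 (.b 2 (.b 4 .n (.p 542096)) (.p 534105)) (.b 1 (.b 2 .n (.p 352777)) (.p 413961)))) (.p 340008))) (.p 401432)) (.p 67460))) (.b 2 (.b 3 (.b 0 (.p 422020) (.b 1 (.p 421912) (.b 5 .n (.p 331816)))) (.p 484168)) (.p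 483912)))))) (.p 282887)) (.b 2 (.b 5 .n (.p 331815)) (.p 66151))))) (.p 78886))) (.b 0 (.b 4 .n (.p 282886)) (.p 331814))))) (.w 5 2 (.b 0 c20 (.b 1 (.b 4 (.w 0 3 (.b 2 (.b 1 .n (.b 4 .n (.b 5 (.b 6 (.b 3 (.w 4 3 (.b 0 (.b 2 .n (.b 1 (.p 468097) (.b 3 .n (.b 5 (.b 6 .n (.p 415746)) (.b 6 (.p 354306) (.w 1 3 (.b 0 (.b 2 .n (.b 3 .n (.p 160537))) (.b 4 (.p 460873) (.p 294937))))))))) (.b 5 (.b 6 .n (.p 30280)) (.p 30024)))) (.p 78887)) (.p 286983)) (.p 282887)))) (.b 5 (.b 6 (.b 1 .n (.b 4 .n (.b 3 (.w 7 1 (.b 2 (.b 3 (.b 5 (.b 6 .n (.p 91176)) (.p 87080)) (.p 78888)) (.b 0 (.b 5 (.b 6 .n (.p 286984)) (.p 282888)) (.p 270456)))) (.w 7 1 (.b 2 (.b 3 (.b 5 (.b 6 .n (.p 91176)) (.p 87080)) (.p 78888)) (.b 0 (.b 5 (.b 6 .n (.p 286984)) (.p 282888)) (.p 270456))))))) (.p 415490))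 (.b 4 (.b 6 (.p 354050) (.b 3 .n (.b 1 (.w 7 2 (.b 0 (.b 4 .n (.p 410120)) (.b 5 (.p 132997) (.b 1 (.b 4 (.w 2 3 (.b 0 (.b 1 .n (.b 4 .n (.p 95273))) (.b 8 (.b 3 (.b 5 (.p 459413) (.b 1 .n (.p 331817))) (.p 198537)) (.p 553001)))) (.p 270360)) (.b 4 (.p 66120) (.w 2 3 (.b 8 (.b 1 (.b 0 .n (.b 3 (.b 5 (.p 459413) (.b 4 (.b 6 (.p 459414) (.w 8 1 (.b 2 (.b 3 (.b 5 (.b 6 .n (.p 91178)) (.p 87082)) (.p 78890)) (.b 7 (.b 9 .n (.p 168314)) (.p 149386))))) (.p 345993))) (.p 198537))) (.p 96402)) (.b 0 (.b 4 .n (.p 554025)) (.p 553001))))))))) (.w 7 2 (.b 0 (.b 4 .n (.p 410120)) (.b 1 (.b 4 (.b 5 (.p 132997) (.w 8 0 (.b 2 (.b 1 .n (.p 331817)) (.b 1 (.b 4 (.b 7 .n (.p 133001)) (.p 270361)) (.p 131465))))) (.p 270360)) (.p 397432))))))) (.p 344583))))) (.p 270358)) (.p 131414)))))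

def c22 : Cert := (.b 4 (.b 5 (.b 2 .n (.b 3 .n (.w 6 2 (.b 0 (.b 1 .n (.b 4 (.b 5 .n (.p 345857)) (.b 5 (.p 284417) (.w 2 3 (.b 7 (.b 1 (.b 0 .n (.b 3 (.b 4 (.b 5 .n (.p 346128)) (.b 5 (.p 284688) (.w 0 3 (.b 7 (.b 2 .n (.b 4 (.b 5 (.b 1 (.b 3 .n (.w 7 1 (.b 2 (.b 3 (.b 6 (.b 9 (.b 0 .n (.b 5 (.p 67493) (.b 8 .n (.w 10 0 (.b 2 (.b 1 .n (.b 6 (.b 3 (.b 9 (.b 7 .n (.p 67499)) (.p 103723)) (.p 79147)) (.p 397355))) (.b 1 (.p 335899) (.p 66219))))))) (.p 103466)) (.p 91178)) (.p 78890)) (.b 0 (.b 6 .n (.p 286986)) (.p 270458))))) (.p 98889)) (.p 414217)) (.p 410121))) (.b 4 (.p 554569) (.p 288521)))))) (.b 4 (.b 5 .n (.p 340088)) (.p 274552)))) (.p 92034)) (.b 0 (.b 4 (.b 5 .n (.p 354056)) (.p 288520)) (.p 421928))))))) (.b 1 (.b 4 (.b 5 .n (.p 335895)) (.p 270359)) (.p 131431))))))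 (.p 345616)) (.b 2 (.b 5 (.p 284176) (.b 3 (.w 4 3 (.b 1 (.b 5 (.b 2 .n (.b 3 .n (.b 0 (.w 7 2 (.b 6 (.b 1 .n (.b 0 (.b 4 (.b 5 .n (.p 346113)) (.b 5 (.p 284673) (.w 8 1 (.b 2 (.b 3 (.b 7 (.b 0 .n (.b 5 (.p 67733) (.b 6 .n (.w 9 0 (.b 8 (.b 2 .n (.p 336010)) (.b 1 (.b 2 .n (.p 335898)) (.p 67738))))))) (.p 95273)) (.p 78889)) (.b 0 (.b 6 (.b 7 .n (.p 291177)) (.p 272009)) (.p 270473)))))) (.b 4 (.p 66120) (.b 5 (.p 66136) (.w 8 1 (.b 2 (.b 3 (.b 7 (.b 0 .n (.p 66200)) (.p 95273)) (.p 78889)) (.b 6 (.b 7 .n (.p 291177)) (.p 272009)))))))) (.b 0 (.b 1 .n (.p 156024)) (.p 401528)))) (.w 0 3 (.b 1 (.b 2 .n (.b 4 (.b 5 (.b 3 .n (.w 6 0 (.b 7 (.b 2 (.b 3 (.b 8 (.b 1 .n (.b 4 (.p 5780) (.w 9 1 (.b 6 (.b 7 .n (.p 291178)) (.b 0 (.b 7 .n (.p 291082)) (.p 5786)))))) (.p 34169)) (.p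 13689)) (.p 9593)) (.b 1 (.b 2 .n (.p 335897)) (.p 356713))))) (.p 479752)) (.p 475656))) (.b 4 (.p 399176) (.p 291080))))))) (.p 399173)) (.b 2 (.b 0 (.p 397428) (.b 5 .n (.b 3 (.w 5 3 (.b 1 (.b 2 (.b 4 (.p 477206) (.p 476545)) (.p 468504)) (.b 2 (.b 3 (.b 0 (.p 397445) (.b 4 .n (.w 7 0 (.b 1 (.b 2 (.b 4 (.p 346384) (.p 346001)) (.p 335897)) (.b 2 (.b 3 (.b 6 (.p 5783) (.b 4 .n (.b 8 .n (.p 545913)))) (.p 79145)) (.p 66169)))))) (.p 79656)) (.p 90712)))) (.p 79143)))) (.p 90695)))) (.w 6 0 (.b 1 (.b 2 .n (.p 335895)) (.b 3 (.b 4 (.p 5748) (.b 2 (.w 7 1 (.b 6 (.b 3 .n (.p 274792)) (.b 0 (.b 5 (.p 397445) (.b 2 .n (.b 3 (.p 155960) (.w 8 2 (.b 1 (.b 4 (.b 5 .n (.p 152345)) (.p 148249)) (.b 7 (.b 0 .n (.p 66169)) (.p 79753))))))) (.p 5752)))) (.w 7 1 (.b 6 (.b 3 .n (.p 274792))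 (.b 0 (.b 2 .n (.p 271992)) (.p 5752)))))) (.p 340327)))))) (.p 270358)))

def c23 : Cert := (.b 1 (.b 2 (.b 3 (.w 0 3 (.b 1 (.b 2 .n (.b 3 .n (.b 4 c12 (.p 148246)))) c13)) (.w 0 3 (.b 1 (.b 3 .n (.b 4 (.b 2 (.b 5 .n (.w 3 3 (.b 5 (.b 0 (.b 2 .n (.p 402803)) (.p 394101)) (.b 2 (.b 0 .n (.b 4 .n (.b 1 (.w 5 3 (.b 3 (.b 2 (.b 0 .n (.p 394117)) (.p 403256)) (.b 2 (.b 1 (.b 4 .n (.p 472152)) (.p 202280)) (.p 225880)))) (.w 5 3 (.b 3 (.b 2 (.b 0 .n (.p 394117)) (.p 403256)) (.b 1 (.b 2 (.b 4 .n (.p 472152)) (.p 160536)) (.p 471384))))))) (.b 0 (.b 4 (.b 1 .n (.p 151863)) (.p 345607)) (.p 335927)))))) (.b 5 (.w 2 3 (.b 3 (.b 5 (.b 1 .n (.p 398194)) (.p 414323)) (.b 1 (.b 0 .n (.b 5 (.p 198231) (.b 4 (.w 3 3 (.b 2 (.b 1 (.b 5 .n (.p 414339)) (.p 399144)) (.b 0 (.b 4 .n (.p 476680))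 (.p 467000)))) (.w 3 3 (.b 2 (.b 1 (.b 5 .n (.p 414339)) (.p 399144)) (.b 0 (.b 1 .n (.p 160056)) (.p 467000))))))) (.b 4 (.b 5 .n (.p 202023)) (.p 78887))))) (.w 6 2 (.b 5 (.b 0 (.b 1 .n (.b 4 (.w 3 3 (.b 1 (.b 0 .n (.b 5 (.p 394117) (.b 2 (.b 7 (.b 4 .n (.w 5 3 (.b 3 (.b 7 (.b 0 .n (.p 394133)) (.p 423993)) (.b 2 (.b 1 (.b 7 (.b 4 .n (.p 537689)) (.p 423977)) (.p 399401)) (.p 229977))))) (.p 423208)) (.p 335928)))) (.b 7 (.b 2 (.p 398210) (.b 5 (.b 0 .n (.p 393816)) (.p 151864))) (.p 483640)))) (.w 3 3 (.b 7 (.b 0 .n (.b 5 (.p 394117) (.b 2 (.b 1 (.b 4 (.w 5 3 (.b 3 (.b 7 .n (.p 423993)) (.b 2 (.b 1 .n (.p 399401)) (.p 229977)))) (.w 5 3 (.b 3 (.b 7 (.b 0 .n (.p 394133)) (.p 423993)) (.b 2 (.b 1 (.b 7 (.b 4 .n (.p 537689)) (.p 423977)) (.p 399401)) (.p 229977))))) (.p 398632))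 (.p 335928)))) (.b 1 (.b 4 (.b 0 .n (.p 459140)) (.p 484408)) (.p 483640)))))) (.p 197207)) (.b 0 (.b 4 (.b 1 .n (.p 151911)) (.p 344839)) (.p 335975)))))) (.b 5 (.b 2 .n (.p 148246)) (.p 344838)))) c15))) c21) (.b 2 (.b 3 (.w 1 3 (.b 0 (.b 2 .n (.b 3 .n (.b 4 (.b 5 (.w 2 3 (.b 1 (.b 0 .n (.b 4 (.b 5 .n (.p 345872)) (.b 5 (.p 284432) (.b 3 (.w 6 2 (.b 7 (.b 1 .n (.b 0 (.b 4 (.b 5 .n (.p 346113)) (.b 5 (.p 284673) (.w 8 1 (.b 2 (.b 3 (.b 6 (.b 0 .n (.b 5 (.p 67733) (.b 7 .n (.w 9 0 (.b 8 (.b 2 .n (.p 336010)) (.b 1 (.b 2 .n (.p 335898)) (.p 67738))))))) (.p 91177)) (.p 78889)) (.b 0 (.b 6 .n (.p 149129)) (.p 270473)))))) (.b 4 (.p 66120) (.b 5 (.p 66136) (.w 8 1 (.b 2 (.b 3 (.b 6 (.b 0 .n (.p 66200)) (.p 91177)) (.p 78889)) (.b 6 (.b 7 .n (.p 160105)) (.p 149129)))))))) (.b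 0 (.b 1 .n (.p 160104)) (.p 467048)))) (.w 6 2 (.b 7 (.b 0 (.b 4 (.b 5 .n (.p 217720)) (.p 213624)) (.p 197240)) (.b 0 (.b 1 .n (.p 160104)) (.p 467048)))))))) (.b 4 (.b 5 .n (.p 91431)) (.p 91175)))) (.p 152342)) (.p 148246)))) c22)) (.w 1 3 (.b 5 (.b 0 (.b 2 .n (.b 3 .n (.p 202322))) (.b 4 (.b 2 .n (.b 3 .n (.p 197206))) (.p 284176))) (.b 0 (.b 3 .n (.b 4 (.b 2 (.p 337427) (.w 3 3 (.b 1 (.b 0 .n (.b 5 (.p 394101) (.b 2 (.p 399141) (.p 335895)))) (.b 2 (.p 398194) (.b 5 (.p 398197) (.b 0 (.b 4 (.p 345857) (.p 345607)) (.p 335927))))))) (.p 344838))) (.b 2 (.b 4 (.p 345616) (.b 3 (.w 0 3 (.b 1 (.b 3 .n (.b 5 (.p 405621) (.b 4 (.p 399173) (.p 344839)))) (.b 4 (.p 397428) (.b 5 (.p 397429) (.b 3 (.b 2 (.p 337713) (.p 337463)) (.p 344839)))))) (.p 344854))) (.p 335894))))))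 (.p 66117)))

def c24 : Cert := (.b 3 (.w 1 3 (.b 4 (.b 3 (.b 0 .n (.b 5 .n (.b 2 (.w 0 3 (.b 4 (.b 2 .n (.b 1 (.b 3 .n (.p 202562)) (.b 3 (.p 149297) (.b 5 (.w 6 0 (.b 7 (.b 4 .n (.b 1 (.b 2 (.b 3 .n (.p 272403)) (.p 270360)) (.b 3 (.p 292913) (.b 2 (.w 8 1 (.b 0 (.b 5 (.b 6 (.b 2 .n (.b 3 (.p 272531) (.b 7 .n (.w 9 2 (.b 8 (.b 0 .n (.p 197258)) (.b 4 (.b 0 .n (.p 197194)) (.p 272538))))))) (.p 286985)) (.p 282889)) (.b 2 (.b 6 .n (.p 5769)) (.p 66185)))) (.w 8 1 (.b 0 (.b 5 (.b 6 (.b 2 .n (.p 270488)) (.p 286985)) (.p 282889)) (.b 6 (.b 7 .n (.p 459113)) (.p 5769)))))))) (.b 1 (.b 4 (.b 3 .n (.p 13640)) (.p 290840)) (.p 459112)))) (.w 6 0 (.b 7 (.b 1 (.b 2 (.b 3 .n (.p 340088)) (.p 335992)) (.p 331896)) (.b 1 (.b 4 (.b 3 .n (.p 13640)) (.p 290840)) (.p 459112)))))))) (.b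 1 (.b 3 .n (.p 287495)) (.p 286983)))) (.w 6 0 (.b 2 (.b 4 .n (.b 1 (.b 3 .n (.p 272147)) (.b 3 (.p 272177) (.w 0 3 (.b 7 (.b 4 (.b 2 .n (.b 1 (.b 3 .n (.p 202818)) (.b 5 (.b 3 (.p 149553) (.w 2 3 (.b 7 (.b 0 .n (.b 1 (.b 4 (.b 3 (.b 5 .n (.w 7 1 (.b 0 (.b 5 (.b 6 (.b 9 (.b 2 .n (.b 3 (.p 272291) (.b 8 .n (.w 10 2 (.b 0 (.b 4 .n (.b 6 (.b 5 (.b 9 (.b 7 .n (.p 272299)) (.p 299787)) (.p 283403)) (.p 410123))) (.b 4 (.p 197195) (.p 270507))))))) (.p 299274)) (.p 286986)) (.p 282890)) (.b 2 (.b 6 .n (.p 397354)) (.p 66170))))) (.p 405545)) (.p 294937)) (.p 397353))) (.b 0 (.p 423945) (.b 1 (.p 491545) (.p 397353)))))) (.p 86648)))) (.p 288640)) (.b 1 (.b 2 (.b 3 .n (.p 484104)) (.p 422408)) (.p 483592))))))) (.b 1 (.b 4 (.b 3 .n (.p 197191)) (.p 270359)) (.p 131431))))))) (.b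 2 (.b 0 .n (.b 5 .n (.p 13638))) (.p 202306))) (.b 2 (.b 3 (.b 0 .n (.b 5 .n (.w 6 0 (.b 4 (.b 1 (.b 3 .n (.p 13639)) (.p 5447)) (.b 1 (.b 2 (.b 3 .n (.p 283495)) (.p 270359)) (.p 282983)))))) (.p 271891)) (.b 0 (.b 3 .n (.b 5 (.w 3 3 (.b 4 (.b 0 (.b 1 .n (.p 398196)) (.p 394100)) (.b 2 (.b 1 (.p 399140) (.p 398194)) (.b 0 (.b 5 (.b 1 .n (.w 6 2 (.b 4 (.b 0 (.b 1 (.p 202818) (.p 202372)) (.p 197192)) (.b 0 (.b 5 (.b 1 .n (.b 7 .n (.p 471400))) (.p 283400)) (.p 270440))))) (.p 284167)) (.p 270391))))) (.p 283398))) (.p 270358))))) (.w 3 3 (.b 4 (.b 0 (.b 1 .n (.b 2 .n (.p 149041))) (.b 5 (.b 1 .n (.b 2 .n (.p 66118))) (.p 345648))) (.b 0 (.b 1 .n (.b 5 (.b 2 (.p 271921) (.w 1 3 (.b 3 (.b 0 .n (.b 4 (.p 393588) (.b 2 (.p 407332) (.p 270359)))) (.b 2 (.p 405874) (.b 4 (.p 405876)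 (.b 0 (.b 5 (.p 284419) (.p 284167)) (.p 270359))))))) (.p 282886))) (.b 2 (.b 5 (.p 284208) (.b 1 (.w 0 3 (.b 3 (.b 1 .n (.b 4 (.p 397428) (.b 5 (.p 407380) (.p 282887)))) (.b 4 (.p 405620) (.b 5 (.p 405621) (.b 1 (.b 2 (.p 272147) (.p 271895)) (.p 282887)))))) (.p 282934))) (.p 270390))))))

def c25 : Cert := (.b 2 (.b 1 c24 (.b 3 (.w 1 3 (.b 4 (.b 0 (.b 2 .n (.b 3 .n (.p 202306))) (.b 5 (.b 2 .n (.b 3 .n (.p 197190))) (.p 345616))) (.b 0 (.b 3 .n (.b 5 (.b 2 (.p 271891) (.w 3 3 (.b 1 (.b 0 .n (.b 4 (.p 394100) (.b 2 (.p 399140) (.p 270359)))) (.b 2 (.p 398194) (.b 4 (.p 398196) (.b 0 (.b 5 (.p 284417) (.p 284167)) (.p 270391))))))) (.p 283398))) (.b 2 (.b 5 (.p 284176) (.b 3 (.w 0 3 (.b 1 (.b 3 .n (.b 4 (.p 405620) (.b 5 (.p 399188) (.p 283399)))) (.b 4 (.p 397428) (.b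 5 (.p 397429) (.b 3 (.b 2 (.p 272177) (.p 271927)) (.p 283399)))))) (.p 283414))) (.p 270358))))) (.w 1 3 (.b 3 (.b 0 .n (.b 4 (.b 5 .n (.p 345616)) (.b 2 (.b 5 (.p 284176) (.w 4 3 (.b 1 (.b 5 (.b 2 .n (.b 3 .n (.p 221767))) (.p 399173)) (.b 2 (.b 0 (.p 397428) (.b 5 .n (.b 3 (.p 345904) (.w 5 3 (.b 4 (.b 1 (.p 477206) (.b 2 .n (.p 90696))) (.b 0 (.p 476544) (.b 1 (.p 476545) (.b 2 (.b 3 (.p 476547) (.w 7 0 (.b 1 (.b 2 (.b 4 (.p 346384) (.p 346001)) (.p 335897)) (.b 2 (.b 6 (.p 5783) (.b 3 (.p 338225) (.b 4 .n (.b 8 .n (.p 545913))))) (.p 66169))))) (.p 66136))))))))) (.p 90695))))) (.p 270358)))) (.b 4 (.b 2 (.b 5 .n (.p 337427)) (.p 202306)) (.b 2 (.p 271891) (.b 0 (.b 5 (.p 202322) (.w 3 3 (.b 1 (.b 0 .n (.b 4 (.p 394100) (.b 2 (.p 399140) (.p 270359)))) (.b 2 (.p 398194)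 (.b 4 (.p 398196) (.b 0 (.b 5 (.p 398197) (.w 6 2 (.b 4 (.b 0 (.b 1 (.p 202818) (.p 202372)) (.p 197192)) (.b 0 (.b 5 (.p 284675) (.b 1 .n (.b 7 .n (.p 471400)))) (.p 270440))))) (.p 270391))))))) (.p 270358)))))))) (.b 1 (.b 3 (.w 1 3 (.b 2 (.b 3 (.b 0 .n (.b 5 .n (.b 4 (.w 0 3 (.b 4 (.b 2 .n (.b 5 (.p 401525) (.b 1 (.b 3 .n (.p 202562)) (.b 3 (.p 149297) (.w 5 3 (.b 0 (.b 4 (.b 2 .n (.p 401541)) (.p 411400)) (.b 1 (.b 4 (.b 3 .n (.p 13896)) (.p 290840)) (.p 459096)))))))) (.b 1 (.b 3 .n (.p 287495)) (.p 286983)))) (.w 6 0 (.b 4 (.b 1 (.b 3 .n (.p 13639)) (.p 5447)) (.b 1 (.b 2 (.b 3 .n (.p 340007)) (.p 270359)) (.p 282983))))))) (.b 4 (.b 0 .n (.b 5 .n (.p 340006))) (.p 271891))) (.b 4 (.b 3 (.b 0 .n (.b 5 .n (.w 6 0 (.b 2 (.b 1 (.b 3 .n (.p 340007)) (.p 331815)) (.b 1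 (.b 4 (.b 3 .n (.p 197191)) (.p 270359)) (.p 131431)))))) (.p 202306)) (.b 0 (.b 5 (.b 3 .n (.w 3 3 (.b 2 (.b 1 (.b 5 .n (.p 414578)) (.p 398194)) (.b 4 (.b 0 (.b 1 (.p 399170) (.p 398196)) (.p 393799)) (.b 0 (.b 5 (.b 1 .n (.w 6 2 (.b 4 (.b 0 (.b 1 (.p 202818) (.p 202372)) (.p 197192)) (.b 0 (.b 5 (.b 1 .n (.b 7 .n (.p 471400))) (.p 344584)) (.p 270440))))) (.p 344583)) (.p 270391)))))) (.p 344582)) (.p 270358))))) (.p 197189)) (.p 66117)))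

def c26 : Cert := (.b 5 (.w 1 3 (.b 2 (.b 0 .n (.b 5 .n (.b 3 (.b 4 (.w 6 1 (.b 7 (.b 2 .n (.b 3 .n (.b 0 (.b 5 (.w 8 2 (.b 1 (.b 4 (.b 6 (.b 0 .n (.b 5 .n (.b 7 .n (.w 9 0 (.b 2 (.b 3 (.b 8 (.b 1 .n (.b 4 .n (.b 6 .n (.b 7 (.p 393594) (.w 7 0 (.b 9 (.b 2 (.b 3 (.b 8 (.b 6 .n (.p 27063)) (.p 34107)) (.p 342683)) (.p 10907)) (.b 1 (.b 2 .n (.p 663579)) (.p 692603)))))))) (.p 34106)) (.p 217769)) (.b 3 (.p 9530) (.b 1 (.b 4 (.b 6 (.b 8 .n (.p 133274)) (.p 156442)) (.p 148250)) (.p 131482)))))))) (.p 156441)) (.p 148249)) (.b 0 (.b 5 (.b 7 (.b 6 .n (.p 79497)) (.p 225801)) (.p 217609)) (.p 200841)))) (.p 217608)) (.b 5 (.w 8 2 (.b 0 (.b 5 (.b 7 (.b 1 .n (.p 200856)) (.p 225801)) (.p 217609)) (.b 5 (.b 7 (.b 6 .n (.p 25465)) (.p 10121)) (.p 9609)))) (.w 8 2 (.b 0 (.b 5 (.b 7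 (.b 1 .n (.p 200856)) (.p 225801)) (.p 217609)) (.b 7 (.b 6 .n (.p 25465)) (.p 10121)))))))) (.b 0 (.b 2 .n (.p 94824)) (.p 462952)))) (.w 6 1 (.b 7 (.b 0 (.b 5 (.b 2 .n (.b 3 .n (.w 8 2 (.b 4 (.b 1 (.b 6 (.b 0 .n (.b 5 .n (.b 7 .n (.w 9 0 (.b 7 (.b 2 (.b 3 (.b 8 (.b 4 .n (.p 18855)) (.p 34106)) (.p 217769)) (.p 10153)) (.b 2 (.b 3 (.b 8 (.b 1 .n (.b 4 (.p 462922) (.b 6 (.p 462954) (.w 7 0 (.b 9 (.b 2 (.b 3 (.b 8 (.b 4 .n (.p 18871)) (.p 34107)) (.p 342683)) (.p 10907)) (.b 1 (.b 2 .n (.p 663579)) (.p 692603))))))) (.p 34106)) (.p 217769)) (.b 3 (.p 9530) (.b 1 (.b 4 (.b 6 (.b 8 .n (.p 491594)) (.p 156442)) (.p 148250)) (.p 131482))))))))) (.p 156441)) (.p 79000)) (.b 1 (.p 148249) (.b 0 (.b 5 (.b 7 (.b 6 .n (.p 272009)) (.p 225801)) (.p 217609)) (.p 200841))))))) (.p 283000))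 (.p 262520)) (.b 0 (.b 3 .n (.p 472072)) (.p 462952))))) (.b 4 (.w 7 0 (.b 6 (.b 2 .n (.b 3 (.p 9528) (.p 217720))) (.b 1 (.b 4 (.b 3 (.p 25479) (.b 2 .n (.p 156440))) (.p 394360)) (.p 393592)))) (.w 6 1 (.b 7 (.b 0 (.b 3 .n (.p 274808)) (.p 262520)) (.b 0 (.b 2 .n (.p 94824)) (.p 462952)))))))) (.b 3 (.b 4 (.p 402545) (.b 0 .n (.b 5 .n (.p 9527)))) (.p 156439)))) (.w 6 1 (.b 5 (.b 2 .n (.b 3 .n (.b 0 (.w 7 2 (.b 1 (.b 4 (.b 6 (.b 0 .n (.b 5 .n (.w 8 0 (.b 2 (.b 3 (.b 7 (.b 1 .n (.b 6 (.p 331881) (.b 4 .n (.w 9 3 (.b 1 (.b 0 (.b 2 .n (.p 403873)) (.p 393641)) (.b 0 (.b 5 (.b 8 (.b 2 .n (.b 3 .n (.b 7 (.p 79482) (.b 4 (.p 483914) (.w 1 3 (.b 9 (.b 0 (.b 2 .n (.p 403889)) (.p 395931)) (.b 0 (.b 3 .n (.p 603659)) (.p 630811)))))))) (.p 426330)) (.p 331945)) (.b 5 (.p 393562)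 (.b 2 (.b 3 (.b 8 .n (.p 528426)) (.p 200746)) (.p 66202))))))))) (.p 30009)) (.p 217752)) (.b 3 (.p 9529) (.b 1 (.b 4 (.b 6 (.b 7 .n (.p 133001)) (.p 156441)) (.p 148249)) (.p 131465))))))) (.p 156440)) (.p 148248)) (.b 0 (.b 5 (.b 6 .n (.p 79480)) (.p 217608)) (.p 200824)))) (.w 7 2 (.b 1 (.b 4 (.b 6 (.b 0 .n (.p 131463)) (.p 156440)) (.p 148248)) (.b 6 (.b 5 .n (.p 86632)) (.p 79480))))))) (.b 0 (.b 2 .n (.p 86631)) (.p 331879)))))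

def c27 : Cert := (.b 3 (.b 1 .n (.b 4 .n (.b 5 (.w 6 1 (.b 2 (.b 3 (.b 0 .n (.b 5 .n (.w 7 0 (.b 1 (.b 4 (.b 2 .n (.b 3 (.p 9528) (.b 6 (.w 8 2 (.b 7 (.b 1 .n (.b 0 (.b 5 (.b 4 .n (.b 6 (.p 148329) (.w 9 3 (.b 7 (.b 2 .n (.b 3 .n (.b 0 (.b 5 (.b 8 .n (.p 223386)) (.p 217610)) (.p 221338)))) (.b 1 (.p 424353) (.b 3 (.b 4 (.p 424356) (.b 2 (.b 8 (.b 0 .n (.b 5 .n (.w 1 3 (.b 2 (.b 3 (.b 8 (.b 7 .n (.p 422577)) (.p 428587)) (.p 408107)) (.b 0 (.b 3 .n (.p 238091)) (.p 663579)))))) (.p 99370)) (.p 272282))) (.p 79770))))))) (.p 217609)) (.p 66169))) (.b 0 (.p 225801) (.p 10121)))) (.w 8 2 (.b 0 (.b 5 (.b 7 (.b 6 .n (.p 221336)) (.p 225801)) (.p 217609)) (.b 1 (.b 7 .n (.p 466969)) (.p 131465))))))) (.p 262535)) (.b 2 (.b 3 (.b 6 .n (.p 67192)) (.p 200744)) (.p 66168)))))) (.p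 78887)) (.b 3 (.b 0 .n (.p 131383)) (.p 148327)))) (.w 6 1 (.b 2 (.b 3 (.b 5 .n (.p 86646)) (.p 78887)) (.b 3 (.b 0 .n (.p 131383)) (.p 148327))))))) (.b 5 (.b 1 (.b 4 (.w 2 3 (.b 3 (.b 0 (.b 1 .n (.p 398194)) (.p 393843)) (.b 1 (.b 0 .n (.b 5 .n (.b 4 (.w 3 3 (.b 2 (.b 1 (.b 0 .n (.p 393859)) (.p 399144)) (.b 1 (.b 4 (.b 5 .n (.p 468280)) (.p 149016)) (.p 160056)))) (.w 3 3 (.b 2 (.b 1 (.b 0 .n (.p 393859)) (.p 399144)) (.b 1 (.b 4 (.b 5 .n (.p 468280)) (.p 149016)) (.p 160056))))))) (.b 0 (.b 5 (.b 4 .n (.p 78887)) (.p 218631)) (.p 200743))))) (.p 148246)) (.b 4 (.w 6 2 (.b 1 (.b 4 (.b 0 .n (.b 5 .n (.w 7 0 (.b 2 (.b 3 (.b 6 (.b 1 .n (.b 4 .n (.w 2 3 (.b 1 (.b 7 .n (.p 422290)) (.b 7 (.b 3 (.b 0 (.b 4 .n (.b 8 .n (.b 5 (.w 1 3 (.b 8 (.b 0 (.b 5 (.b 2 .n (.p 600225)) (.p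 611978)) (.p 591498)) (.b 0 (.b 3 .n (.p 230922)) (.p 548890)))) (.w 1 3 (.b 8 (.b 0 (.b 2 .n (.p 600225)) (.p 591498)) (.b 0 (.b 3 .n (.p 230922)) (.p 548890))))))) (.p 393529)) (.p 202642)) (.b 0 (.b 8 .n (.p 553225)) (.p 462889))))))) (.p 25912)) (.p 217735)) (.b 3 (.p 9528) (.b 1 (.b 4 (.b 6 .n (.p 132728)) (.p 148248)) (.p 131448))))))) (.p 148247)) (.b 0 (.b 5 (.b 4 .n (.p 78951)) (.p 217607)) (.p 200807)))) (.w 2 3 (.b 3 (.b 0 (.b 1 .n (.b 4 .n (.b 5 (.w 1 3 (.b 3 (.b 0 .n (.p 395064)) (.b 2 (.b 0 .n (.b 5 .n (.b 4 (.w 8 0 (.b 6 (.b 7 (.b 3 .n (.p 218776)) (.p 460440)) (.b 3 (.p 25913) (.b 1 (.b 2 .n (.p 393865)) (.p 393609))))) (.w 7 1 (.b 8 (.b 0 (.b 3 .n (.p 274825)) (.p 262537)) (.b 0 (.b 2 .n (.p 98937)) (.p 528505))))))) (.p 160536)))) (.w 1 3 (.b 0 (.b 2 .n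 (.b 3 .n (.p 160536))) (.b 3 (.p 395064) (.b 2 (.b 5 (.p 29528) (.b 4 (.w 8 0 (.b 6 (.b 7 (.b 1 (.b 4 (.b 3 .n (.p 218776)) (.p 344185)) (.p 331897)) (.p 460440)) (.b 3 (.p 25913) (.b 7 (.p 352377) (.b 1 (.b 2 .n (.p 160537)) (.p 393609)))))) (.w 7 1 (.b 8 (.b 0 (.b 3 .n (.p 274825)) (.p 262537)) (.b 0 (.b 2 .n (.p 98937)) (.p 528505)))))) (.p 160536)))))))) (.p 393843)) (.b 0 (.b 5 (.b 1 .n (.b 4 .n (.p 78887))) (.p 218631)) (.b 1 (.b 5 .n (.b 4 (.w 7 0 (.b 6 (.b 3 (.b 2 (.b 1 .n (.b 4 .n (.w 3 3 (.b 8 (.b 0 .n (.b 1 (.b 4 (.b 5 .n (.p 25913)) (.p 394297)) (.p 393529))) (.b 0 (.p 493065) (.p 26681)))))) (.p 9528)) (.p 218759)) (.b 3 (.p 25912) (.b 1 (.b 2 .n (.p 393848)) (.p 393592))))) (.w 7 0 (.b 6 (.b 4 (.b 3 .n (.p 218759)) (.p 263815)) (.b 3 (.p 25912) (.b 1 (.b 2 .n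 (.p 393848)) (.p 393592))))))) (.p 200743))))))) (.p 217606)))

def c28 : Cert := (.b 3 (.b 2 (.b 0 (.b 5 (.w 6 2 (.b 4 (.b 1 (.b 7 (.b 0 .n (.b 5 .n (.w 8 0 (.b 2 (.b 3 (.b 6 (.b 1 .n (.b 4 (.p 331849) (.b 7 .n (.w 9 1 (.b 0 (.b 5 (.b 8 (.b 2 .n (.b 6 (.p 272234) (.b 3 .n (.w 10 3 (.b 9 (.b 0 .n (.b 1 (.b 4 (.b 5 .n (.p 352331)) (.p 263835)) (.p 67227))) (.b 7 (.b 1 (.p 616369) (.b 3 (.b 0 .n (.p 393531)) (.p 80299))) (.p 485803))))))) (.p 295258)) (.p 331945)) (.b 5 (.p 262490) (.b 2 (.b 3 (.b 8 .n (.p 528426)) (.p 200746)) (.p 66202)))))))) (.p 25913)) (.p 217752)) (.b 3 (.p 9529) (.b 1 (.b 4 (.b 7 (.b 6 .n (.p 352329)) (.p 160537)) (.p 148249)) (.p 131465))))))) (.p 160536)) (.p 78982)) (.b 1 (.p 148248) (.b 0 (.b 5 (.b 7 .n (.p 272232)) (.p 217608)) (.p 200808))))) (.w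 6 2 (.b 4 (.b 1 (.b 7 (.b 0 .n (.b 5 (.w 1 3 (.b 5 (.b 0 .n (.b 4 (.b 7 (.b 3 .n (.b 8 .n (.b 2 (.p 548905) (.w 2 3 (.b 1 (.b 7 (.b 8 .n (.p 426402)) (.p 424218)) (.b 0 (.b 5 .n (.p 611850)) (.p 593962))))))) (.p 459925)) (.p 263769))) (.b 7 (.b 4 (.p 414100) (.b 2 (.b 8 .n (.p 427049)) (.p 271641))) (.p 484633)))) (.w 2 3 (.b 8 (.b 4 .n (.b 7 .n (.b 1 (.p 422545) (.b 3 (.b 0 (.b 5 (.w 1 3 (.b 5 (.b 2 .n (.b 3 .n (.p 168730))) (.b 7 (.p 611962) (.p 484634)))) (.w 1 3 (.b 5 (.b 0 (.b 8 (.b 2 .n (.b 3 .n (.p 168730))) (.p 624218)) (.p 591450)) (.b 2 (.b 7 (.b 8 .n (.p 550186)) (.p 484634)) (.p 599322))))) (.p 393529)) (.p 78889))))) (.b 0 (.b 4 .n (.p 427049)) (.p 548905)))))) (.p 160536)) (.p 78982)) (.b 1 (.p 148248) (.b 0 (.b 5 (.b 7 .n (.p 272232)) (.p 217608)) (.p 200808))))))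 (.b 5 (.p 262487) (.w 1 3 (.b 7 (.b 4 (.b 5 (.b 3 .n (.b 0 (.b 2 .n (.w 2 3 (.b 7 (.b 0 (.b 1 .n (.b 4 .n (.p 99369))) (.b 1 (.b 4 (.b 5 .n (.p 352329)) (.p 263801)) (.p 67193))) (.b 1 (.p 423961) (.p 100137))))) (.b 2 (.w 3 3 (.b 0 (.b 5 (.b 7 (.b 2 .n (.p 532627)) (.p 554505)) (.p 546313)) (.b 1 (.b 7 .n (.p 483353)) (.p 393529)))) (.w 2 3 (.b 0 (.b 5 (.b 7 (.b 1 .n (.b 4 .n (.p 99369))) (.p 554505)) (.p 546313)) (.b 1 (.b 7 (.b 4 (.b 5 (.b 3 (.p 393875) (.w 3 3 (.b 0 (.b 5 (.b 7 (.b 2 .n (.p 598179)) (.p 554506)) (.p 546314)) (.b 1 (.b 7 .n (.p 483354)) (.p 393530))))) (.p 352329)) (.p 263801)) (.p 483353)) (.p 528425))))))) (.p 414084)) (.b 0 (.b 2 .n (.p 272257)) (.p 263800))) (.b 0 (.b 3 (.b 5 .n (.p 484632)) (.p 226824)) (.p 483352)))))) (.p 148342)) (.b 2 (.p 78887)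 (.b 0 (.b 5 (.w 6 2 (.b 4 (.b 1 (.b 7 (.b 0 .n (.b 5 .n (.w 8 0 (.b 3 (.b 2 (.b 6 (.b 7 .n (.p 30009)) (.p 25913)) (.p 9529)) (.b 4 (.b 1 (.b 6 (.b 7 .n (.p 356425)) (.p 352329)) (.p 331849)) (.p 341129)))))) (.p 485442)) (.p 78982)) (.b 1 (.p 148248) (.b 0 (.b 5 (.b 7 .n (.w 7 2 (.b 4 (.b 5 (.b 1 (.b 6 (.p 551234) (.p 550801)) (.p 78999)) (.p 545353)) (.b 1 (.p 148249) (.b 0 (.b 5 (.b 6 .n (.w 8 1 (.b 3 (.b 0 (.b 2 (.b 6 (.p 485937) (.p 485538)) (.p 148392)) (.p 459066)) (.b 2 (.p 78890) (.b 0 (.b 5 (.b 6 .n (.b 9 .n (.p 620170))) (.p 217610)) (.p 200842)))))) (.p 217609)) (.p 200825)))))) (.p 217608)) (.p 200808))))) (.p 217607)) (.p 200807))))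

def c29 : Cert := (.b 5 (.b 1 (.b 3 .n (.b 4 (.w 2 3 (.b 3 (.b 0 (.b 1 .n (.p 398194)) (.p 393843)) (.b 1 (.b 0 .n (.b 5 .n (.b 4 (.w 3 3 (.b 2 (.b 1 (.b 0 .n (.p 393859)) (.p 399144)) (.b 1 (.b 4 (.b 5 .n (.p 468280)) (.p 149016)) (.p 160056)))) (.w 3 3 (.b 2 (.b 1 (.b 0 .n (.p 393859)) (.p 399144)) (.b 1 (.b 4 (.b 5 .n (.p 468280)) (.p 149016)) (.p 160056))))))) (.b 0 (.b 5 (.b 4 .n (.p 78887)) (.p 218631)) (.p 200743))))) (.p 148246))) (.b 3 (.b 4 (.w 1 3 (.b 2 (.b 3 (.b 4 .n (.p 410225)) (.p 405874)) (.b 4 (.b 0 .n (.b 3 (.p 132663) (.b 5 (.w 2 3 (.b 1 (.b 4 (.b 3 .n (.p 405890)) (.p 411416)) (.b 0 (.b 5 .n (.p 480776)) (.p 462888)))) (.w 2 3 (.b 1 (.b 4 (.b 3 .n (.p 405890)) (.p 411416)) (.b 0 (.b 4 .n (.p 95272)) (.p 462888))))))) (.b 3 (.b 5 .n (.p 271639)) (.p 148247)))))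 (.w 6 1 (.b 2 (.b 3 (.b 5 .n (.b 0 (.w 1 3 (.b 5 (.b 0 .n (.b 4 (.b 7 (.b 3 .n (.b 2 (.p 221224) (.w 2 3 (.b 1 (.b 7 (.b 3 .n (.p 405906)) (.p 423961)) (.b 0 (.b 5 .n (.p 546313)) (.p 528425)))))) (.p 459909)) (.p 263768))) (.b 7 (.b 4 (.p 414084) (.b 2 (.b 3 .n (.p 406568)) (.p 271640))) (.p 484632)))) (.w 1 3 (.b 7 (.b 3 .n (.b 2 (.p 405890) (.b 4 (.b 5 (.b 0 (.w 2 3 (.b 1 (.b 7 .n (.p 423961)) (.b 4 (.b 7 .n (.p 100137)) (.p 99369)))) (.w 2 3 (.b 1 (.b 7 (.b 3 .n (.p 405906)) (.p 423961)) (.b 0 (.b 7 (.b 5 (.b 4 .n (.p 99369)) (.p 546313)) (.p 491785)) (.p 528425))))) (.p 414280)) (.p 148248)))) (.b 0 (.b 5 (.b 2 (.p 422529) (.b 3 .n (.p 225800))) (.p 484632)) (.p 483352)))))) (.p 78887)) (.b 3 (.b 0 (.b 5 .n (.p 271719)) (.p 131383)) (.p 148327))))) (.b 4 (.w 6 2 (.b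 1 (.b 4 (.b 0 .n (.b 5 (.w 2 3 (.b 0 (.b 4 .n (.b 1 (.p 410241) (.b 3 (.b 7 (.b 5 .n (.w 1 3 (.b 2 (.b 7 (.b 4 .n (.p 410257)) (.p 423977)) (.b 3 (.b 5 .n (.p 533785)) (.p 164633))))) (.p 95272)) (.p 78888)))) (.b 7 (.b 3 (.p 393859) (.b 1 (.b 4 .n (.p 410392)) (.p 200744))) (.p 483368)))) (.w 2 3 (.b 7 (.b 4 .n (.b 1 (.p 410241) (.b 3 (.b 0 (.b 5 (.w 1 3 (.b 2 (.b 7 .n (.p 423977)) (.b 3 (.b 7 .n (.p 165657)) (.p 164633)))) (.w 1 3 (.b 2 (.b 7 (.b 4 .n (.p 410257)) (.p 423977)) (.b 3 (.b 5 .n (.p 533785)) (.p 164633))))) (.p 393528)) (.p 78888)))) (.b 0 (.b 5 (.b 4 .n (.p 475269)) (.p 484648)) (.p 483368)))))) (.p 148247)) (.b 0 (.b 5 (.b 4 .n (.p 78951)) (.p 217607)) (.p 200807)))) (.w 6 1 c28)))) (.b 3 (.b 1 (.b 4 .n (.p 271638)) (.b 4 (.p 86598) (.w 6 1 (.b 2 (.b 3 (.b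 5 .n (.p 86646)) (.p 78887)) (.b 3 (.b 0 (.b 5 (.p 271734) (.w 1 3 (.b 2 (.b 3 (.b 4 .n (.b 7 (.p 423972) (.b 5 .n (.b 0 (.w 4 3 (.b 2 (.b 3 .n (.p 407593)) (.b 1 (.b 7 (.p 164247) (.b 0 .n (.b 3 (.p 132665) (.b 5 (.p 393817) (.w 5 3 (.b 7 (.b 1 (.p 531062) (.p 529831)) (.b 0 (.b 4 (.b 1 .n (.p 530762)) (.p 606373)) (.b 1 (.b 2 (.b 3 .n (.p 221226)) (.p 393818)) (.p 393562))))))))) (.p 98889)))) (.w 4 3 (.b 2 (.b 3 .n (.p 407593)) (.b 1 (.b 7 (.p 164247) (.b 0 .n (.b 3 (.p 132665) (.b 5 (.p 393817) (.w 5 3 (.b 7 (.b 1 (.p 531062) (.p 529831)) (.b 0 (.b 3 (.b 4 (.b 1 .n (.p 530762)) (.p 606373)) (.p 538122)) (.b 1 (.b 2 (.b 3 .n (.p 221226)) (.p 393818)) (.p 393562))))))))) (.p 98889)))))))) (.p 405890)) (.b 5 (.b 0 .n (.p 393816)) (.b 4 (.b 7 (.p 151943) (.b 0 .n (.b 3 (.p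 9528) (.w 8 0 (.b 2 (.b 6 (.b 1 (.b 7 .n (.p 459416)) (.p 331881)) (.p 393880)) (.b 3 (.p 9529) (.b 6 (.p 335977) (.b 7 (.p 335993) (.b 1 (.b 4 .n (.p 148249)) (.p 131465)))))))))) (.p 271640)))))) (.p 131383)) (.p 148327)))))) (.p 217606)))

def c30 : Cert := (.b 0 (.b 1 .n (.b 4 .n (.b 3 (.b 5 (.w 1 3 (.b 2 (.b 0 .n (.b 3 (.b 5 .n (.p 341792)) (.b 5 (.p 218912) (.b 4 (.w 6 1 (.b 7 (.b 2 .n (.b 0 (.b 3 (.b 5 .n (.p 342018)) (.b 5 (.p 219138) (.w 8 2 (.b 1 (.b 4 (.b 6 (.b 0 .n (.b 5 (.p 133269) (.b 7 .n (.w 9 0 (.b 8 (.b 1 .n (.p 331914)) (.b 2 (.b 1 .n (.p 331818)) (.p 133274))))))) (.p 156441)) (.p 148249)) (.b 0 (.b 6 .n (.p 79497)) (.p 200841)))))) (.b 3 (.p 131384) (.b 5 (.p 131416) (.w 8 2 (.b 1 (.b 4 (.b 6 (.b 0 .n (.p 131480)) (.p 156441)) (.p 148249)) (.b 6 (.b 7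 .n (.p 94825)) (.p 79497)))))))) (.b 0 (.b 2 .n (.p 94824)) (.p 462952)))) (.w 6 1 (.b 7 (.b 0 (.b 3 (.b 5 .n (.p 283000)) (.p 274808)) (.p 262520)) (.b 0 (.b 2 .n (.p 94824)) (.p 462952)))))))) (.b 3 (.b 5 .n (.p 156951)) (.p 156439)))) (.p 87078)) (.p 78886)))) (.b 3 (.b 5 (.b 1 .n (.b 4 .n (.w 6 1 (.b 0 (.b 2 .n (.b 3 (.b 5 .n (.p 341762)) (.b 5 (.p 218882) (.w 1 3 (.b 7 (.b 2 (.b 0 .n (.b 3 (.b 5 .n (.p 342048)) (.b 4 (.b 5 (.p 219168) (.w 0 3 (.b 7 (.b 1 .n (.b 3 (.b 5 (.b 2 (.b 4 .n (.w 7 2 (.b 1 (.b 4 (.b 6 (.b 9 (.b 0 .n (.b 5 (.p 133029) (.b 8 .n (.w 10 0 (.b 1 (.b 2 .n (.b 6 (.b 4 (.b 9 (.b 7 .n (.p 133035)) (.p 169243)) (.p 148763)) (.p 401435))) (.b 2 (.p 331819) (.p 131499))))))) (.p 168730)) (.p 156442)) (.p 148250)) (.b 0 (.b 6 .n (.p 405770)) (.p 200826)))))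 (.p 164153)) (.p 413961)) (.p 405769))) (.b 3 (.p 554553) (.p 222985))))) (.p 213112)))) (.p 157569)) (.b 0 (.b 3 (.b 5 .n (.p 354056)) (.p 222984)) (.p 421912))))))) (.b 2 (.b 3 (.b 5 .n (.p 331815)) (.p 200743)) (.p 66151)))))) (.p 341536)) (.b 1 (.b 5 (.p 218656) (.b 4 (.w 3 3 (.b 2 (.b 5 (.b 1 .n (.b 4 .n (.b 0 (.w 7 1 (.b 6 (.b 2 .n (.b 0 (.b 3 (.b 5 .n (.p 342018)) (.b 5 (.p 219138) (.w 8 2 (.b 1 (.b 4 (.b 7 (.b 0 .n (.b 5 (.p 133269) (.b 6 .n (.w 9 0 (.b 8 (.b 1 .n (.p 331914)) (.b 2 (.b 1 .n (.p 331818)) (.p 133274))))))) (.p 160537)) (.p 148249)) (.b 0 (.b 6 (.b 7 .n (.p 471401)) (.p 202377)) (.p 200841)))))) (.b 3 (.p 131384) (.b 5 (.p 131416) (.w 8 2 (.b 1 (.b 4 (.b 7 (.b 0 .n (.p 131480)) (.p 160537)) (.p 148249)) (.b 6 (.b 7 .n (.p 471401)) (.p 202377))))))))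 (.b 0 (.b 2 .n (.p 90744)) (.p 397432)))) (.w 0 3 (.b 2 (.b 1 .n (.b 3 (.b 5 (.b 4 .n (.w 6 0 (.b 7 (.b 1 (.b 4 (.b 8 (.b 2 .n (.b 3 (.p 9875) (.w 9 2 (.b 6 (.b 7 .n (.p 225898)) (.b 0 (.b 7 .n (.p 225802)) (.p 9882)))))) (.p 34169)) (.p 17785)) (.p 5497)) (.b 1 (.b 2 .n (.p 466969)) (.p 479593))))) (.p 479496)) (.p 471304))) (.b 3 (.p 403256) (.p 225800))))))) (.p 403253)) (.b 1 (.b 0 (.p 401523) (.b 5 .n (.b 4 (.w 5 3 (.b 2 (.b 1 (.b 3 (.p 473126) (.p 472450)) (.p 464424)) (.b 1 (.b 4 (.b 0 (.p 401541) (.b 3 .n (.w 7 0 (.b 2 (.b 1 (.b 3 (.p 342304) (.p 341906)) (.p 331817)) (.b 1 (.b 4 (.b 6 (.p 9879) (.b 3 .n (.b 8 .n (.p 545657)))) (.p 148761)) (.p 131449)))))) (.p 149272)) (.p 155992)))) (.p 148759)))) (.p 155959)))) (.w 6 0 (.b 2 (.b 1 .n (.p 331815)) (.b 4 (.b 3 (.p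 9843) (.b 1 (.w 7 2 (.b 6 (.b 4 .n (.p 213608)) (.b 0 (.b 5 (.p 401541) (.b 1 .n (.b 4 (.p 90696) (.w 8 1 (.b 2 (.b 3 (.b 5 .n (.p 87081)) (.p 78889)) (.b 7 (.b 0 .n (.p 131449)) (.p 149385))))))) (.p 9848)))) (.w 7 2 (.b 6 (.b 4 .n (.p 213608)) (.b 1 (.b 4 (.b 0 .n (.p 9848)) (.p 148248)) (.p 202360)))))) (.p 344679)))))) (.p 200742))))

def c31 : Cert := (.b 4 (.b 3 (.b 5 .n (.w 0 3 (.b 5 (.b 1 (.b 4 (.b 3 .n (.p 472448)) (.p 475269)) (.p 462981)) (.b 2 (.b 1 .n (.b 3 (.b 4 .n (.b 6 .n (.w 5 3 (.b 1 (.b 2 .n (.p 534297)) (.b 2 (.b 3 (.b 6 .n (.p 95833)) (.p 79913)) (.p 94809)))))) (.p 340232))) (.b 3 (.b 1 (.p 337688) (.b 4 .n (.b 6 (.p 271720) (.w 5 3 (.b 0 (.b 3 (.b 1 .n (.p 462997)) (.p 473097)) (.b 2 (.b 3 (.b 6 .n (.p 525913)) (.p 229417)) (.p 524889))))))) (.p 217608))))))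 (.b 5 (.w 0 3 (.b 5 (.b 2 .n (.b 3 (.p 467075) (.b 6 .n (.b 1 (.b 4 (.w 3 3 (.b 2 (.b 1 .n (.p 530217)) (.b 1 (.b 4 (.b 5 (.b 6 .n (.p 161337)) (.p 153625)) (.p 149529)) (.p 160057)))) (.p 148248)) (.b 4 (.w 3 3 (.b 0 (.b 5 (.b 2 .n (.p 467091)) (.p 481289)) (.b 1 (.b 5 (.b 4 (.b 6 .n (.p 525881)) (.p 542489)) (.p 360473)) (.p 524601)))) (.w 3 3 (.b 0 (.b 5 (.b 2 .n (.p 467091)) (.p 481289)) (.b 1 (.b 5 (.b 4 (.b 6 .n (.p 525881)) (.p 525369)) (.p 360473)) (.p 524601))))))))) (.b 1 (.b 4 (.b 3 (.p 480128) (.b 2 .n (.p 217608))) (.p 357384)) (.p 356616)))) (.w 7 0 (.b 2 (.b 4 .n (.b 3 (.b 1 (.b 6 (.w 0 3 (.b 5 (.b 1 .n (.p 462997)) (.b 3 (.b 2 (.b 8 .n (.p 492432)) (.p 468281)) (.b 1 (.b 2 (.b 4 .n (.p 341001)) (.p 217609)) (.p 340233))))) (.p 352280)) (.b 6 (.w 0 3 (.b 5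 (.b 1 (.b 4 (.b 8 (.b 2 .n (.b 3 (.p 467091) (.b 6 .n (.w 3 3 (.b 1 (.b 2 .n (.b 5 (.b 4 (.b 8 (.b 6 .n (.p 161338)) (.p 166170)) (.p 149786)) (.p 337690))) (.b 2 (.p 595754) (.p 160058))))))) (.p 553365)) (.p 475285)) (.p 462997)) (.b 3 (.b 2 (.b 8 .n (.p 492432)) (.p 468281)) (.b 1 (.b 2 (.b 4 .n (.p 341001)) (.p 217609)) (.p 340233))))) (.w 0 3 (.b 5 (.b 1 (.b 4 (.b 8 (.b 2 .n (.b 3 (.p 467091) (.b 6 (.w 3 3 (.b 2 (.b 1 (.b 6 (.b 0 .n (.p 590499)) (.p 616234)) (.p 595754)) (.b 1 (.b 5 .n (.p 337690)) (.p 160058)))) (.w 3 3 (.b 5 (.b 1 (.b 4 (.b 8 (.b 2 .n (.b 6 .n (.p 161338))) (.p 493914)) (.p 477530)) (.p 465242)) (.b 2 (.b 1 (.b 6 (.b 0 .n (.p 38202)) (.p 354074)) (.p 103722)) (.p 468282))))))) (.p 553365)) (.p 475285)) (.p 462997)) (.b 3 (.b 2 (.b 8 .n (.p 492432))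 (.p 468281)) (.b 1 (.b 2 (.b 4 .n (.p 341001)) (.p 217609)) (.p 340233))))))) (.p 341112))) (.b 1 (.p 335896) (.b 3 (.p 131384) (.p 340344))))))) (.b 5 (.p 262517) (.b 3 (.w 5 3 (.b 1 (.b 3 .n (.b 0 (.p 472448) (.b 4 (.b 6 (.b 2 (.w 0 3 (.b 5 (.b 1 .n (.p 464985)) (.b 1 (.b 4 .n (.p 361481)) (.p 360713)))) (.w 0 3 (.b 5 (.b 1 (.b 3 .n (.p 472464)) (.p 464985)) (.b 1 (.b 2 (.b 4 .n (.p 361481)) (.p 545289)) (.p 360713))))) (.p 483400)) (.p 17240)))) (.b 2 (.b 6 (.b 0 (.p 462981) (.b 3 .n (.p 200744))) (.p 95832)) (.p 94808)))) (.w 7 0 (.b 3 (.b 2 (.b 4 .n (.p 17287)) (.p 9528)) (.b 1 (.b 2 (.b 6 (.b 4 (.p 341127) (.w 5 3 (.b 1 (.b 0 .n (.b 4 (.b 6 (.b 8 (.p 493888) (.b 3 .n (.b 2 (.w 0 3 (.b 4 (.b 1 .n (.p 465226)) (.b 5 (.b 1 .n (.p 465242)) (.p 365578)))) (.w 0 3 (.b 4 (.b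 1 .n (.p 465226)) (.b 5 (.b 1 .n (.p 465242)) (.p 365578))))))) (.p 483401)) (.p 262549))) (.b 2 (.b 3 .n (.p 202537)) (.p 94809))))) (.p 352280)) (.p 335896)) (.p 340344)))))))

def c32 : Cert := (.b 0 (.b 3 (.b 6 .n (.w 2 3 (.b 1 (.b 0 .n (.b 3 .n (.p 225320))) (.b 4 (.b 5 (.b 0 .n (.p 66693)) (.p 95528)) (.p 95272))))) (.b 6 (.w 2 3 (.b 1 (.b 6 (.b 0 .n (.b 3 (.p 459395) (.b 5 .n (.b 4 (.w 3 3 (.b 2 (.b 1 (.b 6 (.b 0 .n (.p 459411)) (.p 485417)) (.p 464937)) (.b 1 (.b 4 (.b 5 .n (.p 153369)) (.p 149273)) (.p 164153)))) (.w 3 3 (.b 2 (.b 1 (.b 6 (.b 0 .n (.p 459411)) (.p 485417)) (.p 464937)) (.b 1 (.b 4 (.b 5 .n (.p 153369)) (.p 149273)) (.p 164153)))))))) (.p 422274)) (.b 4 (.b 5 .n (.p 95528)) (.p 95272)))) (.w 2 3 (.b 1 (.b 0 .n (.b 3 (.p 459395) (.b 6 (.b 4 (.b 5 (.w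 3 3 (.b 2 (.b 1 .n (.p 464937)) (.b 1 (.b 4 (.b 5 (.b 6 .n (.p 165433)) (.p 153369)) (.p 149273)) (.p 164153)))) (.w 3 3 (.b 2 (.b 1 (.b 0 .n (.p 459411)) (.p 464937)) (.b 1 (.b 4 (.b 5 (.b 6 .n (.p 165433)) (.p 153369)) (.p 149273)) (.p 164153))))) (.p 476008)) (.p 221224)))) (.b 4 (.b 5 (.b 3 (.p 463746) (.b 0 .n (.p 200744))) (.p 95528)) (.p 95272)))))) (.b 3 (.b 6 .n (.p 132663)) (.b 6 (.w 7 2 (.b 0 (.b 5 (.b 6 .n (.b 1 (.b 4 (.w 3 3 (.b 2 (.b 1 .n (.p 463762)) (.b 0 (.b 5 (.b 8 .n (.p 491667)) (.p 479753)) (.b 1 (.b 5 (.b 4 (.b 6 .n (.p 132665)) (.p 149273)) (.p 335897)) (.p 131385))))) (.p 148248)) (.b 4 (.w 3 3 (.b 2 (.b 1 (.b 6 (.b 8 (.b 4 .n (.b 5 .n (.b 0 (.p 357385) (.w 0 3 (.b 1 (.b 4 .n (.b 3 (.b 5 .n (.p 357386)) (.p 603146))) (.b 5 (.p 595802) (.p 356618)))))))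 (.p 553362)) (.p 422290)) (.p 463762)) (.b 0 (.b 5 (.b 8 .n (.p 491667)) (.p 479753)) (.b 1 (.b 5 (.b 4 (.b 6 .n (.p 132665)) (.p 149273)) (.p 335897)) (.p 131385))))) (.w 3 3 (.b 2 (.b 1 (.b 6 (.b 8 (.b 5 .n (.b 0 (.p 480144) (.b 4 (.w 0 3 (.b 5 (.b 1 (.b 4 (.b 3 .n (.p 603552)) (.p 608090)) (.p 595802)) (.b 1 (.b 2 .n (.p 479754)) (.p 356618)))) (.w 0 3 (.b 2 (.b 1 (.b 6 (.b 8 (.b 4 .n (.b 3 (.b 5 .n (.p 357386)) (.p 603146))) (.p 493866)) (.p 485674)) (.p 465194)) (.b 5 (.b 3 (.b 8 .n (.p 493882)) (.p 233994)) (.p 479754))))))) (.p 553362)) (.p 422290)) (.p 463762)) (.b 0 (.b 5 (.b 8 .n (.p 491667)) (.p 479753)) (.b 1 (.b 5 (.b 4 (.b 6 .n (.p 132665)) (.p 149273)) (.p 335897)) (.p 131385)))))))) (.p 217608)) (.b 1 (.b 5 (.b 4 (.b 6 .n (.p 132728)) (.p 148248)) (.p 335896))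 (.p 131448)))) (.w 7 2 (.b 0 (.b 5 (.b 6 .n (.p 221319)) (.p 217608)) (.b 1 (.b 5 (.b 4 (.b 6 (.p 132743) (.w 2 3 (.b 1 (.b 0 .n (.b 8 (.p 493856) (.b 3 .n (.b 6 (.b 4 (.b 5 (.w 3 3 (.b 6 (.b 1 .n (.p 465258)) (.b 2 (.b 1 .n (.p 465194)) (.p 169530)))) (.w 3 3 (.b 6 (.b 1 .n (.p 465258)) (.b 2 (.b 1 .n (.p 465194)) (.p 169530))))) (.p 475241)) (.p 221225))))) (.b 0 (.b 5 .n (.p 356617)) (.p 462889))))) (.p 148248)) (.p 335896)) (.p 131448)))))))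

def c33 : Cert := (.b 0 (.b 4 .n (.b 7 (.b 1 (.b 5 .n (.b 6 (.w 5 3 (.b 6 (.b 0 .n (.b 3 .n (.p 33625))) (.b 1 (.b 4 (.p 426388) (.b 2 (.b 7 .n (.p 422953)) (.p 272409))) (.p 99929)))) (.p 414337))) (.b 5 (.b 6 .n (.w 1 3 (.b 6 (.b 3 (.b 2 (.b 5 .n (.p 546449)) (.p 164758)) (.p 536982)) (.b 2 (.b 7 (.b 5 .n (.p 414353)) (.p 423977)) (.b 3 (.b 7 (.b 0 .n (.p 395321)) (.p 165657)) (.p 164633)))))) (.b 6 (.w 4 3 (.b 1 (.b 2 (.b 6 (.b 0 .n (.b 5 (.p 524693) (.b 7 .n (.b 3 (.w 5 3 (.b 1 (.b 2 (.b 6 (.b 0 .n (.p 524709)) (.p 551194)) (.p 534810)) (.b 2 (.b 3 (.b 7 .n (.p 96298)) (.p 79914)) (.p 103002)))) (.w 5 3 (.b 1 (.b 2 (.b 6 (.b 0 .n (.p 524709)) (.p 551194)) (.p 534810)) (.b 2 (.b 3 (.b 7 .n (.p 96298)) (.p 79914)) (.p 103002)))))))) (.p 426641)) (.p 533649)) (.b 3 (.b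 0 (.b 2 .n (.b 6 .n (.p 426569))) (.b 2 (.b 7 .n (.p 462889)) (.p 131385))) (.b 2 (.p 79913) (.b 6 (.p 79977) (.p 426569)))))) (.w 8 1 (.b 0 (.b 2 .n (.b 5 (.b 3 (.b 7 (.w 4 3 (.b 2 (.b 0 .n (.b 5 (.p 525477) (.b 6 (.b 9 (.b 3 .n (.p 229482)) (.p 364618)) (.p 352330)))) (.b 9 (.b 1 (.p 533665) (.b 6 (.p 533670) (.b 5 (.b 0 .n (.p 66138)) (.p 414282)))) (.p 623178)))) (.p 422201)) (.b 7 (.w 4 3 (.b 3 (.b 2 (.b 0 .n (.b 6 (.b 9 (.b 5 (.p 525477) (.b 7 .n (.b 1 (.w 5 3 (.b 1 (.b 2 (.b 9 (.b 0 .n (.p 524725)) (.p 563739)) (.p 535067)) (.b 2 (.b 3 (.b 7 .n (.p 96299)) (.p 79915)) (.p 107099)))) (.p 462890)))) (.p 590499)) (.p 395322))) (.b 9 (.b 6 (.p 164774) (.b 0 .n (.p 395322))) (.p 623178))) (.b 9 (.b 1 (.b 2 (.b 6 (.p 536998) (.b 5 (.b 7 .n (.p 423978)) (.p 414490))) (.p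 164634)) (.p 80026)) (.p 623434)))) (.w 9 2 (.b 1 (.b 4 (.b 5 (.b 8 (.b 6 (.b 0 .n (.w 4 3 (.b 1 (.b 2 (.b 9 (.b 0 .n (.b 5 (.p 524725) (.b 6 (.b 3 (.b 7 .n (.b 10 .n (.w 5 3 (.b 1 (.b 2 (.b 9 (.b 0 .n (.p 524741)) (.p 563996)) (.p 535324)) (.b 2 (.b 3 (.b 7 .n (.p 96300)) (.p 79916)) (.p 111196)))))) (.p 229483)) (.p 352283)))) (.p 623281)) (.p 533681)) (.b 3 (.b 6 (.b 2 (.b 7 .n (.p 96299)) (.p 164790)) (.b 0 (.b 7 (.b 10 (.b 2 .n (.b 5 (.b 9 .n (.p 623179)) (.p 414283))) (.p 434491)) (.p 422203)) (.p 393531))) (.b 2 (.p 79915) (.b 9 (.p 80027) (.p 623179))))))) (.p 422313)) (.p 164634)) (.p 152346)) (.p 148250)) (.b 6 (.p 202602) (.b 0 (.b 5 (.b 8 .n (.p 80026)) (.p 340234)) (.p 200858))))))) (.p 414345))) (.b 3 (.p 393529) (.b 2 (.p 200745) (.b 5 (.p 66137) (.p 352393)))))))))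 (.b 5 (.b 1 .n (.p 95272)) (.p 357384)))) (.b 6 (.b 1 (.b 4 (.b 5 (.b 7 .n (.w 0 3 (.b 2 (.b 1 .n (.b 5 .n (.p 360713))) (.b 3 (.b 7 (.p 532631) (.b 5 .n (.p 479753))) (.p 229897))))) (.b 7 (.w 8 0 (.b 2 (.b 1 .n (.b 3 (.b 7 (.b 6 .n (.p 393529)) (.p 462889)) (.p 200745))) (.b 1 (.p 335897) (.b 3 (.p 131385) (.b 6 (.p 200809) (.b 4 (.p 352329) (.b 7 (.p 131449) (.w 0 3 (.b 9 (.b 3 (.b 7 (.b 1 .n (.b 5 (.p 528549) (.b 2 (.b 6 .n (.p 354458)) (.p 338074)))) (.p 492448)) (.p 231840)) (.b 1 (.b 2 .n (.p 623114)) (.p 622858))))))))))) (.w 8 0 (.b 2 (.b 1 .n (.b 3 (.b 7 (.b 6 (.b 4 .n (.w 0 3 (.b 5 (.b 1 (.b 4 (.b 9 (.b 3 .n (.p 538016)) (.p 623013)) (.p 540837)) (.p 528549)) (.b 3 (.b 7 (.b 2 (.b 9 .n (.p 563104)) (.p 533882)) (.p 480160)) (.b 1 (.b 2 .n (.p 217610)) (.p 340234))))))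 (.p 393529)) (.p 462889)) (.p 200745))) (.b 1 (.p 335897) (.b 3 (.p 131385) (.b 6 (.p 200809) (.b 4 (.p 352329) (.b 7 (.p 131449) (.p 356745)))))))))) (.b 5 (.p 262533) (.b 7 (.w 8 0 (.b 6 (.b 3 .n (.b 1 (.b 2 (.b 4 (.b 7 .n (.w 5 3 (.b 0 (.b 1 .n (.p 528549)) (.b 1 (.b 4 (.b 6 (.b 9 .n (.p 562341)) (.p 548938)) (.p 262565)) (.b 4 (.p 528458) (.b 2 (.b 3 .n (.p 200746)) (.p 66138))))))) (.p 213097)) (.p 335897)) (.p 200809))) (.b 1 (.p 352281) (.b 3 (.p 393529) (.b 2 (.p 200745) (.b 4 (.p 352329) (.p 262537))))))) (.w 8 0 (.b 4 (.b 6 (.b 7 .n (.p 357528)) (.p 352329)) (.b 1 (.b 2 (.b 6 (.b 3 .n (.p 213097)) (.p 352281)) (.p 335897)) (.p 262537))))))) (.b 7 (.b 5 .n (.b 4 (.w 5 3 (.b 0 (.b 4 (.b 3 .n (.p 538000)) (.p 540821)) (.b 1 (.b 2 .n (.p 532505)) (.b 2 (.b 3 (.b 7 (.b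 6 .n (.p 393529)) (.p 462889)) (.p 200745)) (.p 66137))))) (.w 8 0 (.b 1 (.b 2 (.b 6 (.b 4 (.b 7 .n (.b 3 (.w 5 3 (.b 0 (.b 3 .n (.p 538016)) (.b 1 (.b 2 (.b 6 (.b 4 (.b 9 .n (.p 561573)) (.p 262565)) (.p 548890)) (.p 532506)) (.b 2 (.b 3 (.b 7 .n (.p 462890)) (.p 200746)) (.p 66138))))) (.w 5 3 (.b 1 (.b 9 (.b 2 .n (.p 533921)) (.p 561573)) (.b 0 (.b 3 (.b 7 (.b 9 (.b 2 .n (.b 6 .n (.b 4 (.p 426570) (.w 4 3 (.b 3 (.b 2 .n (.b 0 (.b 7 (.b 9 (.b 5 (.b 6 .n (.p 426571)) (.p 676427)) (.p 563723)) (.p 492043)) (.p 10299))) (.b 0 (.p 539147) (.b 2 (.p 237611) (.b 1 (.p 532507) (.b 6 (.p 200811) (.p 548939)))))))))) (.p 561418)) (.p 553226)) (.p 536842)) (.b 2 (.b 3 (.b 7 .n (.p 462890)) (.p 200746)) (.p 66138))))))) (.p 262552)) (.p 352281)) (.p 335897)) (.b 2 (.b 3 (.b 7 (.b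 6 .n (.p 393529)) (.p 462889)) (.p 200745)) (.p 66185)))))) (.p 462888))) (.p 393859)))

def c34 : Cert := (.b 0 (.w 1 3 (.b 3 (.b 0 .n (.b 5 .n (.b 2 (.b 6 (.b 7 (.b 4 (.w 0 3 (.b 3 (.b 1 .n (.b 5 (.p 528533) (.b 4 .n (.b 6 .n (.b 7 (.b 2 (.w 5 3 (.b 1 (.b 2 .n (.p 600090)) (.b 2 (.b 3 (.b 7 (.b 6 .n (.p 99930)) (.p 96554)) (.p 80170)) (.p 98906)))) (.w 5 3 (.b 0 (.b 3 (.b 1 .n (.p 528549)) (.p 538890)) (.b 2 (.b 3 (.b 7 (.b 6 .n (.p 26682)) (.p 620586)) (.p 233514)) (.p 590426))))) (.p 422201)))))) (.b 2 (.b 6 .n (.p 230921)) (.p 229897)))) (.w 8 0 (.b 6 (.b 2 .n (.b 1 (.p 335897) (.b 3 (.p 131385) (.p 200809)))) (.b 1 (.p 352281) (.b 3 (.p 393529) (.b 2 (.p 200745) (.b 4 (.p 352329) (.p 262537)))))))) (.p 30008)) (.p 352280)) (.p 335896)))) (.b 5 (.b 2 .n (.b 4 (.b 7 .n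 (.b 0 (.b 6 (.w 3 3 (.b 2 (.b 0 (.b 1 .n (.p 529298)) (.p 524947)) (.b 6 (.b 4 (.b 0 .n (.p 132755)) (.p 149609)) (.b 1 (.b 4 (.b 5 .n (.p 153625)) (.p 149529)) (.p 426297))))) (.w 8 2 (.b 6 (.b 1 (.b 4 (.b 5 .n (.p 152345)) (.p 148249)) (.p 202601)) (.b 1 (.b 4 (.b 5 .n (.p 152345)) (.p 148249)) (.p 422281))))) (.b 6 (.w 8 2 (.b 5 (.b 1 .n (.b 0 (.b 6 (.p 202601) (.b 4 .n (.w 9 1 (.b 3 (.b 0 .n (.p 393530)) (.b 2 (.p 78890) (.b 0 (.b 5 (.b 8 .n (.p 202906)) (.p 340234)) (.p 200858))))))) (.p 66137))) (.b 0 (.p 217609) (.p 9609)))) (.w 8 2 (.b 6 (.b 1 (.b 4 (.b 5 .n (.p 152345)) (.p 148249)) (.p 202601)) (.b 1 (.b 4 (.b 5 .n (.p 152345)) (.p 148249)) (.p 422281))))))) (.p 148248))) (.b 2 (.b 6 (.b 4 (.b 0 .n (.b 7 (.w 8 0 (.b 3 (.b 2 (.b 6 .n (.p 25913)) (.p 9529)) (.b 1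 (.b 2 .n (.p 335897)) (.p 340361)))) (.w 8 0 (.b 3 (.b 2 (.b 6 .n (.p 25913)) (.p 9529)) (.b 1 (.b 2 .n (.p 335897)) (.p 340361)))))) (.p 275816)) (.p 414488)) (.p 152344))))) (.w 2 3 (.b 3 c33 (.b 1 (.b 6 (.b 4 (.b 0 .n (.b 5 (.b 7 .n (.w 7 3 (.b 3 (.b 6 (.b 2 (.b 4 .n (.b 5 .n (.b 0 (.p 361481) (.b 1 (.w 0 3 (.b 3 (.b 2 (.b 6 (.b 5 .n (.p 545696)) (.p 551226)) (.p 534842)) (.b 2 (.b 4 .n (.p 603146)) (.p 233994)))) (.w 0 3 (.b 3 (.b 2 (.b 6 (.b 5 .n (.p 545696)) (.p 551226)) (.p 534842)) (.b 1 (.b 2 (.b 4 .n (.p 603146)) (.p 233994)) (.p 602378)))))))) (.p 165523)) (.p 550803)) (.b 1 (.b 5 (.b 2 .n (.b 4 (.b 6 .n (.p 165497)) (.p 148249))) (.b 2 (.b 6 (.b 4 .n (.p 275817)) (.p 414489)) (.p 152345))) (.b 2 (.p 202793) (.p 164217)))))) (.b 7 (.w 0 3 (.b 5 (.b 1 (.b 4 (.b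 7 .n (.p 554384)) (.p 540821)) (.p 528533)) (.b 3 (.b 2 (.b 6 .n (.p 550201)) (.p 533817)) (.b 1 (.b 2 .n (.p 217609)) (.p 340233))))) (.w 8 0 (.b 3 (.b 2 (.b 6 (.b 7 (.b 4 .n (.b 1 (.w 0 3 (.b 3 (.b 2 (.b 6 (.b 9 .n (.p 562080)) (.p 549027)) (.p 532643)) (.b 5 (.b 1 .n (.p 529242)) (.b 1 (.b 2 (.b 4 .n (.p 341002)) (.p 217610)) (.p 340234))))) (.w 0 3 (.b 3 (.b 2 (.b 6 (.b 9 .n (.p 562080)) (.p 549027)) (.p 532643)) (.b 5 (.b 1 (.b 4 (.b 9 (.b 2 .n (.b 7 (.p 532647) (.b 6 .n (.w 7 3 (.b 1 (.b 2 .n (.b 5 (.b 4 (.b 9 (.b 6 .n (.p 165499)) (.p 170523)) (.p 150043)) (.p 337947))) (.b 2 (.p 661547) (.p 164219))))))) (.p 562010)) (.p 541530)) (.p 529242)) (.b 1 (.b 2 (.b 4 .n (.p 341002)) (.p 217610)) (.p 340234))))))) (.p 480152)) (.p 25913)) (.p 9529)) (.b 1 (.b 2 (.b 6 (.b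 4 .n (.p 213097)) (.p 352281)) (.p 335897)) (.p 340361))))))) (.p 274822)) (.b 5 (.b 7 .n (.p 422274)) (.p 414488))) (.b 0 (.b 5 (.b 4 .n (.p 78888)) (.p 340232)) (.p 200744))))))

def c35 : Cert := (.b 3 (.w 1 3 (.b 2 (.b 6 (.b 0 (.b 4 .n (.b 5 .n (.b 3 (.w 5 3 (.b 1 (.b 0 .n (.b 3 .n (.p 29528))) (.b 2 (.b 6 (.b 3 .n (.p 79490)) (.p 95832)) (.p 94808)))) (.p 340999)))) c31) (.b 3 (.b 5 .n (.p 414321)) (.p 405874))) (.b 5 (.b 4 c32 (.p 271729)) (.b 0 (.b 3 (.b 4 (.p 337009) (.b 6 (.p 271719) (.w 4 3 (.b 5 (.b 0 (.b 2 .n (.b 1 (.p 464962) (.b 6 .n (.b 3 (.w 6 3 (.b 5 (.b 0 .n (.p 460889)) (.b 4 (.b 1 (.p 361617) (.b 0 .n (.b 3 .n (.b 2 (.p 200745) (.w 2 3 (.b 1 (.b 3 (.b 4 (.p 543255) (.p 541345)) (.p 536994)) (.b 3 (.b 6 (.b 4 .n (.p 543082)) (.p 615330)) (.b 0 (.b 5 .n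 (.p 340234)) (.p 200746))))))))) (.p 296297)))) (.w 2 3 (.b 5 (.b 0 .n (.p 460889)) (.b 3 (.b 0 (.b 1 (.p 545425) (.b 4 .n (.b 6 (.p 296297) (.w 6 3 (.b 5 (.b 0 .n (.p 460890)) (.b 2 (.b 3 (.b 0 (.b 4 .n (.p 296298)) (.p 34106)) (.p 472362)) (.p 599402))))))) (.p 34105)) (.p 472361)))))))) (.p 459909)) (.b 2 (.b 3 .n (.p 472360)) (.b 6 (.b 1 (.p 337025) (.b 0 .n (.b 3 (.p 131384) (.w 8 0 (.b 2 (.b 1 (.b 6 (.b 3 (.b 7 .n (.p 459416)) (.p 340376)) (.p 352281)) (.p 66200)) (.b 1 (.p 335897) (.b 3 (.p 131385) (.b 7 (.p 335993) (.b 4 (.b 6 .n (.p 352329)) (.p 66697)))))))))) (.p 414280))))))) (.p 217607)) (.p 335895))))) (.w 6 2 (.b 1 (.b 4 (.b 5 c34 (.p 152343)) (.p 148247)) (.b 0 (.b 5 (.b 4 (.p 78966) (.w 1 3 (.b 3 (.b 0 .n (.b 5 .n (.b 2 (.b 6 (.b 7 (.b 4 (.w 5 3 (.b 1 (.b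 4 (.b 2 .n (.b 3 .n (.b 0 (.p 229897) (.b 6 (.b 7 .n (.p 485698)) (.b 7 (.p 424258) (.w 0 3 (.b 5 (.b 1 (.b 4 (.b 3 .n (.p 538016)) (.p 543066)) (.p 530778)) (.b 1 (.b 2 .n (.p 610826)) (.p 364810))))))))) (.p 295317)) (.b 2 (.b 6 (.b 7 .n (.p 100185)) (.p 99929)) (.p 98905)))) (.w 5 3 (.b 4 (.b 6 (.b 7 .n (.p 554388)) (.p 550292)) (.b 3 (.b 1 .n (.b 2 (.b 6 (.b 7 .n (.p 100185)) (.p 99929)) (.p 98905))) (.b 0 (.p 537609) (.p 17241)))))) (.p 356376)) (.p 352280)) (.p 335896)))) (.b 4 (.b 5 (.b 2 .n (.b 6 (.b 7 .n (.p 485442)) (.b 7 (.p 424002) (.b 0 (.w 2 3 (.b 3 (.b 0 (.b 1 .n (.p 529298)) (.p 524947)) (.b 4 (.b 0 .n (.b 1 (.b 5 .n (.b 6 (.b 7 (.w 3 3 (.b 1 (.b 0 .n (.b 5 .n (.p 34106))) (.b 2 (.p 530730) (.p 168250)))) (.p 356377)) (.p 352281))) (.p 200745))) (.b 1 (.b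 6 (.p 274838) (.b 5 .n (.p 414489))) (.p 78889))))) (.w 8 2 (.b 5 (.b 1 .n (.b 0 (.b 6 (.p 202902) (.b 4 .n (.w 9 1 (.b 3 (.b 0 .n (.p 393530)) (.b 2 (.p 78890) (.b 0 (.b 5 (.b 8 .n (.p 202906)) (.p 340234)) (.p 200858))))))) (.p 66137))) (.b 0 (.p 217609) (.p 9609)))))))) (.b 2 (.b 6 (.b 7 (.b 0 .n (.w 8 0 (.b 3 (.b 2 (.b 6 (.b 7 .n (.p 30009)) (.p 25913)) (.p 9529)) (.b 1 (.b 2 .n (.p 335897)) (.p 340361))))) (.p 480024)) (.p 414488)) (.p 152344))) (.b 2 (.b 6 (.p 274822) (.b 5 .n (.p 414488))) (.p 148248)))))) (.p 340231)) (.p 200807)))))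

def c36 : Cert := (.b 0 (.b 2 (.b 3 (.w 1 3 (.b 5 (.b 2 .n (.b 4 (.b 6 (.b 3 .n (.b 0 (.w 2 3 (.b 1 (.b 0 .n (.b 3 (.p 459395) (.b 5 .n (.b 6 (.b 4 (.w 3 3 (.b 2 (.b 1 (.b 0 .n (.p 459411)) (.p 464937)) (.b 1 (.b 4 (.b 5 .n (.p 153369)) (.p 149273)) (.p 164153)))) (.w 3 3 (.b 2 (.b 1 (.b 0 .n (.p 459411)) (.p 464937)) (.b 1 (.b 4 (.b 5 .n (.p 153369)) (.p 149273)) (.p 164153))))) (.p 352280))))) (.b 4 (.b 5 .n (.p 95528)) (.p 95272)))) (.w 7 2 (.b 5 (.b 1 .n (.b 0 (.b 4 .n (.b 6 .n (.w 8 1 (.b 3 (.b 2 (.b 7 (.b 0 .n (.b 5 (.p 67161) (.w 9 0 (.b 1 (.b 2 .n (.p 335898)) (.b 2 (.b 3 (.b 7 (.b 8 .n (.p 524602)) (.p 462890)) (.p 200746)) (.p 66202)))))) (.p 95273)) (.p 148376)) (.b 2 (.p 78889) (.b 0 (.b 5 (.b 7 .n (.p 202633)) (.p 340233)) (.p 200841))))))) (.p 66136))) (.b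 0 (.p 217608) (.p 9592)))))) (.p 402545)) (.p 271729))) (.b 2 (.b 0 .n (.b 6 (.b 3 (.b 4 (.w 5 3 (.b 1 (.b 4 (.b 2 .n (.b 6 (.b 3 .n (.b 0 (.p 225800) (.w 0 3 (.b 5 (.b 1 (.b 4 (.b 3 .n (.p 472464)) (.p 477273)) (.p 464985)) (.b 1 (.b 2 .n (.p 545289)) (.p 360713)))))) (.p 402561))) (.p 291205)) (.b 2 (.b 6 .n (.p 95832)) (.p 94808)))) (.w 5 3 (.b 1 (.b 2 .n (.b 4 (.b 6 (.b 3 .n (.b 0 (.p 225800) (.w 0 3 (.b 1 (.b 2 .n (.b 5 (.b 3 .n (.p 225801)) (.p 545289))) (.b 5 (.p 464985) (.p 360713)))))) (.p 422276)) (.p 272152))) (.b 2 (.b 6 .n (.p 95832)) (.p 94808))))) (.b 4 (.w 7 0 (.b 3 (.b 2 (.b 1 .n (.b 4 .n (.b 6 .n (.w 0 3 (.b 8 (.b 2 .n (.b 3 (.p 467091) (.b 5 (.b 1 (.b 4 (.b 6 (.w 3 3 (.b 1 (.b 0 .n (.b 5 .n (.p 38202))) (.b 2 (.p 595754) (.p 160058)))) (.p 156441)) (.p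 148249)) (.p 94809)) (.p 217609)))) (.b 1 (.b 4 (.b 6 (.b 5 (.p 553365) (.b 2 .n (.p 337689))) (.p 554505)) (.p 553993)) (.p 553225))))))) (.p 9528)) (.b 1 (.b 2 .n (.p 335896)) (.p 340344)))) (.w 7 0 (.b 3 (.b 2 (.b 4 .n (.p 17287)) (.p 9528)) (.b 1 (.b 2 .n (.p 335896)) (.p 340344)))))) (.p 352279))) (.b 0 (.b 3 .n (.p 217607)) (.p 335895))))) (.p 78886)) c35) (.b 2 (.b 3 (.w 0 3 (.b 1 (.b 2 .n (.b 3 .n (.b 5 (.b 6 (.b 4 (.w 3 3 (.b 0 (.b 1 .n (.b 2 (.p 463746) (.b 4 .n (.b 5 (.b 6 .n (.p 415745)) (.b 6 (.p 354305) (.w 2 3 (.b 0 (.b 1 .n (.b 4 .n (.p 95273))) (.b 3 (.p 460857) (.p 229417))))))))) (.b 5 (.b 6 .n (.p 30264)) (.p 30008)))) (.p 148247)) (.p 221703)) (.p 217607)))) (.b 5 (.b 6 (.b 2 .n (.b 3 .n (.b 4 (.w 7 2 (.b 1 (.b 4 (.b 5 (.b 6 .n (.p 156440)) (.p 152344))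 (.p 148248)) (.b 0 (.b 5 (.b 6 .n (.p 405768)) (.p 340232)) (.p 200824)))) (.w 7 2 (.b 1 (.b 4 (.b 5 (.b 6 .n (.p 156440)) (.p 152344)) (.p 148248)) (.b 0 (.b 5 (.b 6 .n (.p 405768)) (.p 340232)) (.p 200824))))))) (.p 415489)) (.b 3 (.b 6 (.p 354049) (.b 4 .n (.b 2 (.w 7 1 (.b 0 (.b 3 .n (.p 405768)) (.b 5 (.p 67461) (.b 2 (.b 3 (.w 1 3 (.b 0 (.b 2 .n (.b 3 .n (.p 160537))) (.b 8 (.b 4 (.b 5 (.p 459157) (.b 2 .n (.p 335897))) (.p 264073)) (.p 552985)))) (.p 200744)) (.b 3 (.p 131384) (.w 1 3 (.b 8 (.b 2 (.b 0 .n (.b 4 (.b 5 (.p 459157) (.b 3 (.b 6 (.p 459158) (.w 8 2 (.b 1 (.b 4 (.b 5 (.b 6 .n (.p 156442)) (.p 152346)) (.p 148250)) (.b 7 (.b 9 .n (.p 103034)) (.p 79754))))) (.p 341897))) (.p 264073))) (.p 161937)) (.b 0 (.b 3 .n (.p 553753)) (.p 552985))))))))) (.w 7 1 (.b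 0 (.b 3 .n (.p 405768)) (.b 2 (.b 3 (.b 5 (.p 67461) (.w 8 0 (.b 1 (.b 2 .n (.p 335897)) (.b 2 (.b 3 (.b 7 .n (.p 67465)) (.p 200745)) (.p 66185))))) (.p 200744)) (.p 401528))))))) (.p 340231))))) (.p 200742)) (.p 66134)))

def c37 : Cert := (.b 1 (.b 2 (.b 4 (.w 0 3 (.b 2 (.b 1 .n (.b 4 .n (.b 3 c26 (.p 78886)))) c27)) (.w 0 3 (.b 2 (.b 4 .n (.b 3 (.b 1 (.b 5 .n (.w 4 3 (.b 5 (.b 0 (.b 1 .n (.p 398708)) (.p 394357)) (.b 1 (.b 0 .n (.b 3 .n (.b 2 (.w 5 3 (.b 4 (.b 1 (.b 0 .n (.p 394373)) (.p 399176)) (.b 1 (.b 2 (.b 3 .n (.p 475992)) (.p 271896)) (.p 291160)))) (.w 5 3 (.b 4 (.b 1 (.b 0 .n (.p 394373)) (.p 399176)) (.b 1 (.b 2 (.b 3 .n (.p 475992)) (.p 271896)) (.p 291160))))))) (.b 0 (.b 3 (.b 2 .n (.p 86599)) (.p 341511)) (.p 331847)))))) (.b 5 (.w 1 3 (.b 4 (.b 5 (.b 2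 .n (.p 402545)) (.p 414068)) (.b 2 (.b 0 .n (.b 5 (.p 263767) (.b 3 (.w 4 3 (.b 1 (.b 2 (.b 5 .n (.p 414084)) (.p 403224)) (.b 0 (.b 3 .n (.p 472584)) (.p 462920)))) (.w 4 3 (.b 1 (.b 2 (.b 5 .n (.p 414084)) (.p 403224)) (.b 0 (.b 2 .n (.p 94792)) (.p 462920))))))) (.b 3 (.b 5 .n (.p 271639)) (.p 148247))))) (.w 6 1 (.b 5 (.b 0 (.b 2 .n (.b 3 (.w 4 3 (.b 2 (.b 0 .n (.b 5 (.p 394373) (.b 1 (.b 7 (.b 3 .n (.w 5 3 (.b 4 (.b 7 (.b 0 .n (.p 394389)) (.p 424009)) (.b 1 (.b 2 (.b 7 (.b 3 .n (.p 541529)) (.p 423961)) (.p 403481)) (.p 295257))))) (.p 423192)) (.p 331848)))) (.b 7 (.b 1 (.p 402561) (.b 5 (.b 0 .n (.p 393560)) (.p 86600))) (.p 483912)))) (.w 4 3 (.b 7 (.b 0 .n (.b 5 (.p 394373) (.b 1 (.b 2 (.b 3 (.w 5 3 (.b 4 (.b 7 .n (.p 424009)) (.b 1 (.b 2 .n (.p 403481)) (.p 295257))))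 (.w 5 3 (.b 4 (.b 7 (.b 0 .n (.p 394389)) (.p 424009)) (.b 1 (.b 2 (.b 7 (.b 3 .n (.p 541529)) (.p 423961)) (.p 403481)) (.p 295257))))) (.p 402712)) (.p 331848)))) (.b 2 (.b 3 (.b 0 .n (.p 459395)) (.p 484168)) (.p 483912)))))) (.p 262487)) (.b 0 (.b 3 (.b 2 .n (.p 86631)) (.p 340999)) (.p 331879)))))) (.b 5 (.b 1 .n (.p 78886)) (.p 340998)))) c29))) (.b 4 (.w 2 3 c30) (.w 2 3 (.b 5 (.b 0 (.b 1 .n (.b 4 .n (.p 271953))) (.b 3 (.b 1 .n (.b 4 .n (.p 262486))) (.p 218656))) (.b 0 (.b 4 .n (.b 3 (.b 1 (.p 333348) (.w 4 3 (.b 2 (.b 0 .n (.b 5 (.p 394357) (.b 1 (.p 403221) (.p 331815)))) (.b 1 (.p 402545) (.b 5 (.p 402549) (.b 0 (.b 3 (.p 341762) (.p 341511)) (.p 331847))))))) (.p 340998))) (.b 1 (.b 3 (.p 341536) (.b 4 (.w 0 3 (.b 2 (.b 4 .n (.b 5 (.p 409717) (.b 3 (.p 403253)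 (.p 340999)))) (.b 3 (.p 401523) (.b 5 (.p 401525) (.b 4 (.b 1 (.p 333634) (.p 333383)) (.p 340999)))))) (.p 341030))) (.p 331814))))))) (.b 2 (.b 4 (.w 1 3 (.b 2 (.b 0 .n (.b 5 .n (.b 4 (.b 3 (.w 5 3 (.b 1 (.b 2 .n (.b 3 .n (.b 0 (.p 221703) (.b 4 (.w 0 3 (.b 5 (.b 1 (.b 3 .n (.p 406912)) (.p 399192)) (.b 1 (.b 2 .n (.p 479752)) (.p 356616)))) (.p 148247))))) (.b 2 (.b 4 .n (.p 91223)) (.p 90711)))) (.w 6 0 (.b 2 (.b 1 .n (.b 3 (.b 4 .n (.w 0 3 (.b 7 (.b 2 .n (.b 3 (.p 401539) (.b 5 (.b 1 (.b 4 (.w 3 3 (.b 2 (.b 1 (.b 0 .n (.p 524947)) (.p 529961)) (.b 1 (.b 5 .n (.p 337433)) (.p 155961)))) (.p 148248)) (.p 90712)) (.p 217608)))) (.b 1 (.b 4 (.b 5 (.p 483717) (.b 2 .n (.p 337432))) (.p 484360)) (.p 483592))))) (.p 200743))) (.b 1 (.p 335895) (.b 3 (.p 131383) (.p 340327))))))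 (.p 344086)))) (.b 5 (.b 3 .n (.b 4 (.b 0 (.w 2 3 (.b 1 (.b 0 .n (.b 3 (.p 393843) (.b 5 .n (.b 4 (.w 3 3 (.b 2 (.b 1 (.b 0 .n (.p 393859)) (.p 399144)) (.b 1 (.b 4 (.b 5 .n (.p 153112)) (.p 149016)) (.p 160056)))) (.p 344087))))) (.b 4 (.b 5 .n (.p 91431)) (.p 91175)))) (.w 6 2 (.b 0 (.b 5 (.b 1 .n (.b 4 .n (.w 3 3 (.b 7 (.b 0 .n (.b 2 (.b 1 (.b 5 .n (.b 4 (.w 0 3 (.b 5 (.b 1 (.b 3 .n (.p 538000)) (.p 530009)) (.b 1 (.b 2 .n (.p 414217)) (.p 352521)))) (.p 344088))) (.p 397352)) (.p 132995))) (.b 1 (.b 4 (.b 0 (.p 422019) (.b 5 .n (.p 356376))) (.p 484408)) (.p 483640)))))) (.p 217607)) (.b 1 (.b 5 .n (.p 335895)) (.p 131431))))) (.p 148246))) (.b 0 (.b 3 .n (.p 217606)) (.p 335894))))) (.w 5 1 c36)) (.p 131381)))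

def c38 : Cert := (.b 4 (.w 2 3 (.b 3 (.b 4 (.b 0 .n (.b 5 .n (.b 1 (.w 0 3 (.b 3 (.b 1 .n (.b 2 (.b 4 .n (.p 272177)) (.b 4 (.p 149297) (.b 5 (.w 6 0 (.b 7 (.b 3 .n (.b 1 (.b 2 (.b 4 .n (.p 272403)) (.b 4 (.p 202818) (.w 8 2 (.b 0 (.b 5 (.b 6 (.b 1 .n (.b 4 (.p 202900) (.b 7 .n (.w 9 1 (.b 8 (.b 0 .n (.p 262538)) (.b 3 (.b 0 .n (.p 262458)) (.p 202906))))))) (.p 221705)) (.p 217609)) (.b 1 (.b 6 .n (.p 9865)) (.p 131465)))))) (.b 2 (.p 200744) (.b 4 (.p 200776) (.w 8 2 (.b 0 (.b 5 (.b 6 (.b 1 .n (.p 200856)) (.p 221705)) (.p 217609)) (.b 6 (.b 7 .n (.p 459369)) (.p 9865)))))))) (.b 1 (.b 2 (.b 3 .n (.p 225320)) (.p 459368)) (.p 459112)))) (.w 6 0 (.b 7 (.b 1 (.b 2 (.b 4 .n (.p 344184)) (.p 335992)) (.p 331896)) (.b 1 (.b 2 (.b 3 .n (.p 225320)) (.p 459368)) (.p 459112))))))))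 (.b 2 (.b 4 .n (.p 222215)) (.p 221703)))) (.w 6 0 (.b 1 (.b 3 .n (.b 2 (.b 4 .n (.p 272147)) (.b 4 (.p 202562) (.w 0 3 (.b 7 (.b 3 (.b 1 .n (.b 2 (.b 4 .n (.p 272433)) (.b 5 (.b 4 (.p 149553) (.w 1 3 (.b 7 (.b 0 .n (.b 2 (.b 4 (.b 3 (.b 5 .n (.w 7 2 (.b 0 (.b 5 (.b 6 (.b 9 (.b 1 .n (.b 4 (.p 202660) (.b 8 .n (.w 10 1 (.b 0 (.b 3 .n (.b 6 (.b 5 (.b 9 (.b 7 .n (.p 202667)) (.p 234507)) (.p 218123)) (.p 405771))) (.b 3 (.p 262459) (.p 200875))))))) (.p 233994)) (.p 221706)) (.p 217610)) (.b 1 (.b 6 .n (.p 401434)) (.p 131450))))) (.p 229417)) (.p 409625)) (.p 401433))) (.b 0 (.p 423945) (.b 2 (.p 491561) (.p 401433)))))) (.p 151928)))) (.p 223104)) (.b 1 (.b 2 (.b 4 .n (.p 484360)) (.p 483848)) (.p 422152))))))) (.b 2 (.b 3 (.b 4 .n (.p 262455)) (.p 200743)) (.p 66151)))))))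 (.b 1 (.b 0 .n (.b 5 .n (.p 17718))) (.p 271921))) (.b 1 (.b 4 (.b 0 .n (.b 5 .n (.w 6 0 (.b 3 (.b 2 (.b 4 .n (.p 17719)) (.p 9527)) (.b 2 (.b 1 (.b 4 .n (.p 218215)) (.p 200743)) (.p 217703)))))) (.p 271891)) (.b 0 (.b 4 .n (.b 5 (.w 4 3 (.b 3 (.b 0 (.b 2 .n (.p 402547)) (.p 394355)) (.b 1 (.b 2 (.p 403219) (.p 402545)) (.b 0 (.b 5 (.b 2 .n (.w 6 1 (.b 3 (.b 0 (.b 2 (.p 272433) (.p 272003)) (.p 262456)) (.b 0 (.b 5 (.b 2 .n (.b 7 .n (.p 475752))) (.p 218120)) (.p 200808))))) (.p 218631)) (.p 200775))))) (.p 218118))) (.p 200742))))) (.w 3 3 (.b 4 (.b 0 (.b 1 .n (.b 2 .n (.p 149041))) (.b 5 (.b 1 .n (.b 2 .n (.p 131382))) (.p 341568))) (.b 0 (.b 5 (.b 1 .n (.b 2 (.p 271921) (.w 1 3 (.b 3 (.b 5 .n (.b 4 (.p 414068) (.b 2 (.p 407332) (.p 271639)))) (.b 2 (.p 405874) (.b 4 (.p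 405876) (.b 5 (.b 0 (.p 264019) (.p 263767)) (.p 271639)))))))) (.p 341508)) (.b 1 (.b 5 .n (.b 2 (.w 5 3 (.b 3 (.b 1 .n (.b 4 (.p 398708) (.b 0 (.p 407300) (.p 262455)))) (.b 0 (.p 406896) (.b 4 (.p 406900) (.b 1 (.b 2 (.p 272147) (.p 271895)) (.p 262487)))))) (.p 271638))) (.p 262454))))))

def c39 : Cert := (.b 1 (.b 2 c38 (.b 4 (.w 2 3 (.b 3 (.b 0 (.b 1 .n (.b 4 .n (.p 271921))) (.b 5 (.b 1 .n (.b 4 .n (.p 262454))) (.p 341536))) (.b 0 (.b 4 .n (.b 5 (.b 1 (.p 271891) (.w 4 3 (.b 2 (.b 0 .n (.b 3 (.p 394355) (.b 1 (.p 403219) (.p 200743)))) (.b 1 (.p 402545) (.b 3 (.p 402547) (.b 0 (.b 5 (.p 218882) (.p 218631)) (.p 200775))))))) (.p 218118))) (.b 1 (.b 5 (.p 218656) (.b 4 (.w 0 3 (.b 2 (.b 4 .n (.b 3 (.p 409715) (.b 5 (.p 403283) (.p 218119)))) (.b 3 (.p 401523) (.b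 5 (.p 401525) (.b 4 (.b 1 (.p 202562) (.p 202311)) (.p 218119)))))) (.p 218150))) (.p 200742))))) (.w 2 3 (.b 4 (.b 0 .n (.b 3 (.b 5 .n (.p 341536)) (.b 1 (.b 5 (.p 218656) (.w 3 3 (.b 2 (.b 5 (.b 1 .n (.b 4 .n (.p 287031))) (.p 403253)) (.b 1 (.b 0 (.p 401523) (.b 5 .n (.b 4 (.p 341824) (.w 5 3 (.b 3 (.b 2 (.p 473126) (.b 1 .n (.p 155960))) (.b 0 (.p 472448) (.b 2 (.p 472450) (.b 1 (.b 4 (.p 472452) (.w 7 0 (.b 2 (.b 1 (.b 3 (.p 342304) (.p 341906)) (.p 331817)) (.b 1 (.b 6 (.p 9879) (.b 4 (.p 334146) (.b 3 .n (.b 8 .n (.p 545657))))) (.p 131449))))) (.p 131416))))))))) (.p 155959))))) (.p 200742)))) (.b 3 (.b 1 (.b 5 .n (.p 333348)) (.p 271921)) (.b 1 (.p 271891) (.b 0 (.b 5 (.p 271953) (.w 4 3 (.b 2 (.b 0 .n (.b 3 (.p 394355) (.b 1 (.p 403219) (.p 200743)))) (.b 1 (.p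 402545) (.b 3 (.p 402547) (.b 0 (.b 5 (.p 402549) (.w 6 1 (.b 3 (.b 0 (.b 2 (.p 272433) (.p 272003)) (.p 262456)) (.b 0 (.b 5 (.p 264275) (.b 2 .n (.b 7 .n (.p 475752)))) (.p 200808))))) (.p 200775))))))) (.p 200742)))))))) (.b 2 (.b 4 (.w 1 3 (.b 3 (.b 0 .n (.b 5 .n (.b 2 (.b 4 (.w 0 3 (.b 3 (.b 1 .n (.b 5 (.p 397429) (.b 2 (.b 4 .n (.p 272177)) (.b 4 (.p 149297) (.w 5 3 (.b 0 (.b 3 (.b 1 .n (.p 397445)) (.p 407304)) (.b 2 (.b 3 (.b 4 .n (.p 17976)) (.p 225320)) (.p 459352)))))))) (.b 2 (.b 4 .n (.p 222215)) (.p 221703)))) (.p 344086)) (.p 335894)))) (.b 2 (.b 4 (.b 0 .n (.b 5 .n (.w 6 0 (.b 3 (.b 2 (.b 4 .n (.p 17719)) (.p 9527)) (.b 1 (.b 2 (.b 4 .n (.p 344087)) (.p 335895)) (.p 340327)))))) (.p 271891)) (.b 5 (.b 4 (.p 202306) (.b 0 (.w 2 3 (.b 1 (.b 4 (.b 0 .n (.b 3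 (.p 393843) (.b 5 .n (.w 3 3 (.b 1 (.b 0 .n (.b 5 .n (.p 25912))) (.b 2 (.p 399144) (.p 160056))))))) (.p 399140)) (.b 5 (.b 3 (.p 398194) (.b 0 (.b 4 .n (.w 4 3 (.b 1 (.b 5 (.b 2 (.p 469014) (.p 468097)) (.p 480792)) (.b 5 (.b 0 (.b 3 (.p 398212) (.b 2 .n (.w 7 1 (.b 3 (.b 0 (.b 6 (.b 2 (.p 272689) (.p 272275)) (.p 398231)) (.p 262457)) (.b 0 (.b 5 (.b 6 (.p 202391) (.b 2 .n (.b 8 .n (.p 541305)))) (.p 340233)) (.p 200825)))))) (.p 67416)) (.p 91464))))) (.p 200743))) (.p 91431)))) (.w 6 2 (.b 1 (.b 5 .n (.p 152343)) (.b 0 (.b 5 (.b 4 (.p 202356) (.w 7 1 (.b 0 (.b 3 .n (.b 5 (.b 6 .n (.p 202360)) (.p 340232))) (.b 3 (.p 262456) (.p 200824))))) (.p 340231)) (.p 131431)))))) (.p 152342))))) (.p 262453)) (.p 131381)))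

def c40 : Cert := (.b 4 (.b 5 (.b 2 .n (.w 1 3 (.b 4 (.b 3 .n (.b 2 (.p 471426) (.b 6 .n (.b 0 (.b 5 (.w 2 3 (.b 3 (.b 0 .n (.p 526137)) (.b 0 (.b 4 (.b 5 (.b 6 .n (.p 226857)) (.p 219145)) (.p 215049)) (.p 225321)))) (.p 217608)) (.b 5 (.w 2 3 (.b 1 (.b 4 (.b 3 .n (.p 471442)) (.p 477209)) (.b 0 (.b 4 (.b 5 (.b 6 .n (.p 529961)) (.p 546569)) (.p 295177)) (.p 528425)))) (.w 2 3 (.b 1 (.b 4 (.b 3 .n (.p 471442)) (.p 477209)) (.b 0 (.b 4 (.b 5 (.b 6 .n (.p 529961)) (.p 529705)) (.p 295177)) (.p 528425))))))))) (.b 0 (.b 5 (.b 2 (.p 475777) (.b 3 .n (.p 213512))) (.p 292120)) (.p 290840))))) (.p 331892)) (.b 2 (.b 5 (.w 1 3 (.b 4 (.b 0 (.b 5 (.b 2 .n (.p 468097)) (.p 356484)) (.p 459140)) (.b 2 (.b 0 .n (.b 5 .n (.b 6 .n (.b 3 (.w 4 3 (.b 0 (.b 3 .n (.p 538377)) (.b 3 (.b 2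 (.b 6 .n (.p 30281)) (.p 10297)) (.p 29513)))) (.w 4 3 (.b 1 (.b 2 (.b 0 .n (.p 459156)) (.p 469017)) (.b 2 (.b 3 (.b 6 .n (.p 529993)) (.p 79657)) (.p 98889)))))))) (.b 0 (.b 3 .n (.p 213512)) (.p 270360))))) (.w 4 3 (.b 0 (.b 2 .n (.b 1 (.p 468097) (.b 5 (.b 6 (.b 3 (.w 1 3 (.b 4 (.b 0 .n (.p 460873)) (.b 0 (.b 3 (.b 6 (.b 5 .n (.p 296217)) (.p 288521)) (.p 276233)) (.p 294937)))) (.w 1 3 (.b 4 (.b 0 (.b 2 .n (.p 468113)) (.p 460873)) (.b 0 (.b 3 (.b 6 (.b 5 .n (.p 296217)) (.p 288521)) (.p 276233)) (.p 294937))))) (.p 483672)) (.p 86600)))) (.b 3 (.b 6 (.b 1 (.p 459140) (.b 2 .n (.p 131384))) (.p 30280)) (.p 29512))))) (.b 5 (.w 7 1 (.b 2 (.b 3 (.b 5 .n (.b 0 (.b 6 (.w 1 3 (.b 4 (.b 0 .n (.p 459156)) (.b 2 (.b 3 (.b 8 .n (.p 492177)) (.p 472105)) (.b 0 (.b 3 (.b 6 (.b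 5 .n (.p 271641)) (.p 288521)) (.p 213513)) (.p 270361))))) (.p 286984)) (.b 6 (.w 1 3 (.b 4 (.b 0 (.b 5 (.b 8 (.b 3 .n (.b 2 (.p 471442) (.b 6 .n (.w 2 3 (.b 0 (.b 3 .n (.b 4 (.b 5 (.b 8 (.b 6 .n (.p 226858)) (.p 231690)) (.p 219402)) (.p 276234))) (.b 3 (.p 591674) (.p 225322))))))) (.p 553108)) (.p 356500)) (.p 459156)) (.b 2 (.b 3 (.b 8 .n (.p 492177)) (.p 472105)) (.b 0 (.b 3 (.b 6 (.b 5 .n (.p 271641)) (.p 288521)) (.p 213513)) (.p 270361))))) (.w 1 3 (.b 4 (.b 0 (.b 5 (.b 8 (.b 3 .n (.b 2 (.p 471442) (.b 6 (.w 2 3 (.b 3 (.b 0 (.b 6 (.b 1 .n (.p 594850)) (.p 616250)) (.p 591674)) (.b 0 (.b 4 .n (.p 276234)) (.p 225322)))) (.w 2 3 (.b 4 (.b 0 (.b 5 (.b 8 (.b 3 .n (.b 6 .n (.p 226858))) (.p 493898)) (.p 481610)) (.p 461130)) (.b 3 (.b 1 (.b 8 .n (.p 493850)) (.p 103466))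 (.p 472106))))))) (.p 553108)) (.p 356500)) (.p 459156)) (.b 2 (.b 3 (.b 8 .n (.p 492177)) (.p 472105)) (.b 0 (.b 3 (.b 6 (.b 5 .n (.p 271641)) (.p 288521)) (.p 213513)) (.p 270361)))))))) (.p 78888)) (.b 0 (.b 3 (.b 6 (.b 5 .n (.p 271736)) (.p 286984)) (.p 274696)) (.p 270456)))) (.w 7 1 (.b 2 (.b 3 (.b 5 .n (.p 86663)) (.p 78888)) (.b 0 (.b 3 (.b 6 (.b 5 (.p 271751) (.w 4 3 (.b 0 (.b 1 .n (.b 5 (.b 6 (.b 8 (.p 493905) (.b 2 .n (.b 3 (.w 1 3 (.b 5 (.b 0 .n (.p 461146)) (.b 4 (.b 0 .n (.p 461130)) (.p 300314)))) (.w 1 3 (.b 5 (.b 0 .n (.p 461146)) (.b 4 (.b 0 .n (.p 461130)) (.p 300314))))))) (.p 483673)) (.p 331924))) (.b 2 (.b 3 .n (.p 225321)) (.p 459337))))) (.p 286984)) (.p 274696)) (.p 270456)))))))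

def c41 : Cert := (.b 1 (.b 2 (.b 6 .n (.w 3 3 (.b 0 (.b 1 .n (.b 2 .n (.p 160056))) (.b 4 (.b 5 (.b 1 .n (.p 5508)) (.p 30008)) (.p 29752))))) (.b 6 (.w 2 3 (.b 3 (.b 0 (.b 6 (.b 1 .n (.p 463746)) (.p 422019)) (.p 459395)) (.b 1 (.b 0 .n (.b 5 .n (.b 6 (.p 218984) (.b 4 (.w 3 3 (.b 0 (.b 4 .n (.p 542473)) (.b 4 (.b 5 .n (.p 30009)) (.p 29753)))) (.w 3 3 (.b 2 (.b 1 (.b 0 .n (.p 459411)) (.p 464937)) (.b 1 (.b 4 (.b 5 .n (.p 533817)) (.p 149273)) (.p 164153)))))))) (.b 0 (.b 4 .n (.p 274696)) (.p 200744))))) (.w 3 3 (.b 0 (.b 1 .n (.b 2 (.p 463746) (.b 6 (.b 5 (.b 4 (.w 2 3 (.b 3 (.b 0 .n (.p 460857)) (.b 0 (.b 4 (.b 5 (.b 6 .n (.p 230953)) (.p 218889)) (.p 214793)) (.p 229417)))) (.w 2 3 (.b 3 (.b 0 (.b 1 .n (.p 463762)) (.p 460857)) (.b 0 (.b 4 (.b 5 (.b 6 .n (.p 230953))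 (.p 218889)) (.p 214793)) (.p 229417))))) (.p 479848)) (.p 155960)))) (.b 4 (.b 5 (.b 2 (.p 459395) (.b 1 .n (.p 131384))) (.p 30008)) (.p 29752)))))) (.b 2 (.b 6 .n (.p 202279)) (.b 6 (.w 7 2 (.b 1 (.b 4 (.b 6 .n (.b 0 (.b 5 (.w 2 3 (.b 3 (.b 0 .n (.p 459411)) (.b 1 (.b 4 (.b 8 .n (.p 491922)) (.p 475929)) (.b 0 (.b 4 (.b 5 (.b 6 .n (.p 202281)) (.p 218889)) (.p 274697)) (.p 200745))))) (.p 217608)) (.b 5 (.w 2 3 (.b 3 (.b 0 (.b 6 (.b 8 (.b 4 .n (.b 1 (.p 475793) (.b 5 .n (.w 1 3 (.b 0 (.b 4 .n (.b 3 (.b 6 (.b 8 (.b 5 .n (.p 292122)) (.p 297226)) (.p 289034)) (.p 214794))) (.b 4 (.p 591690) (.p 290842))))))) (.p 553107)) (.p 422035)) (.p 459411)) (.b 1 (.b 4 (.b 8 .n (.p 491922)) (.p 475929)) (.b 0 (.b 4 (.b 5 (.b 6 .n (.p 202281)) (.p 218889)) (.p 274697)) (.p 200745)))))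 (.w 2 3 (.b 3 (.b 0 (.b 6 (.b 8 (.b 4 .n (.b 1 (.p 475793) (.b 5 (.w 1 3 (.b 4 (.b 0 (.b 5 (.b 2 .n (.p 599201)) (.p 612170)) (.p 591690)) (.b 0 (.b 3 .n (.p 214794)) (.p 290842)))) (.w 1 3 (.b 3 (.b 0 (.b 6 (.b 8 (.b 4 .n (.b 5 .n (.p 292122))) (.p 493882)) (.p 485690)) (.p 461114)) (.b 4 (.b 2 (.b 8 .n (.p 493866)) (.p 168730)) (.p 475930))))))) (.p 553107)) (.p 422035)) (.p 459411)) (.b 1 (.b 4 (.b 8 .n (.p 491922)) (.p 475929)) (.b 0 (.b 4 (.b 5 (.b 6 .n (.p 202281)) (.p 218889)) (.p 274697)) (.p 200745)))))))) (.p 148248)) (.b 0 (.b 4 (.b 5 (.b 6 .n (.p 202360)) (.p 217608)) (.p 274696)) (.p 200824)))) (.w 7 2 (.b 1 (.b 4 (.b 6 .n (.p 156039)) (.p 148248)) (.b 0 (.b 4 (.b 5 (.b 6 (.p 202375) (.w 3 3 (.b 0 (.b 1 .n (.b 8 (.p 493873) (.b 2 .n (.b 6 (.b 5 (.b 4 (.w 2 3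 (.b 6 (.b 0 .n (.p 461162)) (.b 3 (.b 0 .n (.p 461114)) (.p 235050)))) (.w 2 3 (.b 6 (.b 0 .n (.p 461162)) (.b 3 (.b 0 .n (.p 461114)) (.p 235050))))) (.p 479593)) (.p 155961))))) (.b 1 (.b 4 .n (.p 290841)) (.p 459065))))) (.p 217608)) (.p 274696)) (.p 200824)))))))

def c42 : Cert := (.b 3 (.w 0 3 (.b 4 (.b 2 .n (.b 3 .n (.b 5 (.b 6 (.b 1 (.w 2 3 (.b 3 (.b 0 (.b 1 .n (.p 463746)) (.p 459395)) (.b 0 (.b 4 .n (.p 214792)) (.b 1 (.b 5 .n (.b 6 .n (.b 4 (.w 3 3 (.b 0 (.b 4 .n (.p 542473)) (.b 4 (.b 5 .n (.p 30009)) (.p 29753)))) (.w 3 3 (.b 2 (.b 1 (.b 0 .n (.p 459411)) (.p 464937)) (.b 1 (.b 4 (.b 5 .n (.p 533817)) (.p 149273)) (.p 164153))))))) (.p 200744))))) (.w 7 2 (.b 4 (.b 0 .n (.b 1 (.b 5 .n (.b 6 .n (.w 8 0 (.b 2 (.b 3 (.b 7 (.b 1 .n (.b 4 (.p 5705) (.w 9 1 (.b 0 (.b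 3 .n (.p 274698)) (.b 2 (.b 3 (.b 8 .n (.p 528426)) (.p 200746)) (.p 66202)))))) (.p 30009)) (.p 217752)) (.b 3 (.p 9529) (.b 1 (.b 4 (.b 7 .n (.p 133001)) (.p 270361)) (.p 131465))))))) (.p 66120))) (.b 0 (.p 213512) (.b 1 (.p 270360) (.p 200824)))))) (.p 221703)) (.p 217607)))) (.b 3 (.b 1 .n (.b 6 (.b 2 (.b 5 (.w 4 3 (.b 0 (.b 5 (.b 2 .n (.b 1 (.p 468097) (.b 3 .n (.b 6 (.w 1 3 (.b 4 (.b 0 (.b 5 (.b 2 .n (.p 468113)) (.p 481353)) (.p 460873)) (.b 0 (.b 3 .n (.p 276233)) (.p 294937)))) (.p 221704))))) (.p 356484)) (.b 3 (.b 6 .n (.p 30280)) (.p 29512)))) (.w 4 3 (.b 0 (.b 2 .n (.b 1 (.p 468097) (.b 5 (.b 6 (.b 3 .n (.w 1 3 (.b 0 (.b 2 .n (.b 3 .n (.p 160537))) (.b 4 (.p 460873) (.p 294937))))) (.p 483672)) (.p 86600)))) (.b 3 (.b 6 .n (.p 30280)) (.p 29512))))) (.b 5 (.w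 7 1 (.b 2 (.b 3 (.b 0 .n (.b 5 .n (.b 6 .n (.w 1 3 (.b 8 (.b 2 .n (.b 4 (.b 0 (.b 5 (.b 3 .n (.b 6 (.w 2 3 (.b 0 (.b 1 .n (.b 4 .n (.p 103466))) (.b 3 (.p 591674) (.p 225322)))) (.p 221705))) (.p 479817)) (.p 459337)) (.p 272529))) (.b 0 (.b 5 (.b 6 (.b 4 (.p 553108) (.b 3 .n (.p 276233))) (.p 554521)) (.p 554265)) (.p 552985))))))) (.p 78888)) (.b 0 (.b 3 .n (.p 274696)) (.p 270456)))) (.w 7 1 (.b 2 (.b 3 (.b 5 .n (.p 86663)) (.p 78888)) (.b 0 (.b 3 .n (.p 274696)) (.p 270456)))))) (.p 286983))) (.b 1 (.b 2 .n (.p 213511)) (.p 274695))))) (.w 0 3 (.b 3 (.b 6 (.b 1 (.b 4 .n (.b 5 .n (.b 2 (.w 4 3 (.b 0 (.b 1 .n (.b 2 .n (.p 94792))) (.b 3 (.b 6 (.b 2 .n (.p 9859)) (.p 30280)) (.p 29512)))) (.p 271639)))) c40) (.b 2 (.b 4 .n (.p 410480)) (.p 401523))) (.b 4 (.b 5 c41 (.p 341104))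 (.b 1 (.b 2 (.b 5 (.p 275824) (.b 6 (.p 341095) (.w 5 3 (.b 4 (.b 1 (.b 3 .n (.b 0 (.p 460867) (.b 6 .n (.b 2 (.w 6 3 (.b 4 (.b 1 .n (.p 464969)) (.b 5 (.b 0 (.p 296336) (.b 1 .n (.b 2 .n (.b 3 (.p 131385) (.w 3 3 (.b 0 (.b 2 (.b 6 (.p 616967) (.p 615075)) (.p 532643)) (.b 2 (.b 6 (.b 5 .n (.p 547178)) (.p 615075)) (.b 1 (.b 4 .n (.p 270362)) (.p 131386))))))))) (.p 361577)))) (.w 3 3 (.b 4 (.b 1 .n (.p 464969)) (.b 2 (.b 1 (.b 0 (.p 541584) (.b 5 .n (.b 6 (.p 361577) (.w 6 3 (.b 4 (.b 1 .n (.p 464970)) (.b 3 (.b 2 (.b 1 (.b 5 .n (.p 361578)) (.p 99370)) (.p 468026)) (.p 603242))))))) (.p 99369)) (.p 468025)))))))) (.p 464260)) (.b 3 (.b 2 .n (.p 468024)) (.b 6 (.b 0 (.p 275840) (.b 1 .n (.b 2 (.p 200744) (.w 8 1 (.b 3 (.b 0 (.b 6 (.b 2 (.b 7 .n (.p 94872)) (.p 270488)) (.p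 286985)) (.p 5016)) (.b 0 (.p 274697) (.b 2 (.p 200745) (.b 7 (.p 274809) (.b 5 (.b 6 .n (.p 287065)) (.p 5513)))))))))) (.p 410456))))))) (.p 213511)) (.p 274695))))))

def c43 : Cert := (.b 1 (.b 5 .n (.b 7 (.b 0 (.b 4 .n (.b 6 (.w 4 3 (.b 6 (.b 1 .n (.b 2 .n (.p 98889))) (.b 0 (.b 5 (.p 426133) (.b 3 (.b 7 .n (.p 423225)) (.p 342025))) (.p 34377)))) (.p 410496))) (.b 4 (.b 6 .n (.w 0 3 (.b 6 (.b 2 (.b 3 (.b 4 .n (.p 542352)) (.p 230038)) (.p 532630)) (.b 3 (.b 7 (.b 4 .n (.p 410512)) (.p 423993)) (.b 2 (.b 7 (.b 1 .n (.p 399401)) (.p 231177)) (.p 229897)))))) (.b 6 (.w 5 3 (.b 0 (.b 3 (.b 6 (.b 1 .n (.b 4 (.p 528532) (.b 7 .n (.b 2 (.w 4 3 (.b 0 (.b 3 (.b 6 (.b 1 .n (.p 528548)) (.p 551178)) (.p 538890)) (.b 3 (.b 2 (.b 7 .n (.p 30778)) (.p 10298)) (.p 37706)))) (.w 4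 3 (.b 0 (.b 3 (.b 6 (.b 1 .n (.p 528548)) (.p 551178)) (.p 538890)) (.b 2 (.b 3 (.b 6 (.b 7 .n (.p 30778)) (.p 430122)) (.p 233514)) (.p 590410)))))))) (.p 426896)) (.p 538000)) (.b 2 (.b 1 (.b 3 .n (.b 6 .n (.p 426841))) (.b 3 (.b 6 (.b 7 .n (.p 459065)) (.p 397353)) (.p 200745))) (.b 3 (.p 10297) (.b 6 (.p 10345) (.p 426585)))))) (.w 8 0 (.b 1 (.b 3 .n (.b 4 (.b 2 (.b 7 (.w 5 3 (.b 3 (.b 1 .n (.b 4 (.p 529828) (.b 6 (.b 9 (.b 2 .n (.p 164202)) (.p 299354)) (.p 287066)))) (.b 9 (.b 0 (.p 538016) (.b 6 (.p 538022) (.b 4 (.b 1 .n (.p 4938)) (.p 410458)))) (.p 623450)))) (.p 421929)) (.b 7 (.w 5 3 (.b 2 (.b 3 (.b 1 .n (.b 6 (.b 9 (.b 4 (.p 529828) (.b 7 .n (.b 0 (.w 4 3 (.b 0 (.b 3 (.b 9 (.b 1 .n (.p 528564)) (.p 563723)) (.p 539147)) (.b 3 (.b 2 (.b 7 .n (.p 30779)) (.p 10299))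 (.p 41803)))) (.p 459066)))) (.p 623270)) (.p 399402))) (.b 9 (.b 6 (.p 230054) (.b 1 .n (.p 399402))) (.p 623450))) (.b 9 (.b 0 (.b 3 (.b 6 (.p 532646) (.b 4 (.b 7 .n (.p 423994)) (.p 410122))) (.p 229898)) (.p 10394)) (.p 623194)))) (.w 9 2 (.b 0 (.b 4 (.b 5 (.b 8 (.b 6 (.b 1 .n (.w 5 3 (.b 0 (.b 3 (.b 9 (.b 1 .n (.b 4 (.p 528564) (.b 6 (.b 2 (.b 7 .n (.b 10 .n (.w 4 3 (.b 0 (.b 3 (.b 9 (.b 1 .n (.p 528580)) (.p 563980)) (.p 539404)) (.b 3 (.b 2 (.b 7 .n (.p 30780)) (.p 10300)) (.p 45900)))))) (.p 164203)) (.p 286987)))) (.p 623536)) (.p 538032)) (.b 2 (.b 6 (.b 3 (.b 7 .n (.p 30779)) (.p 230070)) (.b 1 (.b 7 (.b 10 (.b 3 .n (.b 4 (.b 9 .n (.p 623451)) (.p 410459))) (.p 434219)) (.p 421931)) (.p 397355))) (.b 3 (.p 10299) (.b 9 (.p 10395) (.p 623195))))))) (.p 422057))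 (.p 229898)) (.p 217610)) (.p 213514)) (.b 6 (.p 132970) (.b 1 (.b 4 (.b 8 .n (.p 10394)) (.p 270362)) (.p 131482))))))) (.p 410505))) (.b 2 (.p 397353) (.b 3 (.p 131385) (.b 4 (.p 66121) (.p 287113))))))))) (.b 4 (.b 6 .n (.p 423208)) (.p 292120)))) (.b 6 (.b 0 (.b 4 (.b 5 (.b 7 .n (.w 1 3 (.b 3 (.b 0 .n (.b 4 .n (.p 294937))) (.b 2 (.b 7 (.p 536983) (.b 4 .n (.p 475929))) (.p 164633))))) (.p 331908)) (.b 5 (.b 7 (.w 8 1 (.b 3 (.b 0 .n (.b 2 (.b 6 .n (.p 397353)) (.p 131385))) (.b 0 (.p 274697) (.b 2 (.p 200745) (.b 6 (.p 131433) (.b 5 (.p 287065) (.b 7 (.p 200825) (.w 1 3 (.b 9 (.b 2 (.b 7 (.b 0 .n (.b 4 (.p 524708) (.b 3 (.b 6 .n (.p 288922)) (.p 276634)))) (.p 492193)) (.p 166305)) (.b 0 (.b 3 .n (.p 623386)) (.p 622618))))))))))) (.w 8 1 (.b 3 (.b 0 .n (.b 2 (.b 6 (.b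 7 (.b 5 .n (.w 1 3 (.b 4 (.b 0 (.b 5 (.b 9 (.b 2 .n (.p 533665)) (.p 622756)) (.p 360612)) (.p 524708)) (.b 2 (.b 7 (.b 3 (.b 9 .n (.p 563105)) (.p 537722)) (.p 475809)) (.b 0 (.b 3 .n (.p 213514)) (.p 270362)))))) (.p 459065)) (.p 397353)) (.p 131385))) (.b 0 (.p 274697) (.b 2 (.p 200745) (.b 6 (.p 131433) (.b 5 (.p 287065) (.b 7 (.p 200825) (.p 290953))))))))) (.b 7 (.w 8 1 (.b 6 (.b 2 .n (.b 0 (.b 3 (.b 5 (.b 7 .n (.w 4 3 (.b 1 (.b 0 .n (.p 524708)) (.b 0 (.b 5 (.b 6 (.b 9 .n (.p 562596)) (.p 549210)) (.p 331940)) (.b 2 (.b 3 .n (.p 200746)) (.p 66122)))))) (.p 151913)) (.p 274697)) (.p 131433))) (.b 0 (.p 286985) (.b 2 (.p 397353) (.b 3 (.p 131385) (.b 5 (.p 287065) (.p 331913))))))) (.w 8 1 (.b 5 (.b 6 (.b 7 .n (.p 292248)) (.p 287065)) (.b 0 (.b 3 (.b 6 (.b 2 .n (.p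 151913)) (.p 286985)) (.p 274697)) (.p 331913))))))) (.b 7 (.b 4 .n (.b 5 (.w 4 3 (.b 1 (.b 5 (.b 2 .n (.p 533649)) (.p 545172)) (.b 0 (.b 3 .n (.p 536841)) (.b 2 (.b 3 (.b 6 .n (.p 397353)) (.p 200745)) (.p 66121))))) (.w 8 1 (.b 0 (.b 3 (.b 6 (.b 5 (.b 7 .n (.b 2 (.w 4 3 (.b 0 (.b 9 (.b 3 .n (.p 537760)) (.p 561316)) (.b 1 (.b 2 .n (.p 532506)) (.b 2 (.b 3 (.b 6 (.b 7 .n (.p 459066)) (.p 397354)) (.p 200746)) (.p 66122))))) (.w 4 3 (.b 0 (.b 9 (.b 3 .n (.p 537760)) (.p 561316)) (.b 1 (.b 2 (.b 7 (.b 9 (.b 3 .n (.b 6 .n (.b 5 (.p 426842) (.w 5 3 (.b 2 (.b 3 .n (.b 1 (.b 7 (.b 9 (.b 4 (.b 6 .n (.p 426843)) (.p 672603)) (.p 563739)) (.p 492315)) (.p 79915))) (.b 1 (.p 535067) (.b 3 (.p 172347) (.b 0 (.p 536843) (.b 4 (.p 66123) (.p 303451)))))))))) (.p 561178)) (.p 552986))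 (.p 532506)) (.b 2 (.b 3 (.b 6 (.b 7 .n (.p 459066)) (.p 397354)) (.p 200746)) (.p 66122))))))) (.p 331928)) (.p 286985)) (.p 274697)) (.b 2 (.b 3 (.b 6 (.b 7 .n (.p 459065)) (.p 397353)) (.p 200745)) (.p 66185)))))) (.p 459064))) (.p 398210)))

def c44 : Cert := (.b 1 (.w 0 3 (.b 2 (.b 1 .n (.b 4 .n (.b 3 (.b 6 (.b 7 (.b 5 (.w 1 3 (.b 2 (.b 0 .n (.b 4 (.p 524692) (.b 5 .n (.b 6 .n (.b 7 (.b 3 (.w 4 3 (.b 0 (.b 3 .n (.p 604170)) (.b 3 (.b 2 (.b 7 (.b 6 .n (.p 34378)) (.p 31034)) (.p 10554)) (.p 33610)))) (.w 4 3 (.b 1 (.b 2 (.b 0 .n (.p 524708)) (.p 534810)) (.b 2 (.b 3 (.b 6 .n (.p 92202)) (.p 79914)) (.p 102986))))) (.p 421929)))))) (.b 3 (.b 6 .n (.p 165401)) (.p 164633)))) (.w 8 1 (.b 6 (.b 2 .n (.b 0 (.b 3 .n (.p 274697)) (.p 131433))) (.b 0 (.p 286985) (.b 2 (.p 397353)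 (.b 3 (.p 131385) (.b 5 (.p 287065) (.p 331913)))))))) (.p 95272)) (.p 286984)) (.p 274696)))) (.b 4 (.b 3 .n (.b 5 (.b 7 .n (.b 1 (.b 6 (.w 2 3 (.b 3 (.b 0 (.b 6 (.b 1 .n (.p 529298)) (.p 426131)) (.p 524947)) (.b 6 (.b 5 (.b 1 .n (.p 202386)) (.p 219241)) (.b 0 (.b 4 .n (.p 215049)) (.p 426025))))) (.w 8 2 (.b 6 (.b 0 (.b 4 .n (.p 213513)) (.p 132969)) (.b 0 (.b 4 .n (.p 213513)) (.p 422025))))) (.b 6 (.w 8 2 (.b 4 (.b 0 .n (.b 1 (.b 6 (.p 132969) (.b 5 .n (.w 9 0 (.b 2 (.b 1 .n (.p 397354)) (.b 3 (.p 9530) (.b 1 (.b 4 (.b 8 .n (.p 133274)) (.p 270362)) (.p 131482))))))) (.p 66121))) (.b 0 (.p 213513) (.b 1 (.p 270361) (.p 200841))))) (.w 8 2 (.b 6 (.b 0 (.b 4 .n (.p 213513)) (.p 132969)) (.b 0 (.b 4 .n (.p 213513)) (.p 422025))))))) (.p 217608))) (.b 3 (.b 6 (.b 5 (.b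 1 .n (.b 7 (.w 8 1 (.b 2 (.b 3 (.b 6 .n (.p 91177)) (.p 78889)) (.b 0 (.b 3 .n (.p 274697)) (.p 270473)))) (.w 8 1 (.b 2 (.b 3 (.b 6 .n (.p 91177)) (.p 78889)) (.b 0 (.b 3 .n (.p 274697)) (.p 270473)))))) (.p 337000)) (.p 410120)) (.p 213512))))) (.w 3 3 (.b 2 c43 (.b 0 (.b 6 (.b 5 (.b 1 .n (.b 4 (.b 7 .n (.w 7 3 (.b 2 (.b 6 (.b 3 (.b 4 .n (.b 1 (.p 541329) (.b 5 .n (.b 0 (.w 1 3 (.b 2 (.b 3 (.b 6 (.b 4 .n (.p 541345)) (.p 551210)) (.p 538922)) (.b 3 (.b 5 .n (.p 599322)) (.p 168730)))) (.w 1 3 (.b 2 (.b 3 (.b 6 (.b 4 .n (.p 541345)) (.p 551210)) (.p 538922)) (.b 0 (.b 3 (.b 6 (.b 5 .n (.p 599322)) (.p 430602)) (.p 233994)) (.p 598042)))))))) (.p 231058)) (.p 550802)) (.b 0 (.b 4 (.b 3 .n (.b 5 (.b 6 .n (.p 231033)) (.p 217609))) (.b 3 (.b 6 (.b 5 .n (.p 337001)) (.p 410121))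 (.p 213513))) (.b 3 (.p 133177) (.p 229497)))))) (.b 7 (.w 1 3 (.b 4 (.b 0 (.b 5 (.b 7 .n (.p 554129)) (.p 360596)) (.p 524692)) (.b 2 (.b 3 (.b 6 .n (.p 549929)) (.p 537641)) (.b 0 (.b 3 .n (.p 213513)) (.p 270361))))) (.w 8 1 (.b 2 (.b 3 (.b 6 (.b 7 (.b 5 .n (.b 0 (.w 1 3 (.b 2 (.b 3 (.b 6 (.b 9 .n (.p 561825)) (.p 549282)) (.p 536994)) (.b 4 (.b 0 .n (.p 524874)) (.b 0 (.b 3 (.b 6 (.b 5 .n (.p 271642)) (.p 410122)) (.p 213514)) (.p 270362))))) (.w 1 3 (.b 2 (.b 3 (.b 6 (.b 9 .n (.p 561825)) (.p 549282)) (.p 536994)) (.b 4 (.b 0 (.b 5 (.b 9 (.b 3 .n (.b 7 (.p 536999) (.b 6 .n (.w 7 3 (.b 0 (.b 3 .n (.b 4 (.b 5 (.b 9 (.b 6 .n (.p 231035)) (.p 236043)) (.p 219659)) (.p 276491))) (.b 3 (.p 657467) (.p 229499))))))) (.p 561738)) (.p 545354)) (.p 524874)) (.b 0 (.b 3 (.b 6 (.b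 5 .n (.p 271642)) (.p 410122)) (.p 213514)) (.p 270362))))))) (.p 475800)) (.p 91177)) (.p 78889)) (.b 0 (.b 3 (.b 6 (.b 5 .n (.p 151913)) (.p 286985)) (.p 274697)) (.p 270473))))))) (.p 336006)) (.b 4 (.b 7 .n (.p 422019)) (.p 410120))) (.b 1 (.b 4 (.b 5 .n (.p 9528)) (.p 270360)) (.p 131384))))))

def c45 : Cert := (.b 1 (.b 2 c42 (.b 3 (.p 9526) (.w 6 2 (.b 0 (.b 4 (.b 5 c44 (.p 217607)) (.p 213511)) (.b 1 (.b 4 (.b 5 (.p 9590) (.w 0 3 (.b 2 (.b 1 .n (.b 4 .n (.b 3 (.b 6 (.b 7 (.b 5 (.w 4 3 (.b 0 (.b 5 (.b 2 .n (.b 1 (.p 533649) (.b 3 .n (.b 6 (.b 7 .n (.p 485634)) (.b 7 (.p 424194) (.w 1 3 (.b 4 (.b 0 (.b 5 (.b 2 .n (.p 533665)) (.p 547146)) (.p 526666)) (.b 0 (.b 3 .n (.p 276490)) (.p 299034))))))))) (.p 360596)) (.b 3 (.b 6 (.b 7 .n (.p 34633)) (.p 34377)) (.p 33609))))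 (.w 4 3 (.b 5 (.b 6 (.b 7 .n (.p 554133)) (.p 550037)) (.b 2 (.b 0 .n (.b 3 (.b 6 (.b 7 .n (.p 34633)) (.p 34377)) (.p 33609))) (.b 1 (.p 533785) (.p 86601)))))) (.p 291080)) (.p 286984)) (.p 274696)))) (.b 4 (.b 3 .n (.b 5 (.b 6 (.b 7 .n (.p 485378)) (.b 7 (.p 423938) (.b 1 (.w 3 3 (.b 2 (.b 0 (.b 1 .n (.p 529298)) (.p 524947)) (.b 5 (.b 1 .n (.b 0 (.b 4 .n (.b 6 (.b 7 (.w 2 3 (.b 0 (.b 1 .n (.b 4 .n (.p 99370))) (.b 3 (.p 526650) (.p 233514)))) (.p 291081)) (.p 286985))) (.p 131385))) (.b 0 (.b 6 (.p 336022) (.b 4 .n (.p 410121))) (.p 9529))))) (.w 8 2 (.b 4 (.b 0 .n (.b 1 (.b 6 (.p 133270) (.b 5 .n (.w 9 0 (.b 2 (.b 1 .n (.p 397354)) (.b 3 (.p 9530) (.b 1 (.b 4 (.b 8 .n (.p 133274)) (.p 270362)) (.p 131482))))))) (.p 66121))) (.b 0 (.p 213513) (.b 1 (.p 270361) (.p 200841))))))))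 (.p 217608))) (.b 3 (.b 6 (.b 7 (.b 5 (.b 1 .n (.w 8 1 (.b 2 (.b 3 (.b 6 (.b 7 .n (.p 95273)) (.p 91177)) (.p 78889)) (.b 0 (.b 3 .n (.p 274697)) (.p 270473))))) (.p 337000)) (.p 475656)) (.p 410120)) (.p 213512)))))) (.p 270359)) (.p 131431)))))) (.b 2 (.b 3 (.w 1 3 (.b 0 (.b 2 .n (.b 3 .n (.b 4 (.b 5 (.b 6 (.w 2 3 (.b 1 (.b 0 .n (.b 3 (.p 459395) (.b 5 .n (.b 4 (.b 6 .n (.p 411664)) (.b 6 (.p 288784) (.w 3 3 (.b 1 (.b 0 .n (.b 4 (.b 5 .n (.p 30009)) (.p 29753))) (.b 2 (.p 464937) (.p 164153))))))))) (.b 4 (.b 6 .n (.p 95784)) (.p 95272)))) (.p 221703)) (.p 217607)) (.p 213511)))) (.b 4 (.b 6 (.b 2 .n (.b 3 .n (.b 5 (.w 7 2 (.b 0 (.b 4 (.b 5 (.b 6 .n (.p 221704)) (.p 217608)) (.p 213512)) (.b 1 (.b 4 (.b 6 .n (.p 401432)) (.p 270360)) (.p 131448)))) (.w 7 2 (.b 0 (.b 4 (.b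 5 (.b 6 .n (.p 221704)) (.p 217608)) (.p 213512)) (.b 1 (.b 4 (.b 6 .n (.p 401432)) (.p 270360)) (.p 131448))))))) (.p 411408)) (.b 2 (.b 6 (.p 288528) (.b 5 .n (.b 3 (.w 7 0 (.b 1 (.b 2 .n (.p 401432)) (.b 4 (.p 6020) (.b 2 (.b 3 (.w 0 3 (.b 1 (.b 2 .n (.b 3 .n (.p 225801))) (.b 8 (.b 5 (.b 4 (.p 462996) (.b 3 .n (.p 274697))) (.p 333705)) (.p 553225)))) (.p 200744)) (.b 3 (.p 131384) (.w 0 3 (.b 8 (.b 3 (.b 1 .n (.b 5 (.b 4 (.p 462996) (.b 2 (.b 6 (.p 462998) (.w 8 2 (.b 0 (.b 4 (.b 5 (.b 6 .n (.p 221706)) (.p 217610)) (.p 213514)) (.b 7 (.b 9 .n (.p 37754)) (.p 10122))))) (.p 272265))) (.p 333705))) (.p 227472)) (.b 1 (.b 2 .n (.p 553481)) (.p 553225))))))))) (.w 7 0 (.b 1 (.b 2 .n (.p 401432)) (.b 3 (.b 2 (.b 4 (.p 6020) (.w 8 1 (.b 0 (.b 3 .n (.p 274697)) (.b 2 (.b 3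 (.b 7 .n (.p 6025)) (.p 200745)) (.p 66185))))) (.p 131384)) (.p 405880))))))) (.p 270359))))) (.p 200742)) (.p 66118)))

def c46 : Cert := (.b 2 (.w 0 3 (.b 1 (.b 2 .n (.b 3 .n (.b 4 (.b 5 (.b 6 (.b 7 (.w 2 3 (.b 1 (.b 0 .n (.b 3 (.p 524947) (.b 5 .n (.b 7 (.b 6 .n (.b 4 (.w 3 3 (.b 0 (.b 4 .n (.p 608266)) (.b 4 (.b 5 .n (.p 34106)) (.p 33850)))) (.w 3 3 (.b 1 (.b 0 .n (.b 4 (.b 5 .n (.p 34106)) (.p 33850))) (.b 2 (.p 530730) (.p 168250)))))) (.p 356377))))) (.b 4 (.b 5 .n (.p 99625)) (.p 99369)))) (.p 160536)) (.p 221704)) (.p 217608)) (.p 213512)))) (.b 5 (.b 6 (.b 3 (.b 4 .n (.b 7 .n (.b 2 (.w 1 3 (.b 4 (.b 0 (.b 5 (.b 2 .n (.p 533649)) (.p 360596)) (.p 524692)) (.b 5 (.b 6 (.b 2 .n (.p 271761)) (.p 288857)) (.b 0 (.b 3 .n (.p 276489)) (.p 360473))))) (.w 1 3 (.b 5 (.b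 2 .n (.b 4 (.b 0 (.b 7 (.b 3 .n (.b 6 (.w 2 3 (.b 1 (.b 5 .n (.p 547098)) (.b 4 (.b 5 .n (.p 103722)) (.p 103466)))) (.p 221705))) (.p 468113)) (.p 524873)) (.p 271761))) (.b 0 (.b 6 (.b 4 (.p 360596) (.b 3 .n (.p 276489))) (.p 362009)) (.p 360473))))))) (.b 4 (.b 2 .n (.b 7 (.w 8 2 (.b 1 (.b 4 (.b 5 .n (.p 152345)) (.p 148249)) (.b 0 (.b 4 .n (.p 274697)) (.p 200841)))) (.w 8 2 (.b 1 (.b 4 (.b 5 .n (.p 152345)) (.p 148249)) (.b 0 (.b 4 .n (.p 274697)) (.p 200841)))))) (.p 274696))) (.p 397445)) (.b 3 (.b 4 .n (.b 6 (.b 7 .n (.b 2 (.w 8 1 (.b 5 (.b 0 (.b 3 .n (.p 274697)) (.p 67417)) (.b 0 (.b 3 .n (.p 274697)) (.p 356489)))) (.w 8 1 (.b 5 (.b 0 (.b 3 .n (.p 274697)) (.p 67417)) (.b 0 (.b 3 .n (.p 274697)) (.p 356489)))))) (.p 286984))) (.p 340232))))) (.w 0 3 (.b 5 (.b 3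 (.b 1 .n (.b 6 (.b 4 .n (.b 7 .n (.b 2 (.w 1 3 (.b 4 (.b 0 (.b 5 (.b 2 .n (.p 533649)) (.p 360596)) (.p 524692)) (.b 5 (.b 6 (.b 2 .n (.p 271761)) (.p 288857)) (.b 0 (.b 3 .n (.p 276489)) (.p 360473))))) (.w 8 1 (.b 3 (.b 0 .n (.b 2 (.b 5 (.p 67417) (.b 6 .n (.w 9 0 (.b 1 (.b 2 .n (.p 335898)) (.b 4 (.p 5706) (.b 2 (.b 3 (.b 8 .n (.p 67738)) (.p 200746)) (.p 66202))))))) (.p 131385))) (.b 0 (.p 274697) (.b 2 (.p 200745) (.p 270473)))))))) (.p 397445))) (.b 4 (.b 6 (.b 2 .n (.b 1 (.b 7 (.w 2 3 (.b 1 (.b 7 (.b 0 .n (.b 3 (.p 524947) (.b 5 .n (.b 6 .n (.b 4 (.w 3 3 (.b 2 (.b 1 (.b 7 (.b 0 .n (.p 524963)) (.p 555306)) (.p 530730)) (.b 1 (.b 4 (.b 5 .n (.p 153626)) (.p 149530)) (.p 168250)))) (.w 3 3 (.b 2 (.b 1 (.b 7 (.b 0 .n (.p 524963)) (.p 555306)) (.p 530730)) (.b 1 (.b 4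 (.b 5 .n (.p 153626)) (.p 149530)) (.p 168250))))))))) (.p 491922)) (.b 4 (.b 5 .n (.p 99625)) (.p 99369)))) (.w 8 2 (.b 4 (.b 0 .n (.b 1 (.b 5 .n (.p 335897)) (.p 66121))) (.b 0 (.p 213513) (.b 1 (.p 270361) (.b 5 (.p 66137) (.b 7 (.p 270457) (.p 225417)))))))) (.b 7 (.w 2 3 (.b 1 (.b 4 (.b 5 .n (.p 545425)) (.p 541329)) (.b 3 (.b 0 (.b 7 .n (.p 553874)) (.p 524601)) (.b 0 (.b 4 .n (.p 274697)) (.p 200745))))) (.w 8 2 (.b 1 (.b 4 (.b 5 .n (.p 152345)) (.p 148249)) (.b 0 (.b 4 .n (.p 274697)) (.p 200841))))))) (.p 406912)) (.p 275840))) (.b 3 (.b 1 .n (.b 4 .n (.b 6 (.b 7 .n (.b 2 (.w 8 1 (.b 5 (.b 0 (.b 3 .n (.p 274697)) (.p 67417)) (.b 0 (.b 3 .n (.p 274697)) (.p 356489)))) (.w 8 1 (.b 5 (.b 0 (.b 3 .n (.p 274697)) (.p 67417)) (.b 0 (.b 3 .n (.p 274697)) (.p 356489))))))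 (.p 286984)))) (.b 1 (.b 2 .n (.p 217608)) (.p 340232))))))

def c47 : Cert := (.b 2 (.b 6 .n (.b 7 (.b 0 (.b 3 .n (.b 5 (.w 3 3 (.b 5 (.b 1 .n (.b 2 .n (.p 164153))) (.b 0 (.b 6 (.p 360598) (.b 4 (.b 2 .n (.p 402745)) (.p 411657))) (.p 34105)))) (.p 341120))) (.b 3 (.b 5 .n (.w 0 3 (.b 5 (.b 1 (.b 4 (.b 3 .n (.p 538000)) (.p 295317)) (.p 528533)) (.b 4 (.b 7 (.b 3 .n (.p 341136)) (.p 358473)) (.b 1 (.b 7 (.b 2 .n (.p 337945)) (.p 296713)) (.p 295177)))))) (.b 5 (.w 6 3 (.b 0 (.b 4 (.b 5 (.b 2 .n (.b 3 (.p 532627) (.b 7 .n (.b 1 (.w 3 3 (.b 0 (.b 4 (.b 5 (.b 2 .n (.p 532643)) (.p 547082)) (.p 542986)) (.b 4 (.b 5 (.b 7 .n (.p 591674)) (.p 38202)) (.p 37946)))) (.w 3 3 (.b 0 (.b 4 (.b 5 (.b 2 .n (.p 532643)) (.p 547082)) (.p 542986)) (.b 1 (.b 4 (.b 5 (.b 7 .n (.p 591674))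 (.p 364570)) (.p 299034)) (.p 590138)))))))) (.p 361616)) (.p 542352)) (.b 1 (.b 2 (.b 4 .n (.b 5 .n (.p 361577))) (.b 4 (.b 5 (.b 7 .n (.p 459337)) (.p 335897)) (.p 270361))) (.b 4 (.p 6217) (.b 5 (.p 6233) (.p 360809)))))) (.w 8 0 (.b 2 (.b 4 .n (.b 3 (.b 1 (.b 7 (.w 6 3 (.b 4 (.b 1 .n (.b 0 (.b 5 (.p 528549) (.b 3 (.b 2 .n (.p 164154)) (.p 340234))) (.p 6218))) (.b 9 (.b 0 (.p 542368) (.b 5 (.p 542373) (.b 3 (.b 2 .n (.p 9274)) (.p 341098)))) (.p 623722)))) (.p 356377)) (.b 7 (.w 6 3 (.b 1 (.b 4 (.b 2 .n (.b 5 (.b 9 (.b 3 (.p 534179) (.b 7 .n (.b 0 (.w 3 3 (.b 0 (.b 4 (.b 9 (.b 2 .n (.p 532659)) (.p 563723)) (.p 543243)) (.b 4 (.b 5 (.b 7 .n (.p 657211)) (.p 42299)) (.p 42043)))) (.p 459338)))) (.p 623013)) (.p 337946))) (.b 9 (.b 5 (.p 295333) (.b 2 .n (.p 337946))) (.p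 623722))) (.b 9 (.b 0 (.b 4 (.b 5 (.p 528549) (.b 3 (.b 2 .n (.p 164154)) (.p 340234))) (.p 295178)) (.p 6298)) (.p 622954)))) (.w 9 1 (.b 0 (.b 3 (.b 6 (.b 8 (.b 5 (.b 2 .n (.w 6 3 (.b 0 (.b 4 (.b 9 (.b 2 .n (.b 3 (.p 532659) (.b 5 (.b 1 (.b 7 .n (.b 10 .n (.w 3 3 (.b 0 (.b 4 (.b 9 (.b 2 .n (.p 532675)) (.p 563980)) (.p 543500)) (.b 4 (.b 5 (.b 7 .n (.p 722748)) (.p 46396)) (.p 46140)))))) (.p 98907)) (.p 217611)))) (.p 623792)) (.p 542384)) (.b 1 (.b 5 (.b 4 (.b 7 .n (.p 30795)) (.p 295349)) (.b 2 (.b 7 (.b 10 (.b 4 .n (.b 3 (.b 9 .n (.p 623723)) (.p 341099))) (.p 368667)) (.p 356379)) (.p 335899))) (.b 4 (.p 6219) (.b 9 (.p 6299) (.p 622955))))))) (.p 356521)) (.p 295178)) (.p 286986)) (.p 274698)) (.b 5 (.p 67418) (.b 2 (.b 3 (.b 8 .n (.p 6298)) (.p 200746)) (.p 66202)))))))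 (.p 341129))) (.b 1 (.p 335897) (.b 3 (.p 131385) (.p 340361)))))))) (.b 5 (.b 3 .n (.p 226856)) (.p 357912)))) (.b 5 (.b 0 (.b 3 (.b 6 (.b 7 .n (.w 2 3 (.b 4 (.b 0 .n (.b 3 .n (.p 229417))) (.b 1 (.b 7 (.p 295319) (.b 5 (.b 3 .n (.p 472105)) (.p 481305))) (.p 99369))))) (.p 401539)) (.b 6 (.b 7 (.w 8 2 (.b 4 (.b 0 .n (.b 1 (.b 5 .n (.p 335897)) (.p 66121))) (.b 0 (.p 213513) (.b 1 (.p 270361) (.b 5 (.p 66137) (.b 6 (.p 340329) (.b 7 (.p 270457) (.w 2 3 (.b 9 (.b 1 (.b 7 (.b 0 .n (.b 3 (.p 524963) (.b 4 (.b 5 .n (.p 219290)) (.p 215194)))) (.p 491938)) (.p 100770)) (.b 0 (.b 4 .n (.p 623658)) (.p 622634))))))))))) (.w 8 2 (.b 4 (.b 0 .n (.b 1 (.b 5 (.b 7 (.b 6 .n (.w 2 3 (.b 3 (.b 0 (.b 6 (.b 9 (.b 1 .n (.p 529314)) (.p 622755)) (.p 426147)) (.p 524963)) (.b 1 (.b 7 (.b 4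 (.b 9 .n (.p 563106)) (.p 541562)) (.p 471458)) (.b 0 (.b 4 .n (.p 274698)) (.p 200746)))))) (.p 459337)) (.p 335897)) (.p 66121))) (.b 0 (.p 213513) (.b 1 (.p 270361) (.b 5 (.p 66137) (.b 6 (.p 340329) (.b 7 (.p 270457) (.p 225417))))))))) (.b 7 (.w 8 2 (.b 5 (.b 1 .n (.b 0 (.b 4 (.b 6 (.b 7 .n (.w 3 3 (.b 2 (.b 0 .n (.p 524963)) (.b 0 (.b 6 (.b 5 (.b 9 .n (.p 562851)) (.p 545386)) (.p 401571)) (.b 1 (.b 4 .n (.p 270362)) (.p 131386)))))) (.p 90713)) (.p 274697)) (.p 66137))) (.b 0 (.p 217609) (.b 1 (.p 335897) (.b 4 (.p 66121) (.b 6 (.p 340329) (.p 401545))))))) (.w 8 2 (.b 6 (.b 5 (.b 7 .n (.p 226968)) (.p 217705)) (.b 0 (.b 4 (.b 5 (.b 1 .n (.p 90713)) (.p 217609)) (.p 213513)) (.p 401545))))))) (.b 7 (.b 3 .n (.b 6 (.w 3 3 (.b 2 (.b 6 (.b 1 .n (.p 529298)) (.p 549523))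 (.b 0 (.b 4 .n (.p 541193)) (.b 1 (.b 4 (.b 5 .n (.p 335897)) (.p 270361)) (.p 131385))))) (.w 8 2 (.b 0 (.b 4 (.b 5 (.b 6 (.b 7 .n (.b 1 (.w 3 3 (.b 0 (.b 9 (.b 4 .n (.p 541600)) (.p 561315)) (.b 2 (.b 1 .n (.p 528426)) (.b 1 (.b 4 (.b 5 (.b 7 .n (.p 132922)) (.p 335898)) (.p 270362)) (.p 131386))))) (.w 3 3 (.b 0 (.b 9 (.b 4 .n (.p 541600)) (.p 561315)) (.b 2 (.b 1 (.b 7 (.b 9 (.b 4 .n (.b 5 .n (.b 6 (.p 361578) (.w 6 3 (.b 1 (.b 4 .n (.b 2 (.b 9 (.b 7 (.b 3 (.b 5 .n (.p 361579)) (.p 668779)) (.p 492587)) (.p 301595)) (.p 149531))) (.b 2 (.p 530987) (.b 4 (.p 107083) (.b 0 (.p 295179) (.b 3 (.p 131387) (.p 238187)))))))))) (.p 561194)) (.p 553002)) (.p 528426)) (.b 1 (.b 4 (.b 5 (.b 7 .n (.p 132922)) (.p 335898)) (.p 270362)) (.p 131386))))))) (.p 401560)) (.p 217609))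 (.p 213513)) (.b 1 (.b 4 (.b 5 (.b 7 .n (.p 459337)) (.p 335897)) (.p 270361)) (.p 131465)))))) (.p 459336))) (.p 337025)))

def c48 : Cert := (.b 2 (.w 0 3 (.b 1 (.b 2 .n (.b 3 .n (.b 4 (.b 5 (.b 7 (.b 6 (.w 2 3 (.b 1 (.b 0 .n (.b 3 (.p 524947) (.b 5 .n (.b 7 (.b 6 (.p 219241) (.b 4 (.w 3 3 (.b 0 (.b 4 .n (.p 608266)) (.b 4 (.b 5 .n (.p 34106)) (.p 33850)))) (.w 3 3 (.b 2 (.b 1 (.b 0 .n (.p 524963)) (.p 530730)) (.b 1 (.b 4 (.b 5 .n (.p 153626)) (.p 149530)) (.p 168250)))))) (.p 356377))))) (.b 4 (.b 5 .n (.p 99625)) (.p 99369)))) (.w 8 2 (.b 5 (.b 1 .n (.b 0 (.b 4 .n (.p 274697)) (.p 66137))) (.b 0 (.p 217609) (.b 1 (.p 335897) (.b 4 (.p 66121) (.b 6 (.p 340329) (.p 401545)))))))) (.p 160536)) (.p 217608)) (.p 213512)))) (.b 3 (.b 4 .n (.b 6 (.b 7 .n (.b 2 (.b 5 (.w 1 3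 (.b 4 (.b 0 (.b 5 (.b 2 .n (.p 533649)) (.p 360596)) (.p 524692)) (.b 5 (.b 6 (.b 2 .n (.p 271761)) (.p 288857)) (.b 0 (.b 3 .n (.p 276489)) (.p 360473))))) (.w 8 1 (.b 5 (.b 0 (.b 3 .n (.p 274697)) (.p 67417)) (.b 0 (.b 3 .n (.p 274697)) (.p 356489))))) (.b 5 (.w 8 1 (.b 3 (.b 0 .n (.b 2 (.b 5 (.p 67417) (.b 6 .n (.w 9 0 (.b 1 (.b 2 .n (.p 335898)) (.b 4 (.p 5706) (.b 2 (.b 3 (.b 8 .n (.p 67738)) (.p 200746)) (.p 66202))))))) (.p 131385))) (.b 0 (.p 274697) (.b 2 (.p 200745) (.p 270473))))) (.w 8 1 (.b 5 (.b 0 (.b 3 .n (.p 274697)) (.p 67417)) (.b 0 (.b 3 .n (.p 274697)) (.p 356489))))))) (.p 286984))) (.b 4 (.b 5 (.b 6 (.b 2 .n (.b 7 (.w 8 2 (.b 1 (.b 4 (.b 5 .n (.p 152345)) (.p 148249)) (.b 0 (.b 4 .n (.p 274697)) (.p 200841)))) (.w 8 2 (.b 1 (.b 4 (.b 5 .n (.p 152345))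 (.p 148249)) (.b 0 (.b 4 .n (.p 274697)) (.p 200841)))))) (.p 398168)) (.p 340232)) (.p 274696))))) (.w 4 3 (.b 1 c47 (.b 0 (.b 5 (.b 6 (.b 2 .n (.b 3 (.b 7 .n (.w 7 3 (.b 1 (.b 5 (.b 4 (.b 3 .n (.b 2 (.p 536978) (.b 6 .n (.b 0 (.w 2 3 (.b 1 (.b 4 (.b 5 (.b 3 .n (.p 536994)) (.p 547098)) (.p 543002)) (.b 4 (.b 5 (.b 6 .n (.p 595498)) (.p 103722)) (.p 103466)))) (.w 2 3 (.b 1 (.b 4 (.b 5 (.b 3 .n (.p 536994)) (.p 547098)) (.p 543002)) (.b 0 (.b 4 (.b 5 (.b 6 .n (.p 595498)) (.p 364810)) (.p 299274)) (.p 593962)))))))) (.p 296337)) (.p 546705)) (.b 0 (.b 3 (.b 4 .n (.b 6 (.b 5 .n (.p 296313)) (.p 286985))) (.b 4 (.b 5 (.b 6 .n (.p 398169)) (.p 340233)) (.p 274697))) (.b 4 (.p 67657) (.p 295033)))))) (.b 7 (.w 2 3 (.b 3 (.b 0 (.b 6 (.b 7 .n (.p 553874)) (.p 426131)) (.p 524947))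 (.b 1 (.b 4 (.b 5 .n (.p 545561)) (.p 541465)) (.b 0 (.b 4 .n (.p 274697)) (.p 200745))))) (.w 8 2 (.b 1 (.b 4 (.b 5 (.b 7 (.b 6 .n (.b 0 (.w 2 3 (.b 1 (.b 9 (.b 4 .n (.p 541345)) (.p 561570)) (.b 3 (.b 0 .n (.p 524602)) (.b 0 (.b 4 (.b 5 (.b 6 .n (.p 202282)) (.p 340234)) (.p 274698)) (.p 200746))))) (.w 2 3 (.b 1 (.b 9 (.b 4 .n (.p 541345)) (.p 561570)) (.b 3 (.b 0 (.b 6 (.b 9 (.b 4 .n (.b 7 (.p 541351) (.b 5 .n (.w 7 3 (.b 0 (.b 4 .n (.b 3 (.b 6 (.b 9 (.b 5 .n (.p 296315)) (.p 301579)) (.p 289291)) (.p 215051))) (.b 3 (.p 526907) (.b 4 (.p 41803) (.p 295035)))))))) (.p 561466)) (.p 549178)) (.p 524602)) (.b 0 (.b 4 (.b 5 (.b 6 .n (.p 202282)) (.p 340234)) (.p 274698)) (.p 200746))))))) (.p 471448)) (.p 152345)) (.p 148249)) (.b 0 (.b 4 (.b 5 (.b 6 .n (.p 90713)) (.p 340233))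 (.p 274697)) (.p 200841))))))) (.p 397445)) (.b 3 (.b 7 .n (.p 356484)) (.p 340232))) (.b 2 (.b 3 (.b 6 .n (.p 5704)) (.p 200744)) (.p 66120))))))

def c49 : Cert := (.b 3 (.w 5 1 (.b 0 (.b 3 (.b 6 c46 (.p 286983)) (.p 274695)) (.b 2 (.b 3 (.b 6 (.p 5749) (.w 0 3 (.b 1 (.b 2 .n (.b 3 .n (.b 4 (.b 5 (.b 6 (.b 7 (.w 3 3 (.b 0 (.b 1 .n (.b 2 (.p 529298) (.b 4 .n (.b 6 (.b 5 (.b 7 .n (.p 481537)) (.b 7 (.p 358657) (.w 2 3 (.b 0 (.b 1 .n (.b 4 .n (.p 99370))) (.b 3 (.p 526650) (.p 233514)))))) (.p 286985))))) (.b 4 (.b 5 (.b 6 .n (.p 34361)) (.p 34105)) (.p 33849)))) (.p 225800)) (.p 221704)) (.p 217608)) (.p 213512)))) (.b 5 (.b 6 (.b 7 (.b 2 .n (.b 3 .n (.b 4 (.w 8 2 (.b 1 (.b 4 (.b 5 (.b 7 .n (.p 160537)) (.p 152345)) (.p 148249)) (.b 0 (.b 4 .n (.p 274697)) (.p 200841))))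 (.p 274696)))) (.p 481281)) (.p 397445)) (.b 3 (.b 7 (.p 358401) (.b 4 .n (.b 6 (.b 2 (.w 4 3 (.b 0 (.b 2 .n (.b 1 (.p 533649) (.b 3 .n (.b 5 (.b 7 (.b 6 (.w 1 3 (.b 0 (.b 2 .n (.b 3 .n (.p 164634))) (.b 4 (.p 526666) (.p 299034)))) (.p 221705)) (.p 471305)) (.p 340233))))) (.b 3 (.b 6 .n (.p 34377)) (.p 33609)))) (.w 8 1 (.b 2 (.b 3 (.b 0 .n (.b 5 (.p 67733) (.b 6 .n (.w 9 0 (.b 1 (.b 2 .n (.p 335898)) (.b 4 (.p 5706) (.b 2 (.b 3 (.b 8 .n (.p 67738)) (.p 200746)) (.p 66202)))))))) (.p 78889)) (.b 0 (.b 3 .n (.p 274697)) (.p 270473))))) (.p 286984)))) (.p 340232)))))) (.p 200743)) (.p 66135)))) (.w 5 1 (.b 0 (.b 3 (.b 6 c48 (.p 286983)) (.p 274695)) (.b 2 (.b 3 (.b 6 (.p 5749) (.w 0 3 (.b 1 (.b 2 .n (.b 3 .n (.b 4 (.b 5 (.b 7 (.b 6 (.w 3 3 (.b 0 (.b 6 (.b 1 .n (.b 2 (.p 529298)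 (.b 4 .n (.b 5 (.b 7 .n (.p 481537)) (.b 7 (.p 358657) (.w 2 3 (.b 3 (.b 0 (.b 6 (.b 1 .n (.p 529314)) (.p 551226)) (.p 526650)) (.b 0 (.b 4 .n (.p 215050)) (.p 233514))))))))) (.p 426131)) (.b 4 (.b 5 (.b 7 .n (.p 34617)) (.p 34105)) (.p 33849)))) (.w 3 3 (.b 6 (.b 5 (.b 7 .n (.p 553878)) (.p 545686)) (.b 1 (.b 0 .n (.b 4 (.b 5 (.b 7 .n (.p 34617)) (.p 34105)) (.p 33849))) (.b 2 (.p 529961) (.p 155961)))))) (.p 225800)) (.p 217608)) (.p 213512)))) (.b 3 (.b 4 .n (.b 6 (.b 5 (.b 7 .n (.p 481281)) (.b 7 (.p 358401) (.b 2 (.w 4 3 (.b 1 (.b 0 (.b 2 .n (.p 533649)) (.p 524692)) (.b 6 (.b 2 .n (.b 0 (.b 3 .n (.b 5 (.b 7 (.w 1 3 (.b 0 (.b 2 .n (.b 3 .n (.p 164634))) (.b 4 (.p 526666) (.p 299034)))) (.p 471305)) (.p 340233))) (.p 66121))) (.b 0 (.b 5 (.p 397461) (.b 3 .n (.p 340233)))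 (.p 5705))))) (.w 8 1 (.b 3 (.b 0 .n (.b 2 (.b 5 (.p 67733) (.b 6 .n (.w 9 0 (.b 1 (.b 2 .n (.p 335898)) (.b 4 (.p 5706) (.b 2 (.b 3 (.b 8 .n (.p 67738)) (.p 200746)) (.p 66202))))))) (.p 131385))) (.b 0 (.p 274697) (.b 2 (.p 200745) (.p 270473)))))))) (.p 286984))) (.b 4 (.b 5 (.b 7 (.b 6 (.b 2 .n (.w 8 2 (.b 1 (.b 4 (.b 5 (.b 7 .n (.p 160537)) (.p 152345)) (.p 148249)) (.b 0 (.b 4 .n (.p 274697)) (.p 200841))))) (.p 398168)) (.p 471304)) (.p 340232)) (.p 274696)))))) (.p 200743)) (.p 66135)))))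

def c50 : Cert := (.b 2 (.w 1 3 (.b 0 (.b 2 .n (.b 3 .n (.b 4 (.b 5 (.b 6 (.b 7 (.w 2 3 (.b 1 (.b 0 .n (.b 3 (.p 524947) (.b 5 .n (.b 7 (.b 4 (.b 6 .n (.p 411920)) (.b 6 (.p 289040) (.w 3 3 (.b 1 (.b 0 .n (.b 4 (.b 5 .n (.p 34106)) (.p 33850))) (.b 2 (.p 530730) (.p 168250)))))) (.p 356377))))) (.b 4 (.b 5 (.b 6 .n (.p 99881)) (.p 99625)) (.p 99369)))) (.p 160536)) (.p 221704)) (.p 217608)) (.p 213512)))) (.b 4 (.b 7 (.b 6 (.b 2 .n (.b 5 (.b 3 .n (.w 8 2 (.b 0 (.b 4 (.b 5 (.b 6 .n (.p 221705)) (.p 217609)) (.p 213513)) (.b 1 (.b 4 (.b 5 .n (.p 335897)) (.p 270361)) (.p 131465))))) (.p 335896))) (.p 411664)) (.p 459140)) (.b 2 (.b 6 (.p 288784) (.b 5 .n (.b 7 (.b 3 (.w 5 3 (.b 1 (.b 2 .n (.b 4 (.b 6 (.b 7 (.b 3 .n (.b 0 (.p 229897) (.w 0 3 (.b 1 (.b 2 .n (.b 4 (.b 5 (.b 6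 (.b 3 .n (.p 229898)) (.p 614922)) (.p 610826)) (.p 606730))) (.b 4 (.p 530762) (.p 299274)))))) (.p 491924)) (.p 403481)) (.p 272409))) (.b 2 (.b 7 .n (.p 100185)) (.p 98905)))) (.w 8 0 (.b 3 (.b 2 (.b 1 .n (.b 4 (.p 6292) (.b 7 .n (.w 9 1 (.b 0 (.b 3 .n (.p 274698)) (.b 5 (.p 67418) (.b 2 (.b 3 (.b 8 .n (.p 6298)) (.p 200746)) (.p 66202)))))))) (.p 9529)) (.b 1 (.b 2 .n (.p 335897)) (.p 340361))))) (.p 356376)))) (.p 270360))))) (.w 1 3 (.b 0 (.b 2 .n (.b 3 .n (.b 4 (.b 5 (.b 6 (.b 7 (.w 2 3 (.b 1 (.b 7 (.b 0 .n (.b 3 (.p 524947) (.b 5 .n (.b 4 (.b 6 .n (.p 411920)) (.b 6 (.p 289040) (.w 3 3 (.b 2 (.b 1 (.b 7 (.b 0 .n (.p 524963)) (.p 555306)) (.p 530730)) (.b 1 (.b 4 (.b 5 .n (.p 153626)) (.p 149530)) (.p 168250))))))))) (.p 491922)) (.b 4 (.b 5 (.b 6 .n (.p 99881)) (.p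 99625)) (.p 99369)))) (.w 2 3 (.b 7 (.b 4 (.b 6 .n (.p 549527)) (.p 541335)) (.b 0 (.b 1 .n (.b 4 (.b 5 (.b 6 .n (.p 99881)) (.p 99625)) (.p 99369))) (.b 3 (.p 526137) (.p 225321)))))) (.p 221704)) (.p 217608)) (.p 213512)))) (.b 2 (.b 5 .n (.b 7 (.b 4 (.b 6 .n (.p 411664)) (.b 6 (.p 288784) (.b 3 (.w 5 3 (.b 0 (.b 1 (.b 3 .n (.p 538000)) (.p 528533)) (.b 7 (.b 2 .n (.b 3 (.p 10297) (.b 1 (.b 4 (.b 6 (.w 0 3 (.b 1 (.b 2 .n (.b 4 (.b 5 (.b 6 (.b 3 .n (.p 229898)) (.p 614922)) (.p 610826)) (.p 606730))) (.b 4 (.p 530762) (.p 299274)))) (.p 401433)) (.p 270361)) (.p 66137)))) (.b 1 (.b 4 (.p 459156) (.b 2 .n (.p 270361))) (.p 67417))))) (.w 8 0 (.b 2 (.b 1 .n (.b 3 (.b 4 (.p 6292) (.b 7 .n (.w 9 1 (.b 0 (.b 3 .n (.p 274698)) (.b 5 (.p 67418) (.b 2 (.b 3 (.b 8 .n (.p 6298)) (.p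 200746)) (.p 66202))))))) (.p 200745))) (.b 1 (.p 335897) (.b 3 (.p 131385) (.p 340361)))))))) (.p 356376))) (.b 4 (.b 5 (.b 6 (.b 7 (.b 3 .n (.w 8 2 (.b 0 (.b 4 (.b 5 (.b 6 .n (.p 221705)) (.p 217609)) (.p 213513)) (.b 1 (.b 4 (.b 5 .n (.p 335897)) (.p 270361)) (.p 131465))))) (.p 459336)) (.p 401432)) (.p 335896)) (.p 270360))))))

def c51 : Cert := (.b 6 (.w 0 3 (.b 1 (.b 2 .n (.b 3 .n (.b 4 (.b 5 (.b 6 (.b 7 (.w 2 3 (.b 1 (.b 0 .n (.b 3 (.p 524947) (.b 6 (.b 4 .n (.p 289040)) (.b 4 (.p 411920) (.b 7 (.p 288657) (.b 5 (.p 288601) (.w 3 3 (.b 1 (.b 0 .n (.b 4 (.b 5 .n (.p 34106)) (.p 33850))) (.b 2 (.p 530730) (.p 168250)))))))))) (.b 4 (.b 5 .n (.p 99625)) (.p 99369)))) (.p 225800)) (.p 221704)) (.p 217608)) (.p 213512)))) (.b 6 (.b 4 (.b 7 (.b 5 (.b 2 .n (.b 3 .n (.w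 8 2 (.b 1 (.b 4 (.b 5 .n (.p 152345)) (.p 148249)) (.b 0 (.b 4 (.b 5 .n (.p 340233)) (.p 274697)) (.p 200841)))))) (.p 358401)) (.p 485377)) (.p 288769)) (.b 3 (.b 4 (.p 411649) (.b 7 (.p 288640) (.b 5 (.p 288600) (.b 2 (.w 1 3 (.b 0 (.b 2 .n (.b 3 .n (.p 164633))) (.b 4 (.p 524692) (.b 2 (.b 5 (.p 524693) (.b 6 (.p 524694) (.b 7 (.p 524695) (.b 3 (.w 4 3 (.b 0 (.b 3 (.b 1 .n (.p 594084)) (.p 604170)) (.b 3 (.b 2 (.b 1 (.p 524708) (.b 5 .n (.b 6 .n (.b 7 (.w 5 3 (.b 0 (.b 3 (.b 1 .n (.p 594101)) (.p 604171)) (.b 3 (.b 2 (.b 1 (.p 524725) (.b 4 .n (.b 7 .n (.p 304987)))) (.p 10555)) (.p 33627)))) (.p 357962))))) (.p 10554)) (.p 33610)))) (.w 8 1 (.b 3 (.b 0 .n (.b 2 (.b 9 .n (.p 594058)) (.p 131386))) (.b 0 (.p 274698) (.b 2 (.p 200746) (.b 5 (.p 66138) (.b 6 (.p 66154) (.b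 9 (.p 274842) (.p 594058)))))))))))) (.p 270361))))) (.w 8 1 (.b 0 (.b 3 .n (.p 274697)) (.b 2 (.b 3 (.b 5 (.p 67733) (.b 6 (.p 358040) (.w 9 0 (.b 2 (.b 1 .n (.b 3 (.b 8 .n (.p 67738)) (.p 200746))) (.b 1 (.p 335898) (.p 66202)))))) (.p 200745)) (.p 270473)))))))) (.p 405768))))) (.w 0 3 (.b 1 (.b 2 .n (.b 3 .n (.b 4 (.b 5 (.b 6 (.b 7 (.w 2 3 (.b 1 (.b 0 .n (.b 3 (.p 524947) (.b 4 (.b 6 .n (.p 411920)) (.b 6 (.p 289040) (.b 5 (.b 7 .n (.p 481552)) (.b 7 (.p 358672) (.w 3 3 (.b 1 (.b 0 .n (.b 4 (.b 5 (.b 6 .n (.p 34362)) (.p 34106)) (.p 33850))) (.b 2 (.p 530730) (.p 168250)))))))))) (.b 4 (.b 5 (.b 6 .n (.p 99881)) (.p 99625)) (.p 99369)))) (.p 225800)) (.p 221704)) (.p 217608)) (.p 213512)))) (.b 3 (.b 4 (.b 6 .n (.p 411649)) (.b 6 (.p 288769) (.b 5 (.b 7 .n (.p 481281))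 (.b 7 (.p 358401) (.b 2 (.w 1 3 (.b 0 (.b 2 .n (.b 3 .n (.p 164633))) (.b 4 (.p 524692) (.b 2 (.b 5 (.p 524693) (.b 6 (.p 524694) (.b 7 (.p 524695) (.b 3 (.w 4 3 (.b 0 (.b 3 (.b 1 .n (.p 594084)) (.p 604170)) (.b 3 (.b 2 (.b 1 (.p 524708) (.b 6 .n (.b 5 (.b 7 .n (.p 481862)) (.b 7 (.p 412277) (.w 5 3 (.b 0 (.b 3 (.b 1 .n (.p 594101)) (.p 604171)) (.b 3 (.b 2 (.b 1 (.p 524725) (.b 7 .n (.b 4 (.p 674647) (.b 6 (.p 673461) (.w 6 3 (.b 0 (.b 3 (.b 1 .n (.p 594118)) (.p 604172)) (.b 3 (.b 2 (.b 1 (.p 524742) (.b 4 .n (.b 5 (.p 673477) (.b 7 (.p 673479) (.w 10 0 (.b 1 (.b 2 (.b 8 (.b 4 (.p 412944) (.p 412369)) (.p 524762)) (.p 335901)) (.b 2 (.b 3 (.b 8 (.p 67802) (.b 9 (.p 524701) (.b 4 .n (.b 12 .n (.p 812205))))) (.p 200749)) (.p 66221)))))))) (.p 10556)) (.p 33644)))))))) (.p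 10555)) (.p 33627)))))))) (.p 10554)) (.p 33610)))) (.w 8 1 (.b 3 (.b 0 .n (.b 2 (.b 9 .n (.p 594058)) (.p 131386))) (.b 0 (.p 274698) (.b 2 (.p 200746) (.b 5 (.p 66138) (.b 6 (.p 66154) (.b 9 (.p 274842) (.p 594058)))))))))))) (.p 270361))))) (.w 8 1 (.b 0 (.b 3 .n (.p 274697)) (.b 2 (.b 3 (.b 5 (.p 67733) (.b 6 (.p 67734) (.w 9 0 (.b 2 (.b 1 .n (.b 3 (.b 8 .n (.p 67738)) (.p 200746))) (.b 1 (.p 335898) (.p 66202)))))) (.p 200745)) (.p 270473))))))))) (.b 4 (.b 5 (.b 6 (.b 7 (.b 2 .n (.w 8 2 (.b 1 (.b 4 (.b 5 (.b 6 .n (.p 156441)) (.p 152345)) (.p 148249)) (.b 0 (.b 4 (.b 5 (.b 6 .n (.p 405769)) (.p 340233)) (.p 274697)) (.p 200841))))) (.p 471304)) (.p 405768)) (.p 340232)) (.p 274696))))))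

def c52 : Cert := (.b 1 (.b 4 (.w 0 3 (.b 3 (.b 1 .n (.b 4 .n (.b 5 (.b 2 (.w 4 3 (.b 0 (.b 2 .n (.b 1 (.p 402545) (.b 3 .n (.b 5 (.w 1 3 (.b 4 (.b 0 (.b 2 .n (.p 402561)) (.p 395080)) (.b 0 (.b 3 .n (.p 275976)) (.p 290840)))) (.p 217607))))) (.b 3 (.b 5 .n (.p 25927)) (.p 25415)))) (.w 6 1 (.b 2 (.b 3 (.b 0 .n (.b 5 .n (.w 1 3 (.b 7 (.b 2 .n (.b 4 (.b 0 (.b 3 .n (.b 5 (.w 2 3 (.b 3 (.b 0 (.b 1 .n (.p 529298)) (.p 525881)) (.b 0 (.b 4 .n (.p 275977)) (.p 221225)))) (.p 217608))) (.p 393800)) (.p 272257))) (.b 0 (.b 5 (.b 4 (.p 483460) (.b 3 .n (.p 275976))) (.p 484632)) (.p 483352)))))) (.p 78887)) (.b 0 (.b 3 .n (.p 274695)) (.p 270439))))) (.p 282886)))) (.b 4 (.b 2 .n (.b 5 (.b 1 (.w 3 3 (.b 0 (.b 1 .n (.b 2 (.p 398194) (.b 4 .n (.b 5 (.w 2 3 (.b 3 (.b 0 (.b 1 .n (.p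 398210)) (.p 395064)) (.b 0 (.b 4 .n (.p 214536)) (.p 225320)))) (.p 282887))))) (.b 4 (.b 5 .n (.p 25911)) (.p 25655)))) (.w 6 2 (.b 1 (.b 4 (.b 0 .n (.b 5 .n (.w 2 3 (.b 7 (.b 1 .n (.b 3 (.b 0 (.b 4 .n (.b 5 (.w 1 3 (.b 4 (.b 0 (.b 2 .n (.p 533649)) (.p 525897)) (.b 0 (.b 3 .n (.p 214537)) (.p 286745)))) (.p 282888))) (.p 393528)) (.p 202626))) (.b 0 (.b 5 (.b 3 (.p 483459) (.b 4 .n (.p 214536))) (.p 484648)) (.p 483368)))))) (.p 148247)) (.b 0 (.b 4 .n (.p 274695)) (.p 200807))))) (.p 217606))) (.b 1 (.b 2 .n (.p 213510)) (.p 274694))))) (.w 4 0 c45)) (.b 4 (.w 0 3 (.b 1 (.b 2 .n (.b 3 .n (.b 4 (.b 5 (.w 2 3 (.b 1 (.b 0 .n (.b 3 (.p 393843) (.b 4 (.b 5 .n (.p 345872)) (.b 5 (.p 284432) (.w 3 3 (.b 2 (.b 1 (.b 0 .n (.p 393859)) (.p 399144)) (.b 1 (.b 4 (.b 5 .n (.p 153112))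 (.p 149016)) (.p 160056)))))))) (.b 4 (.b 5 .n (.p 91431)) (.p 91175)))) (.p 217606)) (.p 213510)))) (.b 4 (.b 5 (.b 2 .n (.b 3 .n (.w 6 2 (.b 1 (.b 4 (.b 5 .n (.p 152343)) (.p 148247)) (.b 0 (.b 4 (.b 5 .n (.p 340231)) (.p 274695)) (.p 200807)))))) (.p 345601)) (.b 3 (.b 5 (.p 284161) (.b 2 (.w 1 3 (.b 0 (.b 2 .n (.b 3 .n (.p 156439))) (.b 4 (.p 393588) (.b 2 (.b 5 (.p 393589) (.b 3 (.w 4 3 (.b 0 (.b 3 (.b 1 .n (.p 462980)) (.p 472584)) (.b 3 (.b 2 (.b 1 (.p 393604) (.b 5 .n (.w 5 3 (.b 0 (.b 3 (.b 1 .n (.p 462997)) (.p 472585)) (.b 3 (.b 2 (.b 1 (.p 393621) (.b 4 .n (.w 8 0 (.b 1 (.b 2 (.b 6 (.b 4 (.p 346640) (.p 346273)) (.p 393640)) (.p 335898)) (.b 2 (.b 3 (.b 6 (.p 67240) (.b 7 (.p 393594) (.b 4 .n (.b 9 .n (.p 611466))))) (.p 200746)) (.p 66186)))))) (.p 10041)) (.p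 25433)))))) (.p 10040)) (.p 25416)))) (.w 6 1 (.b 3 (.b 0 .n (.b 2 (.b 7 .n (.p 462952)) (.p 131384))) (.b 0 (.p 274696) (.b 2 (.p 200744) (.b 5 (.p 66136) (.b 7 (.p 274808) (.p 462952))))))))) (.p 270359))))) (.w 6 1 (.b 0 (.b 3 .n (.p 274695)) (.b 2 (.b 3 (.b 5 (.p 67189) (.w 7 0 (.b 2 (.b 1 .n (.b 3 (.b 6 .n (.p 67192)) (.p 200744))) (.b 1 (.p 335896) (.p 66168))))) (.p 200743)) (.p 270439)))))) (.p 274694))))) (.w 4 0 (.b 1 (.b 2 c49 (.p 335894)) (.b 2 (.b 3 (.w 5 1 (.b 0 (.b 3 (.b 6 (.p 288513) c50) (.p 274695)) (.b 2 (.b 3 c51 (.p 200743)) (.p 66135)))) (.p 200742)) (.p 66118))))))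

def c53 : Cert := (.b 0 (.w 2 1 (.b 0 (.b 3 (.w 0 3 c8) (.w 0 3 (.b 1 (.b 3 .n (.b 2 (.b 4 .n (.p 271635)) (.b 4 (.p 202050) (.w 5 2 (.b 1 (.b 4 (.p 202306) (.b 0 .n (.w 6 0 (.b 2 (.b 3 (.b 4 .n (.p 263030)) (.p 197238)) (.b 1 (.b 5 .n (.p 132455)) (.p 131431)))))) (.b 4 (.p 202084) (.b 0 (.w 6 1 (.b 2 (.b 5 (.p 272209) (.p 87666)) (.b 3 (.b 0 .n (.b 5 (.w 7 0 (.b 2 (.b 1 (.b 4 .n (.p 262535)) (.p 66183)) (.b 3 (.b 5 (.b 6 .n (.p 132728)) (.p 132472)) (.p 131960)))) (.w 7 0 (.b 2 (.b 1 (.b 4 .n (.p 262535)) (.p 66183)) (.b 3 (.b 6 .n (.p 132728)) (.p 131960)))))) (.b 5 (.b 0 .n (.w 3 3 (.b 1 (.b 0 .n (.b 7 .n (.p 479288))) (.b 6 (.b 7 .n (.p 479544)) (.p 414008))))) (.p 202087))))) (.w 2 3 (.b 6 (.b 1 (.b 4 (.b 0 .n (.b 3 (.w 6 1 (.b 5 (.b 7 .n (.p 291160)) (.b 0 (.b 3 .n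 (.p 202088)) (.p 263528)))) (.p 197991))) (.p 333604)) (.p 87666)) (.b 0 (.b 1 (.p 414066) (.b 3 (.p 414007) (.b 4 .n (.w 3 3 (.b 6 (.b 0 (.b 2 (.p 469093) (.b 4 (.p 468099) (.b 1 .n (.w 6 0 (.b 2 (.b 1 (.b 4 .n (.p 262550)) (.p 66198)) (.b 5 (.b 8 .n (.p 133225)) (.p 132457))))))) (.p 460136)) (.b 0 (.b 1 .n (.p 414008)) (.p 413752))))))) (.p 413735))))))))))) (.b 2 (.b 4 .n (.b 3 (.p 271665) (.w 5 1 (.b 2 (.b 3 (.p 271921) (.b 0 .n (.w 6 0 (.b 1 (.b 4 (.b 3 .n (.p 197750)) (.p 262518)) (.b 2 (.b 5 .n (.p 66919)) (.p 66151)))))) (.b 3 (.p 271715) (.b 0 (.w 6 2 (.b 1 (.b 5 (.p 202578) (.p 153201)) (.b 4 (.b 0 .n (.b 5 (.w 7 0 (.b 1 (.b 2 (.b 3 .n (.p 197255)) (.p 131463)) (.b 4 (.b 5 (.b 6 .n (.p 67192)) (.p 66936)) (.p 66680)))) (.w 7 0 (.b 1 (.b 2 (.b 5 .n (.p 328071))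 (.p 131463)) (.b 4 (.b 6 .n (.p 67192)) (.p 66680)))))) (.b 5 (.b 0 .n (.w 4 3 (.b 2 (.b 0 .n (.b 7 .n (.p 479304))) (.b 6 (.b 7 .n (.p 479816)) (.p 414280))))) (.p 271719))))) (.w 1 3 (.b 6 (.b 2 (.b 3 (.b 0 .n (.b 4 (.w 6 2 (.b 5 (.b 7 .n (.p 225880)) (.b 0 (.b 4 .n (.p 271720)) (.p 197992)))) (.p 263527))) (.p 337683)) (.p 153201)) (.b 0 (.b 2 (.p 414321) (.b 4 (.p 414279) (.b 3 .n (.w 3 3 (.b 6 (.b 0 (.b 1 (.p 464997) (.p 463750)) (.p 460136)) (.b 0 (.b 2 (.p 414339) (.b 4 (.p 414280) (.b 1 .n (.w 7 2 (.b 1 (.b 4 (.p 203074) (.b 5 (.p 271761) (.b 6 (.p 271721) (.b 0 .n (.p 413721))))) (.b 8 (.b 4 (.p 202644) (.b 5 (.p 271767) (.b 6 (.p 271721) (.b 0 .n (.p 413817))))) (.p 536953))))))) (.p 413752))))))) (.p 413719)))))))))) c11)))) (.b 3 (.w 4 0 c23) (.w 4 0 c25)))) (.w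 2 1 (.b 0 (.b 3 (.w 3 0 c37) (.w 3 0 c39)) (.b 3 (.w 3 0 (.b 2 c52 (.b 1 (.b 4 (.w 0 3 (.b 2 (.b 1 .n (.b 4 .n (.b 3 (.b 5 (.w 1 3 (.b 2 (.b 0 .n (.b 4 (.p 393588) (.b 3 (.b 5 .n (.p 341792)) (.b 5 (.p 218912) (.w 4 3 (.b 1 (.b 2 (.b 0 .n (.p 393604)) (.p 403224)) (.b 2 (.b 3 (.b 5 .n (.p 87592)) (.p 79400)) (.p 94792)))))))) (.b 3 (.b 5 .n (.p 156951)) (.p 156439)))) (.p 282886)) (.p 274694)))) (.b 3 (.b 5 (.b 1 .n (.b 4 .n (.w 6 1 (.b 2 (.b 3 (.b 5 .n (.p 87079)) (.p 78887)) (.b 0 (.b 3 (.b 5 .n (.p 282887)) (.p 274695)) (.p 270439)))))) (.p 341506)) (.b 4 (.b 5 (.p 218626) (.b 1 (.w 2 3 (.b 0 (.b 1 .n (.b 4 .n (.p 91175))) (.b 3 (.p 393843) (.b 1 (.b 5 (.p 393845) (.b 4 (.w 3 3 (.b 0 (.b 4 (.b 2 .n (.p 467075)) (.p 476680)) (.b 4 (.b 1 (.b 2 (.p 393859) (.b 5 .n (.w 5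 3 (.b 0 (.b 4 (.b 2 .n (.p 467093)) (.p 476681)) (.b 4 (.b 1 (.b 2 (.p 393877) (.b 3 .n (.w 8 0 (.b 2 (.b 1 (.b 6 (.b 3 (.p 342560) (.p 342178)) (.p 393896)) (.p 331818)) (.b 1 (.b 4 (.b 6 (.p 132776) (.b 7 (.p 393850) (.b 3 .n (.b 9 .n (.p 611210))))) (.p 270362)) (.p 131466)))))) (.p 5961)) (.p 25689)))))) (.p 5960)) (.p 25656)))) (.w 6 2 (.b 4 (.b 0 .n (.b 1 (.b 7 .n (.p 467048)) (.p 66120))) (.b 0 (.p 213512) (.b 1 (.p 270360) (.b 5 (.p 131416) (.b 7 (.p 274808) (.p 467048))))))))) (.p 200743))))) (.w 6 2 (.b 0 (.b 4 .n (.p 213511)) (.b 1 (.b 4 (.b 5 (.p 132725) (.w 7 0 (.b 1 (.b 2 .n (.b 4 (.b 6 .n (.p 132728)) (.p 270360))) (.b 2 (.p 331816) (.p 131448))))) (.p 270359)) (.p 200807)))))) (.p 213510))))) (.p 270357)) (.p 131381)))) (.p 200740)))))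

def c54 : Cert := (.w 0 1 (.w 0 2 (.b 1 (.w 0 3 c5) (.w 1 2 c53))))

theorem check_ok : check c54 1 0 0 0 = true := by decide +kernel

end Pool.Agent.R57.P5
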