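import Mathlib

/-!
A verified search showing that a `P₅`-free graph with a frozen 4-colouring is not 3-colourable.

A certificate is a case tree. A state of the search is a list of `n ≤ 16` vertices of the graph
together with two bit matrices: `A` (pairs known to be adjacent) and `N` (pairs known to be
distinct and non-adjacent), and the list `C` of the colours (two binary digits each).
-/

set_option autoImplicit false

namespace Pool.Agent.R57.P5

/-- certificates -/
inductive Cert
  /-- five vertices (base 16 digits) that induce a path -/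
  | p (x : ℕ)
  /-- the known part is not 3-colourable -/
  | n
  /-- branch on the adjacency of the last vertex with `u` -/
  | b (u : ℕ) (y z : Cert)
  /-- a new vertex: a neighbour of `v` with colour `j` -/
  | w (v j : ℕ) (c : Cert)

def dg (x i : ℕ) : ℕ := x / 16 ^ i % 16

def bit (A i j : ℕ) : Bool := Nat.testBit A (16 * i + j)

def setb (A i j : ℕ) : ℕ := A ||| (2 ^ (16 * i + j) ||| 2 ^ (16 * j + i))

def cl (C i : ℕ) : ℕ := C / 4 ^ i % 4

def hit (A k p : ℕ) : Bool := !(Nat.beq ((A >>> (16 * k)) &&& p) 0)

/-- no proper 3-colouring of the vertices `< k` extends the colour classes `p`, `q`, `r` -/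
def nc (A : ℕ) : ℕ → ℕ → ℕ → ℕ → Bool
  | 0, _, _, _ => false
  | k + 1, p, q, r =>
    (hit A k p || nc A k (p ||| 2 ^ k) q r) && ((hit A k q || nc A k p (q ||| 2 ^ k) r) &&
      (hit A k r || nc A k p q (r ||| 2 ^ k)))

/-- all vertices `u < k` of colour `j` are known to be non-adjacent to `v` -/
def allN (N C v j : ℕ) : ℕ → Bool
  | 0 => true
  | k + 1 => (!(Nat.beq (cl C k) j) || bit N v k) && allN N C v j k

/-- record that the new vertex `n` is non-adjacent to all vertices `u < k` of colour `j` -/
def addN (N C n j : ℕ) : ℕ → ℕ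
  | 0 => N
  | k + 1 => bif Nat.beq (cl C k) j then setb (addN N C n j k) n k else addN N C n j k

def chkP (A N a b c d e : ℕ) : Bool :=
  (bit A a b && (bit A b c && (bit A c d && bit A d e))) &&
    ((bit N a c && (bit N a d && bit N a e)) && ((bit N b d && bit N b e) && bit N c e))

def check : Cert → ℕ → ℕ → ℕ → ℕ → Bool
  | .p x, _, A, N, _ => chkP A N (dg x 0) (dg x 1) (dg x 2) (dg x 3) (dg x 4)
  | .n, n, A, _, _ => nc A n 0 0 0
  | .b u y z, n, A, N, C =>
    (Nat.blt u n && !(Nat.beq (cl C u) (cl C (n - 1)))) &&
      (check y n (setb A (n - 1) u) N C && check z n A (setb N (n - 1) u) C)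
  | .w v j c, n, A, N, C =>
    (Nat.blt v n && (Nat.blt n 16 && (Nat.blt j 4 && (!(Nat.beq (cl C v) j) && allN N C v j n)))) &&
      check c (n + 1) (setb A n v) (addN N C n j n) (C + j * 4 ^ n)

end Pool.Agent.R57.P5
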