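import Pool.Agent.R57.P5Check

/-!
Soundness of the search.
-/

set_option autoImplicit false

namespace Pool.Agent.R57.P5

variable {V : Type} {G : SimpleGraph V} {c : V → Fin 4}

theorem beq_ff {a b : ℕ} : Nat.beq a b = false ↔ a ≠ b := by
  constructor
  · exact Nat.ne_of_beq_eq_false
  · intro h
    cases hb : Nat.beq a b
    · rfl
    · exact absurd (Nat.eq_of_beq_eq_true hb) h

theorem bit_or (A B i j : ℕ) : bit (A ||| B) i j = (bit A i j || bit B i j) := by
  simp [bit, Nat.testBit_or]

theorem idx_inj {i j k l : ℕ} (hj : j < 16) (hl : l < 16) (h : 16 * i + j = 16 * k + l) :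
    i = k ∧ j = l := by omega

theorem bit_setb {A i j k l : ℕ} (hi : i < 16) (hj : j < 16) (hl : l < 16)
    (h : bit (setb A i j) k l = true) :
    bit A k l = true ∨ (k = i ∧ l = j) ∨ (k = j ∧ l = i) := by
  unfold setb at h
  rw [bit_or, Bool.or_eq_true] at h
  rcases h with h | h
  · exact Or.inl h
  · right
    unfold bit at h
    rw [Nat.testBit_or, Bool.or_eq_true, Nat.testBit_two_pow, Nat.testBit_two_pow,
      decide_eq_true_iff, decide_eq_true_iff] at h
    rcases h with h | h
    · left; have := idx_inj hj hl h; exact ⟨this.1.symm, this.2.symm⟩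
    · right; have := idx_inj hi hl h; exact ⟨this.1.symm, this.2.symm⟩

/-- the meaning of a state of the search -/
structure Good (G : SimpleGraph V) (c : V → Fin 4) (f : ℕ → V) (n A N C : ℕ) : Prop where
  le : n ≤ 16
  pos : 1 ≤ n
  adj : ∀ i j, j < 16 → bit A i j = true → i < n ∧ j < n ∧ G.Adj (f i) (f j)
  non : ∀ i j, j < 16 → bit N i j = true → i < n ∧ j < n ∧ ¬ G.Adj (f i) (f j) ∧ f i ≠ f j
  col : ∀ i, i < n → (c (f i)).val = cl C i
  lt : C < 4 ^ n

theorem nc_sound {A : ℕ} (g : ℕ → Fin 3)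
    (hA : ∀ i j, j < 16 → bit A i j = true → g i ≠ g j) :
    ∀ k p q r : ℕ, (∀ j, p.testBit j = true → j < 16 ∧ g j = 0) →
      (∀ j, q.testBit j = true → j < 16 ∧ g j = 1) →
      (∀ j, r.testBit j = true → j < 16 ∧ g j = 2) → k ≤ 16 → nc A k p q r = true → False := by
  have hhit : ∀ k p : ℕ, ∀ x : Fin 3, (∀ j, p.testBit j = true → j < 16 ∧ g j = x) →
      g k = x → hit A k p = true → False := by
    intro k p x hp hk h
    unfold hit at h
    rw [Bool.not_eq_true', beq_ff] at h
    obtain ⟨j, hj⟩ := Nat.exists_testBit_ne_of_ne h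
    rw [Nat.testBit_and, Nat.zero_testBit, Nat.testBit_shiftRight] at hj
    have hj' : (A.testBit (16 * k + j) && p.testBit j) = true := by
      cases hh : (A.testBit (16 * k + j) && p.testBit j)
      · exact absurd hh hj
      · rfl
    rw [Bool.and_eq_true] at hj'
    obtain ⟨h1, h2⟩ := hp j hj'.2
    exact hA k j h1 hj'.1 (by rw [hk, h2])
  have hset : ∀ k p : ℕ, ∀ x : Fin 3, k < 16 → (∀ j, p.testBit j = true → j < 16 ∧ g j = x) →
      g k = x → ∀ j, (p ||| 2 ^ k).testBit j = true → j < 16 ∧ g j = x := by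
    intro k p x hk16 hp hk j hj
    rw [Nat.testBit_or, Bool.or_eq_true, Nat.testBit_two_pow, decide_eq_true_iff] at hj
    rcases hj with hj | rfl
    · exact hp j hj
    · exact ⟨hk16, hk⟩
  intro k
  induction k with
  | zero => intro p q r _ _ _ _ h; simp [nc] at h
  | succ k ih =>
    intro p q r hp hq hr hk h
    simp only [nc, Bool.and_eq_true, Bool.or_eq_true] at h
    obtain ⟨h0, h1, h2⟩ := h
    have hcases : g k = 0 ∨ g k = 1 ∨ g k = 2 := by
      generalize g k = y
      fin_cases y <;> simp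
    rcases hcases with hk0 | hk0 | hk0
    · rcases h0 with h0 | h0
      · exact hhit k p 0 hp hk0 h0
      · exact ih _ _ _ (hset k p 0 (by omega) hp hk0) hq hr (by omega) h0
    · rcases h1 with h1 | h1
      · exact hhit k q 1 hq hk0 h1
      · exact ih _ _ _ hp (hset k q 1 (by omega) hq hk0) hr (by omega) h1
    · rcases h2 with h2 | h2
      · exact hhit k r 2 hr hk0 h2
      · exact ih _ _ _ hp hq (hset k r 2 (by omega) hr hk0) (by omega) h2

theorem allN_sound {N C v j : ℕ} : ∀ k, allN N C v j k = true →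
    ∀ u, u < k → cl C u = j → bit N v u = true := by
  intro k
  induction k with
  | zero => intro _ u hu; omega
  | succ k ih =>
    intro h u hu hc
    simp only [allN, Bool.and_eq_true, Bool.or_eq_true, Bool.not_eq_true',
      beq_ff] at h
    rcases Nat.lt_succ_iff_lt_or_eq.mp hu with hu | rfl
    · exact ih h.2 u hu hc
    · rcases h.1 with h1 | h1
      · exact absurd hc h1
      · exact h1

theorem addN_sound {N C n j : ℕ} (hn : n < 16) : ∀ k, k ≤ n → ∀ a b : ℕ, b < 16 →
    bit (addN N C n j k) a b = true →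
    bit N a b = true ∨ (a = n ∧ b < k ∧ cl C b = j) ∨ (b = n ∧ a < k ∧ cl C a = j) := by
  intro k
  induction k with
  | zero => intro _ a b _ h; exact Or.inl h
  | succ k ih =>
    intro hk a b hb h
    simp only [addN] at h
    cases hc : Nat.beq (cl C k) j
    · rw [hc, cond_false] at h
      rcases ih (by omega) a b hb h with h | h | h
      · exact Or.inl h
      · right; left; exact ⟨h.1, by omega, h.2.2⟩
      · right; right; exact ⟨h.1, by omega, h.2.2⟩
    · rw [hc, cond_true] at h
      have hc' : cl C k = j := Nat.eq_of_beq_eq_true hc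
      rcases bit_setb hn (by omega) hb h with h | h | h
      · rcases ih (by omega) a b hb h with h | h | h
        · exact Or.inl h
        · right; left; exact ⟨h.1, by omega, h.2.2⟩
        · right; right; exact ⟨h.1, by omega, h.2.2⟩
      · right; left; rw [h.1, h.2]; exact ⟨rfl, by omega, hc'⟩
      · right; right; rw [h.1, h.2]; exact ⟨rfl, by omega, hc'⟩

theorem cl_add {C n j i : ℕ} (hC : C < 4 ^ n) (hj : j < 4) (hi : i ≤ n) :
    cl (C + j * 4 ^ n) i = if i = n then j else cl C i := by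
  unfold cl
  split_ifs with h
  · subst h
    rw [Nat.add_mul_div_right _ _ (by positivity), Nat.div_eq_of_lt hC]
    omega
  · have hlt : i < n := by omega
    obtain ⟨d, rfl⟩ : ∃ d, n = i + 1 + d := ⟨n - i - 1, by omega⟩
    have : j * 4 ^ (i + 1 + d) = (4 * (j * 4 ^ d)) * 4 ^ i := by ring
    rw [this, Nat.add_mul_div_right _ _ (by positivity), Nat.add_mul_mod_self_left]

theorem chkP_sound {f : ℕ → V} {n A N C : ℕ} (h : Good G c f n A N C) {a b d e k : ℕ}
    (ha : b < 16) (hd : d < 16) (he : e < 16) (hk : k < 16)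
    (hP : chkP A N a b d e k = true) : Nonempty (SimpleGraph.pathGraph 5 ↪g G) := by
  simp only [chkP, Bool.and_eq_true] at hP
  obtain ⟨⟨h1, h2, h3, h4⟩, ⟨h5, h6, h7⟩, ⟨h8, h9⟩, h10⟩ := hP
  have e1 := (h.adj _ _ ha h1).2.2
  have e2 := (h.adj _ _ hd h2).2.2
  have e3 := (h.adj _ _ he h3).2.2
  have e4 := (h.adj _ _ hk h4).2.2
  have n1 := (h.non _ _ hd h5).2.2
  have n2 := (h.non _ _ he h6).2.2
  have n3 := (h.non _ _ hk h7).2.2
  have n4 := (h.non _ _ he h8).2.2
  have n5 := (h.non _ _ hk h9).2.2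
  have n6 := (h.non _ _ hk h10).2.2
  let F : Fin 5 → V := ![f a, f b, f d, f e, f k]
  have m1 := e1.ne
  have m2 := e2.ne
  have m3 := e3.ne
  have m4 := e4.ne
  refine ⟨⟨⟨F, ?_⟩, ?_⟩⟩
  · intro x y hxy
    fin_cases x <;> fin_cases y <;> first | rfl | (exfalso; revert hxy; simp [F]; first | exact m1 | exact m2 | exact m3 | exact m4 | exact n1.2 | exact n2.2 | exact n3.2 | exact n4.2 | exact n5.2 | exact n6.2 | exact m1.symm | exact m2.symm | exact m3.symm | exact m4.symm | exact n1.2.symm | exact n2.2.symm | exact n3.2.symm | exact n4.2.symm | exact n5.2.symm | exact n6.2.symm)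
  · intro x y
    simp only [Function.Embedding.coeFn_mk]
    fin_cases x <;> fin_cases y <;>
      simp [F, SimpleGraph.pathGraph_adj, e1, e2, e3, e4, e1.symm, e2.symm, e3.symm, e4.symm, n1.1, n2.1, n3.1,
        n4.1, n5.1, n6.1, mt SimpleGraph.Adj.symm n1.1, mt SimpleGraph.Adj.symm n2.1,
        mt SimpleGraph.Adj.symm n3.1, mt SimpleGraph.Adj.symm n4.1, mt SimpleGraph.Adj.symm n5.1,
        mt SimpleGraph.Adj.symm n6.1]

theorem dg_lt (x i : ℕ) : dg x i < 16 := Nat.mod_lt _ (by norm_num)

theorem check_sound (h3 : G.Colorable 3) (h5 : IsEmpty (SimpleGraph.pathGraph 5 ↪g G))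
    (hc : ∀ v w, G.Adj v w → c v ≠ c w)
    (hfr : ∀ v : V, ∀ i : Fin 4, i ≠ c v → ∃ w : V, G.Adj v w ∧ c w = i) :
    ∀ (T : Cert) (f : ℕ → V) (n A N C : ℕ), Good G c f n A N C → check T n A N C = true → False := by
  intro T
  induction T with
  | p x =>
    intro f n A N C hG h
    exact h5.elim' (chkP_sound hG (dg_lt _ _) (dg_lt _ _) (dg_lt _ _) (dg_lt _ _) h).some
  | n =>
    intro f n A N C hG h
    obtain ⟨g⟩ := h3
    refine nc_sound (A := A) (fun i => g (f i)) ?_ n 0 0 0 (by simp) (by simp) (by simp) hG.le h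
    intro i j hj hb
    exact g.valid (hG.adj i j hj hb).2.2
  | b u y z ihy ihz =>
    intro f n A N C hG h
    simp only [check, Bool.and_eq_true, Bool.not_eq_true', beq_ff,
      Nat.blt_eq] at h
    obtain ⟨⟨hu, hcol⟩, hy, hz⟩ := h
    have hn := hG.le
    have hpos := hG.pos
    have hne : f (n - 1) ≠ f u := by
      intro heq
      apply hcol
      rw [← hG.col u hu, ← hG.col (n - 1) (by omega), heq]
    by_cases hadj : G.Adj (f (n - 1)) (f u)
    · refine ihy f n _ N C ⟨hG.le, hG.pos, ?_, hG.non, hG.col, hG.lt⟩ hy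
      intro i j hj hb
      rcases bit_setb (by omega) (by omega) hj hb with hb | ⟨rfl, rfl⟩ | ⟨rfl, rfl⟩
      · exact hG.adj i j hj hb
      · exact ⟨by omega, hu, hadj⟩
      · exact ⟨hu, by omega, hadj.symm⟩
    · refine ihz f n A _ C ⟨hG.le, hG.pos, hG.adj, ?_, hG.col, hG.lt⟩ hz
      intro i j hj hb
      rcases bit_setb (by omega) (by omega) hj hb with hb | ⟨rfl, rfl⟩ | ⟨rfl, rfl⟩
      · exact hG.non i j hj hb
      · exact ⟨by omega, hu, hadj, hne⟩
      · exact ⟨hu, by omega, fun h => hadj h.symm, hne.symm⟩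
  | w v j T ih =>
    intro f n A N C hG h
    simp only [check, Bool.and_eq_true, Bool.not_eq_true', beq_ff,
      Nat.blt_eq] at h
    obtain ⟨⟨hv, hn, hj, hcv, hall⟩, hT⟩ := h
    have hpos := hG.pos
    obtain ⟨x, hvx, hx⟩ := hfr (f v) ⟨j, hj⟩ (by
      intro heq
      apply hcv
      rw [← hG.col v hv, ← heq])
    have hxf : ∀ u, u < n → cl C u = j → ¬ G.Adj (f u) x ∧ f u ≠ x := by
      intro u hu huj
      constructor
      · intro hadj
        apply hc _ _ hadj
        rw [hx]
        apply Fin.ext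
        rw [hG.col u hu, huj]
      · rintro rfl
        exact (hG.non v u (by omega) (allN_sound n hall u hu huj)).2.2.1 hvx
    set f' : ℕ → V := Function.update f n x with hf'
    have hfn : f' n = x := by simp [f']
    have hfo : ∀ i, i < n → f' i = f i := by
      intro i hi
      simp [f', Function.update_of_ne (show i ≠ n by omega)]
    refine ih f' (n + 1) _ _ _ ⟨by omega, by omega, ?_, ?_, ?_, ?_⟩ hT
    · intro i k hk hb
      rcases bit_setb (by omega) (by omega) hk hb with hb | ⟨rfl, rfl⟩ | ⟨rfl, rfl⟩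
      · obtain ⟨h1, h2, h3⟩ := hG.adj i k hk hb
        rw [hfo i h1, hfo k h2]
        exact ⟨by omega, by omega, h3⟩
      · rw [hfn, hfo _ hv]
        exact ⟨by omega, by omega, hvx.symm⟩
      · rw [hfn, hfo _ hv]
        exact ⟨by omega, by omega, hvx⟩
    · intro i k hk hb
      rcases addN_sound hn n le_rfl i k hk hb with hb | ⟨rfl, hlt, hcl⟩ | ⟨rfl, hlt, hcl⟩
      · obtain ⟨h1, h2, h3, h4⟩ := hG.non i k hk hb
        rw [hfo i h1, hfo k h2]
        exact ⟨by omega, by omega, h3, h4⟩
      · rw [hfn, hfo _ hlt]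
        obtain ⟨h1, h2⟩ := hxf k hlt hcl
        exact ⟨by omega, by omega, fun h => h1 h.symm, h2.symm⟩
      · rw [hfn, hfo _ hlt]
        obtain ⟨h1, h2⟩ := hxf i hlt hcl
        exact ⟨by omega, by omega, h1, h2⟩
    · intro i hi
      rw [cl_add hG.lt hj (by omega)]
      split_ifs with hin
      · rw [hin, hfn, hx]
      · rw [hfo i (by omega)]
        exact hG.col i (by omega)
    · have := hG.lt
      calc C + j * 4 ^ n < 4 ^ n + j * 4 ^ n := by omega
        _ = (j + 1) * 4 ^ n := by ring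
        _ ≤ 4 * 4 ^ n := Nat.mul_le_mul_right _ (by omega)
        _ = 4 ^ (n + 1) := by ring

end Pool.Agent.R57.P5
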