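import Pool.Agent.R57.KempeGen

/-!
For every `m ≥ 3` a 3-colourable graph without 4-cycles and with a Kempe frozen `m`-colouring.

The vertices are the pairs `(a, x)`, `a < m`, `x ∈ ℤ/3^K`; for `a < b` the vertex `(a, x)` is
adjacent to `(b, x + 49^e)` and `(b, x + 14 · 49^e)`, where `e` is a number belonging to the pair
`{a, b}`.
-/

set_option autoImplicit false

namespace Pool.Agent.R57.Volt

open Pool.Agent.H411R2.WSK Pool.Agent.R57.KG

noncomputable def idx {m : ℕ} (a b : Fin m) : ℕ := (Fintype.equivFin (Sym2 (Fin m)) s(a, b)).val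

theorem idx_symm {m : ℕ} (a b : Fin m) : idx a b = idx b a := by
  unfold idx; rw [Sym2.eq_swap]

theorem idx_inj {m : ℕ} {a b c d : Fin m} (h : idx a b = idx c d) :
    (a = c ∧ b = d) ∨ (a = d ∧ b = c) := by
  have := (Fintype.equivFin (Sym2 (Fin m))).injective (Fin.ext h)
  rwa [Sym2.eq_iff] at this

theorem idx_lt {m : ℕ} (a b : Fin m) : idx a b < Fintype.card (Sym2 (Fin m)) :=
  (Fintype.equivFin (Sym2 (Fin m)) s(a, b)).isLt

def sg {m : ℕ} (a b : Fin m) : ℤ := if a < b then 1 else -1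

theorem sg_symm {m : ℕ} {a b : Fin m} (h : a ≠ b) : sg b a = -sg a b := by
  unfold sg
  rcases lt_or_gt_of_ne h with h | h
  · rw [if_pos h, if_neg (lt_asymm h)]
  · rw [if_neg (lt_asymm h), if_pos h]; rfl

theorem sg_cases {m : ℕ} (a b : Fin m) : sg a b = 1 ∨ sg a b = -1 := by
  unfold sg; split_ifs <;> simp

noncomputable def dl {m : ℕ} (a b : Fin m) (c : ℤ) : ℤ := sg a b * c * 49 ^ idx a b

theorem dl_symm {m : ℕ} {a b : Fin m} (h : a ≠ b) (c : ℤ) : dl b a c = -dl a b c := by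
  unfold dl; rw [sg_symm h, idx_symm b a]; ring

/-- the graph -/
def GV (m K : ℕ) : SimpleGraph (Fin m × ZMod (3 ^ K)) where
  Adj v w := v.1 ≠ w.1 ∧ ∃ c : ℤ, (c = 1 ∨ c = 14) ∧ w.2 = v.2 + (dl v.1 w.1 c : ZMod (3 ^ K))
  symm := ⟨by
    rintro v w ⟨h, c, hc, he⟩
    refine ⟨h.symm, c, hc, ?_⟩
    rw [dl_symm h, he]
    push_cast
    ring⟩
  loopless := ⟨fun v h => h.1 rfl⟩

theorem adic {e : ℕ} {c R : ℤ} (hc : ¬ (49 : ℤ) ∣ c) (h : c * 49 ^ e + 49 ^ (e + 1) * R = 0) :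
    False := by
  apply hc
  have h1 : (49 : ℤ) ^ e * (c + 49 * R) = 0 := by rw [← h]; ring
  rcases mul_eq_zero.1 h1 with h2 | h2
  · exact absurd h2 (by positivity)
  · exact ⟨-R, by linarith⟩

theorem pow_split {e f : ℕ} (h : e < f) : ∃ R : ℤ, (49 : ℤ) ^ f = 49 ^ (e + 1) * R :=
  ⟨49 ^ (f - (e + 1)), by rw [← pow_add]; congr 1; omega⟩

theorem adic2 {e f : ℕ} (hef : e ≠ f) {c d : ℤ} (hc : ¬ (49 : ℤ) ∣ c) (hd : ¬ (49 : ℤ) ∣ d)
    (h : c * 49 ^ e + d * 49 ^ f = 0) : False := by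
  rcases lt_or_gt_of_ne hef with hlt | hlt
  · obtain ⟨R, hR⟩ := pow_split hlt
    exact adic (e := e) hc (R := d * R) (by linear_combination h - d * hR)
  · obtain ⟨R, hR⟩ := pow_split hlt
    exact adic (e := f) hd (R := c * R) (by linear_combination h - c * hR)

theorem adic4' {e0 e1 e2 e3 : ℕ} (h1 : e0 < e1) (h2 : e0 < e2) (h3 : e0 < e3)
    {c0 c1 c2 c3 : ℤ} (hc : ¬ (49 : ℤ) ∣ c0)
    (h : c0 * 49 ^ e0 + c1 * 49 ^ e1 + c2 * 49 ^ e2 + c3 * 49 ^ e3 = 0) : False := by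
  obtain ⟨R1, hR1⟩ := pow_split h1
  obtain ⟨R2, hR2⟩ := pow_split h2
  obtain ⟨R3, hR3⟩ := pow_split h3
  exact adic (e := e0) hc (R := c1 * R1 + c2 * R2 + c3 * R3)
    (by linear_combination h - c1 * hR1 - c2 * hR2 - c3 * hR3)

theorem adic4 {e0 e1 e2 e3 : ℕ} (h01 : e0 ≠ e1) (h02 : e0 ≠ e2) (h03 : e0 ≠ e3) (h12 : e1 ≠ e2)
    (h13 : e1 ≠ e3) (h23 : e2 ≠ e3) {c0 c1 c2 c3 : ℤ} (k0 : ¬ (49 : ℤ) ∣ c0)
    (k1 : ¬ (49 : ℤ) ∣ c1) (k2 : ¬ (49 : ℤ) ∣ c2) (k3 : ¬ (49 : ℤ) ∣ c3)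
    (h : c0 * 49 ^ e0 + c1 * 49 ^ e1 + c2 * 49 ^ e2 + c3 * 49 ^ e3 = 0) : False := by
  by_cases m0 : e0 < e1 ∧ e0 < e2 ∧ e0 < e3
  · exact adic4' m0.1 m0.2.1 m0.2.2 k0 h
  · by_cases m1 : e1 < e0 ∧ e1 < e2 ∧ e1 < e3
    · exact adic4' m1.1 m1.2.1 m1.2.2 k1 (c1 := c0) (c2 := c2) (c3 := c3) (by rw [← h]; ring)
    · by_cases m2 : e2 < e0 ∧ e2 < e1 ∧ e2 < e3
      · exact adic4' m2.1 m2.2.1 m2.2.2 k2 (c1 := c0) (c2 := c1) (c3 := c3) (by rw [← h]; ring)
      · have m3 : e3 < e0 ∧ e3 < e1 ∧ e3 < e2 := by omega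
        exact adic4' m3.1 m3.2.1 m3.2.2 k3 (c1 := c0) (c2 := c1) (c3 := c2) (by rw [← h]; ring)

theorem ndvd {m : ℕ} (a b : Fin m) {c : ℤ} (hc : c = 1 ∨ c = 14 ∨ c = 13 ∨ c = -13) :
    ¬ (49 : ℤ) ∣ sg a b * c := by
  rcases sg_cases a b with h | h <;> rcases hc with rfl | rfl | rfl | rfl <;> rw [h] <;> omega

/-- no two vertices at distance two have two common neighbours -/
theorem no_cycle {m K : ℕ} (hK : 56 * 49 ^ Fintype.card (Sym2 (Fin m)) < 3 ^ K)
    {v0 v1 v2 v3 : Fin m × ZMod (3 ^ K)} (h01 : (GV m K).Adj v0 v1) (h12 : (GV m K).Adj v1 v2)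
    (h23 : (GV m K).Adj v2 v3) (h30 : (GV m K).Adj v3 v0) (h02 : v0 ≠ v2) (h13 : v1 ≠ v3) :
    False := by
  obtain ⟨a0, x0⟩ := v0
  obtain ⟨a1, x1⟩ := v1
  obtain ⟨a2, x2⟩ := v2
  obtain ⟨a3, x3⟩ := v3
  obtain ⟨n01, c0, k0, e0⟩ := h01
  obtain ⟨n12, c1, k1, e1⟩ := h12
  obtain ⟨n23, c2, k2, e2⟩ := h23
  obtain ⟨n30, c3, k3, e3⟩ := h30
  simp only at n01 n12 n23 n30 e0 e1 e2 e3
  -- the integer sum vanishes
  have hb : ∀ (a b : Fin m) (c : ℤ), (c = 1 ∨ c = 14) →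
      |dl a b c| ≤ 14 * 49 ^ Fintype.card (Sym2 (Fin m)) := by
    intro a b c hc
    have h1 : |sg a b| = 1 := by rcases sg_cases a b with h | h <;> rw [h] <;> rfl
    have h2 : |c| ≤ 14 := by rcases hc with rfl | rfl <;> norm_num
    have h3 : |(49 : ℤ) ^ idx a b| ≤ 49 ^ Fintype.card (Sym2 (Fin m)) := by
      rw [abs_of_pos (by positivity)]
      exact pow_le_pow_right₀ (by norm_num) (idx_lt a b).le
    unfold dl
    rw [abs_mul, abs_mul, h1, one_mul]
    exact mul_le_mul h2 h3 (abs_nonneg _) (by norm_num)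
  have hcast : ((dl a0 a1 c0 + dl a1 a2 c1 + dl a2 a3 c2 + dl a3 a0 c3 : ℤ) : ZMod (3 ^ K)) = 0 := by
    have h : x0 = x0 + dl a0 a1 c0 + dl a1 a2 c1 + dl a2 a3 c2 + dl a3 a0 c3 := by
      nth_rw 1 [e3, e2, e1, e0]
    push_cast
    have h' : x0 + (dl a0 a1 c0 + dl a1 a2 c1 + dl a2 a3 c2 + dl a3 a0 c3 : ZMod (3 ^ K)) =
        x0 + 0 := by
      rw [add_zero]; nth_rw 2 [h]; ring
    exact add_left_cancel h'
  have hS : dl a0 a1 c0 + dl a1 a2 c1 + dl a2 a3 c2 + dl a3 a0 c3 = 0 := by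
    have hdvd := (ZMod.intCast_zmod_eq_zero_iff_dvd _ _).1 hcast
    apply Int.eq_zero_of_abs_lt_dvd hdvd
    have b0 := hb a0 a1 c0 k0
    have b1 := hb a1 a2 c1 k1
    have b2 := hb a2 a3 c2 k2
    have b3 := hb a3 a0 c3 k3
    have t1 := abs_add_le (dl a0 a1 c0 + dl a1 a2 c1 + dl a2 a3 c2) (dl a3 a0 c3)
    have t2 := abs_add_le (dl a0 a1 c0 + dl a1 a2 c1) (dl a2 a3 c2)
    have t3 := abs_add_le (dl a0 a1 c0) (dl a1 a2 c1)
    have hK' : (56 : ℤ) * 49 ^ Fintype.card (Sym2 (Fin m)) < 3 ^ K := by exact_mod_cast hK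
    push_cast
    linarith
  -- two equal classes
  by_cases h02' : a0 = a2
  · subst h02'
    have hx : x0 ≠ x2 := fun h => h02 (by rw [h])
    have hc01 : c0 ≠ c1 := by
      rintro rfl
      apply hx
      rw [e1, e0, dl_symm n01]; push_cast; ring
    have hc23 : c2 ≠ c3 := by
      rintro rfl
      apply hx
      rw [e3, e2, dl_symm n23]; push_cast; ring
    by_cases h13' : a1 = a3
    · subst h13'
      have hx' : x1 ≠ x3 := fun h => h13 (by rw [h])
      have hc12 : c1 ≠ c2 := by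
        rintro rfl
        apply hx'
        rw [e2, e1, dl_symm n12]; push_cast; ring
      rw [dl_symm n01, dl_symm n01] at hS
      unfold dl at hS
      have h49 : (49 : ℤ) ^ idx a0 a1 ≠ 0 := by positivity
      have h5 : (49 : ℤ) ^ idx a0 a1 * (sg a0 a1 * (c0 - c1 + c2 - c3)) = 0 := by
        rw [← hS]; ring
      rcases mul_eq_zero.1 h5 with h6 | h6
      · exact h49 h6
      · rcases sg_cases a0 a1 with h | h <;> rw [h] at h6 <;> rcases k0 with rfl | rfl <;>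
          rcases k1 with rfl | rfl <;> rcases k2 with rfl | rfl <;> rcases k3 with rfl | rfl <;>
          omega
    · have hidx : idx a0 a1 ≠ idx a3 a0 := by
        intro h
        rcases idx_inj h with ⟨h1, h2⟩ | ⟨h1, h2⟩
        · exact n30 h1.symm
        · exact h13' h2
      rw [dl_symm n01, dl_symm n30] at hS
      unfold dl at hS
      refine adic2 hidx (ndvd a0 a1 (c := c0 - c1) ?_) (ndvd a3 a0 (c := c3 - c2) ?_) ?_
      · rcases k0 with rfl | rfl <;> rcases k1 with rfl | rfl <;> first | (exfalso; omega) | norm_num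
      · rcases k2 with rfl | rfl <;> rcases k3 with rfl | rfl <;> first | (exfalso; omega) | norm_num
      · rw [← hS]; ring
  · by_cases h13' : a1 = a3
    · subst h13'
      have hx' : x1 ≠ x3 := fun h => h13 (by rw [h])
      have hc12 : c1 ≠ c2 := by
        rintro rfl
        apply hx'
        rw [e2, e1, dl_symm n12]; push_cast; ring
      have hc30 : c3 ≠ c0 := by
        rintro rfl
        apply hx'
        rw [e0, e3, dl_symm n30]; push_cast; ring
      have hidx : idx a1 a2 ≠ idx a0 a1 := by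
        intro h
        rcases idx_inj h with ⟨h1, h2⟩ | ⟨h1, h2⟩
        · exact n01 h1.symm
        · exact h02' h2.symm
      rw [dl_symm n12, dl_symm n01] at hS
      unfold dl at hS
      refine adic2 hidx (ndvd a1 a2 (c := c1 - c2) ?_) (ndvd a0 a1 (c := c0 - c3) ?_) ?_
      · rcases k1 with rfl | rfl <;> rcases k2 with rfl | rfl <;> first | (exfalso; omega) | norm_num
      · rcases k3 with rfl | rfl <;> rcases k0 with rfl | rfl <;> first | (exfalso; omega) | norm_num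
      · rw [← hS]; ring
    · have d01 : idx a0 a1 ≠ idx a1 a2 := by
        intro h; rcases idx_inj h with ⟨h1, h2⟩ | ⟨h1, h2⟩
        · exact n01 h1
        · exact h02' h1
      have d02 : idx a0 a1 ≠ idx a2 a3 := by
        intro h; rcases idx_inj h with ⟨h1, h2⟩ | ⟨h1, h2⟩
        · exact h02' h1
        · exact n30 h1.symm
      have d03 : idx a0 a1 ≠ idx a3 a0 := by
        intro h; rcases idx_inj h with ⟨h1, h2⟩ | ⟨h1, h2⟩
        · exact n30 h1.symm
        · exact h13' h2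
      have d12 : idx a1 a2 ≠ idx a2 a3 := by
        intro h; rcases idx_inj h with ⟨h1, h2⟩ | ⟨h1, h2⟩
        · exact n12 h1
        · exact h13' h1
      have d13 : idx a1 a2 ≠ idx a3 a0 := by
        intro h; rcases idx_inj h with ⟨h1, h2⟩ | ⟨h1, h2⟩
        · exact h13' h1
        · exact n01 h1.symm
      have d23 : idx a2 a3 ≠ idx a3 a0 := by
        intro h; rcases idx_inj h with ⟨h1, h2⟩ | ⟨h1, h2⟩
        · exact n23 h1
        · exact h02' h1.symm
      unfold dl at hS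
      refine adic4 d01 d02 d03 d12 d13 d23 (ndvd a0 a1 (c := c0) ?_) (ndvd a1 a2 (c := c1) ?_)
        (ndvd a2 a3 (c := c2) ?_) (ndvd a3 a0 (c := c3) ?_) hS
      · rcases k0 with h | h <;> simp [h]
      · rcases k1 with h | h <;> simp [h]
      · rcases k2 with h | h <;> simp [h]
      · rcases k3 with h | h <;> simp [h]

/-- the residue modulo 3 is a proper colouring -/
noncomputable def fcol (m K : ℕ) (hK : 1 ≤ K) : (GV m K).Coloring (ZMod 3) :=
  SimpleGraph.Coloring.mk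
    (fun v => ZMod.castHom (dvd_pow_self 3 (by omega : K ≠ 0)) (ZMod 3) v.2) (by
      rintro ⟨a, x⟩ ⟨b, y⟩ ⟨hab, c, hc, he⟩ h
      simp only at he h
      rw [he, map_add, map_intCast] at h
      have h1 : ((dl a b c : ℤ) : ZMod 3) = 0 := by
        have := h.symm
        rwa [add_eq_left] at this
      unfold dl at h1
      push_cast at h1
      have h49 : (49 : ZMod 3) = 1 := by decide
      rw [h49, one_pow, mul_one] at h1
      rcases sg_cases a b with hs | hs <;> rcases hc with rfl | rfl <;> rw [hs] at h1 <;>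
        revert h1 <;> decide)

theorem fcol_apply (m K : ℕ) (hK : 1 ≤ K) (v : Fin m × ZMod (3 ^ K)) :
    fcol m K hK v = ZMod.castHom (dvd_pow_self 3 (by omega : K ≠ 0)) (ZMod 3) v.2 := rfl

/-- the frozen colouring -/
def gcol (m K : ℕ) : (GV m K).Coloring (Fin m) :=
  SimpleGraph.Coloring.mk (fun v => v.1) (fun h he => h.1 he)

theorem gcol_apply (m K : ℕ) (v : Fin m × ZMod (3 ^ K)) : gcol m K v = v.1 := rfl

theorem unit_dl {m K : ℕ} (a b : Fin m) :
    IsUnit ((sg a b * 13 * 49 ^ idx a b : ℤ) : ZMod (3 ^ K)) := by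
  push_cast
  have h13 : IsUnit (13 : ZMod (3 ^ K)) := by
    have := (ZMod.isUnit_iff_coprime 13 (3 ^ K)).2 (Nat.Coprime.pow_right K (by norm_num))
    exact_mod_cast this
  have h49 : IsUnit (49 : ZMod (3 ^ K)) := by
    have := (ZMod.isUnit_iff_coprime 49 (3 ^ K)).2 (Nat.Coprime.pow_right K (by norm_num))
    exact_mod_cast this
  have hs : IsUnit ((sg a b : ℤ) : ZMod (3 ^ K)) := by
    rcases sg_cases a b with h | h <;> rw [h] <;> simp
  exact (hs.mul h13).mul (h49.pow _)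

theorem full_aux {m K : ℕ} {i j : Fin m} (hij : i ≠ j) {U : Set (Fin m × ZMod (3 ^ K))}
    (hU : ∀ v ∈ U, ∀ w, (GV m K).Adj v w → (w.1 = i ∨ w.1 = j) → w ∈ U) {x : ZMod (3 ^ K)}
    (hx : (i, x) ∈ U) : ∀ y, (i, y) ∈ U ∧ (j, y) ∈ U := by
  have s1 : ∀ x c, (c = 1 ∨ c = 14) → (i, x) ∈ U → (j, x + (dl i j c : ZMod (3 ^ K))) ∈ U := by
    intro x c hc hx
    exact hU _ hx _ ⟨hij, c, hc, rfl⟩ (Or.inr rfl)
  have s2 : ∀ x c, (c = 1 ∨ c = 14) → (j, x) ∈ U → (i, x + (dl j i c : ZMod (3 ^ K))) ∈ U := by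
    intro x c hc hx
    exact hU _ hx _ ⟨hij.symm, c, hc, rfl⟩ (Or.inl rfl)
  have s3 : ∀ x, (i, x) ∈ U → (i, x + ((sg i j * 13 * 49 ^ idx i j : ℤ) : ZMod (3 ^ K))) ∈ U := by
    intro x hx
    have h := s2 _ 1 (Or.inl rfl) (s1 x 14 (Or.inr rfl) hx)
    have he : x + (dl i j 14 : ZMod (3 ^ K)) + (dl j i 1 : ZMod (3 ^ K)) =
        x + ((sg i j * 13 * 49 ^ idx i j : ℤ) : ZMod (3 ^ K)) := by
      rw [dl_symm hij]
      unfold dl
      push_cast
      ring
    rwa [he] at h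
  set u : ZMod (3 ^ K) := ((sg i j * 13 * 49 ^ idx i j : ℤ) : ZMod (3 ^ K)) with hu
  have s4 : ∀ n : ℕ, (i, x + n * u) ∈ U := by
    intro n
    induction n with
    | zero => simpa using hx
    | succ n ih =>
      have := s3 _ ih
      have he : x + (n : ZMod (3 ^ K)) * u + u = x + ((n + 1 : ℕ) : ZMod (3 ^ K)) * u := by
        push_cast; ring
      rwa [he] at this
  have : NeZero (3 ^ K) := ⟨by positivity⟩
  have s5 : ∀ y, (i, y) ∈ U := by
    intro y
    obtain ⟨w, hw⟩ := (unit_dl (K := K) i j)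
    have hwu : (w : ZMod (3 ^ K)) = u := hw
    have h := s4 ((y - x) * (↑w⁻¹ : ZMod (3 ^ K))).val
    rw [ZMod.natCast_zmod_val, ← hwu, mul_assoc, Units.inv_mul, mul_one] at h
    simpa using h
  intro y
  refine ⟨s5 y, ?_⟩
  have := s1 (y - (dl i j 1 : ZMod (3 ^ K))) 1 (Or.inl rfl) (s5 _)
  simpa using this

theorem frozen_step {m K : ℕ} (σ : Equiv.Perm (Fin m)) (c' : (GV m K).Coloring (Fin m))
    (h : KempeStep (permCol σ (gcol m K)) c') : ∃ σ', c' = permCol σ' (gcol m K) := by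
  obtain ⟨a, b, hab, U, hU, hs⟩ := h.closed
  rcases U.eq_empty_or_nonempty with rfl | ⟨v, hv⟩
  · refine ⟨σ, ?_⟩
    apply DFunLike.ext
    intro v
    exact hs.2 v (by simp)
  · refine ⟨Equiv.swap a b * σ, ?_⟩
    set i := σ.symm a with hi
    set j := σ.symm b with hj
    have hij : i ≠ j := fun h => hab (σ.symm.injective h)
    have hcol : ∀ w : Fin m × ZMod (3 ^ K), (permCol σ (gcol m K) w = a ∨
        permCol σ (gcol m K) w = b) ↔ (w.1 = i ∨ w.1 = j) := by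
      intro w
      rw [permCol_apply, gcol_apply, hi, hj, Equiv.eq_symm_apply, Equiv.eq_symm_apply]
    have hU' : ∀ v ∈ U, ∀ w, (GV m K).Adj v w → (w.1 = i ∨ w.1 = j) → w ∈ U := by
      intro v hv w hvw hw
      exact hU.2 v hv w hvw ((hcol w).2 hw)
    have hfull : ∀ w : Fin m × ZMod (3 ^ K), (w.1 = i ∨ w.1 = j) → w ∈ U := by
      obtain ⟨k, x⟩ := v
      have hk := (hcol _).1 (hU.1 _ hv)
      simp only at hk
      rintro ⟨l, y⟩ hl
      simp only at hl
      rcases hk with rfl | rfl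
      · have := full_aux hij hU' hv y
        rcases hl with rfl | rfl
        · exact this.1
        · exact this.2
      · have := full_aux hij.symm (fun v hv w hvw hw => hU' v hv w hvw hw.symm) hv y
        rcases hl with rfl | rfl
        · exact this.2
        · exact this.1
    apply DFunLike.ext
    intro w
    by_cases hw : w ∈ U
    · rw [hs.1 w hw]; rfl
    · have hw' : ¬ (permCol σ (gcol m K) w = a ∨ permCol σ (gcol m K) w = b) :=
        fun h => hw (hfull w ((hcol w).1 h))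
      rw [hs.2 w hw]
      push Not at hw'
      exact (Equiv.swap_apply_of_ne_of_ne hw'.1 hw'.2).symm

theorem frozen {m K : ℕ} (c' : (GV m K).Coloring (Fin m))
    (h : Relation.ReflTransGen KempeStep (gcol m K) c') : ∃ σ, c' = permCol σ (gcol m K) := by
  induction h with
  | refl => exact ⟨1, by apply DFunLike.ext; intro v; rfl⟩
  | tail _ h ih =>
    obtain ⟨σ, rfl⟩ := ih
    exact frozen_step σ _ h

theorem main (m : ℕ) (hm : 3 ≤ m) : ∃ (V : Type) (_ : Fintype V) (G : SimpleGraph V),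
    G.Colorable 3 ∧
    (∀ v0 v1 v2 v3 : V, G.Adj v0 v1 → G.Adj v1 v2 → G.Adj v2 v3 → G.Adj v3 v0 → v0 ≠ v2 →
      v1 ≠ v3 → False) ∧
    ∃ c c' : G.Coloring (Fin m), ¬ Relation.ReflTransGen KempeStep c c' := by
  obtain ⟨K, hK⟩ : ∃ K : ℕ, 56 * 49 ^ Fintype.card (Sym2 (Fin m)) < 3 ^ K :=
    pow_unbounded_of_one_lt _ (by norm_num)
  have hK1 : 1 ≤ K := by
    by_contra h
    have : K = 0 := by omega
    subst this
    have : 0 < 49 ^ Fintype.card (Sym2 (Fin m)) := by positivity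
    omega
  have : NeZero (3 ^ K) := ⟨by positivity⟩
  refine ⟨Fin m × ZMod (3 ^ K), inferInstance, GV m K, ⟨fcol m K hK1⟩, ?_, gcol m K, ?_⟩
  · intro v0 v1 v2 v3 h01 h12 h23 h30 h02 h13
    exact no_cycle hK h01 h12 h23 h30 h02 h13
  · let f' : (GV m K).Coloring (Fin m) := SimpleGraph.Coloring.mk
      (fun v => Fin.castLE hm (fcol m K hK1 v))
      (fun h he => (fcol m K hK1).valid h (Fin.castLE_injective hm he))
    refine ⟨f', fun h => ?_⟩
    obtain ⟨σ, hσ⟩ := frozen f' h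
    have h0 : f' (⟨0, by omega⟩, 0) = f' (⟨0, by omega⟩, 1) := by
      rw [hσ]; rfl
    have h1 : fcol m K hK1 (⟨0, by omega⟩, 0) = fcol m K hK1 (⟨0, by omega⟩, 1) :=
      Fin.castLE_injective hm h0
    rw [fcol_apply, fcol_apply, map_zero, map_one] at h1
    exact absurd h1 (by decide)

end Pool.Agent.R57.Volt
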